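import Mathlib
import Pool.Agent.Work.MP_9371de_an.Defs
import Pool.Agent.Work.MP_9371de_an.Claims

/-! Bundle of small proof modules (one section per former module). -/

section

/-! Small common lemmas about gradients on `E d`. -/

open MeasureTheory Set Filter Topology
open scoped Real InnerProductSpace

namespace Pool.Agent.Work.MP_9371de_an

variable {d : ℕ}

theorem norm_gradient_eq (f : E d → ℝ) (x : E d) : ‖gradient f x‖ = ‖fderiv ℝ f x‖ := by
  unfold gradient; exact LinearIsometryEquiv.norm_map _ _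

theorem inner_gradient (f : E d → ℝ) (x v : E d) : ⟪gradient f x, v⟫_ℝ = fderiv ℝ f x v := by
  unfold gradient; rw [InnerProductSpace.toDual_symm_apply]

theorem continuous_gradient {f : E d → ℝ} (hf : ContDiff ℝ 1 f) : Continuous (gradient f) := by
  have h : Continuous (fderiv ℝ f) := hf.continuous_fderiv (by norm_num)
  exact (InnerProductSpace.toDual ℝ (E d)).symm.continuous.comp h

theorem measurable_gradient (f : E d → ℝ) : Measurable (gradient f) :=
  (InnerProductSpace.toDual ℝ (E d)).symm.continuous.measurable.comp (measurable_fderiv ℝ f)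

theorem ContDiff.hasGradientAt {f : E d → ℝ} (hf : ContDiff ℝ 1 f) (x : E d) :
    HasGradientAt f (gradient f x) x :=
  (hf.differentiable (by norm_num)).differentiableAt.hasGradientAt

/-- A function with a continuous gradient is `C¹`. -/
theorem contDiff_of_hasGradientAt {f : E d → ℝ} {g : E d → E d}
    (h : ∀ x, HasGradientAt f (g x) x) (hg : Continuous g) : ContDiff ℝ 1 f := by
  rw [contDiff_one_iff_fderiv]
  refine ⟨fun x => (h x).differentiableAt, ?_⟩
  have : fderiv ℝ f = fun x => InnerProductSpace.toDual ℝ (E d) (g x) := by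
    funext x; exact (h x).hasFDerivAt.fderiv
  rw [this]
  exact (InnerProductSpace.toDual ℝ (E d)).continuous.comp hg

theorem gradient_eq {f : E d → ℝ} {g : E d → E d} (h : ∀ x, HasGradientAt f (g x) x) :
    gradient f = g := by
  funext x; exact (h x).gradient

/-- Product rule. -/
theorem HasGradientAt.mul' {f g : E d → ℝ} {f' g' : E d} {x : E d} (hf : HasGradientAt f f' x)
    (hg : HasGradientAt g g' x) :
    HasGradientAt (fun y => f y * g y) (g x • f' + f x • g') x := by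
  rw [hasGradientAt_iff_hasFDerivAt] at *
  have := hf.mul hg
  refine this.congr_fderiv ?_
  ext v
  simp [inner_add_left, real_inner_smul_left, add_comm]

/-- Chain rule with a real function. -/
theorem HasGradientAt.comp' {f : E d → ℝ} {f' : E d} {x : E d} {φ : ℝ → ℝ} {φ' : ℝ}
    (hφ : HasDerivAt φ φ' (f x)) (hf : HasGradientAt f f' x) :
    HasGradientAt (fun y => φ (f y)) (φ' • f') x := by
  rw [hasGradientAt_iff_hasFDerivAt] at *
  have := hφ.comp_hasFDerivAt x hf
  refine this.congr_fderiv ?_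
  ext v
  simp [real_inner_smul_left]

theorem HasGradientAt.add' {f g : E d → ℝ} {f' g' : E d} {x : E d} (hf : HasGradientAt f f' x)
    (hg : HasGradientAt g g' x) : HasGradientAt (fun y => f y + g y) (f' + g') x := by
  rw [hasGradientAt_iff_hasFDerivAt] at *
  have := hf.add hg
  refine this.congr_fderiv ?_
  ext v
  simp [inner_add_left]

end Pool.Agent.Work.MP_9371de_an

end

section

/-!
Auxiliary lemmas for the items D9a, D9b, ENTa of MP_9371de_an: Cauchy-Schwarz, continuity of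
integrals depending on a parameter, the function `Phi`.
-/

open MeasureTheory Set Filter Topology
open scoped Real InnerProductSpace

namespace Pool.Agent.Work.MP_9371de_an

namespace AuxCS

/-- Cauchy-Schwarz for integrals. -/
theorem cs {α : Type*} [MeasurableSpace α] {μ : Measure α} {f g : α → ℝ}
    (hf : Integrable (fun x => f x ^ 2) μ) (hg : Integrable (fun x => g x ^ 2) μ)
    (hfg : Integrable (fun x => f x * g x) μ) :
    (∫ x, f x * g x ∂μ) ^ 2 ≤ (∫ x, f x ^ 2 ∂μ) * ∫ x, g x ^ 2 ∂μ := by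
  have key : ∀ s : ℝ, 0 ≤ (∫ x, g x ^ 2 ∂μ) * (s * s) + (-2 * ∫ x, f x * g x ∂μ) * s +
      ∫ x, f x ^ 2 ∂μ := by
    intro s
    have h1 : 0 ≤ ∫ x, (f x - s * g x) ^ 2 ∂μ := integral_nonneg fun x => sq_nonneg _
    have i1 : Integrable (fun x => 2 * s * (f x * g x)) μ := hfg.const_mul _
    have i2 : Integrable (fun x => s ^ 2 * g x ^ 2) μ := hg.const_mul _
    have i3 : Integrable (fun x => f x ^ 2 - 2 * s * (f x * g x)) μ := hf.sub i1
    have h2 : ∫ x, (f x - s * g x) ^ 2 ∂μ = ∫ x, f x ^ 2 ∂μ - 2 * s * ∫ x, f x * g x ∂μ +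
        s ^ 2 * ∫ x, g x ^ 2 ∂μ := by
      have e1 : (fun x => (f x - s * g x) ^ 2) =
          fun x => (f x ^ 2 - 2 * s * (f x * g x)) + s ^ 2 * g x ^ 2 := by
        ext x; ring
      rw [e1, integral_add i3 i2, integral_sub hf i1, integral_const_mul, integral_const_mul]
    rw [h2] at h1
    nlinarith [h1]
  have := discrim_le_zero key
  unfold discrim at this
  nlinarith [this]

/-- Continuity of an integral depending on time, on `(0,∞)`. -/
theorem contOn_integral {d : ℕ} {G : Type*} [NormedAddCommGroup G] [NormedSpace ℝ G]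
    {F : ℝ → E d → G} (hm : ∀ t, 0 < t → AEStronglyMeasurable (F t))
    (hb : ∀ a T : ℝ, 0 < a → ∃ bound : E d → ℝ, Integrable bound ∧
      ∀ t, a ≤ t → t ≤ T → ∀ x, ‖F t x‖ ≤ bound x)
    (hc : ∀ x, ContinuousOn (fun t => F t x) (Ioi 0)) :
    ContinuousOn (fun t => ∫ x, F t x) (Ioi 0) := by
  intro t₀ ht₀
  have ht₀' : 0 < t₀ := ht₀
  obtain ⟨bound, hbi, hbb⟩ := hb (t₀ / 2) (t₀ + 1) (by positivity)
  have h1 : ContinuousOn (fun t => ∫ x, F t x) (Ioo (t₀ / 2) (t₀ + 1)) := by
    apply continuousOn_of_dominated (bound := bound)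
    · intro t ht
      exact hm t (by have := ht.1; linarith)
    · intro t ht
      exact Eventually.of_forall fun x => hbb t ht.1.le ht.2.le x
    · exact hbi
    · refine Eventually.of_forall fun x => (hc x).mono fun t ht => ?_
      have := ht.1
      show 0 < t
      linarith
  exact ((h1.continuousAt (Ioo_mem_nhds (by linarith) (by linarith))).continuousWithinAt)

theorem Phi_ge {z : ℝ} (hz : 0 ≤ z) : z ^ 2 / (1 + z) ≤ 2 * Phi z := by
  have hw : 0 < 1 + z := by linarith
  obtain ⟨s, hs⟩ : ∃ s : ℝ, s = z / (1 + z) := ⟨_, rfl⟩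
  have hs0 : 0 ≤ s := by rw [hs]; positivity
  have hs1 : s < 1 := by rw [hs, div_lt_one hw]; linarith
  have h1 := Real.hasSum_pow_div_log_of_abs_lt_one (x := s) (by rw [abs_of_nonneg hs0]; exact hs1)
  have h2 : s + s ^ 2 / 2 ≤ -Real.log (1 - s) := by
    have := sum_le_hasSum (Finset.range 2) (fun n _ => by positivity) h1
    simpa [Finset.sum_range_succ, show ((1 : ℝ) + 1) = 2 by norm_num] using this
  have h3 : 1 - s = (1 + z)⁻¹ := by rw [hs]; field_simp; ring
  rw [h3, Real.log_inv, neg_neg] at h2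
  unfold Phi
  have h4 : (1 + z) * (s + s ^ 2 / 2) ≤ (1 + z) * Real.log (1 + z) :=
    mul_le_mul_of_nonneg_left h2 hw.le
  have h5 : (1 + z) * (s + s ^ 2 / 2) = z + z ^ 2 / (1 + z) / 2 := by
    rw [hs]; field_simp
  linarith

theorem Phi_nonneg {z : ℝ} (hz : 0 ≤ z) : 0 ≤ Phi z := by
  have h := Phi_ge hz
  have : 0 ≤ z ^ 2 / (1 + z) := by positivity
  linarith

theorem Phi_le {z : ℝ} (hz : 0 ≤ z) : Phi z ≤ z ^ 2 := by
  unfold Phi
  have h1 : Real.log (1 + z) ≤ z := by
    have := Real.log_le_sub_one_of_pos (show 0 < 1 + z by linarith)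
    linarith
  nlinarith

theorem continuousOn_Phi : ContinuousOn Phi (Ici 0) := by
  unfold Phi
  apply ContinuousOn.sub _ continuousOn_id
  apply ContinuousOn.mul (by fun_prop)
  apply ContinuousOn.log (by fun_prop)
  intro z hz
  have : (0 : ℝ) ≤ z := hz
  linarith

end AuxCS

end Pool.Agent.Work.MP_9371de_an

end

section

/-!
# A beta integral bound
-/

open MeasureTheory Set Filter Topology intervalIntegral

namespace Pool.Agent.Work.MP_9371de_an

theorem itemBeta : ClaimBeta := by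
  intro a t hat
  set L : ℝ := (t - a) / 2 with hL
  set m : ℝ := (a + t) / 2 with hm
  have hL0 : 0 < L := by rw [hL]; linarith
  have ham : a ≤ m := by rw [hm]; linarith
  have hmt : m ≤ t := by rw [hm]; linarith
  have hmL : m = L + a := by rw [hm, hL]; ring
  set f : ℝ → ℝ := fun s => (t - s) ^ (-(1 / 2 : ℝ)) * (s - a) ^ (-(1 / 2 : ℝ)) with hf
  have hsym : ∀ s, f (a + t - s) = f s := by
    intro s
    simp only [hf]
    rw [mul_comm]
    congr 2 <;> ring
  have hI0 : IntervalIntegrable (fun u : ℝ => u ^ (-(1 / 2 : ℝ))) volume 0 L :=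
    intervalIntegral.intervalIntegrable_rpow' (by norm_num)
  have hI1 : IntervalIntegrable (fun s : ℝ => (s - a) ^ (-(1 / 2 : ℝ))) volume a m := by
    have h := hI0.comp_sub_right a
    rw [zero_add] at h
    rw [hmL]
    exact h
  have hI2 : IntervalIntegrable (fun s : ℝ => L ^ (-(1 / 2 : ℝ)) * (s - a) ^ (-(1 / 2 : ℝ)))
      volume a m := hI1.const_mul _
  have hle : ∀ s ∈ Ioc a m, f s ≤ L ^ (-(1 / 2 : ℝ)) * (s - a) ^ (-(1 / 2 : ℝ)) := by
    intro s hs
    have h1 : L ≤ t - s := by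
      have := hs.2
      rw [hmL] at this
      have h2 : t = a + 2 * L := by rw [hL]; ring
      linarith
    have h3 : (t - s) ^ (-(1 / 2 : ℝ)) ≤ L ^ (-(1 / 2 : ℝ)) :=
      Real.rpow_le_rpow_of_nonpos hL0 h1 (by norm_num)
    exact mul_le_mul_of_nonneg_right h3 (Real.rpow_nonneg (by linarith [hs.1]) _)
  have hnn : ∀ s ∈ Ioc a m, 0 ≤ f s := by
    intro s hs
    exact mul_nonneg (Real.rpow_nonneg (by linarith [hs.2, hmt]) _)
      (Real.rpow_nonneg (by linarith [hs.1]) _)
  have hmeas : Measurable f := by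
    simp only [hf]
    fun_prop
  have hleft : IntervalIntegrable f volume a m := by
    refine hI2.mono_fun' hmeas.aestronglyMeasurable ?_
    rw [uIoc_of_le ham]
    refine (ae_restrict_iff' measurableSet_Ioc).2 (Filter.Eventually.of_forall fun s hs => ?_)
    change ‖f s‖ ≤ _
    rw [Real.norm_eq_abs, abs_of_nonneg (hnn s hs)]
    exact hle s hs
  have hright : IntervalIntegrable f volume m t := by
    have h := hleft.comp_sub_left (a + t)
    have e1 : a + t - a = t := by ring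
    have e2 : a + t - m = m := by rw [hm]; ring
    rw [e1, e2] at h
    simp only [hsym] at h
    exact h.symm
  have hint : ∫ s in a..m, f s ≤ 2 := by
    have h1 : ∫ s in a..m, f s ≤ ∫ s in a..m, L ^ (-(1 / 2 : ℝ)) * (s - a) ^ (-(1 / 2 : ℝ)) := by
      refine intervalIntegral.integral_mono_on_of_le_Ioo ham hleft hI2 fun s hs => ?_
      exact hle s ⟨hs.1, hs.2.le⟩
    refine h1.trans ?_
    rw [intervalIntegral.integral_const_mul,
      intervalIntegral.integral_comp_sub_right (fun u : ℝ => u ^ (-(1 / 2 : ℝ))) a, sub_self,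
      integral_rpow (Or.inl (by norm_num))]
    have e : m - a = L := by rw [hmL]; ring
    rw [e, show (-(1 / 2 : ℝ)) + 1 = 1 / 2 by norm_num,
      Real.zero_rpow (by norm_num), sub_zero]
    have : L ^ (-(1 / 2 : ℝ)) * (L ^ (1 / 2 : ℝ) / (1 / 2)) = 2 := by
      rw [← mul_div_assoc, ← Real.rpow_add hL0]
      norm_num
    exact this.le
  refine ⟨hleft.trans hright, ?_⟩
  rw [← intervalIntegral.integral_add_adjacent_intervals hleft hright]
  have h2 : ∫ s in m..t, f s = ∫ s in a..m, f s := by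
    have h := intervalIntegral.integral_comp_sub_left f (a + t) (a := m) (b := t)
    have e1 : a + t - t = a := by ring
    have e2 : a + t - m = m := by rw [hm]; ring
    rw [e1, e2] at h
    rw [← h]
    exact intervalIntegral.integral_congr fun s _ => (hsym s).symm
  rw [h2]
  linarith

end Pool.Agent.Work.MP_9371de_an

end

section

/-!
Item CC: the current.
-/

open MeasureTheory Set Filter Topology
open scoped Real InnerProductSpace

namespace Pool.Agent.Work.MP_9371de_an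

theorem CC_bound {d : ℕ} {W : E d → ℝ} {A K m : ℝ} {ρ : ℝ → E d → ℝ} (hG : Good d W A K m ρ)
    (a T : ℝ) (ha : 0 < a) : ∃ B, 0 ≤ B ∧ ∀ t, a ≤ t → t ≤ T → ∀ x,
    ρ t x ≤ B ∧ ‖gradient (ρ t) x‖ ≤ B ∧ ‖drift W (ρ t) x‖ ≤ B := by
  obtain ⟨h, hw, hD, hGD⟩ := hG.weight 1 one_pos le_rfl
  obtain ⟨B0, hB0⟩ := hw.bdd
  obtain ⟨C1, hC1⟩ := hD a T ha
  obtain ⟨C2, hC2⟩ := hGD a T ha
  have hB0' : 0 < B0 := (hw.pos 0).trans_le (hB0 0)
  have hK := hG.pot.K_pos
  have k1 : ∀ t, a ≤ t → t ≤ T → ∀ x, ρ t x ≤ |C1| * B0 := by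
    intro t h1 h2 x
    refine (hC1 t h1 h2 x).trans ?_
    exact mul_le_mul (le_abs_self _) (hB0 x) (hw.pos x).le (abs_nonneg _)
  have k2 : ∀ t, a ≤ t → t ≤ T → ∀ x, ‖gradient (ρ t) x‖ ≤ |C2| * B0 := by
    intro t h1 h2 x
    refine (hC2 t h1 h2 x).trans ?_
    exact mul_le_mul (le_abs_self _) (hB0 x) (hw.pos x).le (abs_nonneg _)
  have p1 : 0 ≤ |C1| * B0 := by positivity
  have p2 : 0 ≤ |C2| * B0 := by positivity
  have p3 : 0 ≤ K * (|C1| * B0) := by positivity
  refine ⟨|C1| * B0 + |C2| * B0 + K * (|C1| * B0), by positivity, ?_⟩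
  intro t h1 h2 x
  have h3 := k1 t h1 h2 x
  have h4 := k2 t h1 h2 x
  have h5 := hG.bsup t (ha.trans_le h1) _ (k1 t h1 h2) x
  exact ⟨by linarith, by linarith, by linarith⟩

theorem itemCC : ClaimCC := by
  intro d A K m W ρ hG
  refine ⟨?_, ?_, ?_, ?_⟩
  · intro t ht
    have h1 := continuous_gradient (hG.c1 t ht)
    have h2 : Continuous (ρ t) := (hG.c1 t ht).continuous
    exact h1.add (h2.smul (hG.bxcont t ht))
  · intro x
    exact (hG.gcont x).add ((hG.tcont x).smul (hG.btcont x))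
  · exact CC_bound hG
  · intro κ h _ _ hw hD hGD a T ha
    obtain ⟨B, hB0, hB⟩ := CC_bound hG a T ha
    obtain ⟨C1, hC1⟩ := hD a T ha
    obtain ⟨C2, hC2⟩ := hGD a T ha
    refine ⟨|C1| + |C2| + |C1| * B, by positivity, ?_⟩
    intro t h1 h2 x
    have hx := (hw.pos x).le
    have k1 : ρ t x ≤ |C1| * h x :=
      (hC1 t h1 h2 x).trans (mul_le_mul_of_nonneg_right (le_abs_self _) hx)
    have k2 : ‖gradient (ρ t) x‖ ≤ |C2| * h x :=
      (hC2 t h1 h2 x).trans (mul_le_mul_of_nonneg_right (le_abs_self _) hx)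
    have k3 := (hB t h1 h2 x).2.2
    have p1 : 0 ≤ |C1| * h x := by positivity
    have p2 : 0 ≤ |C2| * h x := by positivity
    have p3 : 0 ≤ |C1| * B * h x := by positivity
    have k4 : ‖flux W (ρ t) x‖ ≤ |C1| * B * h x := by
      unfold flux
      rw [norm_smul, Real.norm_eq_abs, abs_of_nonneg (hG.nonneg t x)]
      calc ρ t x * ‖drift W (ρ t) x‖ ≤ (|C1| * h x) * B :=
            mul_le_mul k1 k3 (norm_nonneg _) p1
        _ = |C1| * B * h x := by ring
    have e : (|C1| + |C2| + |C1| * B) * h x = |C1| * h x + |C2| * h x + |C1| * B * h x := by ring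
    rw [e]
    refine ⟨by linarith, by linarith, ?_⟩
    calc ‖cur W (ρ t) x‖ ≤ ‖gradient (ρ t) x‖ + ‖flux W (ρ t) x‖ := norm_add_le _ _
      _ ≤ |C1| * h x + |C2| * h x + |C1| * B * h x := by linarith

end Pool.Agent.Work.MP_9371de_an

end

section

/-!
[CL] A mild solution has a clean version.
-/

open MeasureTheory Set Filter Topology
open scoped Real InnerProductSpace

namespace Pool.Agent.Work.MP_9371de_an

/-! ### Congruence lemmas -/

theorem CL_V {d : ℕ} (W : E d → ℝ) {u v : E d → ℝ} (h : u =ᵐ[volume] v) : V W u = V W v := by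
  funext x
  refine integral_congr_ae ?_
  filter_upwards [h] with y hy
  rw [hy]

theorem CL_drift {d : ℕ} (W : E d → ℝ) {u v : E d → ℝ} (h : u =ᵐ[volume] v) :
    drift W u = drift W v := by
  funext x; simp only [drift, CL_V W h]

theorem CL_P {d : ℕ} (t : ℝ) {u v : E d → ℝ} (h : u =ᵐ[volume] v) : P t u = P t v := by
  funext x
  refine integral_congr_ae ?_
  filter_upwards [h] with y hy
  rw [hy]

theorem CL_Q {d : ℕ} (t : ℝ) {F G : E d → E d} (h : F =ᵐ[volume] G) : Q t F = Q t G := by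
  funext x
  refine integral_congr_ae ?_
  filter_upwards [h] with y hy
  rw [hy]

theorem CL_flux {d : ℕ} (W : E d → ℝ) {u v : E d → ℝ} (h : u =ᵐ[volume] v) :
    flux W u =ᵐ[volume] flux W v := by
  filter_upwards [h] with y hy
  simp only [flux, hy, CL_drift W h]

/-! ### Clipping -/

theorem CL_clip {d : ℕ} (ρ : ℝ → E d → ℝ) (hm : Measurable (fun p : ℝ × E d => ρ p.1 p.2))
    (h0 : ∀ t, 0 ≤ t → ∀ᵐ x, 0 ≤ ρ t x)
    (hb : ∀ T : ℝ, ∃ M : ℝ, ∀ t, 0 ≤ t → t ≤ T → ∀ᵐ x, ρ t x ≤ M) :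
    ∃ c : ℝ → E d → ℝ, Measurable (fun p : ℝ × E d => c p.1 p.2) ∧ (∀ t x, 0 ≤ c t x) ∧
      (∀ t, t < 0 → ∀ x, c t x = 0) ∧
      (∀ T : ℝ, ∃ M : ℝ, 0 ≤ M ∧ ∀ t, t ≤ T → ∀ x, c t x ≤ M) ∧
      ∀ t, 0 ≤ t → c t =ᵐ[volume] ρ t := by
  choose M hM using fun k : ℕ => hb k
  set Mf : ℝ → ℝ := fun t => |M ⌈t⌉₊| with hMf
  have hMfm : Measurable Mf := by
    have : Measurable (fun k : ℕ => |M k|) := measurable_of_countable _
    exact this.comp Nat.measurable_ceil
  refine ⟨fun t x => if 0 ≤ t then max 0 (min (Mf t) (ρ t x)) else 0, ?_, ?_, ?_, ?_, ?_⟩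
  · refine Measurable.ite (measurableSet_le measurable_const measurable_fst) ?_ measurable_const
    exact measurable_const.max ((hMfm.comp measurable_fst).min hm)
  · intro t x
    dsimp only
    split_ifs
    · exact le_max_left _ _
    · exact le_rfl
  · intro t ht x
    simp [not_le.2 ht]
  · intro T
    refine ⟨∑ k ∈ Finset.range (⌈T⌉₊ + 1), |M k|, Finset.sum_nonneg fun _ _ => abs_nonneg _,
      fun t ht x => ?_⟩
    have h1 : Mf t ≤ ∑ k ∈ Finset.range (⌈T⌉₊ + 1), |M k| := by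
      refine Finset.single_le_sum (f := fun k => |M k|) (fun _ _ => abs_nonneg _) ?_
      rw [Finset.mem_range]
      exact Nat.lt_succ_of_le (Nat.ceil_mono ht)
    have h2 : 0 ≤ ∑ k ∈ Finset.range (⌈T⌉₊ + 1), |M k| :=
      Finset.sum_nonneg fun _ _ => abs_nonneg _
    dsimp only
    split_ifs
    · exact max_le h2 ((min_le_left _ _).trans h1)
    · exact h2
  · intro t ht
    filter_upwards [h0 t ht, hM ⌈t⌉₊ t ht (Nat.le_ceil t)] with x hx0 hx1
    simp only [ht, if_true]
    rw [min_eq_right (hx1.trans (le_abs_self _)), max_eq_right hx0]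

/-- A clipped version of a mild solution. -/
structure CLPre (d : ℕ) (W : E d → ℝ) (c : ℝ → E d → ℝ) : Prop where
  meas : Measurable (fun p : ℝ × E d => c p.1 p.2)
  nonneg : ∀ t x, 0 ≤ c t x
  neg : ∀ t, t < 0 → ∀ x, c t x = 0
  bdd : ∀ T : ℝ, ∃ M : ℝ, 0 ≤ M ∧ ∀ t, t ≤ T → ∀ x, c t x ≤ M
  int : ∀ t, Integrable (c t)
  cont : ∀ t, 0 ≤ t → Tendsto (fun s => ∫ x, |c s x - c t x|) (𝓝[Ici 0] t) (𝓝 0)
  duh : ∀ t, 0 < t → ∀ᵐ x, c t x = P t (c 0) x + ∫ r in (0 : ℝ)..t, Q (t - r) (flux W (c r)) x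

theorem CL_pre (hH1 : ClaimH1) {d : ℕ} {W ρ0 : E d → ℝ} {ρ : ℝ → E d → ℝ}
    (hs : IsSolution d 1 W ρ0 ρ) :
    ∃ c : ℝ → E d → ℝ, CLPre d W c ∧ ∀ t, 0 ≤ t → c t =ᵐ[volume] ρ t := by
  obtain ⟨c, hm, h0, hneg, hb, hae⟩ := CL_clip ρ hs.meas hs.nonneg hs.bdd
  refine ⟨c, ⟨hm, h0, hneg, hb, ?_, ?_, ?_⟩, hae⟩
  · intro t
    rcases lt_or_ge t 0 with ht | ht
    · have : c t = fun _ => 0 := funext (hneg t ht)
      rw [this]; exact integrable_zero _ _ _
    · exact (hs.int t ht).congr (hae t ht).symm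
  · intro t ht
    refine (hs.cont t ht).congr' ?_
    filter_upwards [self_mem_nhdsWithin] with s hs'
    refine integral_congr_ae ?_
    filter_upwards [hae t ht, hae s hs'] with x hx1 hx2
    rw [hx1, hx2]
  · intro t ht
    filter_upwards [hs.duhamel t ht, hae t ht.le] with x hx1 hx2
    rw [hx2, hx1, one_mul]
    congr 1
    · refine integral_congr_ae ?_
      filter_upwards [hae 0 le_rfl, hs.init] with y hy1 hy2
      rw [hy1, hy2]
    · refine intervalIntegral.integral_congr_ae ?_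
      have h1 : ∀ᵐ r : ℝ, r ≠ t := by
        simp [ae_iff]
      filter_upwards [h1] with r hr hr'
      rw [uIoc_of_le ht.le] at hr'
      have hrt : 0 < t - r := by
        rcases lt_or_eq_of_le hr'.2 with h | h
        · linarith
        · exact absurd h hr
      refine integral_congr_ae ?_
      filter_upwards [hae r hr'.1.le] with y hy
      rw [one_mul, ((hH1 d (t - r) hrt).2.2.2.2.2.2.1 (x - y)).gradient]
      simp only [flux, hy]
      rw [CL_drift W (hae r hr'.1.le)]
      rfl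

/-! ### The flux -/

theorem CL_Vcont (hV1 : ClaimV1) {d : ℕ} {A K : ℝ} {W : E d → ℝ} (hP : Pot d A K W)
    {c : ℝ → E d → ℝ} (hc : CLPre d W c) :
    Continuous (Function.uncurry fun (t : ℝ) (x : E d) => V W (c (max t 0)) x) := by
  rw [continuous_iff_continuousAt]
  rintro ⟨s, y⟩
  have hs0 : 0 ≤ max s 0 := le_max_right _ _
  -- the difference in time
  have hdiff : ∀ t x, |V W (c (max t 0)) x - V W (c (max s 0)) x| ≤
      A * ∫ z, |c (max t 0) z - c (max s 0) z| := by
    intro t x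
    obtain ⟨M1, hM1, hb1⟩ := hc.bdd (max t 0)
    obtain ⟨M2, hM2, hb2⟩ := hc.bdd (max s 0)
    have hi : Integrable (fun z => c (max t 0) z - c (max s 0) z) :=
      (hc.int _).sub (hc.int _)
    have hbd : ∀ᵐ z, |c (max t 0) z - c (max s 0) z| ≤ M1 + M2 := by
      refine Eventually.of_forall fun z => ?_
      rw [abs_le]
      constructor
      · linarith [hb2 _ le_rfl z, hc.nonneg (max t 0) z]
      · linarith [hb1 _ le_rfl z, hc.nonneg (max s 0) z]
    have h1 := (hV1 d A K W _ (M1 + M2) hP hi hbd).2.2.1 x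
    have hWi : ∀ u : E d → ℝ, Integrable u → Integrable (fun z => W (x - z) * u z) := by
      intro u hu
      refine hu.bdd_mul (c := A) ?_ ?_
      · exact (hP.meas.comp (measurable_const.sub measurable_id)).aestronglyMeasurable
      · exact Eventually.of_forall fun z => by rw [Real.norm_eq_abs]; exact hP.bdd _
    have h2 : V W (fun z => c (max t 0) z - c (max s 0) z) x =
        V W (c (max t 0)) x - V W (c (max s 0)) x := by
      simp only [V]
      rw [← integral_sub (hWi _ (hc.int _)) (hWi _ (hc.int _))]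
      refine integral_congr_ae (Eventually.of_forall fun z => ?_)
      simp only; ring
    rw [← h2]
    exact h1
  have hlim1 : Tendsto (fun p : ℝ × E d => A * ∫ z, |c (max p.1 0) z - c (max s 0) z|)
      (𝓝 (s, y)) (𝓝 0) := by
    have h1 : Tendsto (fun p : ℝ × E d => max p.1 0) (𝓝 (s, y)) (𝓝[Ici 0] (max s 0)) := by
      refine tendsto_nhdsWithin_iff.2 ⟨?_, Eventually.of_forall fun p => mem_Ici.2 (le_max_right _ _)⟩
      have : Continuous (fun p : ℝ × E d => max p.1 0) := by fun_prop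
      exact this.tendsto (s, y)
    have h2 := ((hc.cont _ hs0).comp h1).const_mul A
    simpa using h2
  have hVc : Continuous (V W (c (max s 0))) := by
    obtain ⟨M2, hM2, hb2⟩ := hc.bdd (max s 0)
    refine (hV1 d A K W _ M2 hP (hc.int _) (Eventually.of_forall fun z => ?_)).2.2.2.1
    rw [abs_of_nonneg (hc.nonneg _ _)]
    exact hb2 _ le_rfl z
  have hlim2 : Tendsto (fun p : ℝ × E d => |V W (c (max s 0)) p.2 - V W (c (max s 0)) y|)
      (𝓝 (s, y)) (𝓝 0) := by
    have : Continuous (fun p : ℝ × E d => |V W (c (max s 0)) p.2 - V W (c (max s 0)) y|) := by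
      fun_prop
    simpa using this.tendsto (s, y)
  have hlim3 := hlim1.add hlim2
  rw [add_zero] at hlim3
  rw [ContinuousAt, tendsto_iff_norm_sub_tendsto_zero]
  refine squeeze_zero (fun p => norm_nonneg _) (fun p => ?_) hlim3
  simp only [Function.uncurry, Real.norm_eq_abs]
  calc |V W (c (max p.1 0)) p.2 - V W (c (max s 0)) y|
      = |(V W (c (max p.1 0)) p.2 - V W (c (max s 0)) p.2) +
          (V W (c (max s 0)) p.2 - V W (c (max s 0)) y)| := by congr 1; ring
    _ ≤ _ := (abs_add_le _ _).trans (add_le_add (hdiff _ _) le_rfl)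

theorem CL_driftmeas (hV1 : ClaimV1) {d : ℕ} {A K : ℝ} {W : E d → ℝ} (hP : Pot d A K W)
    {c : ℝ → E d → ℝ} (hc : CLPre d W c) :
    Measurable (fun p : ℝ × E d => drift W (c p.1) p.2) := by
  have h1 : Measurable (fun p : ℝ × E d =>
      gradient (V W (c (max p.1 0))) p.2) := by
    have h2 := measurable_fderiv_with_param (𝕜 := ℝ) (CL_Vcont hV1 hP hc)
    have h3 : Continuous (InnerProductSpace.toDual ℝ (E d)).symm :=
      (InnerProductSpace.toDual ℝ (E d)).symm.continuous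
    exact h3.measurable.comp h2
  have h4 : (fun p : ℝ × E d => drift W (c p.1) p.2) =
      fun p => if 0 ≤ p.1 then gradient (V W (c (max p.1 0))) p.2 else 0 := by
    funext p
    split_ifs with h
    · rw [max_eq_left h]; rfl
    · push Not at h
      have h5 : V W (c p.1) = fun _ => (0 : ℝ) := by
        funext x
        simp [V, hc.neg _ h]
      simp only [drift, h5]
      exact gradient_fun_const _ _
  rw [h4]
  exact Measurable.ite (measurableSet_le measurable_const measurable_fst) h1 measurable_const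

/-- Everything we need about the flux. -/
theorem CL_fluxfacts (hV1 : ClaimV1) {d : ℕ} {A K : ℝ} {W : E d → ℝ} (hP : Pot d A K W)
    {c : ℝ → E d → ℝ} (hc : CLPre d W c) :
    Measurable (fun p : ℝ × E d => flux W (c p.1) p.2) ∧
    (∀ T : ℝ, ∃ B : ℝ, 0 ≤ B ∧ ∀ t, t ≤ T →
      (∀ x, ‖flux W (c t) x‖ ≤ B) ∧ ∫ x, ‖flux W (c t) x‖ ≤ B * ∫ x, c t x) ∧
    (∀ t, Measurable (flux W (c t))) ∧ (∀ t, Integrable (flux W (c t))) := by
  have hm : Measurable (fun p : ℝ × E d => flux W (c p.1) p.2) :=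
    hc.meas.smul (CL_driftmeas hV1 hP hc)
  have hmt : ∀ t, Measurable (flux W (c t)) := fun t =>
    hm.comp (measurable_const.prodMk measurable_id)
  have hdr : ∀ T : ℝ, ∃ B : ℝ, 0 ≤ B ∧ ∀ t, t ≤ T → ∀ x, ‖drift W (c t) x‖ ≤ B := by
    intro T
    obtain ⟨M, hM, hb⟩ := hc.bdd T
    refine ⟨K * M, mul_nonneg hP.K_pos.le hM, fun t ht => ?_⟩
    refine (hV1 d A K W _ M hP (hc.int _) (Eventually.of_forall fun z => ?_)).2.1
    rw [abs_of_nonneg (hc.nonneg _ _)]
    exact hb _ ht z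
  have hpt : ∀ t B, (∀ x, ‖drift W (c t) x‖ ≤ B) → ∀ x, ‖flux W (c t) x‖ ≤ B * c t x := by
    intro t B hB x
    rw [flux, norm_smul, Real.norm_eq_abs, abs_of_nonneg (hc.nonneg _ _), mul_comm]
    exact mul_le_mul_of_nonneg_right (hB x) (hc.nonneg _ _)
  have hint : ∀ t, Integrable (flux W (c t)) := by
    intro t
    obtain ⟨B, hB, hb⟩ := hdr t
    refine ((hc.int t).const_mul B).mono' (hmt t).aestronglyMeasurable
      (Eventually.of_forall (hpt t B (hb t le_rfl)))
  refine ⟨hm, ?_, hmt, hint⟩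
  intro T
  obtain ⟨B, hB, hb⟩ := hdr T
  obtain ⟨M, hM, hb'⟩ := hc.bdd T
  refine ⟨max (B * M) B, le_max_of_le_right hB, fun t ht => ⟨fun x => ?_, ?_⟩⟩
  · exact ((hpt t B (hb t ht) x).trans (mul_le_mul_of_nonneg_left (hb' t ht x) hB)).trans
      (le_max_left _ _)
  · have h1 : 0 ≤ ∫ x, c t x := integral_nonneg (hc.nonneg t)
    calc ∫ x, ‖flux W (c t) x‖ ≤ ∫ x, B * c t x :=
          integral_mono (hint t).norm ((hc.int t).const_mul B) (hpt t B (hb t ht))
      _ = B * ∫ x, c t x := integral_const_mul _ _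
      _ ≤ _ := mul_le_mul_of_nonneg_right (le_max_right _ _) h1

/-- The singular kernel is integrable. -/
theorem CL_sing (s t C : ℝ) (hst : s ≤ t) :
    IntegrableOn (fun r : ℝ => C * (t - r) ^ (-(1 / 2 : ℝ))) (Ioc s t) := by
  have h1 : IntervalIntegrable (fun x : ℝ => x ^ (-(1 / 2 : ℝ))) volume (t - t) (t - s) :=
    intervalIntegral.intervalIntegrable_rpow' (by norm_num)
  have h2 := (h1.comp_sub_left t).const_mul C
  simp only [sub_self, sub_zero, sub_sub_cancel] at h2
  exact (intervalIntegrable_iff_integrableOn_Ioc_of_le hst).1 h2.symm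

/-- The integrand of the Duhamel integral. -/
noncomputable def CL_q {d : ℕ} (F : ℝ → E d → E d) (p : (ℝ × E d) × ℝ) : ℝ :=
  Q (p.1.1 - p.2) (F p.2) p.1.2

/-- Measurability of `r ↦ Q_{t-r} F_r (x)`, jointly in everything. -/
theorem CL_Qmeas (hPM : ClaimPM) {d : ℕ} {F : ℝ → E d → E d}
    (hF : Measurable (fun p : ℝ × E d => F p.1 p.2)) : Measurable (CL_q F) := by
  have h0 : Measurable (fun p : ℝ × E d => (fun (_ : ℝ) (_ : E d) => (0 : ℝ)) p.1 p.2) :=
    measurable_const
  have h1 := (hPM d (fun _ _ => 0) F h0 hF).2.2.1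
  have h2 : Measurable (fun p : (ℝ × E d) × ℝ => (((p.1.1 - p.2, p.2), p.1.2) : (ℝ × ℝ) × E d)) := by
    fun_prop
  generalize hG : (fun p : (ℝ × ℝ) × E d => Q p.1.1 (F p.1.2) p.2) = G at h1
  have h3 := h1.comp h2
  have h4 : (G ∘ (fun p : (ℝ × E d) × ℝ => (((p.1.1 - p.2, p.2), p.1.2) : (ℝ × ℝ) × E d))) =
      CL_q F := by
    rw [← hG]; rfl
  rw [h4] at h3
  exact h3

theorem CL_Qmeas2 (hPM : ClaimPM) {d : ℕ} {F : ℝ → E d → E d}
    (hF : Measurable (fun p : ℝ × E d => F p.1 p.2)) (t : ℝ) :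
    Measurable (Function.uncurry fun (x : E d) (r : ℝ) => Q (t - r) (F r) x) := by
  have h1 : Measurable (fun p : E d × ℝ => (((t, p.1), p.2) : (ℝ × E d) × ℝ)) := by
    fun_prop
  have h3 := (CL_Qmeas hPM hF).comp h1
  have h4 : (CL_q F ∘ (fun p : E d × ℝ => (((t, p.1), p.2) : (ℝ × E d) × ℝ))) =
      Function.uncurry fun (x : E d) (r : ℝ) => Q (t - r) (F r) x := rfl
  rw [h4] at h3
  exact h3

theorem CL_Qmeas1 (hPM : ClaimPM) {d : ℕ} {F : ℝ → E d → E d}
    (hF : Measurable (fun p : ℝ × E d => F p.1 p.2)) (t : ℝ) (x : E d) :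
    Measurable (fun r => Q (t - r) (F r) x) := by
  have h1 : Measurable (fun r : ℝ => (((t, x), r) : (ℝ × E d) × ℝ)) :=
    measurable_const.prodMk measurable_id
  have h3 := (CL_Qmeas hPM hF).comp h1
  have h4 : (CL_q F ∘ (fun r : ℝ => (((t, x), r) : (ℝ × E d) × ℝ))) =
      fun r => Q (t - r) (F r) x := rfl
  rw [h4] at h3
  exact h3

/-- The Duhamel integral. -/
theorem CL_duh (hP3 : ClaimP3) (hPM : ClaimPM) {d : ℕ} {F : ℝ → E d → E d}
    (hF : Measurable (fun p : ℝ × E d => F p.1 p.2)) (s t B : ℝ) (hst : s < t)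
    (hB : ∀ r, r ≤ t → ∀ x, ‖F r x‖ ≤ B) :
    (∀ x, IntegrableOn (fun r => Q (t - r) (F r) x) (Ioc s t)) ∧
      Continuous (fun x => ∫ r in s..t, Q (t - r) (F r) x) := by
  obtain ⟨C, hC, h3⟩ := hP3 d
  have hm : ∀ x, Measurable (fun r => Q (t - r) (F r) x) := fun x => CL_Qmeas1 hPM hF t x
  have hFm : ∀ r, Measurable (F r) := fun r => hF.comp (measurable_const.prodMk measurable_id)
  have hae : ∀ᵐ r ∂(volume.restrict (Ioc s t)), r < t ∧ r ≤ t := by
    rw [← restrict_Ioo_eq_restrict_Ioc]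
    filter_upwards [ae_restrict_mem measurableSet_Ioo] with r hr
    exact ⟨hr.2, hr.2.le⟩
  have hbd : ∀ x, ∀ᵐ r ∂(volume.restrict (Ioc s t)),
      ‖Q (t - r) (F r) x‖ ≤ (C * B) * (t - r) ^ (-(1 / 2 : ℝ)) := by
    intro x
    filter_upwards [hae] with r hr
    have := (h3 (t - r) (F r) B (by linarith [hr.1]) (hFm r) (hB r hr.2)).2.2.2 x
    rw [Real.norm_eq_abs]
    linarith
  refine ⟨fun x => ?_, ?_⟩
  · exact (CL_sing s t (C * B) hst.le).mono' (hm x).aestronglyMeasurable (hbd x)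
  · simp_rw [intervalIntegral.integral_of_le hst.le]
    refine continuous_of_dominated (fun x => (hm x).aestronglyMeasurable) hbd
      (CL_sing s t (C * B) hst.le) ?_
    filter_upwards [hae] with r hr
    exact (h3 (t - r) (F r) B (by linarith [hr.1]) (hFm r) (hB r hr.2)).2.2.1

/-! ### Mass -/

theorem CL_massP (hH1 : ClaimH1) {d : ℕ} (t : ℝ) (ht : 0 < t) (u : E d → ℝ)
    (hu : Integrable u) : Integrable (P t u) ∧ ∫ x, P t u x = ∫ x, u x := by
  have h1 := hH1 d t ht
  have h2 : P t u = MeasureTheory.convolution u (heat d t) (ContinuousLinearMap.mul ℝ ℝ) volume := by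
    funext x
    simp only [P, MeasureTheory.convolution, ContinuousLinearMap.mul_apply']
    refine integral_congr_ae (Eventually.of_forall fun y => ?_)
    simp only; ring
  rw [h2]
  refine ⟨hu.integrable_convolution _ h1.2.2.1, ?_⟩
  rw [integral_convolution _ hu h1.2.2.1]
  simp [h1.2.2.2.1]

theorem CL_massQ (hH1 : ClaimH1) (hH4 : ClaimH4) (hP3 : ClaimP3) (hP7 : ClaimP7) (d : ℕ) :
    ∃ C : ℝ, 0 < C ∧ ∀ (t : ℝ) (F : E d → E d) (M : ℝ), 0 < t → Measurable F →
      (∀ x, ‖F x‖ ≤ M) → Integrable F →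
      Integrable (Q t F) ∧ ∫ x, Q t F x = 0 ∧
        ∫ x, ‖Q t F x‖ ≤ C * t ^ (-(1 / 2 : ℝ)) * ∫ x, ‖F x‖ := by
  obtain ⟨C, hC, h4⟩ := hH4 d
  obtain ⟨C3, hC3, h3⟩ := hP3 d
  refine ⟨C, hC, fun t F M ht hFm hFb hFi => ?_⟩
  have hcont : Continuous (Q t F) := (h3 t F M ht hFm hFb).2.2.1
  have ht2 : 0 < 2 * t := by linarith
  obtain ⟨hPi, hPm⟩ := CL_massP hH1 (2 * t) ht2 (fun x => ‖F x‖) hFi.norm
  have hpt : ∀ x, ‖Q t F x‖ ≤ C * t ^ (-(1 / 2 : ℝ)) * P (2 * t) (fun x => ‖F x‖) x := by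
    intro x
    have hcx : Continuous (fun y : E d => heat d (2 * t) (x - y)) :=
      (hH1 d (2 * t) ht2).2.1.comp (continuous_const.sub continuous_id)
    have hi : Integrable (fun y => C * t ^ (-(1 / 2 : ℝ)) * (heat d (2 * t) (x - y) * ‖F y‖)) := by
      refine Integrable.const_mul ?_ _
      refine hFi.norm.bdd_mul (c := (4 * π * (2 * t)) ^ (-(d : ℝ) / 2)) hcx.aestronglyMeasurable
        (Eventually.of_forall fun y => ?_)
      rw [Real.norm_eq_abs, abs_of_pos ((hH1 d (2 * t) ht2).1 _)]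
      exact (hH1 d (2 * t) ht2).2.2.2.2.1 _
    calc ‖Q t F x‖ ≤ ∫ y, ‖⟪gheat d t (x - y), F y⟫_ℝ‖ := norm_integral_le_integral_norm _
      _ ≤ ∫ y, C * t ^ (-(1 / 2 : ℝ)) * (heat d (2 * t) (x - y) * ‖F y‖) := by
          refine integral_mono_of_nonneg (Eventually.of_forall fun y => norm_nonneg _) hi
            (Eventually.of_forall fun y => ?_)
          calc ‖⟪gheat d t (x - y), F y⟫_ℝ‖ ≤ ‖gheat d t (x - y)‖ * ‖F y‖ := norm_inner_le_norm _ _
            _ ≤ (C * t ^ (-(1 / 2 : ℝ)) * heat d (2 * t) (x - y)) * ‖F y‖ :=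
                mul_le_mul_of_nonneg_right (h4 t ht _).1 (norm_nonneg _)
            _ = _ := by ring
      _ = _ := by rw [integral_const_mul]; rfl
  have hQi : Integrable (Q t F) :=
    (hPi.const_mul _).mono' hcont.aestronglyMeasurable (Eventually.of_forall hpt)
  refine ⟨hQi, ?_, ?_⟩
  · have h1 := (hP7 d t (fun _ => 1) F 1 ht measurable_const (fun x => by simp) hFm hFi).2
    simp only [one_mul] at h1
    rw [h1]
    have h2 : ∀ y, gP t (fun _ : E d => (1 : ℝ)) y = 0 := by
      intro y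
      simp only [gP, one_smul]
      rw [integral_sub_left_eq_self (fun z => gheat d t z) volume y]
      have h5 : ∫ z, gheat d t z = -∫ z, gheat d t z := by
        rw [← integral_neg]
        rw [← integral_neg_eq_self (fun z => gheat d t z) volume]
        refine integral_congr_ae (Eventually.of_forall fun z => ?_)
        exact (hH1 d t ht).2.2.2.2.2.2.2.2 z
      have h6 : (2 : ℝ) • ∫ z, gheat d t z = 0 := by
        rw [two_smul]; nth_rewrite 1 [h5]; simp
      exact (smul_eq_zero.1 h6).resolve_left (by norm_num)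
    simp [h2]
  · calc ∫ x, ‖Q t F x‖ ≤ ∫ x, C * t ^ (-(1 / 2 : ℝ)) * P (2 * t) (fun x => ‖F x‖) x :=
          integral_mono hQi.norm (hPi.const_mul _) hpt
      _ = _ := by rw [integral_const_mul, hPm]

/-! ### The clean version -/

theorem CL_le_of_ae {d : ℕ} {f g : E d → ℝ} (hf : Continuous f) (hg : Continuous g)
    (h : ∀ᵐ x, f x ≤ g x) (x : E d) : f x ≤ g x := by
  have h1 : (fun x => min (f x) (g x)) =ᵐ[volume] f := by
    filter_upwards [h] with y hy
    exact min_eq_left hy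
  have h2 := (Continuous.ae_eq_iff_eq (volume : Measure (E d)) (hf.min hg) hf).1 h1
  have h3 := congrFun h2 x
  rw [← h3]
  exact min_le_right _ _

/-- The Duhamel right-hand side. -/
noncomputable def CL_D {d : ℕ} (W : E d → ℝ) (c : ℝ → E d → ℝ) (t : ℝ) (x : E d) : ℝ :=
  P t (c 0) x + ∫ r in (0 : ℝ)..t, Q (t - r) (flux W (c r)) x

/-- The clean version. -/
noncomputable def CL_r {d : ℕ} (W : E d → ℝ) (c : ℝ → E d → ℝ) (t : ℝ) (x : E d) : ℝ :=
  if 0 < t then CL_D W c t x else c t x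

theorem CL_r_pos {d : ℕ} (W : E d → ℝ) (c : ℝ → E d → ℝ) {t : ℝ} (ht : 0 < t) :
    CL_r W c t = CL_D W c t := by
  funext x; simp [CL_r, ht]

theorem CL_r_npos {d : ℕ} (W : E d → ℝ) (c : ℝ → E d → ℝ) {t : ℝ} (ht : t ≤ 0) :
    CL_r W c t = c t := by
  funext x; simp [CL_r, not_lt.2 ht]

theorem CL_r_ae {d : ℕ} {W : E d → ℝ} {c : ℝ → E d → ℝ} (hc : CLPre d W c) (t : ℝ) :
    CL_r W c t =ᵐ[volume] c t := by
  rcases lt_or_ge 0 t with ht | ht
  · rw [CL_r_pos W c ht]
    filter_upwards [hc.duh t ht] with x hx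
    rw [hx]; rfl
  · rw [CL_r_npos W c ht]

theorem CL_Pmeas (hPM : ClaimPM) {d : ℕ} {u : E d → ℝ} (hu : Measurable u) :
    Measurable (fun p : ℝ × E d => P p.1 u p.2) := by
  have h0 : Measurable (fun p : ℝ × E d => (fun (_ : ℝ) => u) p.1 p.2) :=
    hu.comp measurable_snd
  have h00 : Measurable (fun p : ℝ × E d => (fun (_ : ℝ) (_ : E d) => (0 : E d)) p.1 p.2) :=
    measurable_const
  have h1 := (hPM d (fun _ => u) (fun _ _ => 0) h0 h00).1
  have h2 : Measurable (fun p : ℝ × E d => (((p.1, 0), p.2) : (ℝ × ℝ) × E d)) := by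
    fun_prop
  generalize hG : (fun p : (ℝ × ℝ) × E d => P p.1.1 ((fun _ : ℝ => u) p.1.2) p.2) = G at h1
  have h3 := h1.comp h2
  have h4 : (G ∘ (fun p : ℝ × E d => (((p.1, 0), p.2) : (ℝ × ℝ) × E d))) =
      fun p : ℝ × E d => P p.1 u p.2 := by
    rw [← hG]; rfl
  rw [h4] at h3
  exact h3

theorem CL_r_meas (hPM : ClaimPM) {d : ℕ} {W : E d → ℝ} {c : ℝ → E d → ℝ} (hc : CLPre d W c)
    (hFm : Measurable (fun p : ℝ × E d => flux W (c p.1) p.2)) :
    Measurable (fun p : ℝ × E d => CL_r W c p.1 p.2) := by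
  set F : ℝ → E d → E d := fun r => flux W (c r) with hF
  have hc0 : Measurable (c 0) := hc.meas.comp (measurable_const.prodMk measurable_id)
  have h1 := CL_Pmeas hPM hc0
  have h2 := CL_Qmeas hPM (F := F) hFm
  have hS : MeasurableSet {q : (ℝ × E d) × ℝ | 0 < q.2 ∧ q.2 ≤ q.1.1} := by
    refine MeasurableSet.inter ?_ ?_
    · exact measurableSet_lt measurable_const measurable_snd
    · exact measurableSet_le measurable_snd (measurable_fst.comp measurable_fst)
  have h3 : Measurable (fun p : ℝ × E d =>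
      ∫ r, ({q : (ℝ × E d) × ℝ | 0 < q.2 ∧ q.2 ≤ q.1.1}.indicator (CL_q F)) (p, r)) :=
    ((h2.indicator hS).stronglyMeasurable.integral_prod_right').measurable
  have h4 : (fun p : ℝ × E d => CL_r W c p.1 p.2) = fun p : ℝ × E d => if 0 < p.1 then
      P p.1 (c 0) p.2 +
        ∫ r, ({q : (ℝ × E d) × ℝ | 0 < q.2 ∧ q.2 ≤ q.1.1}.indicator (CL_q F)) (p, r)
      else c p.1 p.2 := by
    funext p
    simp only [CL_r, CL_D]
    split_ifs with hp
    · congr 1
      rw [intervalIntegral.integral_of_le hp.le, ← integral_indicator measurableSet_Ioc]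
      refine integral_congr_ae (Eventually.of_forall fun r => ?_)
      dsimp only
      by_cases hr : r ∈ Ioc (0 : ℝ) p.1
      · have hr' : (p, r) ∈ {q : (ℝ × E d) × ℝ | 0 < q.2 ∧ q.2 ≤ q.1.1} := ⟨hr.1, hr.2⟩
        rw [indicator_of_mem hr, indicator_of_mem hr']
        rfl
      · have hr' : (p, r) ∉ {q : (ℝ × E d) × ℝ | 0 < q.2 ∧ q.2 ≤ q.1.1} :=
          fun h => hr ⟨h.1, h.2⟩
        rw [indicator_of_notMem hr, indicator_of_notMem hr']
    · rfl
  rw [h4]
  exact Measurable.ite (measurableSet_lt measurable_const measurable_fst) (h1.add h3) hc.meas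

theorem CL_massbd {d : ℕ} {W : E d → ℝ} {c : ℝ → E d → ℝ} (hc : CLPre d W c) (T : ℝ) :
    ∃ M : ℝ, 0 ≤ M ∧ ∀ t ∈ Icc 0 T, ∫ x, c t x ≤ M := by
  have h1 : ContinuousOn (fun t => ∫ x, c t x) (Icc 0 T) := by
    intro t ht
    have h2 : Tendsto (fun s => ∫ x, |c s x - c t x|) (𝓝[Icc 0 T] t) (𝓝 0) :=
      (hc.cont t ht.1).mono_left (nhdsWithin_mono _ Icc_subset_Ici_self)
    rw [ContinuousWithinAt, tendsto_iff_norm_sub_tendsto_zero]
    refine squeeze_zero (fun s => norm_nonneg _) (fun s => ?_) h2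
    rw [← integral_sub (hc.int s) (hc.int t)]
    exact norm_integral_le_integral_norm _
  obtain ⟨M, hM⟩ := isCompact_Icc.exists_bound_of_continuousOn h1
  refine ⟨|M|, abs_nonneg _, fun t ht => ?_⟩
  exact ((le_abs_self _).trans (hM t ht)).trans (le_abs_self _)

theorem claimClean (hH1 : ClaimH1) (hH4 : ClaimH4) (hP1 : ClaimP1) (hP2 : ClaimP2)
    (hP3 : ClaimP3) (hP7 : ClaimP7) (hPM : ClaimPM) (hV1 : ClaimV1) : ClaimClean := by
  intro d A K W ρ0 ρ _ hP hs
  obtain ⟨c, hc, hcρ⟩ := CL_pre hH1 hs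
  obtain ⟨hFm, hFb, hFmt, hFi⟩ := CL_fluxfacts hV1 hP hc
  obtain ⟨C3, hC3, h3⟩ := hP3 d
  obtain ⟨CQ, hCQ, hQ⟩ := CL_massQ hH1 hH4 hP3 hP7 d
  have hae : ∀ t, CL_r W c t =ᵐ[volume] c t := CL_r_ae hc
  have hc0m : Measurable (c 0) := hc.meas.comp (measurable_const.prodMk measurable_id)
  obtain ⟨M0, hM0, hM0b⟩ := hc.bdd 0
  have hc0b : ∀ x, |c 0 x| ≤ M0 := fun x => by
    rw [abs_of_nonneg (hc.nonneg _ _)]; exact hM0b 0 le_rfl x
  -- continuity
  have hIcont : ∀ t, 0 < t → (∀ x, IntegrableOn (fun r => Q (t - r) (flux W (c r)) x) (Ioc 0 t)) ∧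
      Continuous (fun x => ∫ r in (0 : ℝ)..t, Q (t - r) (flux W (c r)) x) := by
    intro t ht
    obtain ⟨B, hB, hb⟩ := hFb t
    exact CL_duh hP3 hPM (F := fun r => flux W (c r)) hFm 0 t B ht (fun r hr => (hb r hr).1)
  have hPcont : ∀ t, 0 < t → Continuous (P t (c 0)) := fun t ht =>
    continuous_iff_continuousAt.2 fun x =>
      ((hP1 d t (c 0) M0 ht hc0m hc0b).1 x).hasFDerivAt.continuousAt
  have hDcont : ∀ t, 0 < t → Continuous (CL_D W c t) := fun t ht =>
    (hPcont t ht).add (hIcont t ht).2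
  have hrcont : ∀ t, 0 < t → Continuous (CL_r W c t) := fun t ht => by
    rw [CL_r_pos W c ht]; exact hDcont t ht
  -- nonnegativity
  have hnn : ∀ t x, 0 ≤ CL_r W c t x := by
    intro t x
    rcases lt_or_ge 0 t with ht | ht
    · refine CL_le_of_ae continuous_const (hrcont t ht) ?_ x
      filter_upwards [hae t] with y hy
      rw [hy]; exact hc.nonneg _ _
    · rw [CL_r_npos W c ht]; exact hc.nonneg _ _
  have hint : ∀ t, Integrable (CL_r W c t) := fun t => (hc.int t).congr (hae t).symm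
  -- mass
  have hmass : ∀ t, 0 ≤ t → ∫ x, CL_r W c t x = ∫ x, c 0 x := by
    intro t ht
    rcases eq_or_lt_of_le ht with ht0 | ht0
    · rw [← ht0, CL_r_npos W c le_rfl]
    obtain ⟨B, hB, hb⟩ := hFb t
    obtain ⟨M1, hM1, hM1b⟩ := CL_massbd hc t
    obtain ⟨hPi, hPm⟩ := CL_massP hH1 t ht0 (c 0) (hc.int 0)
    have hDi : Integrable (CL_D W c t) := by rw [← CL_r_pos W c ht0]; exact hint t
    have hIi : Integrable (fun x => ∫ r in (0 : ℝ)..t, Q (t - r) (flux W (c r)) x) := by
      have := hDi.sub hPi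
      refine this.congr (Eventually.of_forall fun x => ?_)
      simp [CL_D]
    have hprod : Integrable (Function.uncurry fun (x : E d) (r : ℝ) =>
        Q (t - r) (flux W (c r)) x) (volume.prod (volume.restrict (Ioc 0 t))) := by
      have hm : Measurable (Function.uncurry fun (x : E d) (r : ℝ) =>
          Q (t - r) (flux W (c r)) x) := CL_Qmeas2 hPM (F := fun r => flux W (c r)) hFm t
      rw [integrable_prod_iff' hm.aestronglyMeasurable]
      have hae2 : ∀ᵐ r ∂(volume.restrict (Ioc 0 t)), 0 < r ∧ r < t := by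
        rw [← restrict_Ioo_eq_restrict_Ioc]
        filter_upwards [ae_restrict_mem measurableSet_Ioo] with r hr
        exact hr
      constructor
      · filter_upwards [hae2] with r hr
        exact (hQ (t - r) (flux W (c r)) B (by linarith [hr.2]) (hFmt r)
          ((hb r hr.2.le).1) (hFi r)).1
      · refine (CL_sing 0 t (CQ * (B * M1)) ht0.le).mono' ?_ ?_
        · exact (hm.stronglyMeasurable.norm.integral_prod_left').aestronglyMeasurable
        · filter_upwards [hae2] with r hr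
          have h1 := (hQ (t - r) (flux W (c r)) B (by linarith [hr.2]) (hFmt r)
            ((hb r hr.2.le).1) (hFi r)).2.2
          have h2 : 0 ≤ ∫ x, ‖Q (t - r) (flux W (c r)) x‖ := integral_nonneg fun x => norm_nonneg _
          rw [Real.norm_eq_abs]
          simp only [Function.uncurry]
          rw [abs_of_nonneg h2]
          refine h1.trans ?_
          have h4 : 0 ≤ (t - r) ^ (-(1 / 2 : ℝ)) := Real.rpow_nonneg (by linarith [hr.2]) _
          have h5 : ∫ x, ‖flux W (c r) x‖ ≤ B * M1 :=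
            (hb r hr.2.le).2.trans (mul_le_mul_of_nonneg_left (hM1b r ⟨hr.1.le, hr.2.le⟩) hB)
          calc CQ * (t - r) ^ (-(1 / 2 : ℝ)) * ∫ x, ‖flux W (c r) x‖
              ≤ CQ * (t - r) ^ (-(1 / 2 : ℝ)) * (B * M1) :=
                mul_le_mul_of_nonneg_left h5 (mul_nonneg hCQ.le h4)
            _ = _ := by ring
    have hzero : ∫ x, ∫ r in (0 : ℝ)..t, Q (t - r) (flux W (c r)) x = 0 := by
      simp_rw [intervalIntegral.integral_of_le ht0.le]
      rw [integral_integral_swap hprod]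
      refine (integral_congr_ae (g := fun _ => (0 : ℝ)) ?_).trans (by simp)
      rw [← restrict_Ioo_eq_restrict_Ioc]
      filter_upwards [ae_restrict_mem measurableSet_Ioo] with r hr
      exact (hQ (t - r) (flux W (c r)) B (by linarith [hr.2]) (hFmt r)
          ((hb r hr.2.le).1) (hFi r)).2.1
    rw [CL_r_pos W c ht0]
    have h5 : ∫ x, CL_D W c t x = (∫ x, P t (c 0) x) +
        ∫ x, ∫ r in (0 : ℝ)..t, Q (t - r) (flux W (c r)) x := integral_add hPi hIi
    rw [h5, hPm, hzero, add_zero]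
  -- the flux of the clean version
  have hflux : ∀ (τ r : ℝ), Q τ (flux W (CL_r W c r)) = Q τ (flux W (c r)) := fun τ r =>
    CL_Q τ (CL_flux W (hae r))
  refine ⟨∫ x, c 0 x, CL_r W c, ⟨CL_r_meas hPM hc hFm, hnn, hrcont, hint, hmass, ?_, ?_, ?_⟩, ?_⟩
  · -- boundedness
    intro T
    obtain ⟨M, hM, hb⟩ := hc.bdd T
    refine ⟨M, fun t ht x => ?_⟩
    rcases lt_or_ge 0 t with ht0 | ht0
    · refine CL_le_of_ae (hrcont t ht0) continuous_const ?_ x
      filter_upwards [hae t] with y hy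
      rw [hy]; exact hb t ht y
    · rw [CL_r_npos W c ht0]; exact hb t ht x
  · -- measurability of the drift
    have h1 := CL_driftmeas hV1 hP hc
    have h2 : (fun p : ℝ × E d => drift W (CL_r W c p.1) p.2) =
        fun p : ℝ × E d => drift W (c p.1) p.2 := by
      funext p
      rw [CL_drift W (hae p.1)]
    rw [h2]; exact h1
  · -- restart
    intro s t hs0 hst x
    have ht0 : 0 < t := lt_of_le_of_lt hs0 hst
    simp_rw [hflux]
    rw [CL_r_pos W c ht0]
    rcases eq_or_lt_of_le hs0 with h0 | h0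
    · rw [← h0, CL_r_npos W c le_rfl, sub_zero]
      rfl
    rw [CL_r_pos W c h0]
    obtain ⟨B, hB, hb⟩ := hFb t
    have hts : 0 < t - s := by linarith
    -- split the Duhamel integral
    have hII : ∀ a b, 0 ≤ a → a ≤ b → b ≤ t →
        IntervalIntegrable (fun r => Q (t - r) (flux W (c r)) x) volume a b := by
      intro a b ha hab hbt
      rw [intervalIntegrable_iff_integrableOn_Ioc_of_le hab]
      exact ((hIcont t ht0).1 x).mono_set (Ioc_subset_Ioc ha hbt)
    have hsplit : ∫ r in (0 : ℝ)..t, Q (t - r) (flux W (c r)) x =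
        (∫ r in (0 : ℝ)..s, Q (t - r) (flux W (c r)) x) +
          ∫ r in s..t, Q (t - r) (flux W (c r)) x :=
      (intervalIntegral.integral_add_adjacent_intervals (hII 0 s le_rfl h0.le hst.le)
        (hII s t h0.le hst.le le_rfl)).symm
    -- the semigroup property
    have hH := hH1 d (t - s) hts
    have hheat : Integrable (fun y => heat d (t - s) (x - y)) :=
      hH.2.2.1.comp_sub_left x
    have hIs := (hIcont s h0).2
    have hIsb : ∃ N, ∀ y, |∫ r in (0 : ℝ)..s, Q (s - r) (flux W (c r)) y| ≤ N := by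
      refine ⟨∫ r in (0 : ℝ)..s, (C3 * B) * (s - r) ^ (-(1 / 2 : ℝ)), fun y => ?_⟩
      rw [← Real.norm_eq_abs]
      refine intervalIntegral.norm_integral_le_of_norm_le h0.le ?_ ?_
      · have h1 : ∀ᵐ r : ℝ, r ≠ s := by simp [ae_iff]
        filter_upwards [h1] with r hr hr'
        have hrs : r < s := lt_of_le_of_ne hr'.2 hr
        have := (h3 (s - r) (flux W (c r)) B (by linarith) (hFmt r)
          ((hb r (by linarith)).1)).2.2.2 y
        rw [Real.norm_eq_abs]
        linarith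
      · rw [intervalIntegrable_iff_integrableOn_Ioc_of_le h0.le]
        exact CL_sing 0 s (C3 * B) h0.le
    obtain ⟨N, hN⟩ := hIsb
    have hi1 : Integrable (fun y => heat d (t - s) (x - y) * P s (c 0) y) := by
      refine hheat.mul_bdd (c := M0) (hPcont s h0).aestronglyMeasurable
        (Eventually.of_forall fun y => ?_)
      rw [Real.norm_eq_abs]
      exact (hP1 d s (c 0) M0 h0 hc0m hc0b).2.2 y
    have hi2 : Integrable (fun y => heat d (t - s) (x - y) *
        ∫ r in (0 : ℝ)..s, Q (s - r) (flux W (c r)) y) := by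
      refine hheat.mul_bdd (c := N) hIs.aestronglyMeasurable
        (Eventually.of_forall fun y => ?_)
      rw [Real.norm_eq_abs]
      exact hN y
    have hPD : P (t - s) (CL_D W c s) x = P (t - s) (P s (c 0)) x +
        ∫ y, heat d (t - s) (x - y) * ∫ r in (0 : ℝ)..s, Q (s - r) (flux W (c r)) y := by
      have h1 : P (t - s) (CL_D W c s) x = ∫ y, (heat d (t - s) (x - y) * P s (c 0) y +
          heat d (t - s) (x - y) * ∫ r in (0 : ℝ)..s, Q (s - r) (flux W (c r)) y) := by
        simp only [P, CL_D, mul_add]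
      rw [h1, integral_add hi1 hi2]
      rfl
    have hprod : Integrable (Function.uncurry fun (y : E d) (r : ℝ) =>
        heat d (t - s) (x - y) * Q (s - r) (flux W (c r)) y)
        (volume.prod (volume.restrict (Ioc 0 s))) := by
      have hm : Measurable (Function.uncurry fun (y : E d) (r : ℝ) =>
          Q (s - r) (flux W (c r)) y) := CL_Qmeas2 hPM (F := fun r => flux W (c r)) hFm s
      have hm2 : Measurable (Function.uncurry fun (y : E d) (r : ℝ) =>
          heat d (t - s) (x - y) * Q (s - r) (flux W (c r)) y) := by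
        refine Measurable.mul ?_ hm
        exact (hH.2.1.comp (continuous_const.sub continuous_id)).measurable.comp measurable_fst
      refine (hheat.mul_prod (CL_sing 0 s (C3 * B) h0.le)).mono' hm2.aestronglyMeasurable ?_
      have hae2 : ∀ᵐ r ∂(volume.restrict (Ioc 0 s)), 0 < r ∧ r < s := by
        rw [← restrict_Ioo_eq_restrict_Ioc]
        filter_upwards [ae_restrict_mem measurableSet_Ioo] with r hr
        exact hr
      have hae3 : ∀ᵐ p ∂((volume : Measure (E d)).prod (volume.restrict (Ioc 0 s))),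
          0 < p.2 ∧ p.2 < s := Measure.quasiMeasurePreserving_snd.ae hae2
      filter_upwards [hae3] with p hp
      simp only [Function.uncurry]
      rw [norm_mul, Real.norm_eq_abs, abs_of_pos (hH.1 _)]
      refine mul_le_mul_of_nonneg_left ?_ (hH.1 _).le
      have := (h3 (s - p.2) (flux W (c p.2)) B (by linarith [hp.2]) (hFmt p.2)
          ((hb p.2 (by linarith [hp.2])).1)).2.2.2 p.1
      rw [Real.norm_eq_abs]
      linarith
    have hswap : ∫ y, heat d (t - s) (x - y) * ∫ r in (0 : ℝ)..s, Q (s - r) (flux W (c r)) y =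
        ∫ r in (0 : ℝ)..s, Q (t - r) (flux W (c r)) x := by
      simp_rw [intervalIntegral.integral_of_le h0.le, ← integral_const_mul]
      rw [integral_integral_swap hprod]
      refine integral_congr_ae ?_
      rw [← restrict_Ioo_eq_restrict_Ioc]
      filter_upwards [ae_restrict_mem measurableSet_Ioo] with r hr
      have h1 := (hP2 d (t - s) (s - r) (fun _ => 0) (flux W (c r)) (max B 0) hts
        (by linarith [hr.2]) measurable_const (fun x => by simp) (hFmt r)
        (fun x => ((hb r (by linarith [hr.2])).1 x).trans (le_max_left _ _)) x).2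
      have h2 : t - s + (s - r) = t - r := by ring
      rw [h2] at h1
      exact h1
    rw [hPD, hswap]
    have hPP := (hP2 d (t - s) s (c 0) (fun _ => 0) M0 hts h0 hc0m hc0b measurable_const
      (fun x => by simpa using hM0) x).1
    rw [sub_add_cancel] at hPP
    rw [hPP]
    simp only [CL_D]
    rw [hsplit]
    ring
  · intro t ht
    exact (hcρ t ht.le).symm.trans (hae t).symm

end Pool.Agent.Work.MP_9371de_an

end

section

/-!
# The differentiation lemma
-/

open MeasureTheory Set Filter Topology intervalIntegral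
open scoped Real InnerProductSpace

namespace Pool.Agent.Work.MP_9371de_an

theorem DL_grad_cont {d : ℕ} {f : E d → ℝ} (hf : ContDiff ℝ 1 f) : Continuous (gradient f) := by
  unfold gradient
  exact (InnerProductSpace.toDual ℝ (E d)).symm.continuous.comp
    (hf.continuous_fderiv (by norm_num))

theorem itemDL (hCC : ClaimCC) : ClaimDL := by
  intro d A K m W ρ hG t0 M ψ ht0 hψ hψt
  obtain ⟨hcx, hct, -, hcw⟩ := hCC d A K m W ρ hG
  obtain ⟨h, hh, hD, hGD⟩ := hG.weight 1 one_pos le_rfl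
  obtain ⟨C, hC0, hC⟩ := hcw 1 h one_pos le_rfl hh hD hGD (t0 / 2) (2 * t0) (by positivity)
  set Φ : ℝ → ℝ → ℝ := fun t r => ∫ x, ⟪gradient (ψ t) x, cur W (ρ r) x⟫_ℝ with hΦ
  have hM : 0 ≤ M := by
    obtain ⟨-, h1, -⟩ := hψ.self_of_nhds
    exact (abs_nonneg _).trans (h1 0)
  have hbd : ∀ t r x, (∀ x, ‖gradient (ψ t) x‖ ≤ M) → t0 / 2 ≤ r → r ≤ 2 * t0 →
      ‖⟪gradient (ψ t) x, cur W (ρ r) x⟫_ℝ‖ ≤ M * (C * h x) := by
    intro t r x h1 h2 h3
    refine (norm_inner_le_norm _ _).trans ?_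
    exact mul_le_mul (h1 x) (hC r h2 h3 x).2.2 (norm_nonneg _) hM
  have hbi : Integrable (fun x => M * (C * h x)) := (hh.int.const_mul C).const_mul M
  have hr0 : ∀ᶠ r in 𝓝 t0, t0 / 2 < r ∧ r < 2 * t0 :=
    Ioo_mem_nhds (by linarith) (by linarith)
  -- joint continuity
  have hjoint : Tendsto (fun p : ℝ × ℝ => Φ p.1 p.2) (𝓝 t0 ×ˢ 𝓝 t0) (𝓝 (Φ t0 t0)) := by
    refine tendsto_integral_filter_of_dominated_convergence (fun x => M * (C * h x)) ?_ ?_ hbi ?_
    · have : ∀ᶠ p : ℝ × ℝ in 𝓝 t0 ×ˢ 𝓝 t0, (ContDiff ℝ 1 (ψ p.1) ∧ (∀ x, |ψ p.1 x| ≤ M) ∧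
          (∀ x, ‖gradient (ψ p.1) x‖ ≤ M)) ∧ (t0 / 2 < p.2 ∧ p.2 < 2 * t0) := hψ.prod_mk hr0
      filter_upwards [this] with p hp
      have c1 := DL_grad_cont hp.1.1
      have c2 := hcx p.2 (by linarith [hp.2.1])
      exact (c1.inner c2).aestronglyMeasurable
    · have : ∀ᶠ p : ℝ × ℝ in 𝓝 t0 ×ˢ 𝓝 t0, (ContDiff ℝ 1 (ψ p.1) ∧ (∀ x, |ψ p.1 x| ≤ M) ∧
          (∀ x, ‖gradient (ψ p.1) x‖ ≤ M)) ∧ (t0 / 2 < p.2 ∧ p.2 < 2 * t0) := hψ.prod_mk hr0
      filter_upwards [this] with p hp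
      exact Eventually.of_forall fun x => hbd p.1 p.2 x hp.1.2.2 hp.2.1.le hp.2.2.le
    · refine Eventually.of_forall fun x => ?_
      have c1 : Tendsto (fun p : ℝ × ℝ => gradient (ψ p.1) x) (𝓝 t0 ×ˢ 𝓝 t0)
          (𝓝 (gradient (ψ t0) x)) := (hψt x).comp tendsto_fst
      have c2 : Tendsto (fun p : ℝ × ℝ => cur W (ρ p.2) x) (𝓝 t0 ×ˢ 𝓝 t0)
          (𝓝 (cur W (ρ t0) x)) :=
        ((hct x).continuousAt (Ioi_mem_nhds ht0)).tendsto.comp tendsto_snd
      exact c1.inner c2
  -- continuity in `r`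
  have hcont : ∀ t, ContDiff ℝ 1 (ψ t) → (∀ x, ‖gradient (ψ t) x‖ ≤ M) →
      ContinuousOn (Φ t) (Ioo (t0 / 2) (2 * t0)) := by
    intro t h1 h2 r hr
    refine ContinuousAt.continuousWithinAt ?_
    have hrn : ∀ᶠ r' in 𝓝 r, t0 / 2 < r' ∧ r' < 2 * t0 := Ioo_mem_nhds hr.1 hr.2
    refine tendsto_integral_filter_of_dominated_convergence (fun x => M * (C * h x)) ?_ ?_ hbi ?_
    · filter_upwards [hrn] with r' hr'
      exact ((DL_grad_cont h1).inner (hcx r' (by linarith [hr'.1]))).aestronglyMeasurable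
    · filter_upwards [hrn] with r' hr'
      exact Eventually.of_forall fun x => hbd t r' x h2 hr'.1.le hr'.2.le
    · refine Eventually.of_forall fun x => ?_
      have hrp : 0 < r := by linarith [hr.1]
      exact tendsto_const_nhds.inner ((hct x).continuousAt (Ioi_mem_nhds hrp)).tendsto
  -- the formula
  have hform : ∀ t, t0 / 2 < t → (ContDiff ℝ 1 (ψ t) ∧ (∀ x, |ψ t x| ≤ M) ∧
      (∀ x, ‖gradient (ψ t) x‖ ≤ M)) →
      ∫ x, ψ t x * (ρ t x - ρ t0 x) = -∫ r in t0..t, Φ t r := by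
    intro t ht ⟨h1, h2, h3⟩
    have htp : 0 < t := by linarith
    have i1 : ∀ r, 0 < r → Integrable (fun x => ψ t x * ρ r x) := by
      intro r hr
      refine (hG.int r hr).bdd_mul h1.continuous.aestronglyMeasurable (c := M) ?_
      exact Eventually.of_forall fun x => h2 x
    have e1 : ∫ x, ψ t x * (ρ t x - ρ t0 x) =
        (∫ x, ψ t x * ρ t x) - ∫ x, ψ t x * ρ t0 x := by
      rw [← integral_sub (i1 t htp) (i1 t0 ht0)]
      refine integral_congr_ae (Eventually.of_forall fun x => ?_)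
      ring
    rw [e1]
    rcases le_total t0 t with hle | hle
    · exact hG.wf (ψ t) M h1 h2 h3 t0 t ht0 hle
    · have := hG.wf (ψ t) M h1 h2 h3 t t0 htp hle
      rw [intervalIntegral.integral_symm, neg_neg]
      have h' : ∫ r in t..t0, Φ t r = -((∫ x, ψ t x * ρ t0 x) - ∫ x, ψ t x * ρ t x) := by
        rw [this, neg_neg]
      rw [h']
      ring
  -- conclusion
  have hlim : Tendsto (fun t => (t - t0)⁻¹ * ∫ r in t0..t, Φ t r) (𝓝[≠] t0) (𝓝 (Φ t0 t0)) := by
    rw [Metric.tendsto_nhds]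
    intro ε hε
    have h1 : ∀ᶠ p : ℝ × ℝ in 𝓝 (t0, t0), dist (Φ p.1 p.2) (Φ t0 t0) < ε / 2 := by
      rw [nhds_prod_eq]
      exact (Metric.tendsto_nhds.1 hjoint) _ (half_pos hε)
    obtain ⟨δ, hδ, hδ2⟩ := Metric.eventually_nhds_iff.1 h1
    have h2 : ∀ᶠ t in 𝓝[≠] t0, (dist t t0 < δ ∧ (t0 / 2 < t ∧ t < 2 * t0)) ∧
        (ContDiff ℝ 1 (ψ t) ∧ (∀ x, |ψ t x| ≤ M) ∧ (∀ x, ‖gradient (ψ t) x‖ ≤ M)) := by
      refine eventually_nhdsWithin_of_eventually_nhds ?_
      have hball : ∀ᶠ t in 𝓝 t0, dist t t0 < δ := Metric.ball_mem_nhds t0 hδ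
      exact (hball.and hr0).and hψ
    filter_upwards [h2, self_mem_nhdsWithin] with t ht htne
    obtain ⟨⟨hd1, hd2, hd3⟩, h1', h2', h3'⟩ := ht
    have htne' : t - t0 ≠ 0 := sub_ne_zero.2 htne
    have hsub : uIcc t0 t ⊆ Ioo (t0 / 2) (2 * t0) := by
      intro r hr
      rw [mem_uIcc] at hr
      constructor <;> rcases hr with hr | hr <;> linarith [hr.1, hr.2]
    have hint : IntervalIntegrable (Φ t) volume t0 t :=
      ((hcont t h1' h3').mono hsub).intervalIntegrable
    have e : ((t - t0)⁻¹ * ∫ r in t0..t, Φ t r) - Φ t0 t0 =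
        (t - t0)⁻¹ * ∫ r in t0..t, (Φ t r - Φ t0 t0) := by
      rw [intervalIntegral.integral_sub hint intervalIntegrable_const,
        intervalIntegral.integral_const, smul_eq_mul, mul_sub, inv_mul_cancel_left₀ htne']
    have hb : ‖∫ r in t0..t, (Φ t r - Φ t0 t0)‖ ≤ ε / 2 * |t - t0| := by
      refine intervalIntegral.norm_integral_le_of_norm_le_const fun r hr => ?_
      have hr1 : dist (t, r) (t0, t0) < δ := by
        rw [Prod.dist_eq]
        refine max_lt hd1 ?_
        rw [Real.dist_eq]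
        have h4 : |r - t0| ≤ |t - t0| := abs_sub_left_of_mem_uIcc (uIoc_subset_uIcc hr)
        have h6 := hd1
        rw [Real.dist_eq] at h6
        linarith
      have h5 := hδ2 hr1
      rw [Real.dist_eq] at h5
      rw [Real.norm_eq_abs]
      exact h5.le
    rw [Real.dist_eq, e, abs_mul, abs_inv]
    have hpos : 0 < |t - t0| := abs_pos.2 htne'
    rw [Real.norm_eq_abs] at hb
    calc |t - t0|⁻¹ * |∫ r in t0..t, (Φ t r - Φ t0 t0)| ≤ |t - t0|⁻¹ * (ε / 2 * |t - t0|) :=
          mul_le_mul_of_nonneg_left hb (by positivity)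
      _ = ε / 2 := by field_simp
      _ < ε := half_lt_self hε
  have hfin := hlim.neg
  refine hfin.congr' ?_
  have h2 : ∀ᶠ t in 𝓝[≠] t0, (t0 / 2 < t ∧ t < 2 * t0) ∧
      (ContDiff ℝ 1 (ψ t) ∧ (∀ x, |ψ t x| ≤ M) ∧ (∀ x, ‖gradient (ψ t) x‖ ≤ M)) :=
    eventually_nhdsWithin_of_eventually_nhds (hr0.and hψ)
  filter_upwards [h2] with t ht
  rw [hform t ht.1.1 ht.2]
  ring

end Pool.Agent.Work.MP_9371de_an

end

section

/-!
MP_9371de_an, item E4: a small `BV` norm and bounded mass imply a small `L^(1+1/(2d))` norm.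
-/

open MeasureTheory Set Filter Topology
open scoped Real InnerProductSpace ENNReal

set_option autoImplicit false

namespace Pool.Agent.Work.MP_9371de_an

/-- The `L¹` distance to the heat regularisation. -/
theorem E4_l1 (h1 : ClaimH1) (h2 : ClaimH2) (hTR : ClaimTR) {d : ℕ} {f : E d → ℝ} {N τ : ℝ}
    (hf : ContDiff ℝ 1 f) (h0 : ∀ x, 0 ≤ f x) (hN : ∀ x, f x ≤ N)
    (hg : Integrable (gradient f)) (hτ : 0 < τ) :
    ∫⁻ x, ‖f x - P τ f x‖ₑ ≤ ENNReal.ofReal (Real.sqrt (2 * d * τ) * ∫ x, ‖gradient f x‖) := by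
  obtain ⟨hpos, hcont, hint, hone, hbd, -, -, -, -⟩ := h1 d τ hτ
  obtain ⟨-, -, -, hint1, hle1⟩ := h2 d τ hτ
  set D := ∫ x, ‖gradient f x‖ with hDdef
  have hD : 0 ≤ D := integral_nonneg fun x => norm_nonneg _
  have e1 : ∀ x, f x - P τ f x = ∫ y, heat d τ y * (f x - f (x - y)) := by
    intro x
    have c1 : P τ f x = ∫ y, heat d τ y * f (x - y) := by
      have := integral_sub_left_eq_self (fun y => heat d τ y * f (x - y)) volume x
      simp only [sub_sub_cancel] at this
      exact this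
    rw [c1]
    have i1 : Integrable (fun y => heat d τ y * f x) := hint.mul_const _
    have i2 : Integrable (fun y => heat d τ y * f (x - y)) := by
      refine hint.mul_bdd (c := N) ?_ (ae_of_all _ fun y => ?_)
      · exact (hf.continuous.comp (continuous_const.sub continuous_id)).aestronglyMeasurable
      · rw [Real.norm_of_nonneg (h0 _)]
        exact hN _
    simp_rw [mul_sub]
    rw [integral_sub i1 i2, integral_mul_const, hone, one_mul]
  have e2 : ∀ x, ‖f x - P τ f x‖ₑ ≤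
      ∫⁻ y, ENNReal.ofReal (heat d τ y) * ‖f (x + -y) - f x‖ₑ := by
    intro x
    rw [e1]
    refine (enorm_integral_le_lintegral_enorm _).trans (lintegral_mono fun y => ?_)
    rw [enorm_mul, Real.enorm_of_nonneg (hpos y).le, enorm_sub_rev, ← sub_eq_add_neg]
  have hm : Measurable (fun p : E d × E d =>
      ENNReal.ofReal (heat d τ p.2) * ‖f (p.1 + -p.2) - f p.1‖ₑ) := by
    have m1 : Measurable (fun p : E d × E d => ENNReal.ofReal (heat d τ p.2)) :=
      (hcont.measurable.comp measurable_snd).ennreal_ofReal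
    have m2 : Continuous (fun p : E d × E d => f (p.1 + -p.2) - f p.1) := by
      have := hf.continuous
      fun_prop
    exact m1.mul m2.measurable.enorm
  have e3 : ∀ y, ∫⁻ x, ‖f (x + -y) - f x‖ₑ ≤ ENNReal.ofReal (‖y‖ * D) := by
    intro y
    obtain ⟨t1, t2⟩ := (hTR d f hf).1 hg (-y)
    rw [norm_neg] at t2
    rw [← ofReal_integral_norm_eq_lintegral_enorm t1]
    exact ENNReal.ofReal_le_ofReal t2
  calc ∫⁻ x, ‖f x - P τ f x‖ₑ
      ≤ ∫⁻ x, ∫⁻ y, ENNReal.ofReal (heat d τ y) * ‖f (x + -y) - f x‖ₑ := lintegral_mono e2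
    _ = ∫⁻ y, ∫⁻ x, ENNReal.ofReal (heat d τ y) * ‖f (x + -y) - f x‖ₑ :=
        lintegral_lintegral_swap hm.aemeasurable
    _ = ∫⁻ y, ENNReal.ofReal (heat d τ y) * ∫⁻ x, ‖f (x + -y) - f x‖ₑ := by
        refine lintegral_congr fun y => ?_
        rw [lintegral_const_mul' _ _ ENNReal.ofReal_ne_top]
    _ ≤ ∫⁻ y, ENNReal.ofReal (heat d τ y * ‖y‖ * D) := by
        refine lintegral_mono fun y => ?_
        rw [mul_assoc, ENNReal.ofReal_mul (hpos y).le]
        gcongr
        exact e3 y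
    _ = ENNReal.ofReal (∫ y, heat d τ y * ‖y‖ * D) := by
        rw [ofReal_integral_eq_lintegral_ofReal (hint1.mul_const D)
          (ae_of_all _ fun y => mul_nonneg (mul_nonneg (hpos y).le (norm_nonneg _)) hD)]
    _ ≤ _ := by
        apply ENNReal.ofReal_le_ofReal
        rw [integral_mul_const]
        gcongr

/-- The weak type estimate. -/
theorem E4_weak (h1 : ClaimH1) (h2 : ClaimH2) (hTR : ClaimTR) {d : ℕ} {f : E d → ℝ} {N τ l M : ℝ}
    (hf : ContDiff ℝ 1 f) (h0 : ∀ x, 0 ≤ f x) (hN : ∀ x, f x ≤ N) (hi : Integrable f)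
    (hg : Integrable (gradient f)) (hM : ∫ x, f x ≤ M) (hτ : 0 < τ) (hl : 0 < l)
    (hτM : (4 * π * τ) ^ (-(d : ℝ) / 2) * M ≤ l / 2) :
    volume {x | l < f x} ≤
      ENNReal.ofReal (2 / l * (Real.sqrt (2 * d * τ) * ∫ x, ‖gradient f x‖)) := by
  obtain ⟨hpos, hcont, hint, hone, hbd, -, -, -, -⟩ := h1 d τ hτ
  have hP : ∀ x, P τ f x ≤ l / 2 := by
    intro x
    refine le_trans ?_ hτM
    have hK : 0 ≤ (4 * π * τ) ^ (-(d : ℝ) / 2) := by positivity
    calc P τ f x ≤ ∫ y, (4 * π * τ) ^ (-(d : ℝ) / 2) * f y := by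
          apply integral_mono_of_nonneg
          · exact ae_of_all _ fun y => mul_nonneg (hpos _).le (h0 y)
          · exact hi.const_mul _
          · exact ae_of_all _ fun y => mul_le_mul_of_nonneg_right (hbd _) (h0 y)
      _ = (4 * π * τ) ^ (-(d : ℝ) / 2) * ∫ y, f y := integral_const_mul _ _
      _ ≤ _ := mul_le_mul_of_nonneg_left hM hK
  have hl1 := E4_l1 h1 h2 hTR hf h0 hN hg hτ
  set B := Real.sqrt (2 * d * τ) * ∫ x, ‖gradient f x‖ with hB
  have hsub : {x | l < f x} ⊆ {x | ENNReal.ofReal (l / 2) ≤ ‖f x - P τ f x‖ₑ} := by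
    intro x hx
    have hx' : l < f x := hx
    show ENNReal.ofReal (l / 2) ≤ ‖f x - P τ f x‖ₑ
    rw [Real.enorm_eq_ofReal_abs]
    apply ENNReal.ofReal_le_ofReal
    have := hP x
    refine le_trans ?_ (le_abs_self _)
    linarith
  have hmk : ENNReal.ofReal (l / 2) * volume {x | ENNReal.ofReal (l / 2) ≤ ‖f x - P τ f x‖ₑ} ≤
      ∫⁻ x, ‖f x - P τ f x‖ₑ := by
    have hPc : AEStronglyMeasurable (P τ f) volume := by
      have hm : Measurable (fun p : E d × E d => heat d τ (p.1 - p.2) * f p.2) := by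
        apply Continuous.measurable
        have := hf.continuous
        fun_prop
      exact (hm.stronglyMeasurable.integral_prod_right (ν := volume)).aestronglyMeasurable
    exact mul_meas_ge_le_lintegral₀
      ((hf.continuous.aestronglyMeasurable.sub hPc).enorm) _
  have h3 := (mul_le_mul_right (measure_mono hsub) (ENNReal.ofReal (l / 2))).trans
    (hmk.trans hl1)
  have hl2 : ENNReal.ofReal (l / 2) ≠ 0 := by
    rw [Ne, ENNReal.ofReal_eq_zero, not_le]
    positivity
  rw [mul_comm, ← ENNReal.le_div_iff_mul_le (Or.inl hl2) (Or.inl ENNReal.ofReal_ne_top)] at h3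
  refine h3.trans (le_of_eq ?_)
  rw [← ENNReal.ofReal_div_of_pos (by positivity)]
  congr 1
  field_simp

/-- The layer cake estimate. -/
theorem E4_cake {d : ℕ} (hd : 0 < d) {f : E d → ℝ} {M B s : ℝ} (hfc : Continuous f)
    (h0 : ∀ x, 0 ≤ f x) (hM : 0 ≤ M) (hB : 0 ≤ B) (hs : 0 < s)
    (hw1 : ∀ l, 0 < l → volume {x | l < f x} ≤ ENNReal.ofReal (M / l))
    (hw2 : ∀ l, 0 < l → volume {x | l < f x} ≤
      ENNReal.ofReal (B * l ^ (-1 - 1 / (d : ℝ)))) :
    ∫⁻ x, ENNReal.ofReal (f x ^ (1 + 1 / (2 * (d : ℝ)))) ≤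
      ENNReal.ofReal ((1 + 1 / (2 * (d : ℝ))) * (2 * d * (M * s + B / s))) := by
  have hdR : (0 : ℝ) < d := by exact_mod_cast hd
  set e : ℝ := 1 / (2 * (d : ℝ)) with he
  have he0 : 0 < e := by positivity
  have he2 : 1 / (d : ℝ) = 2 * e := by rw [he]; field_simp
  have hed : 2 * (d : ℝ) * e = 1 := by rw [he]; field_simp
  set δ : ℝ := s ^ (2 * (d : ℝ)) with hδ
  have hδ0 : 0 < δ := Real.rpow_pos_of_pos hs _
  have hδe : δ ^ e = s := by
    rw [hδ, ← Real.rpow_mul hs.le, hed, Real.rpow_one]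
  have hδe' : δ ^ (-e) = s⁻¹ := by rw [Real.rpow_neg hδ0.le, hδe]
  rw [lintegral_rpow_eq_lintegral_meas_lt_mul volume (ae_of_all _ h0)
    hfc.measurable.aemeasurable (by positivity : 0 < 1 + e),
    ENNReal.ofReal_mul (by positivity)]
  gcongr
  have hexp : 1 + e - 1 = e := by ring
  rw [hexp, ← Ioc_union_Ioi_eq_Ioi hδ0.le]
  refine (lintegral_union_le _ _ _).trans ?_
  have hint1 : IntegrableOn (fun t : ℝ => M * t ^ (e - 1)) (Ioc 0 δ) := by
    apply Integrable.const_mul
    have := (intervalIntegral.intervalIntegrable_rpow' (a := 0) (b := δ) (r := e - 1)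
      (by linarith)).1
    exact this
  have hint2 : IntegrableOn (fun t : ℝ => B * t ^ (-1 - e)) (Ioi δ) :=
    (integrableOn_Ioi_rpow_of_lt (by linarith) hδ0).const_mul B
  have p1 : ∫⁻ t in Ioc 0 δ, volume {a | t < f a} * ENNReal.ofReal (t ^ e) ≤
      ENNReal.ofReal (2 * d * (M * s)) := by
    calc ∫⁻ t in Ioc 0 δ, volume {a | t < f a} * ENNReal.ofReal (t ^ e)
        ≤ ∫⁻ t in Ioc 0 δ, ENNReal.ofReal (M * t ^ (e - 1)) := by
          apply lintegral_mono_ae
          filter_upwards [ae_restrict_mem measurableSet_Ioc] with t ht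
          have ht0 : 0 < t := ht.1
          have e1 : M * t ^ (e - 1) = M / t * t ^ e := by
            rw [Real.rpow_sub ht0, Real.rpow_one]
            ring
          rw [e1, ENNReal.ofReal_mul (by positivity)]
          gcongr
          exact hw1 t ht0
      _ = ENNReal.ofReal (∫ t in Ioc 0 δ, M * t ^ (e - 1)) := by
          rw [ofReal_integral_eq_lintegral_ofReal hint1]
          filter_upwards [ae_restrict_mem measurableSet_Ioc] with t ht
          have ht0 : 0 < t := ht.1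
          positivity
      _ = ENNReal.ofReal (2 * d * (M * s)) := by
          congr 1
          rw [integral_const_mul, ← intervalIntegral.integral_of_le hδ0.le,
            integral_rpow (Or.inl (by linarith))]
          rw [sub_add_cancel, Real.zero_rpow he0.ne', hδe, sub_zero]
          have : s / e = 2 * d * s := by
            rw [div_eq_iff he0.ne']
            linear_combination (-s) * hed
          rw [this]
          ring
  have p2 : ∫⁻ t in Ioi δ, volume {a | t < f a} * ENNReal.ofReal (t ^ e) ≤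
      ENNReal.ofReal (2 * d * (B / s)) := by
    calc ∫⁻ t in Ioi δ, volume {a | t < f a} * ENNReal.ofReal (t ^ e)
        ≤ ∫⁻ t in Ioi δ, ENNReal.ofReal (B * t ^ (-1 - e)) := by
          apply lintegral_mono_ae
          filter_upwards [ae_restrict_mem measurableSet_Ioi] with t ht
          have ht0 : 0 < t := hδ0.trans ht
          have e1 : B * t ^ (-1 - e) = B * t ^ (-1 - 1 / (d : ℝ)) * t ^ e := by
            rw [mul_assoc, ← Real.rpow_add ht0, he2]
            congr 2
            ring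
          rw [e1, ENNReal.ofReal_mul (by positivity)]
          gcongr
          exact hw2 t ht0
      _ = ENNReal.ofReal (∫ t in Ioi δ, B * t ^ (-1 - e)) := by
          rw [ofReal_integral_eq_lintegral_ofReal hint2]
          filter_upwards [ae_restrict_mem measurableSet_Ioi] with t ht
          have ht0 : 0 < t := hδ0.trans ht
          positivity
      _ = ENNReal.ofReal (2 * d * (B / s)) := by
          congr 1
          rw [integral_const_mul, integral_Ioi_rpow_of_lt (by linarith) hδ0]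
          have e2 : -1 - e + 1 = -e := by ring
          rw [e2, hδe']
          have : -s⁻¹ / -e = 2 * d * s⁻¹ := by
            rw [neg_div_neg_eq, div_eq_iff he0.ne']
            linear_combination (-s⁻¹) * hed
          rw [this]
          ring
  refine (add_le_add p1 p2).trans (le_of_eq ?_)
  rw [← ENNReal.ofReal_add (by positivity) (by positivity)]
  congr 1
  ring

theorem itemE4 (h1 : ClaimH1) (h2 : ClaimH2) (hTR : ClaimTR) : ClaimE4 := by
  intro d M0 η hd hη
  have hdR : (0 : ℝ) < d := by exact_mod_cast hd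
  set M : ℝ := max M0 1 with hMdef
  have hM1 : 1 ≤ M := le_max_right _ _
  have hM0 : 0 < M := by linarith
  set p : ℝ := 1 + 1 / (2 * (d : ℝ)) with hp
  have hp0 : 0 < p := by positivity
  -- the constant of the weak type estimate
  set C : ℝ := 2 * Real.sqrt (2 * d * (1 / (4 * π) * (2 * M) ^ (2 / (d : ℝ)))) with hC
  have hC0 : 0 < C := by positivity
  set s : ℝ := η / (4 * p * d * M) with hs
  have hs0 : 0 < s := by positivity
  set α : ℝ := η * s / (4 * p * d * C) with hα
  have hα0 : 0 < α := by positivity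
  refine ⟨α, hα0, ?_⟩
  intro f N hf h0 hN hi hg hMf hgα
  have hMf' : ∫ x, f x ≤ M := hMf.trans (le_max_left _ _)
  have hw1 : ∀ l, 0 < l → volume {x | l < f x} ≤ ENNReal.ofReal (M / l) := by
    intro l hl
    have h3 : ENNReal.ofReal l * volume {x | ENNReal.ofReal l ≤ ENNReal.ofReal (f x)} ≤
        ∫⁻ x, ENNReal.ofReal (f x) :=
      mul_meas_ge_le_lintegral₀ hf.continuous.measurable.ennreal_ofReal.aemeasurable _
    rw [← ofReal_integral_eq_lintegral_ofReal hi (ae_of_all _ h0)] at h3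
    have hsub : {x | l < f x} ⊆ {x | ENNReal.ofReal l ≤ ENNReal.ofReal (f x)} := by
      intro x hx
      exact ENNReal.ofReal_le_ofReal (le_of_lt hx)
    have h4 := (mul_le_mul_right (measure_mono hsub) (ENNReal.ofReal l)).trans
      (h3.trans (ENNReal.ofReal_le_ofReal hMf'))
    have hl2 : ENNReal.ofReal l ≠ 0 := by
      rw [Ne, ENNReal.ofReal_eq_zero, not_le]
      exact hl
    rw [mul_comm, ← ENNReal.le_div_iff_mul_le (Or.inl hl2) (Or.inl ENNReal.ofReal_ne_top)] at h4
    rwa [← ENNReal.ofReal_div_of_pos hl] at h4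
  have hw2 : ∀ l, 0 < l → volume {x | l < f x} ≤
      ENNReal.ofReal (C * α * l ^ (-1 - 1 / (d : ℝ))) := by
    intro l hl
    set τ : ℝ := 1 / (4 * π) * (2 * M / l) ^ (2 / (d : ℝ)) with hτ
    have hτ0 : 0 < τ := by positivity
    have e1 : (4 * π * τ) ^ (-(d : ℝ) / 2) * M ≤ l / 2 := by
      have e2 : 4 * π * τ = (2 * M / l) ^ (2 / (d : ℝ)) := by
        rw [hτ]
        have := Real.pi_pos
        field_simp
      rw [e2, ← Real.rpow_mul (by positivity)]
      have e3 : 2 / (d : ℝ) * (-(d : ℝ) / 2) = -1 := by field_simp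
      rw [e3, Real.rpow_neg_one]
      apply le_of_eq
      field_simp
    refine (E4_weak h1 h2 hTR hf h0 hN hi hg hMf' hτ0 hl e1).trans ?_
    apply ENNReal.ofReal_le_ofReal
    have e4 : Real.sqrt (2 * d * τ) =
        Real.sqrt (2 * d * (1 / (4 * π) * (2 * M) ^ (2 / (d : ℝ)))) * l ^ (-(1 / (d : ℝ))) := by
      have e5 : 2 * d * τ = (2 * d * (1 / (4 * π) * (2 * M) ^ (2 / (d : ℝ)))) *
          (l ^ (-(1 / (d : ℝ)))) ^ 2 := by
        have e6 : (l ^ (-(1 / (d : ℝ)))) ^ 2 = (l ^ (2 / (d : ℝ)))⁻¹ := by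
          rw [← Real.rpow_natCast, ← Real.rpow_mul hl.le, ← Real.rpow_neg hl.le]
          congr 1
          push_cast
          ring
        rw [e6, hτ, Real.div_rpow (by positivity) hl.le]
        ring
      rw [e5, Real.sqrt_mul (by positivity), Real.sqrt_sq (by positivity)]
    have e7 : l ^ (-1 - 1 / (d : ℝ)) = l⁻¹ * l ^ (-(1 / (d : ℝ))) := by
      rw [← Real.rpow_neg_one l, ← Real.rpow_add hl]
      congr 1
    rw [e4, e7]
    have e8 : 2 / l * (Real.sqrt (2 * d * (1 / (4 * π) * (2 * M) ^ (2 / (d : ℝ)))) *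
        l ^ (-(1 / (d : ℝ))) * ∫ x, ‖gradient f x‖) =
        C * (∫ x, ‖gradient f x‖) * (l⁻¹ * l ^ (-(1 / (d : ℝ)))) := by
      rw [hC]
      ring
    rw [e8]
    gcongr
  have key := E4_cake hd (f := f) (M := M) (B := C * α) (s := s) hf.continuous h0 hM0.le
    (by positivity) hs0 hw1 hw2
  have hval : p * (2 * d * (M * s + C * α / s)) = η := by
    rw [hα, hs]
    field_simp
    ring
  rw [← hp, hval] at key
  have hmeas : AEStronglyMeasurable (fun x => f x ^ p) volume :=
    (hf.continuous.rpow_const fun x => Or.inr hp0.le).aestronglyMeasurable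
  have hnn : ∀ x, 0 ≤ f x ^ p := fun x => Real.rpow_nonneg (h0 x) _
  constructor
  · refine ⟨hmeas, ?_⟩
    rw [hasFiniteIntegral_iff_ofReal (ae_of_all _ hnn)]
    exact key.trans_lt ENNReal.ofReal_lt_top
  · rw [integral_eq_lintegral_of_nonneg_ae (ae_of_all _ hnn) hmeas]
    exact ENNReal.toReal_le_of_le_ofReal hη.le key

end Pool.Agent.Work.MP_9371de_an

end

section

/-!
Item EN: derivative of convex functionals.
-/

open MeasureTheory Set Filter Topology
open scoped Real InnerProductSpace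

namespace Pool.Agent.Work.MP_9371de_an

namespace EN

/-! ### Calculus of gradients -/

theorem grad_comp {d : ℕ} {φ : ℝ → ℝ} {z : E d → ℝ} {x : E d} {φ' : ℝ} {z' : E d}
    (hφ : HasDerivAt φ φ' (z x)) (hz : HasGradientAt z z' x) :
    HasGradientAt (fun y => φ (z y)) (φ' • z') x := by
  have h := HasDerivAt.comp_hasFDerivAt x hφ hz.hasFDerivAt
  show HasFDerivAt _ _ _
  have e : (InnerProductSpace.toDual ℝ (E d)) (φ' • z') =
      φ' • (InnerProductSpace.toDual ℝ (E d)) z' := by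
    ext y
    simp [real_inner_smul_left]
  rw [e]
  exact h

theorem grad_quot {d : ℕ} {f H : E d → ℝ} {x f' H' : E d} (hf : HasGradientAt f f' x)
    (hH : HasGradientAt H H' x) (h0 : H x ≠ 0) :
    HasGradientAt (fun y => f y / H y) ((H x)⁻¹ • f' - (f x / H x ^ 2) • H') x := by
  have h1 : HasGradientAt (fun y => (H y)⁻¹) ((-(H x ^ 2)⁻¹) • H') x :=
    grad_comp (hasDerivAt_inv h0) hH
  have h2 := hf.hasFDerivAt.mul h1.hasFDerivAt
  show HasFDerivAt _ _ _
  have e : (InnerProductSpace.toDual ℝ (E d)) ((H x)⁻¹ • f' - (f x / H x ^ 2) • H') =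
      f x • (InnerProductSpace.toDual ℝ (E d)) ((-(H x ^ 2)⁻¹) • H') +
        (H x)⁻¹ • (InnerProductSpace.toDual ℝ (E d)) f' := by
    ext y
    simp [real_inner_smul_left, inner_sub_left]
    ring
  rw [e]
  refine h2.congr_of_eventuallyEq (Filter.Eventually.of_forall fun y => ?_)
  simp [div_eq_mul_inv]

theorem contDiff_of_grad {d : ℕ} {f : E d → ℝ} {g : E d → E d}
    (h : ∀ x, HasGradientAt f (g x) x) (hg : Continuous g) : ContDiff ℝ 1 f := by
  rw [contDiff_one_iff_fderiv]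
  refine ⟨fun x => (h x).hasFDerivAt.differentiableAt, ?_⟩
  have e : fderiv ℝ f = fun x => (InnerProductSpace.toDual ℝ (E d)) (g x) := by
    funext x
    exact (h x).hasFDerivAt.fderiv
  rw [e]
  exact (InnerProductSpace.toDual ℝ (E d)).continuous.comp hg

theorem hasGradient {d : ℕ} {f : E d → ℝ} (h : ContDiff ℝ 1 f) (x : E d) :
    HasGradientAt f (gradient f x) x :=
  (h.differentiable (by norm_num) x).hasGradientAt

theorem continuous_gradient {d : ℕ} {f : E d → ℝ} (h : ContDiff ℝ 1 f) :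
    Continuous (gradient f) := by
  have h1 : Continuous (fderiv ℝ f) := h.continuous_fderiv (by norm_num)
  exact (InnerProductSpace.toDual ℝ (E d)).symm.continuous.comp h1

/-! ### Convex functions -/

section

variable {φ φ' φ'' : ℝ → ℝ} (hc : ConvFn φ φ' φ'')

include hc

theorem mono : MonotoneOn φ' (Ici 0) := by
  apply monotoneOn_of_deriv_nonneg (convex_Ici 0)
  · exact fun z hz => (hc.d2 z hz).continuousAt.continuousWithinAt
  · exact fun z hz => (hc.d2 z (interior_subset hz)).differentiableAt.differentiableWithinAt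
  · intro z hz
    rw [(hc.d2 z (interior_subset hz)).deriv]
    exact hc.nonneg z (interior_subset hz)

theorem ineq {u v : ℝ} (hu : 0 ≤ u) (hv : 0 ≤ v) : φ' u * (v - u) ≤ φ v - φ u := by
  rcases lt_trichotomy u v with h | h | h
  · obtain ⟨ξ, hξ, he⟩ := exists_hasDerivAt_eq_slope φ φ' h
      (fun z hz => (hc.d1 z (hu.trans hz.1)).continuousAt.continuousWithinAt)
      (fun z hz => hc.d1 z (hu.trans hz.1.le))
    have h1 : φ' u ≤ φ' ξ := mono hc hu (hu.trans hξ.1.le) hξ.1.le
    have h2 : 0 < v - u := sub_pos.2 h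
    rw [eq_div_iff h2.ne'] at he
    rw [← he]
    exact mul_le_mul_of_nonneg_right h1 h2.le
  · subst h
    simp
  · obtain ⟨ξ, hξ, he⟩ := exists_hasDerivAt_eq_slope φ φ' h
      (fun z hz => (hc.d1 z (hv.trans hz.1)).continuousAt.continuousWithinAt)
      (fun z hz => hc.d1 z (hv.trans hz.1.le))
    have h1 : φ' ξ ≤ φ' u := mono hc (hv.trans hξ.1.le) hu hξ.2.le
    have h2 : 0 < u - v := sub_pos.2 h
    rw [eq_div_iff h2.ne'] at he
    nlinarith [mul_le_mul_of_nonneg_right h1 h2.le]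

theorem bound {Z : ℝ} : ∃ M, 0 ≤ M ∧ ∀ z, 0 ≤ z → z ≤ Z →
    |φ' z| ≤ M ∧ |φ'' z| ≤ M ∧ |φ z| ≤ M * z := by
  obtain ⟨M1, h1⟩ := isCompact_Icc.exists_bound_of_continuousOn (s := Icc 0 Z) (f := φ')
    (fun z hz => (hc.d2 z hz.1).continuousAt.continuousWithinAt)
  obtain ⟨M2, h2⟩ := isCompact_Icc.exists_bound_of_continuousOn (s := Icc 0 Z) (f := φ'')
    (hc.cont.mono (fun z hz => hz.1))
  refine ⟨max 0 (max M1 M2), le_max_left _ _, fun z hz0 hzZ => ?_⟩
  have hZ : 0 ≤ Z := hz0.trans hzZ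
  have e1 : |φ' z| ≤ max 0 (max M1 M2) :=
    (h1 z ⟨hz0, hzZ⟩).trans ((le_max_left _ _).trans (le_max_right _ _))
  have e2 : |φ'' z| ≤ max 0 (max M1 M2) :=
    (h2 z ⟨hz0, hzZ⟩).trans ((le_max_right _ _).trans (le_max_right _ _))
  have e0 : |φ' 0| ≤ max 0 (max M1 M2) :=
    (h1 0 ⟨le_rfl, hZ⟩).trans ((le_max_left _ _).trans (le_max_right _ _))
  refine ⟨e1, e2, ?_⟩
  have i1 := ineq hc le_rfl hz0
  have i2 := ineq hc hz0 le_rfl
  rw [hc.zero] at i1 i2
  rw [abs_le]
  have a1 := (abs_le.1 e1).2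
  have a0 := (abs_le.1 e0).1
  constructor
  · nlinarith [mul_le_mul_of_nonneg_right a0 hz0]
  · nlinarith [mul_le_mul_of_nonneg_right a1 hz0]

end

end EN

open EN in
theorem itemEN (hCC : ClaimCC) (hDL : ClaimDL) : ClaimEN := by
  intro d A K m κ κ' c W H h ρ φ φ' φ'' hG hκ hκ1 hw hD hGD hH hHc hHg hhc hc
  obtain ⟨c1, c2, c3, c4⟩ := hCC d A K m W ρ hG
  have c4' := c4 κ h hκ hκ1 hw hD hGD
  have hc0 : 0 ≤ c := by
    by_contra hn
    have h1 := hhc 0
    have h2 := hw.pos 0
    have h3 := hH 0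
    nlinarith
  have hκ' : 0 ≤ κ' := by
    by_contra hn
    have h1 := (norm_nonneg _).trans (hHg 0)
    have h3 := hH 0
    nlinarith
  -- notation
  set z : ℝ → E d → ℝ := fun t x => ρ t x / H x with hz
  set gz : ℝ → E d → E d := fun t x =>
    (H x)⁻¹ • gradient (ρ t) x - (ρ t x / H x ^ 2) • gradient H x with hgz
  set ψ : ℝ → E d → ℝ := fun t x => φ' (z t x) with hψ
  have hz0 : ∀ t x, 0 ≤ z t x := fun t x => div_nonneg (hG.nonneg t x) (hH x).le
  have hρc : ∀ t, 0 < t → Continuous (ρ t) := fun t ht => (hG.c1 t ht).continuous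
  have hgρc : ∀ t, 0 < t → Continuous (gradient (ρ t)) := fun t ht =>
    continuous_gradient (hG.c1 t ht)
  have hHc' : Continuous H := hHc.continuous
  have hgHc : Continuous (gradient H) := continuous_gradient hHc
  have hHne : ∀ x, H x ≠ 0 := fun x => (hH x).ne'
  have hzc : ∀ t, 0 < t → Continuous (z t) := fun t ht => (hρc t ht).div hHc' hHne
  have hgzc : ∀ t, 0 < t → Continuous (gz t) := by
    intro t ht
    exact ((hHc'.inv₀ hHne).smul (hgρc t ht)).sub
      (((hρc t ht).div (hHc'.pow 2) (fun x => pow_ne_zero _ (hHne x))).smul hgHc)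
  have hzg : ∀ t, 0 < t → ∀ x, HasGradientAt (z t) (gz t x) x := fun t ht x =>
    grad_quot (hasGradient (hG.c1 t ht) x) (hasGradient hHc x) (hHne x)
  have hψg : ∀ t, 0 < t → ∀ x, HasGradientAt (ψ t) (φ'' (z t x) • gz t x) x := fun t ht x =>
    grad_comp (hc.d2 _ (hz0 t x)) (hzg t ht x)
  have hφ''c : ∀ t, 0 < t → Continuous (fun x => φ'' (z t x)) := fun t ht =>
    hc.cont.comp_continuous (hzc t ht) (fun x => hz0 t x)
  have hφ'c : ∀ t, 0 < t → Continuous (ψ t) := by
    intro t ht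
    have h1 : ContinuousOn φ' (Ici 0) :=
      fun w hw => (hc.d2 w hw).continuousAt.continuousWithinAt
    exact h1.comp_continuous (hzc t ht) (fun x => hz0 t x)
  have hφc : ∀ t, 0 < t → Continuous (fun x => φ (z t x)) := by
    intro t ht
    have h1 : ContinuousOn φ (Ici 0) :=
      fun w hw => (hc.d1 w hw).continuousAt.continuousWithinAt
    exact h1.comp_continuous (hzc t ht) (fun x => hz0 t x)
  have hψ1 : ∀ t, 0 < t → ContDiff ℝ 1 (ψ t) := fun t ht =>
    contDiff_of_grad (hψg t ht) ((hφ''c t ht).smul (hgzc t ht))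
  have hψgrad : ∀ t, 0 < t → ∀ x, gradient (ψ t) x = φ'' (z t x) • gz t x := fun t ht x =>
    (hψg t ht x).gradient
  -- bounds on compact time intervals
  have hbd : ∀ a T : ℝ, 0 < a → ∃ C M : ℝ, 0 ≤ C ∧ 0 ≤ M ∧ ∀ t, a ≤ t → t ≤ T → ∀ x,
      |ψ t x| ≤ M ∧ |φ'' (z t x)| * ‖gz t x‖ ≤ M ∧ |φ (z t x)| ≤ M * z t x ∧
        ‖cur W (ρ t) x‖ ≤ C * h x := by
    intro a T ha
    obtain ⟨C, hC, hb⟩ := c4' a T ha
    obtain ⟨M, hM, hbM⟩ := bound hc (Z := C * c)
    have hzb : ∀ t, a ≤ t → t ≤ T → ∀ x, z t x ≤ C * c := by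
      intro t h1 h2 x
      rw [hz]
      show ρ t x / H x ≤ C * c
      rw [div_le_iff₀ (hH x)]
      calc ρ t x ≤ C * h x := (hb t h1 h2 x).1
        _ ≤ C * (c * H x) := mul_le_mul_of_nonneg_left (hhc x) hC
        _ = C * c * H x := by ring
    have hgzb : ∀ t, a ≤ t → t ≤ T → ∀ x, ‖gz t x‖ ≤ C * c + C * c * κ' := by
      intro t h1 h2 x
      have hHx := hH x
      have n1 : ‖(H x)⁻¹ • gradient (ρ t) x‖ ≤ C * c := by
        rw [norm_smul, Real.norm_eq_abs, abs_of_pos (inv_pos.2 hHx), inv_mul_le_iff₀ hHx]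
        calc ‖gradient (ρ t) x‖ ≤ C * h x := (hb t h1 h2 x).2.1
          _ ≤ C * (c * H x) := mul_le_mul_of_nonneg_left (hhc x) hC
          _ = H x * (C * c) := by ring
      have n2 : ‖(ρ t x / H x ^ 2) • gradient H x‖ ≤ C * c * κ' := by
        rw [norm_smul, Real.norm_eq_abs, abs_of_nonneg
          (div_nonneg (hG.nonneg t x) (by positivity))]
        calc ρ t x / H x ^ 2 * ‖gradient H x‖ ≤ ρ t x / H x ^ 2 * (κ' * H x) :=
              mul_le_mul_of_nonneg_left (hHg x) (div_nonneg (hG.nonneg t x) (by positivity))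
          _ = z t x * κ' := by
              rw [hz]
              show _ = ρ t x / H x * κ'
              field_simp
          _ ≤ C * c * κ' := mul_le_mul_of_nonneg_right (hzb t h1 h2 x) hκ'
      exact (norm_sub_le _ _).trans (add_le_add n1 n2)
    have hL : 0 ≤ C * c + C * c * κ' := by positivity
    refine ⟨C, M + M * (C * c + C * c * κ'), hC, by positivity, fun t h1 h2 x => ?_⟩
    obtain ⟨m1, m2, m3⟩ := hbM (z t x) (hz0 t x) (hzb t h1 h2 x)
    have hML : 0 ≤ M * (C * c + C * c * κ') := by positivity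
    refine ⟨by linarith, ?_, ?_, (hb t h1 h2 x).2.2⟩
    · have := mul_le_mul m2 (hgzb t h1 h2 x) (norm_nonneg _) hM
      linarith
    · have := mul_nonneg hML (hz0 t x)
      nlinarith
  -- integrability
  have hint : ∀ t, 0 < t → Integrable (fun x => H x * φ (z t x)) := by
    intro t ht
    obtain ⟨C, M, hC, hM, hb⟩ := hbd t t ht
    refine ((hG.int t ht).const_mul M).mono' (hHc'.mul (hφc t ht)).aestronglyMeasurable
      (Filter.Eventually.of_forall fun x => ?_)
    rw [Real.norm_eq_abs, abs_mul, abs_of_pos (hH x)]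
    calc H x * |φ (z t x)| ≤ H x * (M * z t x) :=
          mul_le_mul_of_nonneg_left (hb t le_rfl le_rfl x).2.2.1 (hH x).le
      _ = M * ρ t x := by
          rw [hz]
          show H x * (M * (ρ t x / H x)) = _
          have := hHne x
          field_simp
  have hintψ : ∀ s t u, 0 < s → 0 < t → 0 < u →
      Integrable (fun x => ψ u x * (ρ t x - ρ s x)) := by
    intro s t u hs ht hu
    obtain ⟨C, M, hC, hM, hb⟩ := hbd u u hu
    exact ((hG.int t ht).sub (hG.int s hs)).bdd_mul (hφ'c u hu).aestronglyMeasurable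
      (Filter.Eventually.of_forall fun x => (hb u le_rfl le_rfl x).1)
  have hpt : ∀ s t x, ψ s x * (ρ t x - ρ s x) ≤ H x * φ (z t x) - H x * φ (z s x) := by
    intro s t x
    have h1 := ineq hc (hz0 s x) (hz0 t x)
    have h2 := mul_le_mul_of_nonneg_left h1 (hH x).le
    have h3 : H x * (φ' (z s x) * (z t x - z s x)) = ψ s x * (ρ t x - ρ s x) := by
      rw [hψ, hz]
      show H x * (φ' (ρ s x / H x) * (ρ t x / H x - ρ s x / H x)) =
        φ' (ρ s x / H x) * (ρ t x - ρ s x)
      have := hHne x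
      field_simp
    rw [h3] at h2
    linarith
  have hent : ∀ t, 0 < t → entProd W H φ'' (ρ t) =
      ∫ x, ⟪gradient (ψ t) x, cur W (ρ t) x⟫_ℝ := by
    intro t ht
    unfold entProd
    refine integral_congr_ae (Filter.Eventually.of_forall fun x => ?_)
    show φ'' (ρ t x / H x) * ⟪gz t x, cur W (ρ t) x⟫_ℝ = ⟪gradient (ψ t) x, cur W (ρ t) x⟫_ℝ
    rw [hψgrad t ht x, real_inner_smul_left]
  -- continuity in time
  have hzt : ∀ x, ContinuousOn (fun t => z t x) (Ioi 0) := fun x => (hG.tcont x).div_const _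
  have hgzt : ∀ x, ContinuousOn (fun t => gz t x) (Ioi 0) := by
    intro x
    have g1 : ContinuousOn (fun t => (H x)⁻¹ • gradient (ρ t) x) (Ioi 0) :=
      ContinuousOn.smul (f := fun _ : ℝ => (H x)⁻¹) (g := fun t => gradient (ρ t) x)
        continuousOn_const (hG.gcont x)
    have g2 : ContinuousOn (fun t => (ρ t x / H x ^ 2) • gradient H x) (Ioi 0) :=
      ContinuousOn.smul (f := fun t => ρ t x / H x ^ 2) (g := fun _ : ℝ => gradient H x)
        ((hG.tcont x).div_const _) continuousOn_const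
    exact g1.sub g2
  have hφ''t : ∀ x, ContinuousOn (fun t => φ'' (z t x)) (Ioi 0) := fun x =>
    hc.cont.comp (hzt x) (fun t _ => hz0 t x)
  have hgψt : ∀ x, ContinuousOn (fun t => φ'' (z t x) • gz t x) (Ioi 0) := fun x =>
    (hφ''t x).smul (hgzt x)
  constructor
  · intro t0 ht0
    obtain ⟨C, M, hC, hM, hb⟩ := hbd (t0 / 2) (2 * t0) (by positivity)
    have hnear : ∀ᶠ t in 𝓝 t0, t0 / 2 ≤ t ∧ t ≤ 2 * t0 :=
      Icc_mem_nhds (by linarith) (by linarith)
    have hgψb : ∀ t, t0 / 2 ≤ t → t ≤ 2 * t0 → ∀ x, ‖gradient (ψ t) x‖ ≤ M := by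
      intro t h1 h2 x
      rw [hψgrad t (by linarith) x, norm_smul, Real.norm_eq_abs]
      exact (hb t h1 h2 x).2.1
    have D1 := hDL d A K m W ρ hG t0 M ψ ht0
      (hnear.mono fun t ht => ⟨hψ1 t (by linarith [ht.1]), fun x => (hb t ht.1 ht.2 x).1,
        hgψb t ht.1 ht.2⟩)
      (by
        intro x
        have h1 : ContinuousAt (fun t => φ'' (z t x) • gz t x) t0 :=
          (hgψt x).continuousAt (Ioi_mem_nhds ht0)
        have h2 : Tendsto (fun t => φ'' (z t x) • gz t x) (𝓝 t0)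
          (𝓝 (gradient (ψ t0) x)) := by
          rw [hψgrad t0 ht0 x]
          exact h1
        refine h2.congr' ?_
        filter_upwards [Ioi_mem_nhds ht0] with t ht
        rw [hψgrad t ht x])
    have D2 := hDL d A K m W ρ hG t0 M (fun _ => ψ t0) ht0
      (Filter.Eventually.of_forall fun t => ⟨hψ1 t0 ht0,
        fun x => (hb t0 (by linarith) (by linarith) x).1,
        hgψb t0 (by linarith) (by linarith)⟩)
      (fun x => tendsto_const_nhds)
    rw [hasDerivAt_iff_tendsto_slope, hent t0 ht0]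
    have hlow : ∀ t, 0 < t → ∫ x, ψ t0 x * (ρ t x - ρ t0 x) ≤
        (∫ x, H x * φ (z t x)) - ∫ x, H x * φ (z t0 x) := by
      intro t ht
      rw [← integral_sub (hint t ht) (hint t0 ht0)]
      exact integral_mono (hintψ t0 t t0 ht0 ht ht0) ((hint t ht).sub (hint t0 ht0))
        (fun x => hpt t0 t x)
    have hupp : ∀ t, 0 < t → (∫ x, H x * φ (z t x)) - ∫ x, H x * φ (z t0 x) ≤
        ∫ x, ψ t x * (ρ t x - ρ t0 x) := by
      intro t ht
      rw [← integral_sub (hint t ht) (hint t0 ht0)]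
      refine integral_mono ((hint t ht).sub (hint t0 ht0)) (hintψ t0 t t ht0 ht ht) (fun x => ?_)
      have := hpt t t0 x
      show H x * φ (z t x) - H x * φ (z t0 x) ≤ ψ t x * (ρ t x - ρ t0 x)
      linarith
    have e1 : ∀ᶠ t in 𝓝[≠] t0, 0 < t := by
      have : ∀ᶠ t in 𝓝 t0, 0 < t := Ioi_mem_nhds ht0
      exact this.filter_mono nhdsWithin_le_nhds
    have hmin := D1.min D2
    have hmax := D1.max D2
    rw [min_self] at hmin
    rw [max_self] at hmax
    refine tendsto_of_tendsto_of_tendsto_of_le_of_le' hmin hmax ?_ ?_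
    · filter_upwards [e1, self_mem_nhdsWithin] with t ht hne
      rw [slope_def_field, div_eq_inv_mul]
      have l := hlow t ht
      have u := hupp t ht
      rcases lt_or_gt_of_ne (show t ≠ t0 from hne) with hlt | hgt
      · have hneg : (t - t0)⁻¹ ≤ 0 := inv_nonpos.2 (by linarith)
        exact (min_le_left _ _).trans (mul_le_mul_of_nonpos_left u hneg)
      · have hpos : 0 ≤ (t - t0)⁻¹ := inv_nonneg.2 (by linarith)
        exact (min_le_right _ _).trans (mul_le_mul_of_nonneg_left l hpos)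
    · filter_upwards [e1, self_mem_nhdsWithin] with t ht hne
      rw [slope_def_field, div_eq_inv_mul]
      have l := hlow t ht
      have u := hupp t ht
      rcases lt_or_gt_of_ne (show t ≠ t0 from hne) with hlt | hgt
      · have hneg : (t - t0)⁻¹ ≤ 0 := inv_nonpos.2 (by linarith)
        exact (mul_le_mul_of_nonpos_left l hneg).trans (le_max_right _ _)
      · have hpos : 0 ≤ (t - t0)⁻¹ := inv_nonneg.2 (by linarith)
        exact (mul_le_mul_of_nonneg_left u hpos).trans (le_max_left _ _)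
  · intro t0 ht0
    have ht0' : 0 < t0 := ht0
    apply ContinuousAt.continuousWithinAt
    obtain ⟨C, M, hC, hM, hb⟩ := hbd (t0 / 2) (2 * t0) (by positivity)
    have hnear : ∀ᶠ t in 𝓝 t0, t0 / 2 ≤ t ∧ t ≤ 2 * t0 :=
      Icc_mem_nhds (by linarith) (by linarith)
    have hF : ContinuousAt (fun t => ∫ x, ⟪φ'' (z t x) • gz t x, cur W (ρ t) x⟫_ℝ) t0 := by
      apply continuousAt_of_dominated (bound := fun x => M * (C * h x))
      · filter_upwards [hnear] with t ht
        have ht' : 0 < t := by linarith [ht.1]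
        exact (((hφ''c t ht').smul (hgzc t ht')).inner (c1 t ht')).aestronglyMeasurable
      · filter_upwards [hnear] with t ht
        refine Filter.Eventually.of_forall fun x => ?_
        obtain ⟨b1, b2, b3, b4⟩ := hb t ht.1 ht.2 x
        calc ‖⟪φ'' (z t x) • gz t x, cur W (ρ t) x⟫_ℝ‖
            ≤ ‖φ'' (z t x) • gz t x‖ * ‖cur W (ρ t) x‖ := norm_inner_le_norm _ _
          _ ≤ M * (C * h x) := by
              refine mul_le_mul ?_ b4 (norm_nonneg _) hM
              rw [norm_smul, Real.norm_eq_abs]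
              exact b2
      · exact (hw.int.const_mul C).const_mul M
      · refine Filter.Eventually.of_forall fun x => ?_
        exact ((hgψt x).continuousAt (Ioi_mem_nhds ht0')).inner ((c2 x).continuousAt
          (Ioi_mem_nhds ht0'))
    refine hF.congr ?_
    filter_upwards [Ioi_mem_nhds ht0'] with t ht
    rw [hent t ht]
    refine integral_congr_ae (Filter.Eventually.of_forall fun x => ?_)
    show ⟪φ'' (z t x) • gz t x, cur W (ρ t) x⟫_ℝ = ⟪gradient (ψ t) x, cur W (ρ t) x⟫_ℝ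
    rw [hψgrad t ht x]

end Pool.Agent.Work.MP_9371de_an

end

section

/-!
[9371de ENTb] the current is small in `L¹` at arbitrarily late times.
-/

open MeasureTheory Set Filter Topology
open scoped Real InnerProductSpace

namespace Pool.Agent.Work.MP_9371de_an

namespace ENTb

/-- the function `φ_θ`. -/
noncomputable def phi (θ z : ℝ) : ℝ := (z + θ) * Real.log (z + θ) - θ * Real.log θ

lemma phi_conv {θ : ℝ} (hθ : 0 < θ) :
    ConvFn (phi θ) (fun z => Real.log (z + θ) + 1) (fun z => (z + θ)⁻¹) := by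
  refine ⟨?_, ?_, ?_, ?_, ?_⟩
  · simp [phi]
  · intro z hz
    have hpos : z + θ ≠ 0 := by positivity
    have h1 : HasDerivAt (fun z : ℝ => z + θ) 1 z := (hasDerivAt_id z).add_const θ
    have h2 : HasDerivAt (fun y : ℝ => y * Real.log y) (Real.log (z + θ) + 1) (z + θ) :=
      Real.hasDerivAt_mul_log hpos
    have h3 : HasDerivAt (fun z : ℝ => (z + θ) * Real.log (z + θ)) (Real.log (z + θ) + 1) z := by
      simpa [Function.comp_def] using h2.comp z h1
    exact h3.sub_const (θ * Real.log θ)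
  · intro z hz
    have hpos : z + θ ≠ 0 := by positivity
    have h1 : HasDerivAt (fun z : ℝ => z + θ) 1 z := (hasDerivAt_id z).add_const θ
    have h2 : HasDerivAt Real.log (z + θ)⁻¹ (z + θ) := Real.hasDerivAt_log hpos
    have h3 := h2.comp z h1
    have h4 := h3.add_const 1
    simpa [Function.comp_def] using h4
  · apply ContinuousOn.inv₀ (by fun_prop)
    intro z hz
    have : (0 : ℝ) ≤ z := hz
    positivity
  · intro z hz
    positivity

lemma phi_upper {θ z : ℝ} (hθ : 0 < θ) (hθ1 : θ ≤ 1) (hz : 0 ≤ z) : phi θ z ≤ z ^ 2 + z := by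
  have hp : 0 < z + θ := by positivity
  have h1 : Real.log (z + θ) ≤ z := by
    have := Real.log_le_sub_one_of_pos hp
    linarith
  have h2 : θ * (Real.log (z + θ) - Real.log θ) ≤ z := by
    have h3 : Real.log (z + θ) - Real.log θ = Real.log ((z + θ) / θ) := by
      rw [Real.log_div hp.ne' hθ.ne']
    have h4 : Real.log ((z + θ) / θ) ≤ (z + θ) / θ - 1 :=
      Real.log_le_sub_one_of_pos (by positivity)
    have h5 : (z + θ) / θ - 1 = z / θ := by
      field_simp
      ring
    rw [h3]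
    calc θ * Real.log ((z + θ) / θ) ≤ θ * (z / θ) := by
          rw [← h5]
          exact mul_le_mul_of_nonneg_left h4 hθ.le
      _ = z := by field_simp
  have h6 : phi θ z = z * Real.log (z + θ) + θ * (Real.log (z + θ) - Real.log θ) := by
    unfold phi
    ring
  have h7 : z * Real.log (z + θ) ≤ z * z := mul_le_mul_of_nonneg_left h1 hz
  rw [h6]
  nlinarith

lemma phi_lower {θ z : ℝ} (hθ : 0 < θ) (hθ1 : θ ≤ 1) (hz : 0 ≤ z) : -1 ≤ phi θ z := by
  have hp : 0 < z + θ := by positivity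
  have h1 : 1 - (z + θ)⁻¹ ≤ Real.log (z + θ) := Real.one_sub_inv_le_log_of_pos hp
  have h2 : (z + θ) * (1 - (z + θ)⁻¹) ≤ (z + θ) * Real.log (z + θ) :=
    mul_le_mul_of_nonneg_left h1 hp.le
  have h3 : (z + θ) * (1 - (z + θ)⁻¹) = z + θ - 1 := by
    field_simp
  have h4 : θ * Real.log θ ≤ 0 :=
    mul_nonpos_of_nonneg_of_nonpos hθ.le (Real.log_nonpos hθ.le hθ1)
  unfold phi
  linarith

/-- upper bound for an integral without integrability of the integrand -/
lemma int_le_of_le {d : ℕ} {f g : E d → ℝ} (hg : Integrable g) (hg0 : ∀ x, 0 ≤ g x)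
    (h : ∀ x, f x ≤ g x) : ∫ x, f x ≤ ∫ x, g x := by
  by_cases hf : Integrable f
  · exact integral_mono hf hg h
  · rw [integral_undef hf]
    exact integral_nonneg hg0

lemma le_int_of_le {d : ℕ} {f g : E d → ℝ} (hg : Integrable g) (hg0 : ∀ x, 0 ≤ g x)
    (h : ∀ x, -g x ≤ f x) : -∫ x, g x ≤ ∫ x, f x := by
  have := int_le_of_le (f := fun x => -f x) hg hg0 (fun x => by linarith [h x])
  rw [integral_neg] at this
  linarith

lemma V_bound {d : ℕ} {A K m : ℝ} {W u : E d → ℝ} (hW : Pot d A K W) (hu : Integrable u)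
    (h0 : ∀ x, 0 ≤ u x) (hm : ∫ x, u x = m) (x : E d) : |V W u x| ≤ A * m := by
  unfold V
  rw [← Real.norm_eq_abs, ← hm, ← integral_const_mul]
  apply norm_integral_le_of_norm_le (hu.const_mul A)
  filter_upwards with y
  rw [norm_mul, Real.norm_eq_abs, Real.norm_eq_abs, abs_of_nonneg (h0 y)]
  exact mul_le_mul_of_nonneg_right (hW.bdd _) (h0 y)

lemma inter_bound {d : ℕ} {A K m : ℝ} {W u : E d → ℝ} (hW : Pot d A K W) (hu : Integrable u)
    (h0 : ∀ x, 0 ≤ u x) (hm : ∫ x, u x = m) :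
    |(1 / 2 : ℝ) * ∫ x, u x * V W u x| ≤ A * m ^ 2 / 2 := by
  have h1 : ‖∫ x, u x * V W u x‖ ≤ ∫ x, (A * m) * u x := by
    apply norm_integral_le_of_norm_le (hu.const_mul (A * m))
    filter_upwards with y
    rw [norm_mul, Real.norm_eq_abs, Real.norm_eq_abs, abs_of_nonneg (h0 y), mul_comm]
    exact mul_le_mul_of_nonneg_right (V_bound hW hu h0 hm y) (h0 y)
  rw [integral_const_mul, hm, Real.norm_eq_abs] at h1
  rw [abs_mul, abs_of_pos (by norm_num : (0 : ℝ) < 1 / 2)]
  nlinarith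

end ENTb

open ENTb in
theorem itemENTb (hEN : ClaimEN) (hINT : ClaimINT) (hENTa : ClaimENTa) (hCC : ClaimCC) :
    ClaimENTb := by
  intro d A K m W ρ hG α t' hα
  by_contra hcon
  push Not at hcon
  have hm0 : 0 ≤ m := by
    rw [← hG.mass 1 one_pos]
    exact integral_nonneg (hG.nonneg 1)
  set a : ℝ := max t' 1 with ha
  have ha1 : 1 ≤ a := le_max_right _ _
  have ha0 : 0 < a := by linarith
  have hlow : ∀ t, a ≤ t → α ≤ ∫ x, ‖cur W (ρ t) x‖ := fun t ht =>
    hcon t (le_trans (le_max_left _ _) ht) (by linarith)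
  have hm1 : 0 < m + 1 := by linarith
  -- choice of κ
  set κ : ℝ := min 1 (α / (2 * (m + 1))) with hκ
  have hκ0 : 0 < κ := lt_min one_pos (by positivity)
  have hκ1 : κ ≤ 1 := min_le_left _ _
  have hκm : κ ^ 2 * m ≤ α ^ 2 / (4 * (m + 1)) := by
    have h1 : κ ≤ α / (2 * (m + 1)) := min_le_right _ _
    have h2 : κ ^ 2 ≤ (α / (2 * (m + 1))) ^ 2 := pow_le_pow_left₀ hκ0.le h1 2
    have h3 : κ ^ 2 * m ≤ (α / (2 * (m + 1))) ^ 2 * (m + 1) := by
      apply mul_le_mul h2 (by linarith) hm0 (by positivity)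
    have h4 : (α / (2 * (m + 1))) ^ 2 * (m + 1) = α ^ 2 / (4 * (m + 1)) := by
      field_simp
      ring
    linarith
  obtain ⟨h, hw, hD, hGD⟩ := hG.weight κ hκ0 hκ1
  set S : ℝ := ∫ x, h x with hS
  have hS0 : 0 ≤ S := integral_nonneg fun x => (hw.pos x).le
  obtain ⟨C0, hC0⟩ := hD a a ha0
  set C : ℝ := max C0 0 with hC
  have hCn : 0 ≤ C := le_max_right _ _
  have hCb : ∀ x, ρ a x / h x ≤ C := fun x => by
    rw [div_le_iff₀ (hw.pos x)]
    refine (hC0 a le_rfl le_rfl x).trans ?_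
    exact mul_le_mul_of_nonneg_right (le_max_left _ _) (hw.pos x).le
  obtain ⟨-, -, hBd, -⟩ := hCC d A K m W ρ hG
  -- the time T
  have hA0 : 0 < A := hG.pot.A_pos
  set R : ℝ := S + A * m ^ 2 + (C ^ 2 + C) * S + 1 with hR
  have hR0 : 0 < R := by positivity
  set T : ℝ := a + 4 * (m + 1) / α ^ 2 * (R + 1) with hT
  have haT : a ≤ T := by
    have : 0 ≤ 4 * (m + 1) / α ^ 2 * (R + 1) := by positivity
    linarith
  obtain ⟨B, hB0, hB⟩ := hBd a T ha0
  -- the choice of θ
  set θ : ℝ := 1 / (1 + B ^ 2 * S * (T - a) + S) with hθ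
  have hden : 1 ≤ 1 + B ^ 2 * S * (T - a) + S := by
    have : 0 ≤ B ^ 2 * S * (T - a) := by
      have : 0 ≤ T - a := by linarith
      positivity
    linarith
  have hθ0 : 0 < θ := by positivity
  have hθ1 : θ ≤ 1 := by
    rw [hθ, div_le_one (by linarith)]
    exact hden
  have hθS : θ * S ≤ 1 := by
    rw [hθ, one_div, inv_mul_le_iff₀ (by linarith)]
    have : 0 ≤ B ^ 2 * S * (T - a) := by
      have : 0 ≤ T - a := by linarith
      positivity
    linarith
  have hθB : θ * B ^ 2 * S * (T - a) ≤ 1 := by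
    have h1 : θ * B ^ 2 * S * (T - a) = θ * (B ^ 2 * S * (T - a)) := by ring
    rw [h1, hθ, one_div, inv_mul_le_iff₀ (by linarith)]
    linarith
  -- the entropy
  obtain ⟨hd1, -⟩ := hEN d A K m κ κ 1 W h h ρ (phi θ) (fun z => Real.log (z + θ) + 1)
    (fun z => (z + θ)⁻¹) hG hκ0 hκ1 hw hD hGD hw.pos hw.c1 hw.grad
    (fun x => by rw [one_mul]) (phi_conv hθ0)
  obtain ⟨hd2, -⟩ := hINT d A K m W ρ hG
  set Hf : ℝ → ℝ := fun t => (∫ x, h x * phi θ (ρ t x / h x)) +
    (1 / 2 : ℝ) * ∫ x, ρ t x * V W (ρ t) x with hHf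
  have hder : ∀ t, 0 < t → HasDerivAt Hf
      (-entProd W h (fun z => (z + θ)⁻¹) (ρ t) +
        (-∫ x, ⟪drift W (ρ t) x, cur W (ρ t) x⟫_ℝ)) t := fun t ht =>
    (hd1 t ht).add (hd2 t ht)
  set c : ℝ := -(α ^ 2 / (4 * (m + 1))) + θ * B ^ 2 * S with hc
  have hderle : ∀ t, a ≤ t → t ≤ T →
      -entProd W h (fun z => (z + θ)⁻¹) (ρ t) +
        (-∫ x, ⟪drift W (ρ t) x, cur W (ρ t) x⟫_ℝ) ≤ c := by
    intro t hat htT
    have ht0 : 0 < t := by linarith
    obtain ⟨h1, h2⟩ := hENTa d A K m κ W h ρ hG hκ0 hκ1 hw hD hGD t θ B ht0 hθ0 hθ1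
      (fun x => (hB t hat htT x).2.2)
    set D : ℝ := ∫ x, ‖cur W (ρ t) x‖ ^ 2 / (ρ t x + θ * h x) with hDdef
    have hD0 : 0 ≤ D := integral_nonneg fun x => by
      have := hG.nonneg t x
      have := (hw.pos x).le
      positivity
    have h3 : α ^ 2 ≤ (∫ x, ‖cur W (ρ t) x‖) ^ 2 :=
      pow_le_pow_left₀ hα.le (hlow t hat) 2
    have h4 : (m + θ * S) * D ≤ (m + 1) * D :=
      mul_le_mul_of_nonneg_right (by linarith) hD0
    have h5 : α ^ 2 ≤ (m + 1) * D := by
      calc α ^ 2 ≤ _ := h3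
        _ ≤ (m + θ * S) * D := h2
        _ ≤ _ := h4
    have h6 : α ^ 2 / (m + 1) ≤ D := by
      rw [div_le_iff₀ hm1]
      linarith
    have h7 : α ^ 2 / (4 * (m + 1)) = (1 / 4) * (α ^ 2 / (m + 1)) := by
      field_simp
    rw [hc]
    have h8 : θ * B ^ 2 * ∫ x, h x = θ * B ^ 2 * S := rfl
    rw [h8] at h1
    linarith
  have hmv : Hf T - Hf a ≤ c * (T - a) := by
    have hcont : ContinuousOn Hf (Icc a T) := fun t ht =>
      (hder t (by linarith [ht.1])).continuousAt.continuousWithinAt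
    have hdiff : DifferentiableOn ℝ Hf (interior (Icc a T)) := fun t ht => by
      rw [interior_Icc] at ht
      exact (hder t (by linarith [ht.1])).differentiableAt.differentiableWithinAt
    refine (convex_Icc a T).image_sub_le_mul_sub_of_deriv_le hcont hdiff ?_ a
      ⟨le_rfl, haT⟩ T ⟨haT, le_rfl⟩ haT
    intro t ht
    rw [interior_Icc] at ht
    rw [(hder t (by linarith [ht.1])).deriv]
    exact hderle t ht.1.le ht.2.le
  -- bounds at the two ends
  have hup : Hf a ≤ (C ^ 2 + C) * S + A * m ^ 2 / 2 := by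
    have h1 : ∫ x, h x * phi θ (ρ a x / h x) ≤ ∫ x, (C ^ 2 + C) * h x := by
      apply int_le_of_le (hw.int.const_mul _)
      · intro x
        have := (hw.pos x).le
        positivity
      · intro x
        have hz0 : 0 ≤ ρ a x / h x := div_nonneg (hG.nonneg a x) (hw.pos x).le
        have h2 := phi_upper hθ0 hθ1 hz0
        have h3 : (ρ a x / h x) ^ 2 + ρ a x / h x ≤ C ^ 2 + C :=
          add_le_add (pow_le_pow_left₀ hz0 (hCb x) 2) (hCb x)
        rw [mul_comm]
        exact mul_le_mul_of_nonneg_right (h2.trans h3) (hw.pos x).le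
    rw [integral_const_mul] at h1
    have h2 := (abs_le.mp (inter_bound hG.pot (hG.int a ha0) (hG.nonneg a)
      (hG.mass a ha0))).2
    rw [hHf]
    exact add_le_add h1 h2
  have hlo : -S - A * m ^ 2 / 2 ≤ Hf T := by
    have hT0 : 0 < T := by linarith
    have h1 : -∫ x, h x ≤ ∫ x, h x * phi θ (ρ T x / h x) := by
      apply le_int_of_le hw.int
      · intro x
        exact (hw.pos x).le
      · intro x
        have hz0 : 0 ≤ ρ T x / h x := div_nonneg (hG.nonneg T x) (hw.pos x).le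
        have h2 := phi_lower hθ0 hθ1 hz0
        have := (hw.pos x)
        nlinarith
    have h2 := (abs_le.mp (inter_bound hG.pot (hG.int T hT0) (hG.nonneg T)
      (hG.mass T hT0))).1
    have h3 : Hf T = (∫ x, h x * phi θ (ρ T x / h x)) +
      (1 / 2 : ℝ) * ∫ x, ρ T x * V W (ρ T) x := rfl
    rw [h3]
    have h4 : -∫ x, h x = -S := rfl
    linarith
  have hfin : c * (T - a) = -(α ^ 2 / (4 * (m + 1))) * (T - a) + θ * B ^ 2 * S * (T - a) := by
    rw [hc]
    ring
  have hTa : α ^ 2 / (4 * (m + 1)) * (T - a) = R + 1 := by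
    rw [hT]
    field_simp
    ring
  have : -(α ^ 2 / (4 * (m + 1))) * (T - a) = -(R + 1) := by
    rw [neg_mul, hTa]
  rw [hfin, this] at hmv
  rw [hR] at hmv
  nlinarith

end Pool.Agent.Work.MP_9371de_an

end

section

/-! [FL] the flux is a.e. Lipschitz in `x`. -/

open MeasureTheory Set Filter Topology
open scoped Real InnerProductSpace

namespace Pool.Agent.Work.MP_9371de_an

theorem itemFL (h1 : ClaimV1) (h2 : ClaimV2) : ClaimFL := by
  intro d A K m W ρ hW hC hLip a T ha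
  obtain ⟨M, hM⟩ := hC.bdd T
  obtain ⟨L, hL⟩ := hLip a T ha
  refine ⟨2 * K * M * L, fun t hat htT k => ?_⟩
  have hMt : ∀ x, ρ t x ≤ M := hM t htT
  have habs : ∀ x, |ρ t x| ≤ M := fun x => by
    rw [abs_of_nonneg (hC.nonneg t x)]; exact hMt x
  have hM0 : 0 ≤ M := (abs_nonneg _).trans (habs 0)
  obtain ⟨-, hg, -, -, -⟩ := h1 d A K W (ρ t) M hW (hC.int t)
    (Filter.Eventually.of_forall habs)
  have hd := h2 d A K W (ρ t) M (L * ‖k‖) k hW (hC.int t)
    (Filter.Eventually.of_forall habs) (Filter.Eventually.of_forall fun x => hL t hat htT k x)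
  filter_upwards [hd] with y hy
  have e : flux W (ρ t) (y + k) - flux W (ρ t) y =
      (ρ t (y + k) - ρ t y) • drift W (ρ t) (y + k) +
        ρ t y • (drift W (ρ t) (y + k) - drift W (ρ t) y) := by
    unfold flux
    module
  rw [e]
  refine (norm_add_le _ _).trans ?_
  rw [norm_smul, norm_smul, Real.norm_eq_abs, Real.norm_eq_abs]
  have b1 := mul_le_mul (hL t hat htT k y) (hg (y + k)) (norm_nonneg _)
    ((abs_nonneg _).trans (hL t hat htT k y))
  have b2 := mul_le_mul (habs y) hy (norm_nonneg _) hM0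
  calc _ ≤ L * ‖k‖ * (K * M) + M * (K * (L * ‖k‖)) := add_le_add b1 b2
    _ = 2 * K * M * L * ‖k‖ := by ring

end Pool.Agent.Work.MP_9371de_an

end

section

/-! [Good] assembly of the regularity part. -/

open MeasureTheory Set Filter Topology
open scoped Real InnerProductSpace

namespace Pool.Agent.Work.MP_9371de_an

/-- The Gaussian majorant and the weight lemma give a dominating weight. -/
theorem exists_weight_dom (hR2 : ClaimR2) (hWT : ClaimWT) {d : ℕ} {A K m : ℝ} {W : E d → ℝ}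
    {ρ : ℝ → E d → ℝ} (hP : Pot d A K W) (hC : Clean d W m ρ) {κ : ℝ} (hκ : 0 < κ) (hκ1 : κ ≤ 1) :
    ∃ h, Weight d κ h ∧ Dom d h ρ := by
  have hmeas : Measurable (ρ 0) := hC.meas.comp (measurable_const.prodMk measurable_id)
  obtain ⟨h, hw, hdom⟩ := hWT d κ (ρ 0) hκ hκ1 hmeas (hC.int 0) (hC.nonneg 0)
  refine ⟨h, hw, ?_⟩
  intro a T ha
  obtain ⟨C1, hC1⟩ := hR2 d A K m W ρ hP hC T
  obtain ⟨C2, hC2⟩ := hdom (2 * a) (2 * T) (by linarith)
  refine ⟨|C1| * |C2|, fun t hat htT x => ?_⟩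
  have h1 := hC1 t (lt_of_lt_of_le ha hat) htT x
  have h2 := hC2 (2 * t) (by linarith) (by linarith) x
  have hPnn : 0 ≤ P (2 * t) (ρ 0) x := by
    unfold P
    apply integral_nonneg
    intro y
    have hh : 0 ≤ heat d (2 * t) (x - y) := by
      unfold heat
      have : 0 < t := lt_of_lt_of_le ha hat
      positivity
    exact mul_nonneg hh (hC.nonneg 0 y)
  have hhx := (hw.pos x).le
  calc ρ t x ≤ C1 * P (2 * t) (ρ 0) x := h1
    _ ≤ |C1| * P (2 * t) (ρ 0) x := mul_le_mul_of_nonneg_right (le_abs_self _) hPnn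
    _ ≤ |C1| * (C2 * h x) := mul_le_mul_of_nonneg_left h2 (abs_nonneg _)
    _ ≤ |C1| * (|C2| * h x) := by gcongr; exact le_abs_self _
    _ = |C1| * |C2| * h x := by ring

/-- The unweighted Lipschitz bound. -/
theorem lip_of_claims (hR2 : ClaimR2) (hWT : ClaimWT) (hR4 : ClaimR4) {d : ℕ} {A K m : ℝ}
    {W : E d → ℝ} {ρ : ℝ → E d → ℝ} (hP : Pot d A K W) (hC : Clean d W m ρ) : Lip d ρ := by
  obtain ⟨h, hw, hdom⟩ := exists_weight_dom hR2 hWT hP hC one_pos le_rfl
  obtain ⟨B, hB⟩ := hw.bdd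
  intro a T ha
  obtain ⟨L, hL⟩ := hR4 d A K m 1 W h ρ hP hC one_pos le_rfl hw hdom a T ha
  obtain ⟨M, hM⟩ := hC.bdd T
  refine ⟨|L| * |B| + |M|, fun t hat htT k x => ?_⟩
  rcases le_or_gt ‖k‖ 1 with hk | hk
  · calc |ρ t (x + k) - ρ t x| ≤ L * ‖k‖ * h x := hL t hat htT k x hk
      _ ≤ |L| * ‖k‖ * |B| := by
          have h1 : L * ‖k‖ ≤ |L| * ‖k‖ := mul_le_mul_of_nonneg_right (le_abs_self _) (norm_nonneg _)
          have h2 : h x ≤ |B| := (hB x).trans (le_abs_self _)
          exact mul_le_mul h1 h2 (hw.pos x).le (by positivity)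
      _ ≤ (|L| * |B| + |M|) * ‖k‖ := by
          have : 0 ≤ |M| * ‖k‖ := by positivity
          nlinarith
  · have h1 := hM t htT (x + k)
    have h2 := hM t htT x
    have h3 := hC.nonneg t (x + k)
    have h4 := hC.nonneg t x
    have h5 : |ρ t (x + k) - ρ t x| ≤ |M| := by
      rw [abs_le]
      have := le_abs_self M
      constructor <;> linarith
    calc |ρ t (x + k) - ρ t x| ≤ |M| := h5
      _ ≤ |M| * ‖k‖ := le_mul_of_one_le_right (abs_nonneg _) hk.le
      _ ≤ (|L| * |B| + |M|) * ‖k‖ := by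
          have : 0 ≤ |L| * |B| * ‖k‖ := by positivity
          nlinarith

/-- The weighted Lipschitz bound gives the gradient bound. -/
theorem gdom_of_claims (hR4 : ClaimR4) {d : ℕ} {A K m κ : ℝ} {W h : E d → ℝ}
    {ρ : ℝ → E d → ℝ} (hP : Pot d A K W) (hC : Clean d W m ρ) (hκ : 0 < κ) (hκ1 : κ ≤ 1)
    (hw : Weight d κ h) (hdom : Dom d h ρ) (hc1 : ∀ t, 0 < t → ContDiff ℝ 1 (ρ t)) :
    GDom d h ρ := by
  intro a T ha
  obtain ⟨L, hL⟩ := hR4 d A K m κ W h ρ hP hC hκ hκ1 hw hdom a T ha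
  refine ⟨|L|, fun t hat htT x => ?_⟩
  have ht : 0 < t := lt_of_lt_of_le ha hat
  rw [norm_gradient_eq]
  have hd : HasFDerivAt (ρ t) (fderiv ℝ (ρ t) x) x :=
    ((hc1 t ht).differentiable (by norm_num) x).hasFDerivAt
  refine hd.le_of_lip' (mul_nonneg (abs_nonneg _) (hw.pos x).le) ?_
  have hball : Metric.ball x 1 ∈ 𝓝 x := Metric.ball_mem_nhds x one_pos
  filter_upwards [hball] with y hy
  have hk : ‖y - x‖ ≤ 1 := by
    rw [Metric.mem_ball, dist_eq_norm] at hy; exact hy.le
  have := hL t hat htT (y - x) x hk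
  rw [add_sub_cancel] at this
  rw [Real.norm_eq_abs]
  calc |ρ t y - ρ t x| ≤ L * ‖y - x‖ * h x := this
    _ ≤ |L| * ‖y - x‖ * h x := by
        gcongr
        · exact (hw.pos x).le
        · exact le_abs_self _
    _ = |L| * h x * ‖y - x‖ := by ring

theorem itemGood (hR2 : ClaimR2) (hWT : ClaimWT) (hR4 : ClaimR4) (hR5 : ClaimR5) (hR6 : ClaimR6)
    (hR9 : ClaimR9) (hV1 : ClaimV1) (hV3 : ClaimV3) : ClaimGood := by
  intro d A K m W ρ hd hP hC
  have hLip := lip_of_claims hR2 hWT hR4 hP hC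
  have hc1 := (hR5 d A K m W ρ hP hC hLip).1
  have hcont := hR6 d A K m W ρ hP hC hLip
  -- weight with kappa = 1
  obtain ⟨h1, hw1, hdom1⟩ := exists_weight_dom hR2 hWT hP hC one_pos le_rfl
  have hgdom1 := gdom_of_claims hR4 hP hC one_pos le_rfl hw1 hdom1 hc1
  obtain ⟨B, hB⟩ := hw1.bdd
  -- uniform bounds
  have hunif : ∀ a T : ℝ, 0 < a → ∃ N, ∀ t, a ≤ t → t ≤ T → ∀ x,
      |ρ t x| ≤ N ∧ ‖gradient (ρ t) x‖ ≤ N := by
    intro a T ha
    obtain ⟨C1, hC1⟩ := hdom1 a T ha
    obtain ⟨C2, hC2⟩ := hgdom1 a T ha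
    refine ⟨|C1| * |B| + |C2| * |B|, fun t hat htT x => ?_⟩
    have hb : ∀ c : ℝ, c * h1 x ≤ |c| * |B| := fun c =>
      (mul_le_mul_of_nonneg_right (le_abs_self c) (hw1.pos x).le).trans
        (mul_le_mul_of_nonneg_left ((hB x).trans (le_abs_self _)) (abs_nonneg _))
    have n1 : 0 ≤ |C1| * |B| := by positivity
    have n2 : 0 ≤ |C2| * |B| := by positivity
    constructor
    · rw [abs_of_nonneg (hC.nonneg t x)]
      linarith [hC1 t hat htT x, hb C1]
    · linarith [hC2 t hat htT x, hb C2]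
  have hV3' : ∀ t, 0 < t → (∀ x, HasGradientAt (V W (ρ t)) (∫ y, W (x - y) • gradient (ρ t) y) x) ∧
      Continuous (fun x => ∫ y, W (x - y) • gradient (ρ t) y) := by
    intro t ht
    obtain ⟨N, hN⟩ := hunif t t ht
    exact hV3 d A K W (ρ t) N hP (hc1 t ht) (hC.int t) (fun x => (hN t le_rfl le_rfl x).1)
      (fun x => (hN t le_rfl le_rfl x).2)
  have hdrift : ∀ t, 0 < t → drift W (ρ t) = fun x => ∫ y, W (x - y) • gradient (ρ t) y := by
    intro t ht
    funext x
    exact ((hV3' t ht).1 x).gradient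
  have hbx : ∀ t, 0 < t → Continuous (drift W (ρ t)) := by
    intro t ht
    rw [hdrift t ht]
    exact (hV3' t ht).2
  have hbt : ∀ x, ContinuousOn (fun t => drift W (ρ t) x) (Ioi 0) := by
    intro x t ht
    have ht' : (0 : ℝ) < t := ht
    apply ContinuousAt.continuousWithinAt
    have hev : (fun s => ∫ y, W (x - y) • gradient (ρ s) y) =ᶠ[𝓝 t]
        fun s => drift W (ρ s) x := by
      filter_upwards [lt_mem_nhds ht'] with s hs
      rw [hdrift s hs]
    refine ContinuousAt.congr ?_ hev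
    obtain ⟨N, hN⟩ := hunif (t / 2) (t + 1) (by linarith)
    have hnb : Ioo (t / 2) (t + 1) ∈ 𝓝 t := Ioo_mem_nhds (by linarith) (by linarith)
    apply continuousAt_of_dominated (bound := fun y => |W (x - y)| * N)
    · filter_upwards [hnb] with s hs
      have hs0 : 0 < s := by linarith [hs.1]
      have h1 : AEStronglyMeasurable (fun y => W (x - y)) volume :=
        (hP.meas.comp (measurable_const.sub measurable_id)).aestronglyMeasurable
      exact h1.smul (continuous_gradient (hc1 s hs0)).aestronglyMeasurable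
    · filter_upwards [hnb] with s hs
      refine Eventually.of_forall fun y => ?_
      rw [norm_smul, Real.norm_eq_abs]
      exact mul_le_mul_of_nonneg_left (hN s hs.1.le hs.2.le y).2 (abs_nonneg _)
    · have : Integrable (fun y => W (x - y)) := hP.int.comp_sub_left x
      exact this.abs.mul_const N
    · refine Eventually.of_forall fun y => ?_
      have := ((hcont y).2).continuousAt (Ioi_mem_nhds ht')
      exact this.const_smul (W (x - y))
  refine
    { pot := hP
      nonneg := hC.nonneg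
      int := fun t _ => hC.int t
      mass := fun t ht => hC.mass t ht.le
      c1 := hc1
      weight := ?_
      tcont := fun x => (hcont x).1
      gcont := fun x => (hcont x).2
      vgrad := fun t ht => (hV3' t ht).1
      bxcont := hbx
      btcont := hbt
      bsup := ?_
      wf := ?_
      restart := fun s t hs hst x => hC.restart s t hs.le hst x }
  · intro κ hκ hκ1
    obtain ⟨h, hw, hdom⟩ := exists_weight_dom hR2 hWT hP hC hκ hκ1
    exact ⟨h, hw, hdom, gdom_of_claims hR4 hP hC hκ hκ1 hw hdom hc1⟩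
  · intro t ht N hN x
    exact (hV1 d A K W (ρ t) N hP (hC.int t) (Eventually.of_forall fun y => by
      rw [abs_of_nonneg (hC.nonneg t y)]; exact hN y)).2.1 x
  · exact hR9 d A K m 1 W h1 ρ hP hC one_pos le_rfl hw1 hdom1 hgdom1 hc1 (fun x => (hcont x).1)
      (fun x => (hcont x).2) hbx hbt

end Pool.Agent.Work.MP_9371de_an

end

section

open MeasureTheory Set Filter Topology
open scoped Real InnerProductSpace

namespace Pool.Agent.Work.MP_9371de_an

theorem gauss_integrable {d : ℕ} {b : ℝ} (hb : 0 < b) (w : E d) :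
    Integrable (fun v : E d => Real.exp (-b * ‖v‖ ^ 2 + ⟪w, v⟫_ℝ)) := by
  have h := (GaussianFourier.integrable_cexp_neg_mul_sq_norm_add
    (show 0 < (b : ℂ).re from hb) 1 w).norm
  refine h.congr (Eventually.of_forall fun v => ?_)
  simp only [Complex.norm_exp]
  congr 1
  simp only [one_mul, Complex.add_re, Complex.ofReal_re]
  congr 1
  have : (-(b : ℂ) * (‖v‖ : ℂ) ^ 2) = ((-b * ‖v‖ ^ 2 : ℝ) : ℂ) := by push_cast; ring
  rw [this, Complex.ofReal_re]

theorem gauss_integrable' {d : ℕ} {b : ℝ} (hb : 0 < b) :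
    Integrable (fun v : E d => Real.exp (-b * ‖v‖ ^ 2)) := by
  have h := gauss_integrable (d := d) hb 0
  simpa using h

theorem heat_eq (d : ℕ) (t : ℝ) (x : E d) :
    heat d t x = (4 * π * t) ^ (-(d : ℝ) / 2) * Real.exp (-(1 / (4 * t)) * ‖x‖ ^ 2) := by
  unfold heat
  congr 2
  ring

theorem heat_hasGradientAt (d : ℕ) (t : ℝ) (ht : 0 < t) (x : E d) :
    HasGradientAt (heat d t) (gheat d t x) x := by
  rw [hasGradientAt_iff_hasFDerivAt]
  have h1 : HasFDerivAt (fun y : E d => ‖y‖ ^ 2) (2 • (innerSL ℝ x)) x :=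
    (hasStrictFDerivAt_norm_sq x).hasFDerivAt
  have h2 : HasFDerivAt (fun y : E d => (4 * π * t) ^ (-(d : ℝ) / 2) *
      Real.exp (-(1 / (4 * t)) * ‖y‖ ^ 2))
      ((4 * π * t) ^ (-(d : ℝ) / 2) • (Real.exp (-(1 / (4 * t)) * ‖x‖ ^ 2) •
        (-(1 / (4 * t)) • (2 • (innerSL ℝ x))))) x :=
    ((h1.const_mul (-(1 / (4 * t)))).exp).const_mul _
  have h3 : heat d t = fun y : E d => (4 * π * t) ^ (-(d : ℝ) / 2) *
      Real.exp (-(1 / (4 * t)) * ‖y‖ ^ 2) := by
    funext y
    exact heat_eq d t y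
  rw [h3]
  refine h2.congr_fderiv ?_
  ext v
  simp only [smul_apply, innerSL_apply_apply, smul_eq_mul, nsmul_eq_mul,
    InnerProductSpace.toDual_apply_apply, gheat, heat_eq, real_inner_smul_left]
  push_cast
  field_simp
  ring

theorem itemH1 : ClaimH1 := by
  intro d t ht
  have h4 : 0 < 4 * π * t := by positivity
  have hb : 0 < 1 / (4 * t) := by positivity
  have hcont : Continuous (heat d t) := by
    unfold heat
    fun_prop
  refine ⟨fun x => ?_, hcont, ?_, ?_, fun x => ?_, fun x => ?_, fun x => ?_, ?_, fun x => ?_⟩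
  · unfold heat
    positivity
  · have h := (gauss_integrable' (d := d) hb).const_mul ((4 * π * t) ^ (-(d : ℝ) / 2))
    refine h.congr (Eventually.of_forall fun v => ?_)
    exact (heat_eq d t v).symm
  · simp_rw [heat_eq]
    rw [integral_const_mul, GaussianFourier.integral_rexp_neg_mul_sq_norm hb]
    have h5 : π / (1 / (4 * t)) = 4 * π * t := by
      field_simp
    rw [h5, finrank_euclideanSpace_fin, ← Real.rpow_add h4]
    have : -(d : ℝ) / 2 + (d : ℝ) / 2 = 0 := by ring
    rw [this, Real.rpow_zero]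
  · unfold heat
    have h6 : Real.exp (-‖x‖ ^ 2 / (4 * t)) ≤ 1 := by
      apply Real.exp_le_one_iff.mpr
      apply div_nonpos_of_nonpos_of_nonneg
      · nlinarith [sq_nonneg ‖x‖]
      · positivity
    have h7 : 0 ≤ (4 * π * t) ^ (-(d : ℝ) / 2) := by positivity
    nlinarith
  · unfold heat
    rw [norm_neg]
  · exact heat_hasGradientAt d t ht x
  · unfold gheat
    fun_prop
  · unfold gheat heat
    rw [norm_neg, smul_neg]

end Pool.Agent.Work.MP_9371de_an

end

section

/-!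
H1m: joint measurability of the Gauss kernel and its gradient.
-/

open MeasureTheory Set Filter Topology
open scoped Real InnerProductSpace

namespace Pool.Agent.Work.MP_9371de_an

theorem itemH1m : ClaimH1m := by
  intro d
  have h1 : Measurable (fun p : ℝ × E d => heat d p.1 p.2) := by
    unfold heat
    refine Measurable.mul ?_ ?_
    · exact (measurable_fst.const_mul _).pow_const _
    · refine Real.measurable_exp.comp ?_
      exact ((measurable_snd.norm.pow_const 2).neg).div (measurable_fst.const_mul _)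
  refine ⟨h1, ?_⟩
  unfold gheat
  exact (h1.neg.div (measurable_fst.const_mul _)).smul measurable_snd

end Pool.Agent.Work.MP_9371de_an

end

section

/-!
Item H5: exponential moments of the Gauss kernel.
-/

open MeasureTheory Set Filter Topology
open scoped Real InnerProductSpace

namespace Pool.Agent.Work.MP_9371de_an

theorem H5_pow (d : ℕ) (t : ℝ) (ht : 0 < t) :
    (4 * π * t) ^ (-(d : ℝ) / 2) = 2 ^ ((d : ℝ) / 2) * (4 * π * (2 * t)) ^ (-(d : ℝ) / 2) := by
  have h1 : 4 * π * (2 * t) = 2 * (4 * π * t) := by ring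
  have h2 : (0 : ℝ) ≤ 4 * π * t := by positivity
  rw [h1, Real.mul_rpow (by norm_num) h2, ← mul_assoc, ← Real.rpow_add (by norm_num)]
  have h3 : (d : ℝ) / 2 + -(d : ℝ) / 2 = 0 := by ring
  rw [h3, Real.rpow_zero, one_mul]

theorem H5_key (d : ℕ) (t : ℝ) (ht : 0 < t) (y : E d) :
    Real.exp ‖y‖ * heat d t y ≤
      Real.exp (2 * t) * 2 ^ ((d : ℝ) / 2) * heat d (2 * t) y := by
  unfold heat
  rw [H5_pow d t ht]
  have hp : (0 : ℝ) ≤ 2 ^ ((d : ℝ) / 2) * (4 * π * (2 * t)) ^ (-(d : ℝ) / 2) := by positivity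
  have h1 : ‖y‖ + -‖y‖ ^ 2 / (4 * t) ≤ 2 * t + -‖y‖ ^ 2 / (4 * (2 * t)) := by
    have h2 : (2 * t + -‖y‖ ^ 2 / (4 * (2 * t))) - (‖y‖ + -‖y‖ ^ 2 / (4 * t)) =
        (‖y‖ - 4 * t) ^ 2 / (8 * t) := by
      field_simp
      ring
    have h3 : 0 ≤ (‖y‖ - 4 * t) ^ 2 / (8 * t) := by positivity
    linarith
  have h4 := Real.exp_le_exp.2 h1
  rw [Real.exp_add, Real.exp_add] at h4
  calc Real.exp ‖y‖ * (2 ^ ((d : ℝ) / 2) * (4 * π * (2 * t)) ^ (-(d : ℝ) / 2) *
        Real.exp (-‖y‖ ^ 2 / (4 * t)))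
      = 2 ^ ((d : ℝ) / 2) * (4 * π * (2 * t)) ^ (-(d : ℝ) / 2) *
        (Real.exp ‖y‖ * Real.exp (-‖y‖ ^ 2 / (4 * t))) := by ring
    _ ≤ 2 ^ ((d : ℝ) / 2) * (4 * π * (2 * t)) ^ (-(d : ℝ) / 2) *
        (Real.exp (2 * t) * Real.exp (-‖y‖ ^ 2 / (4 * (2 * t)))) :=
        mul_le_mul_of_nonneg_left h4 hp
    _ = _ := by ring

theorem H5_sq (d : ℕ) (t : ℝ) (ht : 0 < t) (y : E d) :
    ‖y‖ ^ 2 * heat d t y ≤ 8 * t * 2 ^ ((d : ℝ) / 2) * heat d (2 * t) y := by
  unfold heat
  rw [H5_pow d t ht]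
  have hp : (0 : ℝ) ≤ 2 ^ ((d : ℝ) / 2) * (4 * π * (2 * t)) ^ (-(d : ℝ) / 2) := by positivity
  have h1 : ‖y‖ ^ 2 * Real.exp (-‖y‖ ^ 2 / (4 * t)) ≤
      8 * t * Real.exp (-‖y‖ ^ 2 / (4 * (2 * t))) := by
    have e1 : -‖y‖ ^ 2 / (4 * t) = -(‖y‖ ^ 2 / (8 * t)) + -‖y‖ ^ 2 / (4 * (2 * t)) := by
      field_simp
      ring
    rw [e1, Real.exp_add, ← mul_assoc]
    refine mul_le_mul_of_nonneg_right ?_ (Real.exp_pos _).le
    have h2 : ‖y‖ ^ 2 / (8 * t) + 1 ≤ Real.exp (‖y‖ ^ 2 / (8 * t)) := Real.add_one_le_exp _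
    have h3 : ‖y‖ ^ 2 / (8 * t) * Real.exp (-(‖y‖ ^ 2 / (8 * t))) ≤ 1 := by
      rw [Real.exp_neg, ← div_eq_mul_inv, div_le_one (Real.exp_pos _)]
      linarith
    have h4 : ‖y‖ ^ 2 * Real.exp (-(‖y‖ ^ 2 / (8 * t))) =
        8 * t * (‖y‖ ^ 2 / (8 * t) * Real.exp (-(‖y‖ ^ 2 / (8 * t)))) := by
      field_simp
    rw [h4]
    have h5 : 0 ≤ 8 * t := by positivity
    nlinarith
  calc ‖y‖ ^ 2 * (2 ^ ((d : ℝ) / 2) * (4 * π * (2 * t)) ^ (-(d : ℝ) / 2) *
        Real.exp (-‖y‖ ^ 2 / (4 * t)))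
      = 2 ^ ((d : ℝ) / 2) * (4 * π * (2 * t)) ^ (-(d : ℝ) / 2) *
        (‖y‖ ^ 2 * Real.exp (-‖y‖ ^ 2 / (4 * t))) := by ring
    _ ≤ 2 ^ ((d : ℝ) / 2) * (4 * π * (2 * t)) ^ (-(d : ℝ) / 2) *
        (8 * t * Real.exp (-‖y‖ ^ 2 / (4 * (2 * t)))) :=
        mul_le_mul_of_nonneg_left h1 hp
    _ = _ := by ring

theorem H5_dom (h1 : ClaimH1) (d : ℕ) (s c : ℝ) (hs : 0 < s) (_hc : 0 ≤ c) (f : E d → ℝ)
    (hf : Continuous f) (hn : ∀ y, 0 ≤ f y) (hb : ∀ y, f y ≤ c * heat d s y) :
    Integrable f ∧ ∫ y, f y ≤ c := by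
  obtain ⟨-, -, hi, hI, -⟩ := h1 d s hs
  have hg : Integrable (fun y => c * heat d s y) := hi.const_mul c
  have hfi : Integrable f := by
    refine hg.mono' hf.aestronglyMeasurable ?_
    filter_upwards with y
    rw [Real.norm_of_nonneg (hn y)]
    exact hb y
  refine ⟨hfi, ?_⟩
  calc ∫ y, f y ≤ ∫ y, c * heat d s y := integral_mono hfi hg hb
    _ = c := by rw [integral_const_mul, hI, mul_one]

theorem itemH5 (h1 : ClaimH1) (h4 : ClaimH4) : ClaimH5 := by
  intro d T
  obtain ⟨C0, hC0, hH4⟩ := h4 d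
  have hA : (0 : ℝ) < 2 ^ ((d : ℝ) / 2) := by positivity
  refine ⟨(1 + C0) * (Real.exp (4 * |T|) * 2 ^ ((d : ℝ) / 2)), by positivity, ?_⟩
  intro t ht htT
  have hT : t ≤ |T| := htT.trans (le_abs_self T)
  obtain ⟨hpos, hcont, -, -, -, -, -, hgcont, -⟩ := h1 d t ht
  have hpos2 := (h1 d (2 * t) (by positivity)).1
  have hexp : ∀ y : E d, 0 < Real.exp ‖y‖ := fun y => Real.exp_pos _
  have hce : Continuous (fun y : E d => Real.exp ‖y‖) := Real.continuous_exp.comp continuous_norm
  have hle2 : Real.exp (2 * t) ≤ Real.exp (4 * |T|) := Real.exp_le_exp.2 (by linarith)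
  have hle4 : Real.exp (2 * (2 * t)) ≤ Real.exp (4 * |T|) := Real.exp_le_exp.2 (by linarith)
  -- first moment
  have A := H5_dom h1 d (2 * t) (Real.exp (2 * t) * 2 ^ ((d : ℝ) / 2)) (by positivity)
    (by positivity) (fun y => Real.exp ‖y‖ * heat d t y) (hce.mul hcont)
    (fun y => (mul_pos (hexp y) (hpos y)).le) (H5_key d t ht)
  -- second moment
  have B := H5_dom h1 d (2 * (2 * t))
    (Real.exp (2 * t) * 2 ^ ((d : ℝ) / 2) * (8 * (2 * t) * 2 ^ ((d : ℝ) / 2))) (by positivity)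
    (by positivity) (fun y => Real.exp ‖y‖ * ‖y‖ ^ 2 * heat d t y)
    ((hce.mul (continuous_norm.pow 2)).mul hcont)
    (fun y => mul_nonneg (mul_nonneg (hexp y).le (sq_nonneg _)) (hpos y).le)
    (fun y => by
      have e1 := H5_key d t ht y
      have e2 := H5_sq d (2 * t) (by positivity) y
      calc Real.exp ‖y‖ * ‖y‖ ^ 2 * heat d t y
          = ‖y‖ ^ 2 * (Real.exp ‖y‖ * heat d t y) := by ring
        _ ≤ ‖y‖ ^ 2 * (Real.exp (2 * t) * 2 ^ ((d : ℝ) / 2) * heat d (2 * t) y) :=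
            mul_le_mul_of_nonneg_left e1 (sq_nonneg _)
        _ = Real.exp (2 * t) * 2 ^ ((d : ℝ) / 2) * (‖y‖ ^ 2 * heat d (2 * t) y) := by ring
        _ ≤ Real.exp (2 * t) * 2 ^ ((d : ℝ) / 2) *
            (8 * (2 * t) * 2 ^ ((d : ℝ) / 2) * heat d (2 * (2 * t)) y) :=
            mul_le_mul_of_nonneg_left e2 (by positivity)
        _ = _ := by ring)
  -- gradient
  have htp : (0 : ℝ) < t ^ (-(1 / 2 : ℝ)) := by positivity
  have D := H5_dom h1 d (2 * (2 * t))
    (C0 * t ^ (-(1 / 2 : ℝ)) * (Real.exp (2 * (2 * t)) * 2 ^ ((d : ℝ) / 2))) (by positivity)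
    (by positivity) (fun y => Real.exp ‖y‖ * ‖gheat d t y‖) (hce.mul hgcont.norm)
    (fun y => mul_nonneg (hexp y).le (norm_nonneg _))
    (fun y => by
      have e1 := (hH4 t ht y).1
      have e2 := H5_key d (2 * t) (by positivity) y
      calc Real.exp ‖y‖ * ‖gheat d t y‖
          ≤ Real.exp ‖y‖ * (C0 * t ^ (-(1 / 2 : ℝ)) * heat d (2 * t) y) :=
            mul_le_mul_of_nonneg_left e1 (hexp y).le
        _ = C0 * t ^ (-(1 / 2 : ℝ)) * (Real.exp ‖y‖ * heat d (2 * t) y) := by ring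
        _ ≤ C0 * t ^ (-(1 / 2 : ℝ)) *
            (Real.exp (2 * (2 * t)) * 2 ^ ((d : ℝ) / 2) * heat d (2 * (2 * t)) y) :=
            mul_le_mul_of_nonneg_left e2 (by positivity)
        _ = _ := by ring)
  refine ⟨A.1, A.2.trans ?_, B.1, D.1, D.2.trans ?_⟩
  · calc Real.exp (2 * t) * 2 ^ ((d : ℝ) / 2) ≤ Real.exp (4 * |T|) * 2 ^ ((d : ℝ) / 2) :=
          mul_le_mul_of_nonneg_right hle2 hA.le
      _ ≤ (1 + C0) * (Real.exp (4 * |T|) * 2 ^ ((d : ℝ) / 2)) :=
          le_mul_of_one_le_left (by positivity) (by linarith)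
  · calc C0 * t ^ (-(1 / 2 : ℝ)) * (Real.exp (2 * (2 * t)) * 2 ^ ((d : ℝ) / 2))
        ≤ C0 * t ^ (-(1 / 2 : ℝ)) * (Real.exp (4 * |T|) * 2 ^ ((d : ℝ) / 2)) := by
          gcongr
      _ ≤ (1 + C0) * t ^ (-(1 / 2 : ℝ)) * (Real.exp (4 * |T|) * 2 ^ ((d : ℝ) / 2)) := by
          gcongr
          linarith
      _ = _ := by ring

end Pool.Agent.Work.MP_9371de_an

end

section

open MeasureTheory Set Filter Topology
open scoped Real InnerProductSpace

namespace Pool.Agent.Work.MP_9371de_an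

theorem itemH6 : ClaimH6 := by
  intro d κ a T hκ ha
  refine ⟨(4 * π * a) ^ (-(d : ℝ) / 2) * Real.exp (κ + κ ^ 2 * T), by positivity, ?_⟩
  intro t hat htT x
  have ht : 0 < t := lt_of_lt_of_le ha hat
  have hT : 0 < T := lt_of_lt_of_le ht htT
  have hpi : 0 < π := Real.pi_pos
  have h1 : (4 * π * t) ^ (-(d : ℝ) / 2) ≤ (4 * π * a) ^ (-(d : ℝ) / 2) := by
    apply Real.rpow_le_rpow_of_nonpos (by positivity)
    · exact mul_le_mul_of_nonneg_left hat (by positivity)
    · have : (0 : ℝ) ≤ d := Nat.cast_nonneg d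
      linarith
  have h2 : Real.exp (-‖x‖ ^ 2 / (4 * t)) ≤
      Real.exp (κ + κ ^ 2 * T) * Real.exp (-κ * Real.sqrt (1 + ‖x‖ ^ 2)) := by
    rw [← Real.exp_add]
    apply Real.exp_le_exp.2
    have h3 : Real.sqrt (1 + ‖x‖ ^ 2) ≤ 1 + ‖x‖ := by
      rw [Real.sqrt_le_left (by positivity)]
      nlinarith [norm_nonneg x]
    have h4 : ‖x‖ ^ 2 / (4 * T) ≤ ‖x‖ ^ 2 / (4 * t) := by
      apply div_le_div_of_nonneg_left (by positivity) (by positivity)
      linarith
    have h5 : κ * ‖x‖ ≤ ‖x‖ ^ 2 / (4 * T) + κ ^ 2 * T := by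
      have h6 : ‖x‖ ^ 2 / (4 * T) + κ ^ 2 * T - κ * ‖x‖ = (‖x‖ - 2 * κ * T) ^ 2 / (4 * T) := by
        field_simp
        ring
      have h7 : 0 ≤ (‖x‖ - 2 * κ * T) ^ 2 / (4 * T) := by positivity
      linarith
    have h8 : κ * Real.sqrt (1 + ‖x‖ ^ 2) ≤ κ * (1 + ‖x‖) :=
      mul_le_mul_of_nonneg_left h3 hκ.le
    have h9 : -‖x‖ ^ 2 / (4 * t) = -(‖x‖ ^ 2 / (4 * t)) := by ring
    rw [h9]
    nlinarith
  calc heat d t x = (4 * π * t) ^ (-(d : ℝ) / 2) * Real.exp (-‖x‖ ^ 2 / (4 * t)) := rfl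
    _ ≤ (4 * π * a) ^ (-(d : ℝ) / 2) *
        (Real.exp (κ + κ ^ 2 * T) * Real.exp (-κ * Real.sqrt (1 + ‖x‖ ^ 2))) := by
      apply mul_le_mul h1 h2 (Real.exp_pos _).le (by positivity)
    _ = _ := by ring

end Pool.Agent.Work.MP_9371de_an

end

section

/-! [INT] derivative of the interaction energy. -/

open MeasureTheory Set Filter Topology
open scoped Real InnerProductSpace

namespace Pool.Agent.Work.MP_9371de_an

lemma INT.symm {d : ℕ} {A K : ℝ} {W : E d → ℝ} (hW : Pot d A K W) {u v : E d → ℝ}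
    (hu : Integrable u) (hv : Integrable v) :
    ∫ x, u x * V W v x = ∫ x, v x * V W u x := by
  unfold V
  have hint : Integrable (Function.uncurry fun (x y : E d) => u x * (W (x - y) * v y))
      (volume.prod volume) := by
    have h1 : Integrable (fun p : E d × E d => u p.1 * v p.2) (volume.prod volume) :=
      hu.mul_prod hv
    have h2 : Integrable (fun p : E d × E d => W (p.1 - p.2) * (u p.1 * v p.2))
        (volume.prod volume) := by
      refine h1.bdd_mul (c := A) ?_ ?_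
      · exact (hW.meas.comp (measurable_fst.sub measurable_snd)).aestronglyMeasurable
      · exact Filter.Eventually.of_forall fun p => by simpa using hW.bdd _
    refine h2.congr (Filter.Eventually.of_forall fun p => ?_)
    simp only [Function.uncurry]
    ring
  calc ∫ x, u x * ∫ y, W (x - y) * v y = ∫ x, ∫ y, u x * (W (x - y) * v y) := by
        refine integral_congr_ae (Filter.Eventually.of_forall fun x => ?_)
        simp only
        rw [integral_const_mul]
    _ = ∫ y, ∫ x, u x * (W (x - y) * v y) := integral_integral_swap hint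
    _ = ∫ x, v x * ∫ y, W (x - y) * u y := by
        refine integral_congr_ae (Filter.Eventually.of_forall fun x => ?_)
        simp only
        rw [← integral_const_mul]
        refine integral_congr_ae (Filter.Eventually.of_forall fun y => ?_)
        simp only
        rw [← hW.even (y - x), neg_sub]
        ring

lemma INT.hasGrad {d : ℕ} {A K m : ℝ} {W : E d → ℝ} {ρ : ℝ → E d → ℝ}
    (hG : Good d W A K m ρ) {t : ℝ} (ht : 0 < t) (x : E d) :
    HasGradientAt (V W (ρ t)) (drift W (ρ t) x) x := by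
  have h := hG.vgrad t ht x
  have h2 : drift W (ρ t) x = ∫ y, W (x - y) • gradient (ρ t) y := h.gradient
  rw [h2]
  exact h

lemma INT.contDiff_of_grad {d : ℕ} {f : E d → ℝ} {g : E d → E d}
    (h : ∀ x, HasGradientAt f (g x) x) (hg : Continuous g) : ContDiff ℝ 1 f := by
  rw [contDiff_one_iff_fderiv]
  refine ⟨fun x => (h x).differentiableAt, ?_⟩
  have : fderiv ℝ f = fun x => InnerProductSpace.toDual ℝ (E d) (g x) := by
    funext x
    exact (h x).hasFDerivAt.fderiv
  rw [this]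
  exact (InnerProductSpace.toDual ℝ (E d)).continuous.comp hg

theorem itemINT (hDL : ClaimDL) (hCC : ClaimCC) (h1 : ClaimV1) : ClaimINT := by
  intro d A K m W ρ hG
  obtain ⟨hcx, hct, hB, hC⟩ := hCC d A K m W ρ hG
  refine ⟨fun t0 ht0 => ?_, ?_⟩
  · obtain ⟨B, hB0, hBb⟩ := hB (t0 / 2) (t0 + 1) (by positivity)
    have hev : ∀ᶠ t in 𝓝 t0, t0 / 2 ≤ t ∧ t ≤ t0 + 1 :=
      Icc_mem_nhds (by linarith) (by linarith)
    have hmass : ∀ t, 0 < t → ∫ x, |ρ t x| = m := fun t ht => by
      rw [← hG.mass t ht]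
      refine integral_congr_ae (Filter.Eventually.of_forall fun x => ?_)
      simp only
      exact abs_of_nonneg (hG.nonneg t x)
    have hm0 : 0 ≤ m := by
      rw [← hmass t0 ht0]
      exact integral_nonneg fun x => abs_nonneg _
    have hA := hG.pot.A_pos
    have hVb : ∀ t, t0 / 2 ≤ t → t ≤ t0 + 1 → ∀ x, |V W (ρ t) x| ≤ A * m := by
      intro t ht ht' x
      have htp : 0 < t := by linarith
      obtain ⟨-, -, hv, -, -⟩ := h1 d A K W (ρ t) B hG.pot (hG.int t htp)
        (Filter.Eventually.of_forall fun x => by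
          rw [abs_of_nonneg (hG.nonneg t x)]; exact (hBb t ht ht' x).1)
      rw [← hmass t htp]
      exact hv x
    have hVint : ∀ s t, 0 < s → t0 / 2 ≤ t → t ≤ t0 + 1 →
        Integrable (fun x => V W (ρ t) x * ρ s x) := by
      intro s t hs ht ht'
      have htp : 0 < t := by linarith
      refine (hG.int s hs).bdd_mul (c := A * m) ?_ ?_
      · exact (INT.contDiff_of_grad (INT.hasGrad hG htp) (hG.bxcont t
          htp)).continuous.aestronglyMeasurable
      · exact Filter.Eventually.of_forall fun x => by simpa using hVb t ht ht' x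
    set ψ : ℝ → E d → ℝ := fun t x => (1 / 2 : ℝ) * (V W (ρ t) x + V W (ρ t0) x) with hψ
    have hgψ : ∀ t, 0 < t → ∀ x, HasGradientAt (ψ t)
        ((1 / 2 : ℝ) • (drift W (ρ t) x + drift W (ρ t0) x)) x := by
      intro t ht x
      have e := ((INT.hasGrad hG ht x).hasFDerivAt.add
        (INT.hasGrad hG ht0 x).hasFDerivAt).const_mul (1 / 2 : ℝ)
      rw [← map_add] at e
      have e2 : (1 / 2 : ℝ) • (InnerProductSpace.toDual ℝ (E d))
          (drift W (ρ t) x + drift W (ρ t0) x) = (InnerProductSpace.toDual ℝ (E d))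
          ((1 / 2 : ℝ) • (drift W (ρ t) x + drift W (ρ t0) x)) := by
        rw [map_smulₛₗ]
        simp
      rw [e2] at e
      exact e
    have hgrad : ∀ t, 0 < t → ∀ x, gradient (ψ t) x =
        (1 / 2 : ℝ) • (drift W (ρ t) x + drift W (ρ t0) x) :=
      fun t ht x => (hgψ t ht x).gradient
    have key := hDL d A K m W ρ hG t0 (A * m + B) ψ ht0 (by
      filter_upwards [hev] with t ht
      obtain ⟨ht1, ht2⟩ := ht
      have htp : 0 < t := by linarith
      refine ⟨?_, fun x => ?_, fun x => ?_⟩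
      · exact INT.contDiff_of_grad (hgψ t htp)
          (((hG.bxcont t htp).add (hG.bxcont t0 ht0)).const_smul (1 / 2 : ℝ))
      · have a1 := hVb t ht1 ht2 x
        have a2 := hVb t0 (by linarith) (by linarith) x
        rw [abs_le] at *
        simp only [hψ]
        constructor <;> nlinarith
      · rw [hgrad t htp x, norm_smul]
        have a1 := (hBb t ht1 ht2 x).2.2
        have a2 := (hBb t0 (by linarith) (by linarith) x).2.2
        have a3 := norm_add_le (drift W (ρ t) x) (drift W (ρ t0) x)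
        have a4 : 0 ≤ A * m := by positivity
        rw [show ‖(1 / 2 : ℝ)‖ = 1 / 2 by norm_num]
        linarith) (by
      intro x
      have hc : ContinuousAt (fun t => drift W (ρ t) x) t0 :=
        (hG.btcont x).continuousAt (Ioi_mem_nhds ht0)
      have hc2 : Tendsto (fun t => (1 / 2 : ℝ) • (drift W (ρ t) x + drift W (ρ t0) x)) (𝓝 t0)
          (𝓝 ((1 / 2 : ℝ) • (drift W (ρ t0) x + drift W (ρ t0) x))) :=
        (hc.tendsto.add tendsto_const_nhds).const_smul _
      rw [hgrad t0 ht0 x]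
      refine hc2.congr' ?_
      filter_upwards [hev] with t ht
      exact (hgrad t (by linarith [ht.1]) x).symm)
    rw [hasDerivAt_iff_tendsto_slope]
    have e0 : (-∫ x, ⟪gradient (ψ t0) x, cur W (ρ t0) x⟫_ℝ) =
        -∫ x, ⟪drift W (ρ t0) x, cur W (ρ t0) x⟫_ℝ := by
      congr 1
      refine integral_congr_ae (Filter.Eventually.of_forall fun x => ?_)
      simp only
      rw [hgrad t0 ht0 x]
      congr 1
      rw [← two_smul ℝ (drift W (ρ t0) x), smul_smul]
      norm_num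
    rw [e0] at key
    refine key.congr' ?_
    filter_upwards [mem_nhdsWithin_of_mem_nhds hev] with t ht
    obtain ⟨ht1, ht2⟩ := ht
    have htp : 0 < t := by linarith
    have hi1 := hVint t t htp ht1 ht2
    have hi2 := hVint t0 t ht0 ht1 ht2
    have hi3 := hVint t t0 htp (by linarith) (by linarith)
    have hi4 := hVint t0 t0 ht0 (by linarith) (by linarith)
    rw [slope_def_field, div_eq_inv_mul]
    congr 1
    have e1 : ∫ x, ψ t x * (ρ t x - ρ t0 x) = (1 / 2 : ℝ) *
        ((∫ x, V W (ρ t) x * ρ t x) - (∫ x, V W (ρ t) x * ρ t0 x) +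
          (∫ x, V W (ρ t0) x * ρ t x) - ∫ x, V W (ρ t0) x * ρ t0 x) := by
      have f1 := integral_sub hi1 hi2
      have f2 := integral_add (hi1.sub hi2) hi3
      have f3 := integral_sub ((hi1.sub hi2).add hi3) hi4
      simp only [Pi.sub_apply, Pi.add_apply] at f1 f2 f3
      rw [← f1, ← f2, ← f3, ← integral_const_mul]
      refine integral_congr_ae (Filter.Eventually.of_forall fun x => ?_)
      simp only [hψ]
      ring
    have e2 : ∀ s t : ℝ, ∫ x, V W (ρ t) x * ρ s x = ∫ x, ρ s x * V W (ρ t) x := by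
      intro s t
      refine integral_congr_ae (Filter.Eventually.of_forall fun x => ?_)
      simp only
      ring
    rw [e1, e2, e2, e2, e2, INT.symm hG.pot (hG.int t htp) (hG.int t0 ht0)]
    ring
  · intro t0 ht0
    simp only [mem_Ioi] at ht0
    refine ContinuousAt.continuousWithinAt ?_
    obtain ⟨B, hB0, hBb⟩ := hB (t0 / 2) (t0 + 1) (by positivity)
    obtain ⟨h, hh, hD, hGD⟩ := hG.weight 1 one_pos le_rfl
    obtain ⟨C, hC0, hCb⟩ := hC 1 h one_pos le_rfl hh hD hGD (t0 / 2) (t0 + 1) (by positivity)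
    have hev : ∀ᶠ t in 𝓝 t0, t0 / 2 ≤ t ∧ t ≤ t0 + 1 :=
      Icc_mem_nhds (by linarith) (by linarith)
    refine tendsto_integral_filter_of_dominated_convergence (fun x => B * (C * h x)) ?_ ?_ ?_ ?_
    · filter_upwards [hev] with t ht
      have htp : 0 < t := by linarith [ht.1]
      exact ((hG.bxcont t htp).inner (hcx t htp)).aestronglyMeasurable
    · filter_upwards [hev] with t ht
      refine Filter.Eventually.of_forall fun x => ?_
      refine (norm_inner_le_norm _ _).trans ?_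
      exact mul_le_mul (hBb t ht.1 ht.2 x).2.2 (hCb t ht.1 ht.2 x).2.2 (norm_nonneg _) hB0
    · exact (hh.int.const_mul C).const_mul B
    · refine Filter.Eventually.of_forall fun x => ?_
      have hc1 : ContinuousAt (fun t => drift W (ρ t) x) t0 :=
        (hG.btcont x).continuousAt (Ioi_mem_nhds ht0)
      have hc2 : ContinuousAt (fun t => cur W (ρ t) x) t0 :=
        (hct x).continuousAt (Ioi_mem_nhds ht0)
      exact (hc1.inner hc2).tendsto

end Pool.Agent.Work.MP_9371de_an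

end
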