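import Pool.Agent.Work.MP_9371de_an.Claims

/-! Bundle of small proof modules (one section per former module). -/

section

/-! [J] the generator in weak form. -/

open MeasureTheory Set Filter Topology
open scoped Real InnerProductSpace

namespace Pool.Agent.Work.MP_9371de_an

theorem J_inner {d : ℕ} (f : E d → ℝ) (x w : E d) :
    ⟪gradient f x, w⟫_ℝ = fderiv ℝ f x w := by
  rw [gradient, InnerProductSpace.toDual_symm_apply]

theorem J_norm {d : ℕ} (f : E d → ℝ) (x : E d) : ‖fderiv ℝ f x‖ = ‖gradient f x‖ := by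
  rw [gradient, LinearIsometryEquiv.norm_map]

theorem J_cont {d : ℕ} {f : E d → ℝ} (hf : ContDiff ℝ 1 f) : Continuous (gradient f) :=
  (LinearIsometryEquiv.continuous _).comp (hf.continuous_fderiv one_ne_zero)

theorem J_diff {d : ℕ} {κ : ℝ} {h u : E d → ℝ} {C : ℝ} (hκ1 : κ ≤ 1)
    (hw : Weight d κ h) (hu : ContDiff ℝ 1 u) (hC : 0 ≤ C) (hg : ∀ x, ‖gradient u x‖ ≤ C * h x)
    (x z : E d) : |u (x + z) - u x| ≤ C * (Real.exp ‖z‖ * h x) * ‖z‖ := by
  have h1 := (convex_segment (𝕜 := ℝ) x (x + z)).norm_image_sub_le_of_norm_fderiv_le (𝕜 := ℝ)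
    (f := u) (C := C * (Real.exp ‖z‖ * h x)) (x := x) (y := x + z)
    (fun y _ => (hu.differentiable one_ne_zero).differentiableAt)
    (fun y hy => by
      rw [J_norm]
      rw [segment_eq_image'] at hy
      obtain ⟨s, hs, rfl⟩ := hy
      simp only [add_sub_cancel_left]
      refine (hg _).trans (mul_le_mul_of_nonneg_left ?_ hC)
      refine (hw.harnack x (s • z)).trans ?_
      have h2 : ‖s • z‖ ≤ ‖z‖ := by
        rw [norm_smul, Real.norm_of_nonneg hs.1]
        exact mul_le_of_le_one_left (norm_nonneg _) hs.2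
      have h3 : κ * ‖s • z‖ ≤ ‖z‖ := by
        nlinarith [norm_nonneg (s • z)]
      exact mul_le_mul_of_nonneg_right (Real.exp_le_exp.2 h3) (hw.pos x).le)
    (left_mem_segment _ _ _) (right_mem_segment _ _ _)
  simpa using h1

theorem J_psi {d : ℕ} {ψ : E d → ℝ} {M : ℝ} (hψ : ContDiff ℝ 1 ψ)
    (hg : ∀ x, ‖gradient ψ x‖ ≤ M) (x z : E d) : |ψ (x + z) - ψ x| ≤ M * ‖z‖ := by
  have h1 := (convex_univ (𝕜 := ℝ) (E := E d)).norm_image_sub_le_of_norm_fderiv_le (𝕜 := ℝ)
    (f := ψ) (C := M) (x := x) (y := x + z)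
    (fun y _ => (hψ.differentiable one_ne_zero).differentiableAt)
    (fun y _ => by rw [J_norm]; exact hg y) (mem_univ _) (mem_univ _)
  simpa using h1

theorem J_heat (d : ℕ) {δ : ℝ} (hδ : 0 < δ) (w : E d) :
    heat d δ (Real.sqrt δ • w) = ((Real.sqrt δ) ^ d)⁻¹ * heat d 1 w := by
  have h1 : ‖Real.sqrt δ • w‖ ^ 2 = δ * ‖w‖ ^ 2 := by
    rw [norm_smul, mul_pow, Real.norm_of_nonneg (Real.sqrt_nonneg _), Real.sq_sqrt hδ.le]
  have h2 : ((Real.sqrt δ) ^ d)⁻¹ = δ ^ (-(d : ℝ) / 2) := by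
    rw [Real.sqrt_eq_rpow, ← Real.rpow_natCast, ← Real.rpow_mul hδ.le, ← Real.rpow_neg hδ.le]
    congr 1; ring
  have h3 : (4 * π * δ) ^ (-(d : ℝ) / 2) = (4 * π) ^ (-(d : ℝ) / 2) * δ ^ (-(d : ℝ) / 2) :=
    Real.mul_rpow (by positivity) hδ.le
  have h4 : -(δ * ‖w‖ ^ 2) / (4 * δ) = -‖w‖ ^ 2 / (4 * 1) := by field_simp
  unfold heat
  rw [h1, h2, h3, h4, mul_one]
  ring_nf

theorem J_scale {d : ℕ} {δ : ℝ} (hδ : 0 < δ) (u : E d → ℝ) (x : E d) :
    P δ u x = ∫ w, heat d 1 w * u (x - Real.sqrt δ • w) := by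
  have h1 : P δ u x = ∫ z, heat d δ z * u (x - z) := by
    have := integral_sub_left_eq_self (fun z : E d => heat d δ z * u (x - z)) volume x
    simpa [P] using this
  have h2 := Measure.integral_comp_smul (volume : Measure (E d))
    (fun z : E d => heat d δ z * u (x - z)) (Real.sqrt δ)
  have h3 : (0 : ℝ) < ((Real.sqrt δ) ^ d)⁻¹ := by
    have := Real.sqrt_pos.2 hδ
    positivity
  rw [finrank_euclideanSpace, Fintype.card_fin, abs_of_pos h3, smul_eq_mul, ← h1] at h2
  have h4 : ∫ w, heat d δ (Real.sqrt δ • w) * u (x - Real.sqrt δ • w) =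
      ((Real.sqrt δ) ^ d)⁻¹ * ∫ w, heat d 1 w * u (x - Real.sqrt δ • w) := by
    rw [← integral_const_mul]
    congr 1
    funext w
    rw [J_heat d hδ]; ring
  rw [h4] at h2
  exact (mul_left_cancel₀ h3.ne' h2).symm

/-- the dominating function -/
noncomputable def Jdom (d : ℕ) (w : E d) : ℝ :=
  Real.exp ‖w‖ * heat d 1 w + Real.exp ‖w‖ * ‖w‖ ^ 2 * heat d 1 w

theorem Jdom_int (h5 : ClaimH5) (d : ℕ) : Integrable (Jdom d) := by
  obtain ⟨C, _, h⟩ := h5 d 1
  obtain ⟨h1, _, h3, _⟩ := h 1 one_pos le_rfl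
  exact h1.add h3

theorem Jdom_one (h1 : ClaimH1) {d : ℕ} (w : E d) :
    heat d 1 w * (Real.exp ‖w‖ * ‖w‖) ≤ Jdom d w := by
  have h0 := ((h1 d 1 one_pos).1 w).le
  have h2 : 0 ≤ Real.exp ‖w‖ * heat d 1 w := by positivity
  unfold Jdom
  nlinarith [sq_nonneg (‖w‖ - 1), mul_nonneg h2 (sq_nonneg (‖w‖ - 1)),
    mul_nonneg h2 (norm_nonneg w), mul_nonneg h2 (sq_nonneg ‖w‖)]

theorem Jdom_two (h1 : ClaimH1) {d : ℕ} (w : E d) :
    heat d 1 w * (Real.exp ‖w‖ * ‖w‖ ^ 2) ≤ Jdom d w := by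
  have h0 := ((h1 d 1 one_pos).1 w).le
  have h2 : 0 ≤ Real.exp ‖w‖ * heat d 1 w := by positivity
  unfold Jdom
  nlinarith

section main

variable {d : ℕ} {κ : ℝ} {h u ψ : E d → ℝ} {C M : ℝ}

theorem J_uint (hw : Weight d κ h) (hu : ContDiff ℝ 1 u) (hb : ∀ x, |u x| ≤ C * h x) :
    Integrable u :=
  Integrable.mono' (hw.int.const_mul C) hu.continuous.aestronglyMeasurable
    (Eventually.of_forall hb)

theorem J_pint (hw : Weight d κ h) (hu : ContDiff ℝ 1 u) (hb : ∀ x, |u x| ≤ C * h x)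
    (hψ : ContDiff ℝ 1 ψ) (hM : ∀ x, |ψ x| ≤ M) (a b : E d) :
    Integrable (fun x => ψ (x + a) * u (x + b)) := by
  have h1 : Integrable (fun x => u (x + b)) := (J_uint hw hu hb).comp_add_right b
  refine h1.bdd_mul (c := M) (by
    exact (hψ.continuous.comp (continuous_id.add continuous_const)).aestronglyMeasurable)
    (Eventually.of_forall fun x => ?_)
  exact hM _

/-- `A(z) = ∫ ψ(x) (u(x-z) - u(x)) dx` -/
noncomputable def JA (ψ u : E d → ℝ) (z : E d) : ℝ := ∫ x, ψ x * (u (x - z) - u x)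

theorem J_A (hw : Weight d κ h) (hu : ContDiff ℝ 1 u) (hb : ∀ x, |u x| ≤ C * h x)
    (hψ : ContDiff ℝ 1 ψ) (hM : ∀ x, |ψ x| ≤ M) (z : E d) :
    JA ψ u z + JA ψ u (-z) = -∫ x, (ψ (x + z) - ψ x) * (u (x + z) - u x) := by
  have i00 := J_pint hw hu hb hψ hM 0 0
  have i0m := J_pint hw hu hb hψ hM 0 (-z)
  have i0p := J_pint hw hu hb hψ hM 0 z
  have ip0 := J_pint hw hu hb hψ hM z 0
  have ipp := J_pint hw hu hb hψ hM z z
  simp only [add_zero] at i00 i0m i0p ip0 ipp
  have e1 : JA ψ u z = (∫ x, ψ x * u (x + -z)) - ∫ x, ψ x * u x := by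
    rw [← integral_sub i0m i00]
    unfold JA
    congr 1; funext x; rw [sub_eq_add_neg x z]; ring
  have e2 : JA ψ u (-z) = (∫ x, ψ x * u (x + z)) - ∫ x, ψ x * u x := by
    rw [← integral_sub i0p i00]
    unfold JA
    congr 1; funext x; rw [sub_neg_eq_add]; ring
  have e3 : ∫ x, ψ (x + z) * u (x + z) = ∫ x, ψ x * u x :=
    integral_add_right_eq_self (μ := (volume : Measure (E d))) (fun x => ψ x * u x) z
  have e4 : ∫ x, ψ (x + z) * u x = ∫ x, ψ x * u (x + -z) := by
    have := integral_add_right_eq_self (μ := (volume : Measure (E d)))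
      (fun x => ψ x * u (x + -z)) z
    simpa using this
  have e5 : ∫ x, (ψ (x + z) - ψ x) * (u (x + z) - u x) =
      (∫ x, ψ (x + z) * u (x + z)) - (∫ x, ψ (x + z) * u x) - ((∫ x, ψ x * u (x + z)) -
        ∫ x, ψ x * u x) := by
    have k1 : Integrable (fun x => ψ (x + z) * u (x + z) - ψ (x + z) * u x) := ipp.sub ip0
    have k2 : Integrable (fun x => ψ x * u (x + z) - ψ x * u x) := i0p.sub i00
    rw [← integral_sub ipp ip0, ← integral_sub i0p i00, ← integral_sub k1 k2]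
    congr 1; funext x; ring
  rw [e1, e2, e5, e3, e4]
  ring

theorem J_C (hw : Weight d κ h) (hb : ∀ x, |u x| ≤ C * h x) : 0 ≤ C := by
  have h1 := (abs_nonneg _).trans (hb 0)
  exact nonneg_of_mul_nonneg_left h1 (hw.pos 0)

theorem J_smul {δ : ℝ} (_hδ : 0 < δ) (hδ1 : δ ≤ 1) (w : E d) :
    ‖Real.sqrt δ • w‖ = Real.sqrt δ * ‖w‖ ∧ ‖Real.sqrt δ • w‖ ≤ ‖w‖ := by
  have h1 : ‖Real.sqrt δ • w‖ = Real.sqrt δ * ‖w‖ := by
    rw [norm_smul, Real.norm_of_nonneg (Real.sqrt_nonneg _)]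
  refine ⟨h1, ?_⟩
  rw [h1]
  refine mul_le_of_le_one_left (norm_nonneg _) ?_
  exact Real.sqrt_le_one.2 hδ1

theorem J_int1 (h1 : ClaimH1) (h5 : ClaimH5) (hκ1 : κ ≤ 1) (hw : Weight d κ h)
    (hu : ContDiff ℝ 1 u) (hb : ∀ x, |u x| ≤ C * h x) (hg : ∀ x, ‖gradient u x‖ ≤ C * h x)
    (hψ : ContDiff ℝ 1 ψ) (hM : ∀ x, |ψ x| ≤ M) {δ : ℝ} (hδ : 0 < δ) (hδ1 : δ ≤ 1) :
    Integrable (fun z : E d × E d =>
      heat d 1 z.2 * (ψ z.1 * (u (z.1 - Real.sqrt δ • z.2) - u z.1)))
      (volume.prod volume) := by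
  have hC := J_C hw hb
  have hM0 : 0 ≤ M := (abs_nonneg _).trans (hM 0)
  have hdom : Integrable (fun z : E d × E d => (M * C * h z.1) * Jdom d z.2)
      (volume.prod volume) := (hw.int.const_mul (M * C)).mul_prod (Jdom_int h5 d)
  refine hdom.mono' ?_ (Eventually.of_forall fun z => ?_)
  · refine Continuous.aestronglyMeasurable ?_
    have c1 := (h1 d 1 one_pos).2.1
    have c2 := hψ.continuous
    have c3 := hu.continuous
    fun_prop
  · obtain ⟨x, w⟩ := z
    simp only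
    have hheat := ((h1 d 1 one_pos).1 w).le
    obtain ⟨n1, n2⟩ := J_smul hδ hδ1 w
    have h3 := J_diff hκ1 hw hu hC hg x (-(Real.sqrt δ • w))
    rw [norm_neg, ← sub_eq_add_neg] at h3
    have h4 : C * (Real.exp ‖Real.sqrt δ • w‖ * h x) * ‖Real.sqrt δ • w‖ ≤
        C * (Real.exp ‖w‖ * h x) * ‖w‖ := by
      have := (hw.pos x).le
      gcongr
    rw [Real.norm_eq_abs, abs_mul, abs_mul, abs_of_nonneg hheat]
    have h6 := Jdom_one h1 w
    have hhx := (hw.pos x).le
    calc heat d 1 w * (|ψ x| * |u (x - Real.sqrt δ • w) - u x|)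
        ≤ heat d 1 w * (M * (C * (Real.exp ‖w‖ * h x) * ‖w‖)) := by
          gcongr
          · exact hM x
          · exact h3.trans h4
      _ = (M * C * h x) * (heat d 1 w * (Real.exp ‖w‖ * ‖w‖)) := by ring
      _ ≤ (M * C * h x) * Jdom d w := by gcongr

theorem J_bd2 (h1 : ClaimH1) (hκ1 : κ ≤ 1) (hw : Weight d κ h)
    (hu : ContDiff ℝ 1 u) (hb : ∀ x, |u x| ≤ C * h x) (hg : ∀ x, ‖gradient u x‖ ≤ C * h x)
    (hψ : ContDiff ℝ 1 ψ) (hM : ∀ x, ‖gradient ψ x‖ ≤ M) {δ : ℝ} (hδ : 0 < δ) (hδ1 : δ ≤ 1)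
    (x w : E d) :
    |δ⁻¹ * (heat d 1 w * ((ψ (x + Real.sqrt δ • w) - ψ x) * (u (x + Real.sqrt δ • w) - u x)))|
      ≤ (M * C * h x) * Jdom d w := by
  have hC := J_C hw hb
  have hM0 : 0 ≤ M := (norm_nonneg _).trans (hM 0)
  have hheat := ((h1 d 1 one_pos).1 w).le
  obtain ⟨n1, n2⟩ := J_smul hδ hδ1 w
  have h3 := J_diff hκ1 hw hu hC hg x (Real.sqrt δ • w)
  have h4 := J_psi hψ hM x (Real.sqrt δ • w)
  have hhx := (hw.pos x).le
  have h5 : C * (Real.exp ‖Real.sqrt δ • w‖ * h x) * ‖Real.sqrt δ • w‖ ≤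
      C * (Real.exp ‖w‖ * h x) * ‖Real.sqrt δ • w‖ := by gcongr
  rw [abs_mul, abs_mul, abs_mul, abs_of_nonneg hheat, abs_of_pos (inv_pos.2 hδ)]
  have h6 := Jdom_two h1 w
  have hsq : Real.sqrt δ * Real.sqrt δ = δ := Real.mul_self_sqrt hδ.le
  calc δ⁻¹ * (heat d 1 w * (|ψ (x + Real.sqrt δ • w) - ψ x| * |u (x + Real.sqrt δ • w) - u x|))
      ≤ δ⁻¹ * (heat d 1 w * ((M * ‖Real.sqrt δ • w‖) *
        (C * (Real.exp ‖w‖ * h x) * ‖Real.sqrt δ • w‖))) := by
        gcongr
        exact h3.trans h5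
    _ = (δ⁻¹ * (Real.sqrt δ * Real.sqrt δ)) * ((M * C * h x) *
        (heat d 1 w * (Real.exp ‖w‖ * ‖w‖ ^ 2))) := by rw [n1]; ring
    _ = (M * C * h x) * (heat d 1 w * (Real.exp ‖w‖ * ‖w‖ ^ 2)) := by
        rw [hsq, inv_mul_cancel₀ hδ.ne', one_mul]
    _ ≤ (M * C * h x) * Jdom d w := by gcongr

theorem J_meas2 (h1 : ClaimH1) (hu : ContDiff ℝ 1 u) (hψ : ContDiff ℝ 1 ψ) (δ : ℝ) :
    Continuous (fun z : E d × E d => heat d 1 z.2 *
      ((ψ (z.1 + Real.sqrt δ • z.2) - ψ z.1) * (u (z.1 + Real.sqrt δ • z.2) - u z.1))) := by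
  have c1 := (h1 d 1 one_pos).2.1
  have c2 := hψ.continuous
  have c3 := hu.continuous
  fun_prop

theorem J_id (h1 : ClaimH1) (h5 : ClaimH5) (hκ1 : κ ≤ 1) (hw : Weight d κ h)
    (hu : ContDiff ℝ 1 u) (hb : ∀ x, |u x| ≤ C * h x) (hg : ∀ x, ‖gradient u x‖ ≤ C * h x)
    (hψ : ContDiff ℝ 1 ψ) (hM : ∀ x, |ψ x| ≤ M) (hM' : ∀ x, ‖gradient ψ x‖ ≤ M)
    {δ : ℝ} (hδ : 0 < δ) (hδ1 : δ ≤ 1) :
    ∫ x, ψ x * (P δ u x - u x) = -(1 / 2) * ∫ z : E d × E d, heat d 1 z.2 *
      ((ψ (z.1 + Real.sqrt δ • z.2) - ψ z.1) * (u (z.1 + Real.sqrt δ • z.2) - u z.1))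
      ∂(volume.prod volume) := by
  obtain ⟨_, hcont, hint, hone, _, heven, _⟩ := h1 d 1 one_pos
  have hi := J_int1 h1 h5 hκ1 hw hu hb hg hψ hM hδ hδ1
  obtain ⟨B, hB⟩ := hw.bdd
  have hC := J_C hw hb
  have hub : ∀ x, |u x| ≤ C * B := fun x => (hb x).trans (mul_le_mul_of_nonneg_left (hB x) hC)
  -- step 1
  have s1 : ∀ x, ψ x * (P δ u x - u x) =
      ∫ w, heat d 1 w * (ψ x * (u (x - Real.sqrt δ • w) - u x)) := by
    intro x
    have i1 : Integrable (fun w => heat d 1 w * u (x - Real.sqrt δ • w)) := by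
      refine hint.mul_bdd (c := C * B) ?_ (Eventually.of_forall fun w => hub _)
      have c3 := hu.continuous
      exact Continuous.aestronglyMeasurable (by fun_prop)
    have i2 : Integrable (fun w => heat d 1 w * u x) := hint.mul_const _
    have e1 : P δ u x - u x = ∫ w, heat d 1 w * (u (x - Real.sqrt δ • w) - u x) := by
      have e2 : u x = ∫ w, heat d 1 w * u x := by rw [integral_mul_const, hone, one_mul]
      conv_lhs => rw [J_scale hδ u x, e2]
      rw [← integral_sub i1 i2]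
      congr 1; funext w
      ring
    rw [e1, ← integral_const_mul]
    congr 1; funext w; ring
  have s2 : ∫ x, ψ x * (P δ u x - u x) = ∫ w, heat d 1 w * JA ψ u (Real.sqrt δ • w) := by
    simp_rw [s1]
    rw [integral_integral_swap hi]
    congr 1; funext w
    rw [integral_const_mul]
    rfl
  have i3 : Integrable (fun w => heat d 1 w * JA ψ u (Real.sqrt δ • w)) := by
    have := hi.integral_prod_right
    refine this.congr (Eventually.of_forall fun w => ?_)
    simp only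
    rw [integral_const_mul]
    rfl
  have i4 : Integrable (fun w => heat d 1 w * JA ψ u (-(Real.sqrt δ • w))) := by
    have := i3.comp_neg
    refine this.congr (Eventually.of_forall fun w => ?_)
    simp only
    rw [heven, smul_neg]
  have s3 : ∫ w, heat d 1 w * JA ψ u (Real.sqrt δ • w) =
      ∫ w, heat d 1 w * JA ψ u (-(Real.sqrt δ • w)) := by
    rw [← integral_neg_eq_self]
    congr 1; funext w
    rw [heven, smul_neg]
  have s4 : 2 * ∫ w, heat d 1 w * JA ψ u (Real.sqrt δ • w) =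
      -∫ w, heat d 1 w * ∫ x, (ψ (x + Real.sqrt δ • w) - ψ x) *
        (u (x + Real.sqrt δ • w) - u x) := by
    rw [two_mul]
    conv_lhs => rw [s3]
    conv_lhs => arg 1; rw [← s3]
    rw [← integral_add i3 i4, ← integral_neg]
    congr 1; funext w
    rw [← mul_add, J_A hw hu hb hψ hM]
    ring
  have i5 : Integrable (fun z : E d × E d => heat d 1 z.2 *
      ((ψ (z.1 + Real.sqrt δ • z.2) - ψ z.1) * (u (z.1 + Real.sqrt δ • z.2) - u z.1)))
      (volume.prod volume) := by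
    have hdom : Integrable (fun z : E d × E d => δ * ((M * C * h z.1) * Jdom d z.2))
      (volume.prod volume) :=
      ((hw.int.const_mul (M * C)).mul_prod (Jdom_int h5 d)).const_mul δ
    refine hdom.mono' (J_meas2 h1 hu hψ δ).aestronglyMeasurable
      (Eventually.of_forall fun z => ?_)
    have h8 := J_bd2 h1 hκ1 hw hu hb hg hψ hM' hδ hδ1 z.1 z.2
    rw [abs_mul, abs_of_pos (inv_pos.2 hδ), inv_mul_le_iff₀ hδ] at h8
    exact h8
  have s5 : ∫ z : E d × E d, heat d 1 z.2 *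
      ((ψ (z.1 + Real.sqrt δ • z.2) - ψ z.1) * (u (z.1 + Real.sqrt δ • z.2) - u z.1))
      ∂(volume.prod volume) = ∫ w, heat d 1 w * ∫ x, (ψ (x + Real.sqrt δ • w) - ψ x) *
        (u (x + Real.sqrt δ • w) - u x) := by
    rw [integral_prod_symm _ i5]
    congr 1; funext w
    rw [← integral_const_mul]
  rw [s2, s5]
  linarith

end main

theorem itemJ (h1 : ClaimH1) (h2 : ClaimH2) (h5 : ClaimH5) : ClaimJ := by
  intro d κ h u ψ C M hκ hκ1 hw hu hb hg hψ hM hM'
  -- pointwise limits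
  have hs : Tendsto (fun δ : ℝ => Real.sqrt δ) (𝓝[>] 0) (𝓝[≠] 0) := by
    refine tendsto_nhdsWithin_iff.2 ⟨?_, ?_⟩
    · have := Real.continuous_sqrt.tendsto 0
      rw [Real.sqrt_zero] at this
      exact this.mono_left nhdsWithin_le_nhds
    · filter_upwards [self_mem_nhdsWithin] with δ hδ
      exact (Real.sqrt_pos.2 hδ).ne'
  have hlim : ∀ (f : E d → ℝ), ContDiff ℝ 1 f → ∀ x w : E d,
      Tendsto (fun δ : ℝ => (Real.sqrt δ)⁻¹ * (f (x + Real.sqrt δ • w) - f x)) (𝓝[>] 0)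
        (𝓝 ⟪gradient f x, w⟫_ℝ) := by
    intro f hf x w
    have e1 : HasDerivAt (fun t : ℝ => f (x + t • w)) (fderiv ℝ f x w) 0 :=
      ((hf.differentiable one_ne_zero).differentiableAt.hasFDerivAt).hasLineDerivAt w
    have e2 := e1.tendsto_slope_zero.comp hs
    rw [J_inner]
    refine e2.congr fun δ => ?_
    simp
  have hlim2 : ∀ z : E d × E d, Tendsto (fun δ : ℝ => δ⁻¹ * (heat d 1 z.2 *
      ((ψ (z.1 + Real.sqrt δ • z.2) - ψ z.1) * (u (z.1 + Real.sqrt δ • z.2) - u z.1))))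
      (𝓝[>] 0) (𝓝 (heat d 1 z.2 * (⟪gradient ψ z.1, z.2⟫_ℝ * ⟪gradient u z.1, z.2⟫_ℝ))) := by
    intro z
    refine (((hlim ψ hψ z.1 z.2).mul (hlim u hu z.1 z.2)).const_mul (heat d 1 z.2)).congr' ?_
    filter_upwards [self_mem_nhdsWithin] with δ hδ
    have h3 : (Real.sqrt δ)⁻¹ * (Real.sqrt δ)⁻¹ = δ⁻¹ := by
      rw [← mul_inv, Real.mul_self_sqrt (le_of_lt hδ)]
    rw [← h3]; ring
  have hC := J_C hw hb
  have hdom : Integrable (fun z : E d × E d => (M * C * h z.1) * Jdom d z.2)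
      (volume.prod volume) := (hw.int.const_mul (M * C)).mul_prod (Jdom_int h5 d)
  have hev : ∀ᶠ δ : ℝ in 𝓝[>] 0, 0 < δ ∧ δ ≤ 1 := by
    filter_upwards [self_mem_nhdsWithin,
      nhdsWithin_le_nhds (Iic_mem_nhds (zero_lt_one (α := ℝ)))] with δ h3 h4
    exact ⟨h3, h4⟩
  have hT := tendsto_integral_filter_of_dominated_convergence (μ := volume.prod volume)
    (l := 𝓝[>] (0 : ℝ))
    (F := fun (δ : ℝ) (z : E d × E d) => δ⁻¹ * (heat d 1 z.2 *
      ((ψ (z.1 + Real.sqrt δ • z.2) - ψ z.1) * (u (z.1 + Real.sqrt δ • z.2) - u z.1))))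
    (f := fun z => heat d 1 z.2 * (⟪gradient ψ z.1, z.2⟫_ℝ * ⟪gradient u z.1, z.2⟫_ℝ))
    (fun z => (M * C * h z.1) * Jdom d z.2)
    (Eventually.of_forall fun δ =>
      (continuous_const.mul (J_meas2 h1 hu hψ δ)).aestronglyMeasurable)
    (hev.mono fun δ hδ => Eventually.of_forall fun z =>
      J_bd2 h1 hκ1 hw hu hb hg hψ hM' hδ.1 hδ.2 z.1 z.2)
    hdom (Eventually.of_forall hlim2)
  have hiL : Integrable (fun z : E d × E d =>
      heat d 1 z.2 * (⟪gradient ψ z.1, z.2⟫_ℝ * ⟪gradient u z.1, z.2⟫_ℝ))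
      (volume.prod volume) := by
    refine hdom.mono' ?_ (Eventually.of_forall fun z => ?_)
    · have c1 := (h1 d 1 one_pos).2.1
      have c2 := J_cont hψ
      have c3 := J_cont hu
      exact Continuous.aestronglyMeasurable (by fun_prop)
    · refine le_of_tendsto (hlim2 z).norm (hev.mono fun δ hδ => ?_)
      exact J_bd2 h1 hκ1 hw hu hb hg hψ hM' hδ.1 hδ.2 z.1 z.2
  have hval : ∫ z : E d × E d, heat d 1 z.2 *
      (⟪gradient ψ z.1, z.2⟫_ℝ * ⟪gradient u z.1, z.2⟫_ℝ) ∂(volume.prod volume) =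
      2 * ∫ x, ⟪gradient ψ x, gradient u x⟫_ℝ := by
    rw [integral_prod _ hiL, ← integral_const_mul]
    congr 1; funext x
    have := ((h2 d 1 one_pos).1 (gradient ψ x) (gradient u x)).2
    simp only
    rw [this]; ring
  rw [hval] at hT
  have hT2 := hT.const_mul (-(1 / 2) : ℝ)
  have e : -(1 / 2) * (2 * ∫ x, ⟪gradient ψ x, gradient u x⟫_ℝ) =
      -∫ x, ⟪gradient ψ x, gradient u x⟫_ℝ := by ring
  rw [e] at hT2
  refine hT2.congr' (hev.mono fun δ hδ => ?_)
  show _ = δ⁻¹ * ∫ x, ψ x * (P δ u x - u x)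
  rw [J_id h1 h5 hκ1 hw hu hb hg hψ hM hM' hδ.1 hδ.2, integral_const_mul]
  ring

end Pool.Agent.Work.MP_9371de_an

end

section

/-!
[LP] decay of `∫ ρ^(2^k)`.
-/

set_option autoImplicit false

open MeasureTheory Set Filter Topology
open scoped Real InnerProductSpace

namespace Pool.Agent.Work.MP_9371de_an

theorem lp_phi_lower {z : ℝ} (hz : 0 ≤ z) : z ^ 2 / (2 + z) ≤ Phi z := by
  unfold Phi
  have h := Real.le_log_one_add_of_nonneg hz
  have h1 : (1 + z) * (2 * z / (z + 2)) ≤ (1 + z) * Real.log (1 + z) :=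
    mul_le_mul_of_nonneg_left h (by linarith)
  have h2 : (1 + z) * (2 * z / (z + 2)) - z = z ^ 2 / (2 + z) := by
    have h3 : z + 2 ≠ 0 := by positivity
    have h4 : 2 + z ≠ 0 := by positivity
    field_simp
    ring
  linarith

theorem lp_phi_upper {z : ℝ} (hz : 0 ≤ z) : Phi z ≤ z ^ 2 := by
  unfold Phi
  have h : Real.log (1 + z) ≤ z := by
    have := Real.log_le_sub_one_of_pos (show 0 < 1 + z by linarith)
    linarith
  nlinarith

theorem lp_phi_nonneg {z : ℝ} (hz : 0 ≤ z) : 0 ≤ Phi z :=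
  le_trans (by positivity) (lp_phi_lower hz)

theorem lp_point {z L : ℝ} (hz : 0 ≤ z) (hL : 1 ≤ L) :
    z ^ 2 ≤ 2 * (1 + L) * Phi z + z ^ 4 / L ^ 2 := by
  have h0 := lp_phi_nonneg hz
  rcases le_total z L with h | h
  · have h1 := lp_phi_lower hz
    rw [div_le_iff₀ (by positivity)] at h1
    have h2 : Phi z * (2 + z) ≤ 2 * (1 + L) * Phi z := by nlinarith
    have h3 : 0 ≤ z ^ 4 / L ^ 2 := by positivity
    linarith
  · have h1 : z ^ 2 ≤ z ^ 4 / L ^ 2 := by
      rw [le_div_iff₀ (by positivity)]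
      have h2 : L ^ 2 ≤ z ^ 2 := pow_le_pow_left₀ (by linarith) h 2
      nlinarith [sq_nonneg z]
    have h2 : 0 ≤ 2 * (1 + L) * Phi z := by positivity
    linarith

section

variable {d : ℕ} {A K m : ℝ} {W : E d → ℝ} {ρ : ℝ → E d → ℝ}

theorem lp_bdd (hCC : ClaimCC) (hG : Good d W A K m ρ) {t : ℝ} (ht : 0 < t) :
    ∃ B, 0 ≤ B ∧ ∀ x, ρ t x ≤ B := by
  obtain ⟨-, -, h, -⟩ := hCC d A K m W ρ hG
  obtain ⟨B, hB, h'⟩ := h t t ht
  exact ⟨B, hB, fun x => (h' t le_rfl le_rfl x).1⟩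

theorem lp_int (hCC : ClaimCC) (hG : Good d W A K m ρ) {t : ℝ} (ht : 0 < t) {p : ℕ}
    (hp : 1 ≤ p) : Integrable (fun x => ρ t x ^ p) := by
  obtain ⟨B, hB, hb⟩ := lp_bdd hCC hG ht
  have hc := (hG.c1 t ht).continuous
  refine Integrable.mono' ((hG.int t ht).const_mul (B ^ (p - 1)))
    (Continuous.aestronglyMeasurable (by fun_prop)) (Filter.Eventually.of_forall fun x => ?_)
  have h0 := hG.nonneg t x
  rw [Real.norm_of_nonneg (pow_nonneg h0 _)]
  obtain ⟨r, rfl⟩ : ∃ r, p = r + 1 := ⟨p - 1, by omega⟩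
  rw [Nat.add_sub_cancel, pow_succ]
  exact mul_le_mul_of_nonneg_right (pow_le_pow_left₀ h0 (hb x) _) h0

theorem lp_int_phi (hCC : ClaimCC) (hG : Good d W A K m ρ) {t : ℝ} (ht : 0 < t) :
    Integrable (fun x => Phi (ρ t x)) := by
  have hc := (hG.c1 t ht).continuous
  refine Integrable.mono' (lp_int hCC hG ht (p := 2) (by norm_num)) ?_
    (Filter.Eventually.of_forall fun x => ?_)
  · refine Continuous.aestronglyMeasurable ?_
    unfold Phi
    refine ((continuous_const.add hc).mul (Continuous.log (continuous_const.add hc) fun x => ?_)).sub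
      hc
    have := hG.nonneg t x
    show 1 + ρ t x ≠ 0
    linarith
  · rw [Real.norm_of_nonneg (lp_phi_nonneg (hG.nonneg t x))]
    exact lp_phi_upper (hG.nonneg t x)

theorem lp_step (hZ : ClaimZ) (hL : ClaimLad) (hd : 0 < d) (hG : Good d W A K m ρ)
    {β : ℝ → ℝ} {t0 : ℝ} (ht0 : 0 < t0) (hβc : ContinuousOn β (Ioi 0))
    (hβ : ∀ t, 0 < t → 0 ≤ β t ∧ ∀ x, ‖drift W (ρ t) x‖ ^ 2 ≤ β t)
    (hβi : ∀ T, t0 ≤ T → ∫ t in t0..T, β t ≤ 1 / 4) (q : ℕ) (hq : 1 ≤ q) :
    ∃ C, 0 < C ∧ ∀ t1 S, t0 ≤ t1 → (∀ t ∈ Icc t1 (t1 + 1), ∫ x, ρ t x ^ q ≤ S) →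
      ∫ x, ρ (t1 + 1) x ^ (2 * q) ≤ C * S ^ 2 := by
  obtain ⟨C, hC, h⟩ := hL d ((2 * q) ^ 2) hd (by positivity)
  refine ⟨C, hC, fun t1 S ht1 hS => ?_⟩
  have hpos : ∀ t ∈ Icc t1 (t1 + 1), 0 < t := fun t ht => ht0.trans_le (ht1.trans ht.1)
  have hii : ∀ a b : ℝ, 0 < a → a ≤ b → IntervalIntegrable β volume a b := by
    intro a b ha hab
    refine ContinuousOn.intervalIntegrable (hβc.mono ?_)
    rw [uIcc_of_le hab]
    exact fun x hx => ha.trans_le hx.1
  refine h (fun t => ∫ x, ρ t x ^ (2 * q)) β t1 S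
    (hβc.mono fun t ht => hpos t ht)
    (fun t ht => ⟨(hβ t (hpos t ht)).1, integral_nonneg fun x => pow_nonneg (hG.nonneg t x) _⟩)
    ?_ fun t ht => ?_
  · have h1 := hβi (t1 + 1) (by linarith)
    rw [← intervalIntegral.integral_add_adjacent_intervals (hii t0 t1 ht0 ht1)
      (hii t1 (t1 + 1) (by linarith) (by linarith))] at h1
    have h2 : 0 ≤ ∫ t in t0..t1, β t :=
      intervalIntegral.integral_nonneg ht1 fun t ht => (hβ t (ht0.trans_le ht.1)).1
    linarith
  · obtain ⟨z', hz1, hz2⟩ := hZ d A K m W ρ hd hG q hq t (hpos t ht)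
    refine ⟨z', hz1, fun τ hτ => ?_⟩
    refine (hz2 τ (β t) hτ (hβ t (hpos t ht)).2).trans ?_
    have h1 : 0 ≤ ∫ x, ρ t x ^ q := integral_nonneg fun x => pow_nonneg (hG.nonneg t x) _
    have h2 : (∫ x, ρ t x ^ q) ^ 2 ≤ S ^ 2 := pow_le_pow_left₀ h1 (hS t ht) 2
    have h3 : 0 ≤ 1 / (d * τ) * (4 * π * τ) ^ (-(d : ℝ) / 2) := by positivity
    have h4 := mul_le_mul_of_nonneg_left h2 h3
    linarith

end

theorem itemLP (hCC : ClaimCC) (hD9b : ClaimD9b) (hZ : ClaimZ) (hL : ClaimLad) : ClaimLP := by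
  intro d A K m W ρ hd hG
  obtain ⟨β, t0, ht0, hβc, hβ, hβi, hΦ⟩ := hD9b d A K m W ρ hd hG
  have hstep := fun q hq => lp_step hZ hL hd hG ht0 hβc hβ hβi q hq
  -- `∫ ρ²` and `∫ ρ⁴` are bounded
  obtain ⟨C1, hC1, h1⟩ := hstep 1 le_rfl
  obtain ⟨C2, hC2, h2⟩ := hstep 2 (by norm_num)
  have hb2 : ∀ t, t0 + 1 ≤ t → ∫ x, ρ t x ^ 2 ≤ C1 * m ^ 2 := by
    intro t ht
    have h := h1 (t - 1) m (by linarith) (fun s hs => by
      simp only [pow_one]
      exact (hG.mass s (by linarith [hs.1])).le)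
    rwa [sub_add_cancel, mul_one] at h
  have hb4 : ∀ t, t0 + 2 ≤ t → ∫ x, ρ t x ^ 4 ≤ C2 * (C1 * m ^ 2) ^ 2 := by
    intro t ht
    have h := h2 (t - 1) (C1 * m ^ 2) (by linarith) (fun s hs => hb2 s (by linarith [hs.1]))
    rwa [sub_add_cancel] at h
  have hbase : Tendsto (fun t => ∫ x, ρ t x ^ 2) atTop (𝓝 0) := by
    rw [Metric.tendsto_atTop]
    intro ε hε
    obtain ⟨L, hL1, hL2⟩ : ∃ L : ℝ, 1 ≤ L ∧ C2 * (C1 * m ^ 2) ^ 2 / L ^ 2 ≤ ε / 2 := by
      set D := C2 * (C1 * m ^ 2) ^ 2 with hD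
      have hD0 : 0 ≤ D := by positivity
      refine ⟨1 + 2 * D / ε, by
        have : 0 ≤ 2 * D / ε := by positivity
        linarith, ?_⟩
      have h3 : 0 ≤ 2 * D / ε := by positivity
      rw [div_le_iff₀ (by positivity)]
      have h4 : ε / 2 * (2 * D / ε) = D := by
        field_simp
      nlinarith [sq_nonneg (2 * D / ε)]
    have hL0 : 0 < 2 * (1 + L) := by linarith
    obtain ⟨N, hN⟩ := (Metric.tendsto_atTop.1 hΦ) (ε / 2 / (2 * (1 + L))) (by positivity)
    refine ⟨max N (t0 + 2), fun t ht => ?_⟩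
    have ht1 : N ≤ t := (le_max_left _ _).trans ht
    have ht2 : t0 + 2 ≤ t := (le_max_right _ _).trans ht
    have htp : 0 < t := by linarith
    have h3 := hN t ht1
    rw [Real.dist_eq, sub_zero] at h3
    have h4 := (abs_lt.1 h3).2
    rw [lt_div_iff₀ hL0] at h4
    have h5 : ∫ x, ρ t x ^ 2 ≤ 2 * (1 + L) * (∫ x, Phi (ρ t x)) + (∫ x, ρ t x ^ 4) / L ^ 2 := by
      have i2 := lp_int hCC hG htp (p := 2) (by norm_num)
      have i4 := lp_int hCC hG htp (p := 4) (by norm_num)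
      have iΦ := lp_int_phi hCC hG htp
      rw [← integral_const_mul, ← integral_div, ← integral_add (iΦ.const_mul _) (i4.div_const _)]
      exact integral_mono i2 ((iΦ.const_mul _).add (i4.div_const _)) fun x =>
        lp_point (hG.nonneg t x) hL1
    have h6 := hb4 t ht2
    have h7 : (∫ x, ρ t x ^ 4) / L ^ 2 ≤ ε / 2 :=
      (div_le_div_of_nonneg_right h6 (by positivity)).trans hL2
    have h8 : 0 ≤ ∫ x, ρ t x ^ 2 := integral_nonneg fun x => pow_nonneg (hG.nonneg t x) _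
    rw [Real.dist_eq, sub_zero, abs_of_nonneg h8]
    linarith
  intro k hk
  induction k, hk using Nat.le_induction with
  | base => simpa using hbase
  | succ k hk ih =>
    obtain ⟨C, hC, h⟩ := hstep (2 ^ k) Nat.one_le_two_pow
    rw [Metric.tendsto_atTop] at ih ⊢
    intro ε hε
    obtain ⟨S, hS, hS2⟩ : ∃ S : ℝ, 0 < S ∧ C * S ^ 2 < ε := by
      refine ⟨Real.sqrt (ε / (2 * C)), Real.sqrt_pos.2 (by positivity), ?_⟩
      rw [Real.sq_sqrt (by positivity)]
      have : C * (ε / (2 * C)) = ε / 2 := by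
        field_simp
      linarith
    obtain ⟨N, hN⟩ := ih S hS
    refine ⟨max N t0 + 1, fun t ht => ?_⟩
    have ht1 : N ≤ t - 1 := by linarith [le_max_left N t0]
    have ht2 : t0 ≤ t - 1 := by linarith [le_max_right N t0]
    have h3 := h (t - 1) S ht2 (fun s hs => by
      have h4 := hN s (ht1.trans hs.1)
      rw [Real.dist_eq, sub_zero] at h4
      exact (abs_lt.1 h4).2.le)
    rw [sub_add_cancel, ← pow_succ'] at h3
    have h8 : 0 ≤ ∫ x, ρ t x ^ (2 ^ (k + 1)) :=
      integral_nonneg fun x => pow_nonneg (hG.nonneg t x) _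
    rw [Real.dist_eq, sub_zero, abs_of_nonneg h8]
    linarith

end Pool.Agent.Work.MP_9371de_an

end

section

/-!
# The differential inequality behind the ladder
-/

open MeasureTheory Set Filter Topology intervalIntegral
open scoped Real

namespace Pool.Agent.Work.MP_9371de_an

theorem itemLad : ClaimLad := by
  intro d c hd hc
  have hdr : (0 : ℝ) < d := by exact_mod_cast hd
  set k : ℕ := d + 1 with hk
  have hkr : (0 : ℝ) < (k : ℝ) := by rw [hk]; positivity
  set C0 : ℝ := k * (4 * π / (d * k)) ^ (-(d : ℝ) / 2) with hC0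
  have hC0p : 0 < C0 := by
    rw [hC0]
    have := Real.pi_pos
    positivity
  refine ⟨Real.exp (c / 4) * C0, by positivity, ?_⟩
  intro z β t1 S hβ hnn hint hder
  have ht : t1 < t1 + 1 := by linarith
  set B : ℝ → ℝ := fun t => ∫ s in t1..t, β s with hB
  have hβi : IntegrableOn β (uIcc t1 (t1 + 1)) := by
    rw [uIcc_of_le ht.le]
    exact hβ.integrableOn_Icc
  have hBc : ContinuousOn B (Icc t1 (t1 + 1)) := by
    have := intervalIntegral.continuousOn_primitive_interval hβi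
    rwa [uIcc_of_le ht.le] at this
  have hBd : ∀ t ∈ Ioo t1 (t1 + 1), HasDerivAt B (β t) t := by
    intro t htt
    refine intervalIntegral.integral_hasDerivAt_right ?_ ?_ ?_
    · refine ContinuousOn.intervalIntegrable ?_
      rw [uIcc_of_le htt.1.le]
      exact hβ.mono (Icc_subset_Icc_right htt.2.le)
    · exact (hβ.mono Ioo_subset_Icc_self).stronglyMeasurableAtFilter isOpen_Ioo t htt
    · exact hβ.continuousAt (Icc_mem_nhds htt.1 htt.2)
  have hB0 : ∀ t ∈ Icc t1 (t1 + 1), 0 ≤ B t := by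
    intro t htt
    refine intervalIntegral.integral_nonneg htt.1 fun u hu => ?_
    exact (hnn u ⟨hu.1, hu.2.trans htt.2⟩).1
  set h : ℝ → ℝ := fun t => Real.exp (-c * B t) * ((t - t1) ^ k * z t) -
    C0 * S ^ 2 * (t - t1) with hh
  have hzc : ContinuousOn z (Icc t1 (t1 + 1)) := by
    intro t htt
    obtain ⟨z', hz', -⟩ := hder t htt
    exact hz'.continuousAt.continuousWithinAt
  have hhc : ContinuousOn h (Icc t1 (t1 + 1)) := by
    rw [hh]
    refine ContinuousOn.sub (ContinuousOn.mul ?_ (ContinuousOn.mul ?_ hzc)) ?_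
    · exact Real.continuous_exp.comp_continuousOn (hBc.const_smul (-c))
    · fun_prop
    · fun_prop
  have hkey : ∀ t ∈ Ioo t1 (t1 + 1), ∃ h' : ℝ, HasDerivAt h h' t ∧ h' ≤ 0 := by
    intro t htt
    obtain ⟨z', hz', hz2⟩ := hder t (Ioo_subset_Icc_self htt)
    obtain ⟨hb, hz⟩ := hnn t (Ioo_subset_Icc_self htt)
    set s : ℝ := t - t1 with hs
    have hs0 : 0 < s := by rw [hs]; linarith [htt.1]
    have hs1 : s ≤ 1 := by rw [hs]; linarith [htt.2]
    have h1 : HasDerivAt (fun t => Real.exp (-c * B t)) (Real.exp (-c * B t) * (-c * β t)) t :=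
      ((hBd t htt).const_mul (-c)).exp
    have h2 : HasDerivAt (fun t => (t - t1) ^ k) ((k : ℝ) * s ^ (k - 1) * 1) t :=
      ((hasDerivAt_id t).sub_const t1).pow k
    have h3 := h2.mul hz'
    have h4 := h1.mul h3
    have h5 : HasDerivAt (fun t => C0 * S ^ 2 * (t - t1)) (C0 * S ^ 2 * 1) t :=
      ((hasDerivAt_id t).sub_const t1).const_mul _
    refine ⟨_, h4.sub h5, ?_⟩
    have hE1 : Real.exp (-c * B t) ≤ 1 := by
      rw [Real.exp_le_one_iff]
      have := mul_nonneg hc (hB0 t (Ioo_subset_Icc_self htt))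
      linarith
    have hE0 : 0 < Real.exp (-c * B t) := Real.exp_pos _
    -- the inequality for z'
    have hτ := hz2 (s / (d * k)) (by positivity)
    have e1 : 1 / (d * (s / (d * k))) = k / s := by
      field_simp
    have e2 : (4 * π * (s / (d * k))) ^ (-(d : ℝ) / 2) =
        (4 * π / (d * k)) ^ (-(d : ℝ) / 2) * s ^ (-(d : ℝ) / 2) := by
      rw [← Real.mul_rpow (by have := Real.pi_pos; positivity) hs0.le]
      congr 1
      ring
    rw [e1, e2] at hτ
    have e3 : s ^ k = s ^ (k - 1) * s := by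
      rw [← pow_succ]
      congr 1
    have e4 : s ^ (k - 1) * s ^ (-(d : ℝ) / 2) ≤ 1 := by
      rw [show k - 1 = d from rfl, ← Real.rpow_natCast, ← Real.rpow_add hs0]
      exact Real.rpow_le_one hs0.le hs1 (by ring_nf; positivity)
    have e5 : (k : ℝ) * s ^ (k - 1) * z t + s ^ k * z' ≤ C0 * S ^ 2 + c * β t * (s ^ k * z t) := by
      have e6 : s ^ k * z' ≤ s ^ k * (-(k / s) * z t + k / s *
          ((4 * π / (d * k)) ^ (-(d : ℝ) / 2) * s ^ (-(d : ℝ) / 2)) * S ^ 2 + c * β t * z t) :=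
        mul_le_mul_of_nonneg_left hτ (by positivity)
      have e7 : s ^ k * (-(k / s) * z t + k / s *
          ((4 * π / (d * k)) ^ (-(d : ℝ) / 2) * s ^ (-(d : ℝ) / 2)) * S ^ 2 + c * β t * z t) =
          -(k * s ^ (k - 1) * z t) + C0 * S ^ 2 * (s ^ (k - 1) * s ^ (-(d : ℝ) / 2)) +
            c * β t * (s ^ k * z t) := by
        rw [e3, hC0]
        field_simp
      have e8 : C0 * S ^ 2 * (s ^ (k - 1) * s ^ (-(d : ℝ) / 2)) ≤ C0 * S ^ 2 :=
        mul_le_of_le_one_right (by positivity) e4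
      linarith
    have e9 : Real.exp (-c * B t) * (-c * β t) * (s ^ k * z t) + Real.exp (-c * B t) *
        ((k : ℝ) * s ^ (k - 1) * 1 * z t + s ^ k * z') - C0 * S ^ 2 * 1 =
        Real.exp (-c * B t) * ((k : ℝ) * s ^ (k - 1) * z t + s ^ k * z' -
          c * β t * (s ^ k * z t)) - C0 * S ^ 2 := by ring
    have e10 : Real.exp (-c * B t) * ((k : ℝ) * s ^ (k - 1) * z t + s ^ k * z' -
          c * β t * (s ^ k * z t)) ≤ Real.exp (-c * B t) * (C0 * S ^ 2) :=
      mul_le_mul_of_nonneg_left (by linarith) hE0.le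
    have e11 : Real.exp (-c * B t) * (C0 * S ^ 2) ≤ 1 * (C0 * S ^ 2) :=
      mul_le_mul_of_nonneg_right hE1 (by positivity)
    change Real.exp (-c * B t) * (-c * β t) * (s ^ k * z t) + Real.exp (-c * B t) *
        ((k : ℝ) * s ^ (k - 1) * 1 * z t + s ^ k * z') - C0 * S ^ 2 * 1 ≤ 0
    rw [e9]
    linarith
  have hanti : AntitoneOn h (Icc t1 (t1 + 1)) := by
    refine antitoneOn_of_deriv_nonpos (convex_Icc _ _) hhc ?_ ?_
    · rw [interior_Icc]
      intro t htt
      obtain ⟨h', hd', -⟩ := hkey t htt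
      exact hd'.differentiableAt.differentiableWithinAt
    · rw [interior_Icc]
      intro t htt
      obtain ⟨h', hd', hle⟩ := hkey t htt
      rw [hd'.deriv]
      exact hle
  have hfin := hanti (left_mem_Icc.2 ht.le) (right_mem_Icc.2 ht.le) ht.le
  have hl : h t1 = 0 := by
    simp [hh, hk]
  have hr : h (t1 + 1) = Real.exp (-c * B (t1 + 1)) * z (t1 + 1) - C0 * S ^ 2 := by
    simp [hh]
  rw [hl, hr] at hfin
  have hBle : B (t1 + 1) ≤ 1 / 4 := hint
  have hz1 : 0 ≤ z (t1 + 1) := (hnn _ (right_mem_Icc.2 ht.le)).2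
  have h6 : Real.exp (-c / 4) ≤ Real.exp (-c * B (t1 + 1)) := by
    refine Real.exp_le_exp.2 ?_
    have := mul_le_mul_of_nonneg_left hBle hc
    linarith
  have h7 : Real.exp (-c / 4) * z (t1 + 1) ≤ C0 * S ^ 2 := by
    have := mul_le_mul_of_nonneg_right h6 hz1
    linarith
  calc z (t1 + 1) = Real.exp (c / 4) * (Real.exp (-c / 4) * z (t1 + 1)) := by
        rw [← mul_assoc, ← Real.exp_add]
        have : c / 4 + -c / 4 = 0 := by ring
        rw [this, Real.exp_zero, one_mul]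
    _ ≤ Real.exp (c / 4) * (C0 * S ^ 2) := mul_le_mul_of_nonneg_left h7 (Real.exp_pos _).le
    _ = _ := by ring

end Pool.Agent.Work.MP_9371de_an

end

section

/-!
Nash inequality in heat form.
-/

open MeasureTheory Set Filter Topology
open scoped Real InnerProductSpace

namespace Pool.Agent.Work.MP_9371de_an

theorem itemNash (h1 : ClaimH1) (h2 : ClaimH2) (hTR : ClaimTR) : ClaimNash := by
  intro d u M τ hu hu0 huM hui hgi hτ
  obtain ⟨hpos, hGc, hGi, hG1, hGb, -, -, -, -⟩ := h1 d τ hτ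
  obtain ⟨-, hG2i, hG2, -, -⟩ := h2 d τ hτ
  have huc : Continuous u := hu.continuous
  set S : ℝ := ∫ x, u x ^ 2 with hS
  set D : ℝ := ∫ x, ‖gradient u x‖ ^ 2 with hD
  set C : ℝ := (4 * π * τ) ^ (-(d : ℝ) / 2) with hC
  set c : E d → ℝ := fun y => ∫ x, u x * u (x + y) with hc
  have habs : ∀ x, |u x| ≤ M := fun x => by
    rw [abs_of_nonneg (hu0 x)]
    exact huM x
  have hu2 : Integrable fun x => u x ^ 2 := by
    have : Integrable fun x => u x * u x := hui.bdd_mul (c := M) huc.aestronglyMeasurable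
      (Eventually.of_forall fun x => by rw [Real.norm_eq_abs]; exact habs x)
    simpa only [sq] using this
  have huy : ∀ y, Integrable fun x => u x * u (x + y) := by
    intro y
    exact (hui.comp_add_right y).bdd_mul (c := M) huc.aestronglyMeasurable
      (Eventually.of_forall fun x => by rw [Real.norm_eq_abs]; exact habs x)
  -- the lower bound
  have hlow : ∀ y, S - ‖y‖ ^ 2 * D / 2 ≤ c y := by
    intro y
    have h3 := ((hTR d u hu).2 hgi y).2
    have h4 : ∫ x, (u (x + y) - u x) ^ 2 = 2 * S - 2 * c y := by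
      have h5 : (fun x => (u (x + y) - u x) ^ 2) =
          fun x => (u (x + y) ^ 2 + u x ^ 2) - 2 * (u x * u (x + y)) := by
        funext x
        ring
      rw [h5, integral_sub, integral_add, integral_const_mul]
      · have h6 : ∫ x, u (x + y) ^ 2 = S := integral_add_right_eq_self (fun x => u x ^ 2) y
        rw [h6]
        simp only [hc]
        ring
      · exact hu2.comp_add_right y
      · exact hu2
      · exact (hu2.comp_add_right y).add hu2
      · exact (huy y).const_mul 2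
    rw [h4] at h3
    linarith
  have hc0 : ∀ y, 0 ≤ c y := fun y => integral_nonneg fun x => mul_nonneg (hu0 x) (hu0 _)
  -- the total integral of `c`
  have hprod : Integrable (fun z : E d × E d => u z.1 * u z.2) (volume.prod volume) :=
    hui.mul_prod hui
  have hmp := measurePreserving_prod_add (volume : Measure (E d)) (volume : Measure (E d))
  have hprod2 : Integrable (fun z : E d × E d => u z.1 * u (z.1 + z.2)) (volume.prod volume) := by
    have := hmp.integrable_comp_of_integrable hprod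
    exact this
  have hci : Integrable c := hprod2.integral_prod_right
  have hcI : ∫ y, c y = (∫ x, u x) ^ 2 := by
    have e1 : ∫ y, c y = ∫ z : E d × E d, u z.1 * u (z.1 + z.2) ∂(volume.prod volume) :=
      (integral_prod_symm _ hprod2).symm
    have e2 : ∫ z : E d × E d, u z.1 * u (z.1 + z.2) ∂(volume.prod volume) =
        ∫ z : E d × E d, u z.1 * u z.2 ∂(volume.prod volume) := by
      have e3 := integral_map (μ := (volume : Measure (E d)).prod volume)
        (φ := fun z : E d × E d => (z.1, z.1 + z.2)) hmp.measurable.aemeasurable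
        (f := fun z : E d × E d => u z.1 * u z.2) (by rw [hmp.map_eq]; exact hprod.1)
      rw [hmp.map_eq] at e3
      exact e3.symm
    rw [e1, e2, integral_prod_mul u u, sq]
  have hGci : Integrable fun y => heat d τ y * c y := by
    refine hci.bdd_mul (c := C) hGc.aestronglyMeasurable (Eventually.of_forall fun y => ?_)
    rw [Real.norm_eq_abs, abs_of_pos (hpos y)]
    exact hGb y
  have hA : S - d * τ * D ≤ ∫ y, heat d τ y * c y := by
    have h3 : ∫ y, heat d τ y * (S - ‖y‖ ^ 2 * D / 2) = S - d * τ * D := by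
      have h4 : (fun y : E d => heat d τ y * (S - ‖y‖ ^ 2 * D / 2)) =
          fun y => S * heat d τ y - (D / 2) * (heat d τ y * ‖y‖ ^ 2) := by
        funext y
        ring
      rw [h4, integral_sub (hGi.const_mul _) (hG2i.const_mul _), integral_const_mul,
        integral_const_mul, hG1, hG2]
      ring
    rw [← h3]
    refine integral_mono ?_ hGci fun y => mul_le_mul_of_nonneg_left (hlow y) (hpos y).le
    have h4 : (fun y : E d => heat d τ y * (S - ‖y‖ ^ 2 * D / 2)) =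
        fun y => S * heat d τ y - (D / 2) * (heat d τ y * ‖y‖ ^ 2) := by
      funext y
      ring
    rw [h4]
    exact (hGi.const_mul _).sub (hG2i.const_mul _)
  have hB : ∫ y, heat d τ y * c y ≤ C * (∫ x, u x) ^ 2 := by
    rw [← hcI, ← integral_const_mul]
    exact integral_mono hGci (hci.const_mul _) fun y => mul_le_mul_of_nonneg_right (hGb y) (hc0 y)
  linarith

end Pool.Agent.Work.MP_9371de_an

end

section

/-!
Item P1: `P_t u` is `C¹` with gradient `gP_t u`.
-/

set_option autoImplicit false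

open MeasureTheory Set Filter Topology
open scoped Real InnerProductSpace

namespace Pool.Agent.Work.MP_9371de_an

/-- Comparison of the kernel at points at distance at most one. -/
theorem P1_shift (d : ℕ) {t : ℝ} (ht : 0 < t) : ∃ C : ℝ, 0 < C ∧ ∀ x z y : E d, ‖z - x‖ ≤ 1 →
    heat d t (z - y) ≤ C * heat d (2 * t) (x - y) := by
  have hp : 0 < 4 * π * t := by positivity
  have hp2 : 0 < 4 * π * (2 * t) := by positivity
  refine ⟨(4 * π * t) ^ (-(d : ℝ) / 2) * Real.exp (1 / (4 * t)) *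
    ((4 * π * (2 * t)) ^ (-(d : ℝ) / 2))⁻¹, by positivity, fun x z y hz => ?_⟩
  unfold heat
  have h1 : ‖x - y‖ ^ 2 ≤ 2 * ‖z - y‖ ^ 2 + 2 := by
    have h2 : ‖x - y‖ ≤ ‖z - y‖ + 1 := by
      calc ‖x - y‖ = ‖(z - y) - (z - x)‖ := by congr 1; abel
        _ ≤ ‖z - y‖ + ‖z - x‖ := norm_sub_le _ _
        _ ≤ _ := by linarith
    have h3 := norm_nonneg (x - y)
    have h4 := norm_nonneg (z - y)
    nlinarith [sq_nonneg (‖z - y‖ - 1)]
  have h5 : Real.exp (-‖z - y‖ ^ 2 / (4 * t)) ≤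
      Real.exp (1 / (4 * t)) * Real.exp (-‖x - y‖ ^ 2 / (4 * (2 * t))) := by
    rw [← Real.exp_add]
    apply Real.exp_le_exp.2
    rw [div_add_div _ _ (by positivity) (by positivity), div_le_div_iff₀ (by positivity)
      (by positivity)]
    nlinarith [mul_pos ht ht, mul_pos (mul_pos ht ht) ht]
  have h6 : 0 < (4 * π * t) ^ (-(d : ℝ) / 2) := by positivity
  have h7 : 0 < (4 * π * (2 * t)) ^ (-(d : ℝ) / 2) := by positivity
  calc (4 * π * t) ^ (-(d : ℝ) / 2) * Real.exp (-‖z - y‖ ^ 2 / (4 * t))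
      ≤ (4 * π * t) ^ (-(d : ℝ) / 2) *
        (Real.exp (1 / (4 * t)) * Real.exp (-‖x - y‖ ^ 2 / (4 * (2 * t)))) :=
        mul_le_mul_of_nonneg_left h5 h6.le
    _ = _ := by
      field_simp

/-- The gradient kernel is locally uniformly dominated. -/
theorem P1_dom (h4 : ClaimH4) (d : ℕ) {t : ℝ} (ht : 0 < t) :
    ∃ C : ℝ, 0 < C ∧ ∀ x z y : E d, ‖z - x‖ ≤ 1 →
      ‖gheat d t (z - y)‖ ≤ C * heat d (4 * t) (x - y) := by
  obtain ⟨C1, hC1, hb⟩ := h4 d
  obtain ⟨C2, hC2, hs⟩ := P1_shift d (t := 2 * t) (by linarith)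
  refine ⟨C1 * t ^ (-(1 / 2 : ℝ)) * C2, by positivity, fun x z y hz => ?_⟩
  have h2 := (hb t ht (z - y)).1
  have h3 := hs x z y hz
  have e : 2 * (2 * t) = 4 * t := by ring
  rw [e] at h3
  calc ‖gheat d t (z - y)‖ ≤ C1 * t ^ (-(1 / 2 : ℝ)) * heat d (2 * t) (z - y) := h2
    _ ≤ C1 * t ^ (-(1 / 2 : ℝ)) * (C2 * heat d (4 * t) (x - y)) :=
        mul_le_mul_of_nonneg_left h3 (by positivity)
    _ = _ := by ring

theorem P1_int (h1 : ClaimH1) (d : ℕ) {t : ℝ} (ht : 0 < t) (x : E d) :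
    Integrable (fun y => heat d t (x - y)) ∧ ∫ y, heat d t (x - y) = 1 := by
  obtain ⟨-, -, hi, ho, -⟩ := h1 d t ht
  exact ⟨hi.comp_sub_left x, by rw [integral_sub_left_eq_self (heat d t) volume x]; exact ho⟩

theorem itemP1 (h1 : ClaimH1) (h4 : ClaimH4) : ClaimP1 := by
  intro d t u M ht hu hM
  obtain ⟨hpos, hcont, hi, ho, -, heven, hgrad, hgcont, -⟩ := h1 d t ht
  obtain ⟨C, hC, hdom⟩ := P1_dom h4 d ht
  have hM0 : 0 ≤ M := (abs_nonneg _).trans (hM 0)
  have hint : ∀ x : E d, Integrable (fun y => heat d t (x - y) * u y) := by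
    intro x
    refine Integrable.mono' ((P1_int h1 d ht x).1.const_mul M)
      (((hcont.comp (by fun_prop : Continuous fun y : E d => x - y)).measurable.mul
        hu).aestronglyMeasurable) (ae_of_all _ fun y => ?_)
    rw [Real.norm_eq_abs, abs_mul, abs_of_pos (hpos _), mul_comm]
    exact mul_le_mul_of_nonneg_right (hM y) (hpos _).le
  have hgm : ∀ x : E d, AEStronglyMeasurable (fun y => u y • gheat d t (x - y)) volume := by
    intro x
    exact (hu.smul (hgcont.comp (by fun_prop : Continuous fun y : E d => x - y)).measurable).aestronglyMeasurable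
  have hbi : ∀ x : E d, Integrable (fun y => M * (C * heat d (4 * t) (x - y))) := fun x =>
    ((P1_int h1 d (t := 4 * t) (by linarith) x).1.const_mul C).const_mul M
  have hbd : ∀ x z y : E d, ‖z - x‖ ≤ 1 →
      ‖u y • gheat d t (z - y)‖ ≤ M * (C * heat d (4 * t) (x - y)) := by
    intro x z y hz
    rw [norm_smul, Real.norm_eq_abs]
    exact mul_le_mul (hM y) (hdom x z y hz) (norm_nonneg _) hM0
  have hgi : ∀ x : E d, Integrable (fun y => u y • gheat d t (x - y)) := fun x =>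
    Integrable.mono' (hbi x) (hgm x) (ae_of_all _ fun y => hbd x x y (by simp))
  refine ⟨fun x => ?_, ?_, fun x => ?_⟩
  · have key := hasFDerivAt_integral_of_dominated_of_fderiv_le (μ := (volume : Measure (E d)))
      (F := fun z y => heat d t (z - y) * u y)
      (F' := fun z y => innerSL ℝ (u y • gheat d t (z - y))) (x₀ := x)
      (bound := fun y => M * (C * heat d (4 * t) (x - y))) (s := Metric.ball x 1)
      (Metric.ball_mem_nhds x one_pos)
      (Eventually.of_forall fun z => (hint z).aestronglyMeasurable) (hint x)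
      ((innerSL ℝ).continuous.comp_aestronglyMeasurable (hgm x))
      (ae_of_all _ fun y z hz => by
        rw [innerSL_apply_norm]
        exact hbd x z y (by rw [Metric.mem_ball, dist_eq_norm] at hz; exact hz.le))
      (hbi x)
      (ae_of_all _ fun y z _ => by
        have h5 : HasFDerivAt (heat d t) (innerSL ℝ (gheat d t (z - y))) (z - y) :=
          (hgrad (z - y)).hasFDerivAt
        have h6 := (h5.comp z ((hasFDerivAt_id z).sub_const y)).mul_const (u y)
        refine h6.congr_fderiv ?_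
        ext v
        simp)
    show HasFDerivAt (P t u) _ x
    refine key.congr_fderiv ?_
    ext v
    have hLi : Integrable (fun y => innerSL ℝ (u y • gheat d t (x - y))) :=
      Integrable.mono' (hbi x) ((innerSL ℝ).continuous.comp_aestronglyMeasurable (hgm x))
        (ae_of_all _ fun y => by
          rw [innerSL_apply_norm]
          exact hbd x x y (by simp))
    rw [ContinuousLinearMap.integral_apply hLi]
    show ∫ y, ⟪u y • gheat d t (x - y), v⟫_ℝ = ⟪gP t u x, v⟫_ℝ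
    have h7 := integral_inner (𝕜 := ℝ) (hgi x) v
    unfold gP
    rw [real_inner_comm, ← h7]
    refine integral_congr_ae (ae_of_all _ fun y => ?_)
    exact real_inner_comm _ _
  · rw [continuous_iff_continuousAt]
    intro x
    refine continuousAt_of_dominated (bound := fun y => M * (C * heat d (4 * t) (x - y)))
      (Eventually.of_forall fun z => hgm z) ?_ (hbi x) (ae_of_all _ fun y => ?_)
    · filter_upwards [Metric.ball_mem_nhds x one_pos] with z hz
      refine ae_of_all _ fun y => hbd x z y ?_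
      rw [Metric.mem_ball, dist_eq_norm] at hz
      exact hz.le
    · have h9 : Continuous fun z : E d => gheat d t (z - y) :=
        hgcont.comp (by fun_prop : Continuous fun z : E d => z - y)
      exact (h9.const_smul (u y)).continuousAt
  · unfold P
    rw [← Real.norm_eq_abs]
    have h8 : ∫ y, heat d t (x - y) * M = M := by
      rw [integral_mul_const, (P1_int h1 d ht x).2, one_mul]
    rw [← h8]
    refine norm_integral_le_of_norm_le ((P1_int h1 d ht x).1.mul_const M)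
      (ae_of_all _ fun y => ?_)
    rw [Real.norm_eq_abs, abs_mul, abs_of_pos (hpos _)]
    exact mul_le_mul_of_nonneg_left (hM y) (hpos _).le

end Pool.Agent.Work.MP_9371de_an

end

section

/-!
Item P2: semigroup identities for `P` and `Q`.
-/

open MeasureTheory Set Filter Topology
open scoped Real InnerProductSpace

namespace Pool.Agent.Work.MP_9371de_an

namespace P2

theorem integrable_dom {d : ℕ} {k g : E d → ℝ} (hk : Integrable k) (hg : Integrable g) (x : E d) :
    Integrable (fun p : E d × E d => k (x - p.1) * g (p.1 - p.2))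
      ((volume : Measure (E d)).prod volume) := by
  have h1 : Integrable (fun y : E d => k (x - y)) := hk.comp_sub_left x
  have h2 : Integrable (fun w : E d => g (-w)) := hg.comp_neg
  have h3 := MeasureTheory.Integrable.convolution_integrand (ContinuousLinearMap.mul ℝ ℝ) h1 h2
  have h4 := h3.swap
  refine h4.congr (Filter.Eventually.of_forall fun p => ?_)
  simp [Function.comp_def, ContinuousLinearMap.mul_apply']

theorem swap {d : ℕ} {k g : E d → ℝ} (hk : Integrable k) (hg : Integrable g) (x : E d)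
    (K : E d → E d → ℝ) (hK : Measurable (fun p : E d × E d => K p.1 p.2))
    (hb : ∀ y z, |K y z| ≤ k (x - y) * g (y - z)) :
    ∫ y, ∫ z, K y z = ∫ z, ∫ y, K y z := by
  apply MeasureTheory.integral_integral_swap
  refine (integrable_dom hk hg x).mono' hK.aestronglyMeasurable
    (Filter.Eventually.of_forall fun p => ?_)
  rw [Real.norm_eq_abs]
  exact hb p.1 p.2

end P2

theorem itemP2 (h1 : ClaimH1) (h3 : ClaimH3) (h4 : ClaimH4) : ClaimP2 := by
  intro d s t u F M hs ht hu hub hF hFb x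
  obtain ⟨ps, cs, is, -, bs, -, -, -, -⟩ := h1 d s hs
  obtain ⟨pt, ct, it, -, bt, -, -, cgt, -⟩ := h1 d t ht
  obtain ⟨pt2, ct2, it2, -, bt2, -, -, -, -⟩ := h1 d (2 * t) (by positivity)
  have hM : 0 ≤ M := (abs_nonneg _).trans (hub 0)
  constructor
  · unfold P
    have e1 : ∀ y, heat d s (x - y) * ∫ z, heat d t (y - z) * u z =
        ∫ z, heat d s (x - y) * (heat d t (y - z) * u z) := fun y =>
      (integral_const_mul _ _).symm
    simp only [e1]
    rw [P2.swap is (it.const_mul M) x (fun y z => heat d s (x - y) * (heat d t (y - z) * u z))]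
    · refine integral_congr_ae (Filter.Eventually.of_forall fun z => ?_)
      show ∫ y, heat d s (x - y) * (heat d t (y - z) * u z) = heat d (s + t) (x - z) * u z
      have e2 : ∀ y, heat d s (x - y) * (heat d t (y - z) * u z) =
          (heat d s ((x - z) - (y - z)) * heat d t (y - z)) * u z := by
        intro y
        rw [show (x - z) - (y - z) = x - y by abel]
        ring
      simp only [e2]
      rw [integral_mul_const, integral_sub_right_eq_self
        (fun y => heat d s ((x - z) - y) * heat d t y) z, (h3 d s t hs ht (x - z)).1]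
    · have m1 : Measurable (fun p : E d × E d => heat d s (x - p.1)) :=
        (cs.measurable).comp (measurable_const.sub measurable_fst)
      have m2 : Measurable (fun p : E d × E d => heat d t (p.1 - p.2)) :=
        (ct.measurable).comp (measurable_fst.sub measurable_snd)
      exact m1.mul (m2.mul (hu.comp measurable_snd))
    · intro y z
      rw [abs_mul, abs_mul, abs_of_pos (ps _), abs_of_pos (pt _)]
      refine mul_le_mul_of_nonneg_left ?_ (ps _).le
      rw [mul_comm]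
      exact mul_le_mul_of_nonneg_right (hub z) (pt _).le
  · obtain ⟨C, hC, hC4⟩ := h4 d
    unfold P Q
    have e1 : ∀ y, heat d s (x - y) * ∫ z, ⟪gheat d t (y - z), F z⟫_ℝ =
        ∫ z, heat d s (x - y) * ⟪gheat d t (y - z), F z⟫_ℝ := fun y =>
      (integral_const_mul _ _).symm
    simp only [e1]
    set C' : ℝ := C * t ^ (-(1 / 2 : ℝ)) with hC'
    have hC'0 : 0 ≤ C' := by positivity
    rw [P2.swap is (it2.const_mul (C' * M)) x
      (fun y z => heat d s (x - y) * ⟪gheat d t (y - z), F z⟫_ℝ)]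
    · refine integral_congr_ae (Filter.Eventually.of_forall fun z => ?_)
      show ∫ y, heat d s (x - y) * ⟪gheat d t (y - z), F z⟫_ℝ = ⟪gheat d (s + t) (x - z), F z⟫_ℝ
      have hint : Integrable (fun y => heat d s ((x - z) - y) • gheat d t y) := by
        have i1 : Integrable (fun y => ((4 * π * s) ^ (-(d : ℝ) / 2) * C') * heat d (2 * t) y) :=
          it2.const_mul _
        refine i1.mono' ?_ (Filter.Eventually.of_forall fun y => ?_)
        · exact ((cs.comp (continuous_const.sub continuous_id)).smul cgt).aestronglyMeasurable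
        · rw [norm_smul, Real.norm_eq_abs, abs_of_pos (ps _)]
          calc heat d s ((x - z) - y) * ‖gheat d t y‖
              ≤ (4 * π * s) ^ (-(d : ℝ) / 2) * (C' * heat d (2 * t) y) := by
                refine mul_le_mul (bs _) (hC4 t ht y).1 (norm_nonneg _) (by positivity)
            _ = _ := by ring
      have e2 : ∀ y, heat d s (x - y) * ⟪gheat d t (y - z), F z⟫_ℝ =
          ⟪heat d s ((x - z) - (y - z)) • gheat d t (y - z), F z⟫_ℝ := by
        intro y
        rw [show (x - z) - (y - z) = x - y by abel, real_inner_smul_left]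
      simp only [e2]
      rw [integral_sub_right_eq_self
        (fun y => ⟪heat d s ((x - z) - y) • gheat d t y, F z⟫_ℝ) z]
      have e3 : ∀ y, ⟪heat d s ((x - z) - y) • gheat d t y, F z⟫_ℝ =
          ⟪F z, heat d s ((x - z) - y) • gheat d t y⟫_ℝ := fun y => real_inner_comm _ _
      simp only [e3]
      rw [integral_inner hint, (h3 d s t hs ht (x - z)).2, real_inner_comm]
    · have m1 : Measurable (fun p : E d × E d => heat d s (x - p.1)) :=
        (cs.measurable).comp (measurable_const.sub measurable_fst)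
      have m2 : Measurable (fun p : E d × E d => gheat d t (p.1 - p.2)) :=
        (cgt.measurable).comp (measurable_fst.sub measurable_snd)
      exact m1.mul (m2.inner (hF.comp measurable_snd))
    · intro y z
      rw [abs_mul, abs_of_pos (ps _)]
      refine mul_le_mul_of_nonneg_left ?_ (ps _).le
      calc |⟪gheat d t (y - z), F z⟫_ℝ| ≤ ‖gheat d t (y - z)‖ * ‖F z‖ :=
            abs_real_inner_le_norm _ _
        _ ≤ (C' * heat d (2 * t) (y - z)) * M :=
            mul_le_mul (hC4 t ht _).1 (hFb z) (norm_nonneg _)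
              (mul_nonneg hC'0 (pt2 _).le)
        _ = C' * M * heat d (2 * t) (y - z) := by ring

end Pool.Agent.Work.MP_9371de_an

end

section

/-! Item P3: `Q_t F` is `C¹`. -/

open MeasureTheory Set Filter Topology
open scoped Real InnerProductSpace

namespace Pool.Agent.Work.MP_9371de_an

/-- The integral of a translated kernel. -/
theorem P3_shift {d : ℕ} (g : E d → ℝ) (x : E d) : ∫ y, g (x - y) = ∫ y, g y :=
  integral_sub_left_eq_self g volume x

theorem P3_bound (H1 : ClaimH1) {d : ℕ} {C t M : ℝ} (ht : 0 < t)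
    (hC : 0 < C) (h : ∀ x : E d, ‖gheat d t x‖ ≤ C * t ^ (-(1 / 2 : ℝ)) * heat d (2 * t) x)
    {F : E d → E d} (hM : ∀ x, ‖F x‖ ≤ M) (x : E d) :
    |Q t F x| ≤ C * t ^ (-(1 / 2 : ℝ)) * M := by
  have hM0 : 0 ≤ M := (norm_nonneg _).trans (hM 0)
  have h2t : 0 < 2 * t := by linarith
  obtain ⟨hpos, -, hint, hone, -, -, -, -, -⟩ := H1 d (2 * t) h2t
  have hint' : Integrable (fun y : E d => heat d (2 * t) (x - y)) := hint.comp_sub_left x
  have h1 : ∀ y : E d, ‖⟪gheat d t (x - y), F y⟫_ℝ‖ ≤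
      C * t ^ (-(1 / 2 : ℝ)) * M * heat d (2 * t) (x - y) := by
    intro y
    calc ‖⟪gheat d t (x - y), F y⟫_ℝ‖ ≤ ‖gheat d t (x - y)‖ * ‖F y‖ := norm_inner_le_norm _ _
      _ ≤ (C * t ^ (-(1 / 2 : ℝ)) * heat d (2 * t) (x - y)) * M :=
          mul_le_mul (h _) (hM y) (norm_nonneg _) (by
            have := hpos (x - y)
            positivity)
      _ = _ := by ring
  calc |Q t F x| = ‖∫ y, ⟪gheat d t (x - y), F y⟫_ℝ‖ := rfl
    _ ≤ ∫ y, C * t ^ (-(1 / 2 : ℝ)) * M * heat d (2 * t) (x - y) :=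
        norm_integral_le_of_norm_le (hint'.const_mul _) (Eventually.of_forall h1)
    _ = C * t ^ (-(1 / 2 : ℝ)) * M := by
        rw [integral_const_mul, P3_shift (heat d (2 * t)) x, hone, mul_one]

theorem P3_meas (H1 : ClaimH1) {d : ℕ} {t : ℝ} (ht : 0 < t) {F : E d → E d}
    (hF : Measurable F) : Measurable (Q t F) := by
  obtain ⟨-, -, -, -, -, -, -, hg, -⟩ := H1 d t ht
  have h1 : Measurable (fun p : E d × E d => ⟪gheat d t (p.1 - p.2), F p.2⟫_ℝ) :=
    (hg.measurable.comp (measurable_fst.sub measurable_snd)).inner (hF.comp measurable_snd)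
  have h2 : StronglyMeasurable (fun x : E d => ∫ y, ⟪gheat d t (x - y), F y⟫_ℝ) :=
    h1.stronglyMeasurable.integral_prod_right
  exact h2.measurable

/-- Item P3. -/
theorem itemP3 (H1 : ClaimH1) (H4 : ClaimH4) (P1 : ClaimP1) (P2 : ClaimP2) : ClaimP3 := by
  intro d
  obtain ⟨C, hC, hK⟩ := H4 d
  refine ⟨C, hC, fun t F M ht hF hM => ?_⟩
  have ht2 : 0 < t / 2 := by linarith
  have hm := P3_meas H1 ht2 hF
  have hb : ∀ x, |Q (t / 2) F x| ≤ C * (t / 2) ^ (-(1 / 2 : ℝ)) * M :=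
    P3_bound H1 ht2 hC (fun x => (hK (t / 2) ht2 x).1) hM
  obtain ⟨h1, h2, -⟩ := P1 d (t / 2) (Q (t / 2) F) _ ht2 hm hb
  have hM0 : 0 ≤ M := (norm_nonneg _).trans (hM 0)
  have h3 : P (t / 2) (Q (t / 2) F) = Q t F := by
    funext x
    have h4 := (P2 d (t / 2) (t / 2) (fun _ => 0) F M ht2 ht2 measurable_const
      (fun x => by simpa using hM0) hF hM x).2
    rwa [add_halves] at h4
  rw [h3] at h1
  refine ⟨h1, h2, ?_, ?_⟩
  · rw [continuous_iff_continuousAt]
    exact fun x => (h1 x).differentiableAt.continuousAt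
  · exact P3_bound H1 ht hC (fun x => (hK t ht x).1) hM

end Pool.Agent.Work.MP_9371de_an

end

section

/-!
Item P4: the gradient of `Q_t F` for (a.e.) Lipschitz `F`.
-/

open MeasureTheory Set Filter Topology
open scoped Real InnerProductSpace

namespace Pool.Agent.Work.MP_9371de_an

theorem P4_integrable {d : ℕ} (hH1 : ClaimH1) {C : ℝ}
    (hC : ∀ t : ℝ, 0 < t → ∀ x : E d, ‖gheat d t x‖ ≤ C * t ^ (-(1 / 2 : ℝ)) * heat d (2 * t) x)
    {t : ℝ} (ht : 0 < t) {F : E d → E d} {M : ℝ} (hF : Measurable F) (hM : ∀ x, ‖F x‖ ≤ M)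
    (x : E d) : Integrable (fun y => ⟪gheat d t (x - y), F y⟫_ℝ) := by
  obtain ⟨_, _, h3, _⟩ := hH1 d (2 * t) (by positivity)
  obtain ⟨_, _, _, _, _, _, _, h8, _⟩ := hH1 d t ht
  have hi : Integrable (fun y => C * t ^ (-(1 / 2 : ℝ)) * heat d (2 * t) (x - y) * M) :=
    ((h3.comp_sub_left x).const_mul _).mul_const M
  refine hi.mono' ?_ (Eventually.of_forall fun y => ?_)
  · have h9 : Measurable (fun y : E d => gheat d t (x - y)) :=
      (h8.comp (continuous_const.sub continuous_id)).measurable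
    exact (h9.inner hF).aestronglyMeasurable
  · have h5 : 0 ≤ M := (norm_nonneg _).trans (hM x)
    refine (norm_inner_le_norm _ _).trans ?_
    exact mul_le_mul (hC t ht _) (hM y) (norm_nonneg _) ((norm_nonneg _).trans (hC t ht _))

theorem itemP4 (hH1 : ClaimH1) (hH4 : ClaimH4) (hP3 : ClaimP3) : ClaimP4 := by
  intro d
  obtain ⟨C, hC0, hC'⟩ := hH4 d
  obtain ⟨C3, _, hP⟩ := hP3 d
  have hC : ∀ t : ℝ, 0 < t → ∀ x : E d,
      ‖gheat d t x‖ ≤ C * t ^ (-(1 / 2 : ℝ)) * heat d (2 * t) x := fun t ht x => (hC' t ht x).1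
  refine ⟨C, hC0, ?_⟩
  intro t F M L ht hL hF hM hFL x
  obtain ⟨hgrad, _⟩ := hP t F M ht hF hM
  have hg := (hgrad x).hasFDerivAt
  obtain ⟨_, _, h3, h4, _⟩ := hH1 d (2 * t) (by positivity)
  have hK : 0 ≤ C * t ^ (-(1 / 2 : ℝ)) * L := by positivity
  have hlip : ∀ k : E d, ‖Q t F (x + k) - Q t F x‖ ≤ C * t ^ (-(1 / 2 : ℝ)) * L * ‖k‖ := by
    intro k
    have e1 : Q t F (x + k) = ∫ y, ⟪gheat d t (x - y), F (y + k)⟫_ℝ := by
      unfold Q
      rw [← integral_add_right_eq_self (fun y => ⟪gheat d t (x + k - y), F y⟫_ℝ) k]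
      congr 1
      funext y
      rw [add_sub_add_right_eq_sub]
    have e2 : Q t F (x + k) - Q t F x = ∫ y, ⟪gheat d t (x - y), F (y + k) - F y⟫_ℝ := by
      rw [e1]
      unfold Q
      rw [← integral_sub]
      · congr 1
        funext y
        rw [inner_sub_right]
      · exact P4_integrable hH1 hC ht (hF.comp (measurable_add_const k)) (fun y => hM _) x
      · exact P4_integrable hH1 hC ht hF hM x
    rw [e2]
    have hi : Integrable (fun y => C * t ^ (-(1 / 2 : ℝ)) * heat d (2 * t) (x - y) * (L * ‖k‖)) :=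
      ((h3.comp_sub_left x).const_mul _).mul_const _
    refine (norm_integral_le_of_norm_le hi ?_).trans (le_of_eq ?_)
    · filter_upwards [hFL k] with y hy
      refine (norm_inner_le_norm _ _).trans ?_
      exact mul_le_mul (hC t ht _) hy (norm_nonneg _) ((norm_nonneg _).trans (hC t ht _))
    · rw [integral_mul_const, integral_const_mul, integral_sub_left_eq_self (heat d (2 * t)) _ x, h4]
      ring
  have h5 := hg.le_of_lip' hK (Eventually.of_forall fun z => by
    have := hlip (z - x)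
    rwa [add_sub_cancel] at this)
  rwa [LinearIsometryEquiv.norm_map] at h5

end Pool.Agent.Work.MP_9371de_an

end

section

/-!
[P6] approximation of the gradient of a bounded `C¹` function by `gP σ ψ`.
-/

open MeasureTheory Set Filter Topology
open scoped Real InnerProductSpace

namespace Pool.Agent.Work.MP_9371de_an

section Generic

variable {F : Type*} [NormedAddCommGroup F] [NormedSpace ℝ F] [MeasurableSpace F] [BorelSpace F]
  [SecondCountableTopology F] (μ : Measure F)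
  {G : Type*} [NormedAddCommGroup G] [NormedSpace ℝ G]

theorem p6_deriv (φ ψ : F → ℝ) (M : ℝ) (hφ : ∀ z, 0 < φ z) (hc : Continuous φ)
    (hint : Integrable φ μ) (hcont : Continuous ψ) (hcf : Continuous (fderiv ℝ ψ))
    (hdiff : Differentiable ℝ ψ) (hM : ∀ x, |ψ x| ≤ M) (hM' : ∀ x, ‖fderiv ℝ ψ x‖ ≤ M) (x : F) :
    HasFDerivAt (fun x => ∫ z, φ z * ψ (x - z) ∂μ) (∫ z, φ z • fderiv ℝ ψ (x - z) ∂μ) x := by
  have hs : ∀ y : F, Continuous (fun z : F => y - z) := fun y => continuous_const.sub continuous_id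
  refine hasFDerivAt_integral_of_dominated_of_fderiv_le (bound := fun z => φ z * M)
    (F := fun x z => φ z * ψ (x - z))
    (F' := fun x z => φ z • fderiv ℝ ψ (x - z)) (s := Set.univ) Filter.univ_mem
    ?_ ?_ ?_ ?_ ?_ ?_
  · refine Eventually.of_forall fun y => ?_
    exact (hc.mul (hcont.comp (hs y))).aestronglyMeasurable
  · refine (hint.mul_const M).mono' (hc.mul (hcont.comp (hs x))).aestronglyMeasurable ?_
    refine Eventually.of_forall fun z => ?_
    rw [norm_mul, Real.norm_of_nonneg (hφ z).le]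
    exact mul_le_mul_of_nonneg_left (hM _) (hφ z).le
  · exact (hc.smul (hcf.comp (hs x))).aestronglyMeasurable
  · refine Eventually.of_forall fun z y _ => ?_
    rw [norm_smul, Real.norm_of_nonneg (hφ z).le]
    exact mul_le_mul_of_nonneg_left (hM' _) (hφ z).le
  · exact hint.mul_const M
  · refine Eventually.of_forall fun z y _ => ?_
    have h4 : HasFDerivAt (fun y => ψ (y - z)) (fderiv ℝ ψ (y - z)) y := by
      have := (hdiff (y - z)).hasFDerivAt.comp y ((hasFDerivAt_id y).sub_const z)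
      rw [ContinuousLinearMap.comp_id] at this
      exact this
    exact h4.const_mul (φ z)

theorem p6_lim (φ : F → ℝ) (g : F → G) (M : ℝ) (hφ : ∀ z, 0 < φ z) (hc : Continuous φ)
    (hint : Integrable φ μ) (hg : Continuous g) (hM : ∀ x, ‖g x‖ ≤ M) (x : F) :
    Tendsto (fun σ => ∫ w, φ w • g (x - Real.sqrt σ • w) ∂μ) (𝓝[>] 0)
      (𝓝 (∫ w, φ w • g x ∂μ)) := by
  have hs : ∀ s : ℝ, Continuous (fun z : F => x - s • z) := fun s =>
    continuous_const.sub (continuous_const.smul continuous_id)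
  refine tendsto_integral_filter_of_dominated_convergence (fun w => φ w * M) ?_ ?_
    (hint.mul_const M) ?_
  · refine Eventually.of_forall fun σ => ?_
    exact (hc.smul (hg.comp (hs _))).aestronglyMeasurable
  · refine Eventually.of_forall fun σ => Eventually.of_forall fun w => ?_
    rw [norm_smul, Real.norm_of_nonneg (hφ w).le]
    exact mul_le_mul_of_nonneg_left (hM _) (hφ w).le
  · refine Eventually.of_forall fun w => ?_
    have hct : Continuous (fun σ : ℝ => φ w • g (x - Real.sqrt σ • w)) := by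
      refine continuous_const.smul (hg.comp (continuous_const.sub ?_))
      exact Real.continuous_sqrt.smul continuous_const
    have h1 := (hct.tendsto 0).mono_left (nhdsWithin_le_nhds (s := Ioi 0))
    rw [Real.sqrt_zero, zero_smul, sub_zero] at h1
    exact h1

omit [NormedSpace ℝ F] [BorelSpace F] [SecondCountableTopology F] in
theorem p6_norm (φ : F → ℝ) (g : F → G) (M : ℝ) (hφ : ∀ z, 0 < φ z)
    (hint : Integrable φ μ) (hone : ∫ z, φ z ∂μ = 1) (hM : ∀ x, ‖g x‖ ≤ M) (x : F) :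
    ‖∫ w, φ w • g (x - w) ∂μ‖ ≤ M := by
  calc ‖∫ z, φ z • g (x - z) ∂μ‖ ≤ ∫ z, φ z * M ∂μ := by
        refine norm_integral_le_of_norm_le (hint.mul_const M) ?_
        refine Eventually.of_forall fun z => ?_
        rw [norm_smul, Real.norm_of_nonneg (hφ z).le]
        exact mul_le_mul_of_nonneg_left (hM _) (hφ z).le
    _ = M := by rw [integral_mul_const, hone, one_mul]

omit [SecondCountableTopology F] in
theorem p6_resc [FiniteDimensional ℝ F] [μ.IsAddHaarMeasure] (φ ψ : F → ℝ) (g : F → G) (s : ℝ)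
    (hs : 0 < s) (h : ∀ w, s ^ (Module.finrank ℝ F) * φ (s • w) = ψ w) (x : F) :
    ∫ z, φ z • g (x - z) ∂μ = ∫ w, ψ w • g (x - s • w) ∂μ := by
  have h5 := Measure.integral_comp_smul μ (fun z => φ z • g (x - z)) s
  rw [abs_of_pos (by positivity)] at h5
  have h7 : ∫ z, φ z • g (x - z) ∂μ = (s ^ (Module.finrank ℝ F)) •
      ∫ w, φ (s • w) • g (x - s • w) ∂μ := by
    rw [h5, smul_smul, mul_inv_cancel₀ (by positivity), one_smul]
  rw [h7, ← integral_smul]
  congr 1
  funext w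
  rw [smul_smul, h w]

end Generic

theorem p6_fderiv_norm {d : ℕ} (ψ : E d → ℝ) (y : E d) :
    ‖fderiv ℝ ψ y‖ = ‖gradient ψ y‖ := by
  unfold gradient
  rw [LinearIsometryEquiv.norm_map]

theorem p6_scale (d : ℕ) (σ : ℝ) (hσ : 0 < σ) (w : E d) :
    (Real.sqrt σ) ^ d * heat d σ (Real.sqrt σ • w) = heat d 1 w := by
  unfold heat
  have h1 : ‖Real.sqrt σ • w‖ ^ 2 = σ * ‖w‖ ^ 2 := by
    rw [norm_smul, mul_pow, Real.norm_of_nonneg (Real.sqrt_nonneg σ), Real.sq_sqrt hσ.le]
  have h2 : -‖Real.sqrt σ • w‖ ^ 2 / (4 * σ) = -‖w‖ ^ 2 / (4 * 1) := by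
    rw [h1]
    field_simp
  have h3 : (4 * π * σ) ^ (-(d : ℝ) / 2) = (4 * π * 1) ^ (-(d : ℝ) / 2) * σ ^ (-(d : ℝ) / 2) := by
    rw [mul_one, Real.mul_rpow (by positivity) hσ.le]
  have h4 : (Real.sqrt σ) ^ d * σ ^ (-(d : ℝ) / 2) = 1 := by
    rw [Real.sqrt_eq_rpow, ← Real.rpow_natCast, ← Real.rpow_mul hσ.le, ← Real.rpow_add hσ]
    have : (1 / 2 : ℝ) * (d : ℝ) + -(d : ℝ) / 2 = 0 := by ring
    rw [this, Real.rpow_zero]
  rw [h2, h3]
  calc (Real.sqrt σ) ^ d * ((4 * π * 1) ^ (-(d : ℝ) / 2) * σ ^ (-(d : ℝ) / 2) *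
        Real.exp (-‖w‖ ^ 2 / (4 * 1)))
      = ((Real.sqrt σ) ^ d * σ ^ (-(d : ℝ) / 2)) * ((4 * π * 1) ^ (-(d : ℝ) / 2) *
        Real.exp (-‖w‖ ^ 2 / (4 * 1))) := by ring
    _ = _ := by rw [h4, one_mul]

theorem p6_form (hH1 : ClaimH1) (hP1 : ClaimP1) {d : ℕ} {ψ : E d → ℝ} {M : ℝ}
    (hψ : ContDiff ℝ 1 ψ) (hM : ∀ x, |ψ x| ≤ M) (hM' : ∀ x, ‖fderiv ℝ ψ x‖ ≤ M)
    (σ : ℝ) (hσ : 0 < σ) (x : E d) :
    (InnerProductSpace.toDual ℝ (E d)) (gP σ ψ x) = ∫ z, heat d σ z • fderiv ℝ ψ (x - z) := by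
  have hcont : Continuous ψ := hψ.continuous
  have hcf : Continuous (fderiv ℝ ψ) := hψ.continuous_fderiv one_ne_zero
  have hdiff : Differentiable ℝ ψ := hψ.differentiable one_ne_zero
  obtain ⟨hpos, hc, hint, -, -, -, -, -, -⟩ := hH1 d σ hσ
  have h1 : HasFDerivAt (P σ ψ) ((InnerProductSpace.toDual ℝ (E d)) (gP σ ψ x)) x :=
    ((hP1 d σ ψ M hσ hcont.measurable hM).1 x).hasFDerivAt
  have h2 : P σ ψ = fun x => ∫ z, heat d σ z * ψ (x - z) := by
    funext x
    unfold P
    rw [← integral_sub_left_eq_self (fun z => heat d σ z * ψ (x - z)) volume x]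
    congr 1
    funext y
    rw [sub_sub_cancel]
  have h3 := p6_deriv volume (heat d σ) ψ M hpos hc hint hcont hcf hdiff hM hM' x
  rw [h2] at h1
  exact h1.unique h3

theorem itemP6 (hH1 : ClaimH1) (hP1 : ClaimP1) : ClaimP6 := by
  intro d ψ M hψ hM hG
  have hM' : ∀ y, ‖fderiv ℝ ψ y‖ ≤ M := fun y => by rw [p6_fderiv_norm]; exact hG y
  have hcf : Continuous (fderiv ℝ ψ) := hψ.continuous_fderiv one_ne_zero
  constructor
  · intro σ hσ x
    obtain ⟨hpos, hc, hint, hone, -, -, -, -, -⟩ := hH1 d σ hσ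
    rw [← LinearIsometryEquiv.norm_map (InnerProductSpace.toDual ℝ (E d)),
      p6_form hH1 hP1 hψ hM hM' σ hσ x]
    exact p6_norm volume (heat d σ) (fderiv ℝ ψ) M hpos hint hone hM' x
  · intro x
    obtain ⟨hpos, hc, hint, hone, -, -, -, -, -⟩ := hH1 d 1 one_pos
    have hresc : ∀ σ, 0 < σ → (InnerProductSpace.toDual ℝ (E d)) (gP σ ψ x) =
        ∫ w, heat d 1 w • fderiv ℝ ψ (x - Real.sqrt σ • w) := by
      intro σ hσ
      rw [p6_form hH1 hP1 hψ hM hM' σ hσ x]
      refine p6_resc volume (heat d σ) (heat d 1) (fderiv ℝ ψ) (Real.sqrt σ)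
        (Real.sqrt_pos.2 hσ) ?_ x
      intro w
      rw [finrank_euclideanSpace_fin]
      exact p6_scale d σ hσ w
    have hlim := p6_lim volume (heat d 1) (fderiv ℝ ψ) M hpos hc hint hcf hM' x
    rw [integral_smul_const, hone, one_smul] at hlim
    have h8 := ((InnerProductSpace.toDual ℝ (E d)).symm.continuous.tendsto _).comp hlim
    refine Tendsto.congr' ?_ h8
    filter_upwards [self_mem_nhdsWithin] with σ hσ
    rw [Function.comp_apply, ← hresc σ hσ, LinearIsometryEquiv.symm_apply_apply]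

end Pool.Agent.Work.MP_9371de_an

end

section

/-! P7: duality for `Q`. -/

open MeasureTheory Set Filter Topology
open scoped Real InnerProductSpace

namespace Pool.Agent.Work.MP_9371de_an

theorem itemP7_gheat_int (h1 : ClaimH1) (h4 : ClaimH4) (d : ℕ) (σ : ℝ) (hσ : 0 < σ) :
    Integrable (gheat d σ) := by
  obtain ⟨C, hC, hb⟩ := h4 d
  have hi : Integrable (fun x : E d => C * σ ^ (-(1 / 2 : ℝ)) * heat d (2 * σ) x) :=
    (h1 d (2 * σ) (by positivity)).2.2.1.const_mul _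
  exact hi.mono' (h1 d σ hσ).2.2.2.2.2.2.2.1.aestronglyMeasurable
    (Eventually.of_forall fun x => (hb σ hσ x).1)

theorem itemP7 (h1 : ClaimH1) (h4 : ClaimH4) : ClaimP7 := by
  intro d σ ψ F M hσ hψ hψb hF hFi
  have hg := itemP7_gheat_int h1 h4 d σ hσ
  have hodd : ∀ x : E d, gheat d σ (-x) = -gheat d σ x := (h1 d σ hσ).2.2.2.2.2.2.2.2
  have k1 : Integrable (fun p : E d × E d => ⟪F p.2, gheat d σ (p.1 - p.2)⟫_ℝ)
      (volume.prod volume) :=
    hFi.convolution_integrand (innerSL ℝ) hg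
  have k2 : Integrable (fun p : E d × E d => ψ p.1 * ⟪F p.2, gheat d σ (p.1 - p.2)⟫_ℝ)
      (volume.prod volume) :=
    k1.bdd_mul (c := M) (hψ.comp measurable_fst).aestronglyMeasurable
      (Eventually.of_forall fun p => hψb p.1)
  have e1 : ∀ x, ψ x * Q σ F x = ∫ y, ψ x * ⟪F y, gheat d σ (x - y)⟫_ℝ := by
    intro x
    rw [integral_const_mul]
    unfold Q
    congr 1
    exact integral_congr_ae (Eventually.of_forall fun y => real_inner_comm _ _)
  refine ⟨?_, ?_⟩
  · simp only [e1]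
    exact k2.integral_prod_left
  · simp only [e1]
    rw [integral_integral_swap k2, ← integral_neg]
    refine integral_congr_ae (Eventually.of_forall fun y => ?_)
    have k3 : Integrable (fun x => ψ x • gheat d σ (x - y)) :=
      (hg.comp_sub_right y).bdd_smul M hψ.aestronglyMeasurable
        (Eventually.of_forall fun p => hψb p)
    have e2 : gP σ ψ y = -∫ x, ψ x • gheat d σ (x - y) := by
      unfold gP
      rw [← integral_neg]
      refine integral_congr_ae (Eventually.of_forall fun x => ?_)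
      show ψ x • gheat d σ (y - x) = -(ψ x • gheat d σ (x - y))
      rw [← smul_neg, ← hodd, neg_sub]
    show ∫ x, ψ x * ⟪F y, gheat d σ (x - y)⟫_ℝ = -⟪gP σ ψ y, F y⟫_ℝ
    rw [e2, inner_neg_left, neg_neg, real_inner_comm, ← integral_inner k3]
    refine integral_congr_ae (Eventually.of_forall fun x => ?_)
    show _ = ⟪F y, ψ x • gheat d σ (x - y)⟫_ℝ
    rw [real_inner_smul_right]

end Pool.Agent.Work.MP_9371de_an

end

section

/-!
PM: joint measurability of the operators with parameters.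
-/

open MeasureTheory Set Filter Topology
open scoped Real InnerProductSpace

namespace Pool.Agent.Work.MP_9371de_an

theorem pm_int {d : ℕ} {Y : Type} [MeasurableSpace Y] {G : Type} [NormedAddCommGroup G]
    [NormedSpace ℝ G] [MeasurableSpace G] [BorelSpace G] [SecondCountableTopology G]
    (k : Y × E d → G) (hk : Measurable k) : Measurable (fun p : Y => ∫ y, k (p, y)) := by
  have := hk.stronglyMeasurable.integral_prod_right' (ν := (volume : Measure (E d)))
  exact this.measurable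

theorem pm_coord1 {d : ℕ} : Measurable (fun z : ((ℝ × ℝ) × E d) × E d =>
    ((z.1.1, z.2) : (ℝ × ℝ) × E d)) :=
  (measurable_fst.fst).prodMk measurable_snd

theorem pm_coord2 {d : ℕ} : Measurable (fun z : ((ℝ × ℝ) × E d) × E d =>
    ((z.1.1.1, z.1.2 - z.2) : ℝ × E d)) :=
  (measurable_fst.fst.fst).prodMk (measurable_fst.snd.sub measurable_snd)

theorem pm_gP {d : ℕ} (k : ℝ × E d → E d) (hk : Measurable k)
    (q : (ℝ × ℝ) × E d → ℝ) (hq : Measurable q) :
    Measurable (fun p : (ℝ × ℝ) × E d => ∫ y, q (p.1, y) • k (p.1.1, p.2 - y)) := by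
  have h1 : Measurable (fun z : ((ℝ × ℝ) × E d) × E d => q (z.1.1, z.2)) :=
    hq.comp pm_coord1
  have h2 : Measurable (fun z : ((ℝ × ℝ) × E d) × E d => k (z.1.1.1, z.1.2 - z.2)) :=
    hk.comp pm_coord2
  exact pm_int (fun z : ((ℝ × ℝ) × E d) × E d => q (z.1.1, z.2) •
    k (z.1.1.1, z.1.2 - z.2)) (h1.smul h2)

theorem pm_P {d : ℕ} (k : ℝ × E d → ℝ) (hk : Measurable k)
    (q : (ℝ × ℝ) × E d → ℝ) (hq : Measurable q) :
    Measurable (fun p : (ℝ × ℝ) × E d => ∫ y, k (p.1.1, p.2 - y) * q (p.1, y)) := by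
  have h1 : Measurable (fun z : ((ℝ × ℝ) × E d) × E d => q (z.1.1, z.2)) :=
    hq.comp pm_coord1
  have h2 : Measurable (fun z : ((ℝ × ℝ) × E d) × E d => k (z.1.1.1, z.1.2 - z.2)) :=
    hk.comp pm_coord2
  exact pm_int (fun z : ((ℝ × ℝ) × E d) × E d => k (z.1.1.1, z.1.2 - z.2) *
    q (z.1.1, z.2)) (h2.mul h1)

theorem pm_Q {d : ℕ} (k : ℝ × E d → E d) (hk : Measurable k)
    (q : (ℝ × ℝ) × E d → E d) (hq : Measurable q) :
    Measurable (fun p : (ℝ × ℝ) × E d => ∫ y, ⟪k (p.1.1, p.2 - y), q (p.1, y)⟫_ℝ) := by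
  have h1 : Measurable (fun z : ((ℝ × ℝ) × E d) × E d => q (z.1.1, z.2)) :=
    hq.comp pm_coord1
  have h2 : Measurable (fun z : ((ℝ × ℝ) × E d) × E d => k (z.1.1.1, z.1.2 - z.2)) :=
    hk.comp pm_coord2
  exact pm_int (fun z : ((ℝ × ℝ) × E d) × E d => ⟪k (z.1.1.1, z.1.2 - z.2),
    q (z.1.1, z.2)⟫_ℝ) (h2.inner h1)

theorem itemPM (h1 : ClaimH1m) : ClaimPM := by
  intro d u F hu hF
  obtain ⟨hh, hg⟩ := h1 d
  have mp : Measurable (fun z : (ℝ × ℝ) × E d => ((z.1.2, z.2) : ℝ × E d)) :=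
    (measurable_fst.snd).prodMk measurable_snd
  have hu' : Measurable (fun z : (ℝ × ℝ) × E d => u z.1.2 z.2) := hu.comp mp
  have hF' : Measurable (fun z : (ℝ × ℝ) × E d => F z.1.2 z.2) := hF.comp mp
  have h3 : Measurable (fun p : (ℝ × ℝ) × E d => Q p.1.1 (F p.1.2) p.2) :=
    pm_Q (fun p : ℝ × E d => gheat d p.1 p.2) hg _ hF'
  exact ⟨pm_P (fun p : ℝ × E d => heat d p.1 p.2) hh _ hu',
    pm_gP (fun p : ℝ × E d => gheat d p.1 p.2) hg _ hu', h3,
    pm_gP (fun p : ℝ × E d => gheat d p.1 p.2) hg _ h3⟩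

end Pool.Agent.Work.MP_9371de_an

end

section

/-!
Item R2: Gaussian majorant.
-/

open MeasureTheory Set Filter Topology
open scoped Real InnerProductSpace

namespace Pool.Agent.Work.MP_9371de_an

theorem r2_slice {d : ℕ} {W : E d → ℝ} {m : ℝ} {ρ : ℝ → E d → ℝ} (hc : Clean d W m ρ) (t : ℝ) :
    Measurable (ρ t) := hc.meas.comp measurable_prodMk_left

theorem r2_ik {d : ℕ} {k u : E d → ℝ} {M : ℝ} (hk : Integrable k) (hu : Measurable u)
    (hM : ∀ y, |u y| ≤ M) (x : E d) : Integrable (fun y => k (x - y) * u y) :=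
  (hk.comp_sub_left x).mul_bdd (c := M) hu.aestronglyMeasurable
    (Eventually.of_forall fun y => by simpa using hM y)

theorem r2_mono (h1 : ClaimH1) {d : ℕ} {t : ℝ} (ht : 0 < t) {u v : E d → ℝ} {M N : ℝ}
    (hu : Measurable u) (hM : ∀ y, |u y| ≤ M) (hv : Measurable v) (hN : ∀ y, |v y| ≤ N)
    (h : ∀ y, u y ≤ v y) (x : E d) : P t u x ≤ P t v x := by
  obtain ⟨hpos, -, hi, -⟩ := h1 d t ht
  exact integral_mono (r2_ik hi hu hM x) (r2_ik hi hv hN x)
    fun y => mul_le_mul_of_nonneg_left (h y) (hpos _).le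

theorem r2_nonneg (h1 : ClaimH1) {d : ℕ} {t : ℝ} (ht : 0 < t) {u : E d → ℝ}
    (h : ∀ y, 0 ≤ u y) (x : E d) : 0 ≤ P t u x := by
  obtain ⟨hpos, -⟩ := h1 d t ht
  exact integral_nonneg fun y => mul_nonneg (hpos _).le (h y)

theorem r2_affine (h1 : ClaimH1) {d : ℕ} {t : ℝ} (ht : 0 < t) {u : E d → ℝ} {M : ℝ}
    (hu : Measurable u) (hM : ∀ y, |u y| ≤ M) (a c : ℝ) (x : E d) :
    P t (fun y => a * u y + c) x = a * P t u x + c := by
  obtain ⟨-, -, hi, h11, -⟩ := h1 d t ht
  have h2 := r2_ik hi hu hM x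
  have h3 : Integrable (fun y => heat d t (x - y)) := hi.comp_sub_left x
  have h4 : ∫ y, heat d t (x - y) = 1 := by
    rw [integral_sub_left_eq_self (fun y => heat d t y) volume x]
    exact h11
  unfold P
  have h5 : (fun y => heat d t (x - y) * (a * u y + c)) =
      fun y => a * (heat d t (x - y) * u y) + c * heat d t (x - y) := by
    funext y
    ring
  rw [h5, integral_add (h2.const_mul a) (h3.const_mul c), integral_const_mul, integral_const_mul,
    h4, mul_one]

/-- size of `Q_t F` when `F` is dominated by `B u` -/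
theorem r2_Q (h1 : ClaimH1) {d : ℕ} {C1 : ℝ}
    (hC : ∀ t : ℝ, 0 < t → ∀ x : E d,
      ‖gheat d t x‖ ≤ C1 * t ^ (-(1 / 2 : ℝ)) * heat d (2 * t) x)
    {t : ℝ} (ht : 0 < t) {u : E d → ℝ} {M B : ℝ} (hu : Measurable u) (hM : ∀ y, |u y| ≤ M)
    {F : E d → E d} (hF : ∀ y, ‖F y‖ ≤ B * u y) (x : E d) :
    |Q t F x| ≤ C1 * B * t ^ (-(1 / 2 : ℝ)) * P (2 * t) u x := by
  obtain ⟨hpos, -, hi, -⟩ := h1 d (2 * t) (by positivity)
  have h2 := (r2_ik hi hu hM x).const_mul (C1 * B * t ^ (-(1 / 2 : ℝ)))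
  have h3 : ‖∫ y, ⟪gheat d t (x - y), F y⟫_ℝ‖ ≤
      ∫ y, C1 * B * t ^ (-(1 / 2 : ℝ)) * (heat d (2 * t) (x - y) * u y) := by
    refine norm_integral_le_of_norm_le h2 (Eventually.of_forall fun y => ?_)
    calc ‖⟪gheat d t (x - y), F y⟫_ℝ‖ ≤ ‖gheat d t (x - y)‖ * ‖F y‖ := norm_inner_le_norm _ _
      _ ≤ (C1 * t ^ (-(1 / 2 : ℝ)) * heat d (2 * t) (x - y)) * (B * u y) :=
          mul_le_mul (hC t ht _) (hF y) (norm_nonneg _) ((norm_nonneg _).trans (hC t ht _))
      _ = C1 * B * t ^ (-(1 / 2 : ℝ)) * (heat d (2 * t) (x - y) * u y) := by ring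
  rw [integral_const_mul] at h3
  exact h3

theorem r2_sqrt {a t : ℝ} (_h : a < t) :
    IntervalIntegrable (fun r => (t - r) ^ (-(1 / 2 : ℝ))) volume a t ∧
      ∫ r in a..t, (t - r) ^ (-(1 / 2 : ℝ)) = 2 * Real.sqrt (t - a) := by
  constructor
  · have h1 : IntervalIntegrable (fun x : ℝ => x ^ (-(1 / 2 : ℝ))) volume 0 (t - a) :=
      intervalIntegral.intervalIntegrable_rpow' (by norm_num)
    have h2 := (h1.comp_sub_left t).symm
    simpa using h2
  · rw [intervalIntegral.integral_comp_sub_left (fun x : ℝ => x ^ (-(1 / 2 : ℝ))) t, sub_self,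
      integral_rpow (Or.inl (by norm_num))]
    rw [Real.zero_rpow (by norm_num), Real.sqrt_eq_rpow]
    norm_num
    ring

section Step

variable {d : ℕ} {A K m M T : ℝ} {W : E d → ℝ} {ρ : ℝ → E d → ℝ}

theorem r2_step (h1 : ClaimH1) (hP1 : ClaimP1) (hP2 : ClaimP2) (hV : ClaimV1)
    (hp : Pot d A K W) (hc : Clean d W m ρ) (hM : ∀ t, t ≤ T → ∀ x, ρ t x ≤ M)
    {C1 : ℝ} (hC0 : 0 < C1)
    (hC : ∀ t : ℝ, 0 < t → ∀ x : E d,
      ‖gheat d t x‖ ≤ C1 * t ^ (-(1 / 2 : ℝ)) * heat d (2 * t) x)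
    (hC' : ∀ t : ℝ, 0 < t → ∀ x : E d, heat d t x ≤ C1 * heat d (2 * t) x)
    {τ : ℝ} (hq : 2 * (C1 * (K * M)) * Real.sqrt τ ≤ 1 / 2)
    {t0 a c : ℝ} (h0 : 0 ≤ t0) (ha : 0 ≤ a) (hc0 : 0 ≤ c)
    (hyp : ∀ r, t0 < r → r ≤ t0 + τ → r ≤ T → ∀ x,
      ρ r x ≤ a * P (2 * (r - t0)) (ρ t0) x + c) :
    ∀ t, t0 < t → t ≤ t0 + τ → t ≤ T → ∀ x,
      ρ t x ≤ (C1 + a / 2) * P (2 * (t - t0)) (ρ t0) x + c / 2 := by
  intro t ht0 htτ htT x
  have habs : ∀ r, r ≤ T → ∀ y, |ρ r y| ≤ M := fun r hr y => by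
    rw [abs_of_nonneg (hc.nonneg r y)]
    exact hM r hr y
  have hM0 : 0 ≤ M := (abs_nonneg _).trans (habs t htT x)
  have hK0 := hp.K_pos
  have hpt : 0 < t - t0 := by linarith
  -- first term
  have e1 : P (t - t0) (ρ t0) x ≤ C1 * P (2 * (t - t0)) (ρ t0) x := by
    obtain ⟨hpos, -, hi, -⟩ := h1 d (t - t0) hpt
    obtain ⟨-, -, hi2, -⟩ := h1 d (2 * (t - t0)) (by positivity)
    have hm := r2_slice hc t0
    have hb := habs t0 (by linarith)
    unfold P
    rw [← integral_const_mul]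
    refine integral_mono (r2_ik hi hm hb x) ((r2_ik hi2 hm hb x).const_mul C1) fun y => ?_
    have := mul_le_mul_of_nonneg_right (hC' (t - t0) hpt (x - y)) (hc.nonneg t0 y)
    simp only
    linarith
  -- second term
  have e2 : ∀ r, t0 < r → r < t → |Q (t - r) (flux W (ρ r)) x| ≤
      (C1 * (K * M) * (a * P (2 * (t - t0)) (ρ t0) x + c)) * (t - r) ^ (-(1 / 2 : ℝ)) := by
    intro r hr0 hrt
    have hrT : r ≤ T := by linarith
    have hmr := r2_slice hc r
    have hm0 := r2_slice hc t0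
    have hb0 := habs t0 (by linarith)
    have hdr : ∀ y, ‖drift W (ρ r) y‖ ≤ K * M :=
      (hV d A K W (ρ r) M hp (hc.int r) (Eventually.of_forall (habs r hrT))).2.1
    have hF : ∀ y, ‖flux W (ρ r) y‖ ≤ (K * M) * ρ r y := by
      intro y
      unfold flux
      rw [norm_smul, Real.norm_of_nonneg (hc.nonneg r y), mul_comm]
      exact mul_le_mul_of_nonneg_right (hdr y) (hc.nonneg r y)
    have h2 := r2_Q h1 hC (t := t - r) (by linarith) hmr (habs r hrT) hF x
    obtain ⟨hg, hcg, hPb⟩ := hP1 d (2 * (r - t0)) (ρ t0) M (by linarith) hm0 hb0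
    have hPc : Continuous (P (2 * (r - t0)) (ρ t0)) :=
      continuous_iff_continuousAt.2 fun y => (hg y).continuousAt
    have hPm : Measurable (fun y => a * P (2 * (r - t0)) (ρ t0) y + c) :=
      (hPc.measurable.const_mul a).add_const c
    have h3 : P (2 * (t - r)) (ρ r) x ≤
        P (2 * (t - r)) (fun y => a * P (2 * (r - t0)) (ρ t0) y + c) x := by
      refine r2_mono h1 (by linarith) hmr (habs r hrT) hPm (N := a * M + c) (fun y => ?_)
        (hyp r hr0 (by linarith) hrT) x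
      rw [abs_of_nonneg (add_nonneg (mul_nonneg ha (r2_nonneg h1 (by linarith) (hc.nonneg t0) y))
        hc0)]
      have := mul_le_mul_of_nonneg_left ((le_abs_self _).trans (hPb y)) ha
      linarith
    have h4 : P (2 * (t - r)) (fun y => a * P (2 * (r - t0)) (ρ t0) y + c) x =
        a * P (2 * (t - t0)) (ρ t0) x + c := by
      rw [r2_affine h1 (by linarith) hPc.measurable hPb]
      have := (hP2 d (2 * (t - r)) (2 * (r - t0)) (ρ t0) (fun _ => 0) M (by linarith) (by linarith)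
        hm0 hb0 measurable_const (fun _ => by simpa using hM0) x).1
      rw [this]
      congr 3
      ring
    rw [h4] at h3
    have hpow : 0 ≤ (t - r) ^ (-(1 / 2 : ℝ)) := Real.rpow_nonneg (by linarith) _
    calc |Q (t - r) (flux W (ρ r)) x| ≤
        C1 * (K * M) * (t - r) ^ (-(1 / 2 : ℝ)) * P (2 * (t - r)) (ρ r) x := h2
      _ ≤ C1 * (K * M) * (t - r) ^ (-(1 / 2 : ℝ)) * (a * P (2 * (t - t0)) (ρ t0) x + c) :=
          mul_le_mul_of_nonneg_left h3 (by positivity)
      _ = _ := by ring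
  obtain ⟨hint, hval⟩ := r2_sqrt ht0
  have e3 : ‖∫ r in t0..t, Q (t - r) (flux W (ρ r)) x‖ ≤
      ∫ r in t0..t, (C1 * (K * M) * (a * P (2 * (t - t0)) (ρ t0) x + c)) *
        (t - r) ^ (-(1 / 2 : ℝ)) := by
    refine intervalIntegral.norm_integral_le_of_norm_le ht0.le ?_ (hint.const_mul _)
    have hne : ∀ᵐ r : ℝ, r ≠ t := by
      rw [ae_iff]
      simp
    filter_upwards [hne] with r hr hmem
    exact e2 r hmem.1 (lt_of_le_of_ne hmem.2 hr)
  rw [intervalIntegral.integral_const_mul, hval] at e3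
  have hP0 : 0 ≤ P (2 * (t - t0)) (ρ t0) x := r2_nonneg h1 (by positivity) (hc.nonneg t0) x
  have hs : Real.sqrt (t - t0) ≤ Real.sqrt τ := Real.sqrt_le_sqrt (by linarith)
  have hq' : 2 * (C1 * (K * M)) * Real.sqrt (t - t0) ≤ 1 / 2 :=
    (mul_le_mul_of_nonneg_left hs (by positivity)).trans hq
  have e4 : C1 * (K * M) * (a * P (2 * (t - t0)) (ρ t0) x + c) * (2 * Real.sqrt (t - t0)) ≤
      (1 / 2) * (a * P (2 * (t - t0)) (ρ t0) x + c) := by
    have := mul_le_mul_of_nonneg_right hq'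
      (show 0 ≤ a * P (2 * (t - t0)) (ρ t0) x + c by positivity)
    linarith
  have e5 := (le_abs_self _).trans (e3.trans e4)
  rw [hc.restart t0 t h0 ht0 x]
  nlinarith

theorem r2_short (h1 : ClaimH1) (hP1 : ClaimP1) (hP2 : ClaimP2) (hV : ClaimV1)
    (hp : Pot d A K W) (hc : Clean d W m ρ) (hM : ∀ t, t ≤ T → ∀ x, ρ t x ≤ M)
    {C1 : ℝ} (hC0 : 0 < C1)
    (hC : ∀ t : ℝ, 0 < t → ∀ x : E d,
      ‖gheat d t x‖ ≤ C1 * t ^ (-(1 / 2 : ℝ)) * heat d (2 * t) x)
    (hC' : ∀ t : ℝ, 0 < t → ∀ x : E d, heat d t x ≤ C1 * heat d (2 * t) x)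
    {τ : ℝ} (hq : 2 * (C1 * (K * M)) * Real.sqrt τ ≤ 1 / 2)
    {t0 : ℝ} (h0 : 0 ≤ t0) :
    ∀ t, t0 < t → t ≤ t0 + τ → t ≤ T → ∀ x,
      ρ t x ≤ 2 * C1 * P (2 * (t - t0)) (ρ t0) x := by
  intro t ht0 htτ htT x
  have hM0 : 0 ≤ M := (hc.nonneg t x).trans (hM t htT x)
  have key : ∀ n : ℕ, ∀ r, t0 < r → r ≤ t0 + τ → r ≤ T → ∀ x,
      ρ r x ≤ 2 * C1 * P (2 * (r - t0)) (ρ t0) x + M / 2 ^ n := by
    intro n
    induction n with
    | zero =>
      intro r hr _ hrT y
      have := r2_nonneg h1 (t := 2 * (r - t0)) (by linarith) (hc.nonneg t0) y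
      have h3 := hM r hrT y
      have h4 : 0 ≤ 2 * C1 * P (2 * (r - t0)) (ρ t0) y := by positivity
      rw [pow_zero, div_one]
      linarith
    | succ n ih =>
      have h5 := r2_step h1 hP1 hP2 hV hp hc hM hC0 hC hC' hq h0 (a := 2 * C1)
        (c := M / 2 ^ n) (by positivity) (by positivity) ih
      intro r hr hrτ hrT y
      have h6 := h5 r hr hrτ hrT y
      have e1 : C1 + 2 * C1 / 2 = 2 * C1 := by ring
      have e2 : M / 2 ^ n / 2 = M / 2 ^ (n + 1) := by rw [pow_succ]; field_simp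
      rw [e1, e2] at h6
      exact h6
  have hlim : Tendsto (fun n : ℕ => 2 * C1 * P (2 * (t - t0)) (ρ t0) x + M / 2 ^ n) atTop
      (𝓝 (2 * C1 * P (2 * (t - t0)) (ρ t0) x + 0)) := by
    refine tendsto_const_nhds.add ?_
    have h7 : Tendsto (fun n : ℕ => M * (1 / 2 : ℝ) ^ n) atTop (𝓝 (M * 0)) :=
      (tendsto_pow_atTop_nhds_zero_of_lt_one (by norm_num) (by norm_num)).const_mul M
    rw [mul_zero] at h7
    refine h7.congr fun n => ?_
    rw [one_div, inv_pow]
    rfl
  rw [add_zero] at hlim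
  exact ge_of_tendsto' hlim fun n => key n t ht0 htτ htT x

end Step

theorem itemR2 (h1 : ClaimH1) (h4 : ClaimH4) (hP1 : ClaimP1) (hP2 : ClaimP2) (hV : ClaimV1) :
    ClaimR2 := by
  intro d A K m W ρ hp hc T
  obtain ⟨M, hM⟩ := hc.bdd T
  obtain ⟨C1, hC0, hC⟩ := h4 d
  by_cases hT : T ≤ 0
  · exact ⟨0, fun t ht htT => absurd (ht.trans_le htT) (not_lt.2 hT)⟩
  push Not at hT
  have hM0 : 0 ≤ M := (hc.nonneg T 0).trans (hM T le_rfl 0)
  have hK0 := hp.K_pos
  -- choice of the step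
  set q := 4 * (C1 * (K * M)) + 1 with hqdef
  have hq0 : 0 < q := by positivity
  set τ := (1 / q) ^ 2 with hτdef
  have hτ0 : 0 < τ := by positivity
  have hsτ : Real.sqrt τ = 1 / q := Real.sqrt_sq (by positivity)
  have hq : 2 * (C1 * (K * M)) * Real.sqrt τ ≤ 1 / 2 := by
    rw [hsτ, mul_one_div, div_le_div_iff₀ hq0 (by norm_num)]
    rw [hqdef]
    nlinarith [show 0 ≤ C1 * (K * M) by positivity]
  obtain ⟨N, hN⟩ := exists_nat_gt (T / τ)
  have hNpos : 0 < (N : ℝ) := lt_trans (by positivity) hN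
  have hTN : T / N ≤ τ := by
    rw [div_le_iff₀ hNpos]
    rw [div_lt_iff₀ hτ0] at hN
    linarith
  refine ⟨(2 * C1) ^ N, fun t ht htT x => ?_⟩
  have hstep : t / N ≤ τ := (div_le_div_of_nonneg_right htT hNpos.le).trans hTN
  have hs0 : 0 < t / N := by positivity
  have habs : ∀ y, |ρ 0 y| ≤ M := fun y => by
    rw [abs_of_nonneg (hc.nonneg 0 y)]
    exact hM 0 hT.le y
  have key : ∀ k : ℕ, k + 1 ≤ N → ∀ y,
      ρ ((k + 1 : ℕ) * (t / N)) y ≤ (2 * C1) ^ (k + 1) * P (2 * ((k + 1 : ℕ) * (t / N))) (ρ 0) y := by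
    intro k
    induction k with
    | zero =>
      intro _ y
      have := r2_short h1 hP1 hP2 hV hp hc hM hC0 (fun t ht x => (hC t ht x).1)
        (fun t ht x => (hC t ht x).2) hq le_rfl (t / N) hs0 (by linarith)
        ((div_le_self ht.le (by
          have : 0 < N := by exact_mod_cast hNpos
          exact_mod_cast this)).trans htT) y
      simpa using this
    | succ k ih =>
      intro hk y
      have ih' := ih (by omega)
      set s : ℝ := (k + 1 : ℕ) * (t / N) with hsdef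
      have hs : 0 < s := by positivity
      have hnext : ((k + 1 + 1 : ℕ) : ℝ) * (t / N) = s + t / N := by
        rw [hsdef]
        push_cast
        ring
      have hle : s + t / N ≤ T := by
        rw [← hnext]
        have h8 : ((k + 1 + 1 : ℕ) : ℝ) ≤ N := by exact_mod_cast hk
        calc ((k + 1 + 1 : ℕ) : ℝ) * (t / N) ≤ N * (t / N) :=
              mul_le_mul_of_nonneg_right h8 hs0.le
          _ = t := by field_simp
          _ ≤ T := htT
      rw [hnext]
      have h9 := r2_short h1 hP1 hP2 hV hp hc hM hC0 (fun t ht x => (hC t ht x).1)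
        (fun t ht x => (hC t ht x).2) hq hs.le (s + t / N) (by linarith) (by linarith) hle y
      have e1 : s + t / N - s = t / N := by ring
      rw [e1] at h9
      obtain ⟨hg, hcg, hPb⟩ := hP1 d (2 * s) (ρ 0) M (by positivity) (r2_slice hc 0) habs
      have hPc : Continuous (P (2 * s) (ρ 0)) :=
        continuous_iff_continuousAt.2 fun y => (hg y).continuousAt
      have hpw : 0 ≤ (2 * C1) ^ (k + 1) := by positivity
      have h10 : P (2 * (t / N)) (ρ s) y ≤
          P (2 * (t / N)) (fun z => (2 * C1) ^ (k + 1) * P (2 * s) (ρ 0) z + 0) y := by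
        refine r2_mono h1 (by positivity) (r2_slice hc s) (M := M) (fun z => ?_)
          ((hPc.measurable.const_mul _).add_const 0) (N := (2 * C1) ^ (k + 1) * M) (fun z => ?_)
          (fun z => ?_) y
        · rw [abs_of_nonneg (hc.nonneg s z)]
          exact hM s (by linarith) z
        · rw [add_zero, abs_mul, abs_of_nonneg hpw]
          exact mul_le_mul_of_nonneg_left (hPb z) hpw
        · rw [add_zero]
          exact ih' z
      rw [r2_affine h1 (by positivity) hPc.measurable hPb, add_zero] at h10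
      have h11 := (hP2 d (2 * (t / N)) (2 * s) (ρ 0) (fun _ => 0) M (by positivity) (by positivity)
        (r2_slice hc 0) habs measurable_const (fun _ => by simpa using hM0) y).1
      rw [h11] at h10
      have e2 : 2 * (t / N) + 2 * s = 2 * (s + t / N) := by ring
      rw [e2] at h10
      calc ρ (s + t / N) y ≤ 2 * C1 * P (2 * (t / N)) (ρ s) y := h9
        _ ≤ 2 * C1 * ((2 * C1) ^ (k + 1) * P (2 * (s + t / N)) (ρ 0) y) :=
            mul_le_mul_of_nonneg_left h10 (by positivity)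
        _ = _ := by ring
  obtain ⟨k, hk⟩ : ∃ k, N = k + 1 := by
    have : 0 < N := by exact_mod_cast hNpos
    exact ⟨N - 1, by omega⟩
  have h12 := key k hk.symm.le x
  rw [← hk] at h12
  have e3 : (N : ℝ) * (t / N) = t := by field_simp
  rw [e3] at h12
  exact h12

end Pool.Agent.Work.MP_9371de_an

end

section

/-!
MP_9371de_an: item R5, `C¹` regularity.
-/

open MeasureTheory Set Filter Topology
open scoped Real InnerProductSpace

namespace Pool.Agent.Work.MP_9371de_an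

theorem R5_flux_meas {d : ℕ} {W : E d → ℝ} {m : ℝ} {ρ : ℝ → E d → ℝ} (hc : Clean d W m ρ) :
    Measurable (fun p : ℝ × E d => flux W (ρ p.1) p.2) := by
  unfold flux
  exact hc.meas.smul hc.dmeas

theorem R5_flux_meas' {d : ℕ} {W : E d → ℝ} {m : ℝ} {ρ : ℝ → E d → ℝ} (hc : Clean d W m ρ)
    (s : ℝ) : Measurable (flux W (ρ s)) :=
  (R5_flux_meas hc).comp (measurable_const.prodMk measurable_id)

theorem R5_rho_meas {d : ℕ} {W : E d → ℝ} {m : ℝ} {ρ : ℝ → E d → ℝ} (hc : Clean d W m ρ)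
    (s : ℝ) : Measurable (ρ s) :=
  hc.meas.comp (measurable_const.prodMk measurable_id)

/-- Bounds of the density and of the flux. -/
theorem R5_bounds (hV1 : ClaimV1) {d : ℕ} {A K m : ℝ} {W : E d → ℝ} {ρ : ℝ → E d → ℝ}
    (hP : Pot d A K W) (hc : Clean d W m ρ) (T : ℝ) : ∃ M, 0 ≤ M ∧ ∀ t, t ≤ T → ∀ x,
      |ρ t x| ≤ M ∧ ‖flux W (ρ t) x‖ ≤ M := by
  obtain ⟨M, hM⟩ := hc.bdd T
  have hMM : ∀ t, t ≤ T → ∀ x, |ρ t x| ≤ max M 0 := by
    intro t ht x
    rw [abs_of_nonneg (hc.nonneg t x)]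
    exact (hM t ht x).trans (le_max_left _ _)
  have h0 : 0 ≤ max M 0 := le_max_right _ _
  have hK := hP.K_pos
  refine ⟨max (max M 0) (max M 0 * (K * max M 0)), le_max_of_le_left h0, fun t ht x =>
    ⟨(hMM t ht x).trans (le_max_left _ _), ?_⟩⟩
  refine le_max_of_le_right ?_
  unfold flux
  rw [norm_smul, Real.norm_eq_abs]
  refine mul_le_mul (hMM t ht x) ?_ (norm_nonneg _) h0
  exact (hV1 d A K W (ρ t) (max M 0) hP (hc.int t) (Eventually.of_forall (hMM t ht))).2.1 x

theorem R5_int (a t C : ℝ) : IntervalIntegrable (fun s => C * (t - s) ^ (-(1 / 2 : ℝ)))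
    volume a t := by
  have h := (intervalIntegral.intervalIntegrable_rpow' (a := t - a) (b := t - t)
    (r := -(1 / 2 : ℝ)) (by norm_num)).comp_sub_left t
  simp only [sub_sub_cancel] at h
  exact (h.const_mul C)

theorem R5_main (hP1 : ClaimP1) (hP3 : ClaimP3) (hP4 : ClaimP4) (hPM : ClaimPM) (hV1 : ClaimV1)
    (hFL : ClaimFL) {d : ℕ} {A K m : ℝ} {W : E d → ℝ} {ρ : ℝ → E d → ℝ}
    (hP : Pot d A K W) (hc : Clean d W m ρ) (hL : Lip d ρ) {a t : ℝ} (ha : 0 < a) (hat : a < t) :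
    (∀ x, HasGradientAt (ρ t) (gP (t - a) (ρ a) x +
      ∫ s in a..t, gP ((t - s) / 2) (Q ((t - s) / 2) (flux W (ρ s))) x) x) ∧
    Continuous fun x => gP (t - a) (ρ a) x +
      ∫ s in a..t, gP ((t - s) / 2) (Q ((t - s) / 2) (flux W (ρ s))) x := by
  obtain ⟨M, hM0, hM⟩ := R5_bounds hV1 hP hc t
  obtain ⟨L, hL⟩ := hFL d A K m W ρ hP hc hL a t ha
  obtain ⟨C3, hC3, h3⟩ := hP3 d
  obtain ⟨C4, hC4, h4⟩ := hP4 d
  obtain ⟨h1g, h1c, -⟩ := hP1 d (t - a) (ρ a) M (by linarith) (R5_rho_meas hc a)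
    (fun x => (hM a hat.le x).1)
  obtain ⟨-, -, hm1, hm2⟩ := hPM d ρ (fun s => flux W (ρ s)) hc.meas (R5_flux_meas hc)
  have hm1' : ∀ x, Measurable fun s : ℝ => Q (t - s) (flux W (ρ s)) x := by
    intro x
    exact hm1.comp (g := fun p : (ℝ × ℝ) × E d => Q p.1.1 (flux W (ρ p.1.2)) p.2)
      (f := fun s : ℝ => ((t - s, s), x)) (by fun_prop)
  have hm2' : ∀ x, Measurable fun s : ℝ =>
      gP ((t - s) / 2) (Q ((t - s) / 2) (flux W (ρ s))) x := by
    intro x
    exact hm2.comp (g := fun p : (ℝ × ℝ) × E d => gP p.1.1 (Q p.1.1 (flux W (ρ p.1.2))) p.2)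
      (f := fun s : ℝ => (((t - s) / 2, s), x)) (by fun_prop)
  have hne : ∀ᵐ s : ℝ, s ≠ t := by
    simp [ae_iff, measure_singleton]
  have hs_lt : ∀ s, s ∈ uIoc a t → s ≠ t → 0 < t - s ∧ a ≤ s ∧ s ≤ t := by
    intro s hs hst
    rw [uIoc_of_le hat.le] at hs
    have := lt_of_le_of_ne hs.2 hst
    exact ⟨by linarith, hs.1.le, hs.2⟩
  have hbd : ∀ s, s ∈ uIoc a t → s ≠ t → ∀ x,
      ‖gP ((t - s) / 2) (Q ((t - s) / 2) (flux W (ρ s))) x‖ ≤
        C4 * max L 0 * (t - s) ^ (-(1 / 2 : ℝ)) := by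
    intro s hs hst x
    obtain ⟨h5, h6, h7⟩ := hs_lt s hs hst
    have := h4 (t - s) (flux W (ρ s)) M (max L 0) h5 (le_max_right _ _) (R5_flux_meas' hc s)
      (fun x => (hM s h7 x).2) (fun k => by
        filter_upwards [hL s h6 h7 k] with y hy
        exact hy.trans (mul_le_mul_of_nonneg_right (le_max_left _ _) (norm_nonneg _))) x
    calc _ ≤ _ := this
      _ = _ := by ring
  have hgi : ∀ x, IntervalIntegrable (fun s : ℝ =>
      gP ((t - s) / 2) (Q ((t - s) / 2) (flux W (ρ s))) x) volume a t := by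
    intro x
    refine (R5_int a t (C4 * max L 0)).mono_fun' (hm2' x).aestronglyMeasurable ?_
    rw [EventuallyLE, ae_restrict_iff' measurableSet_uIoc]
    filter_upwards [hne] with s hs hs'
    exact hbd s hs' hs x
  constructor
  · intro x
    have hd : HasFDerivAt (fun x => ∫ s in a..t, Q (t - s) (flux W (ρ s)) x)
        (∫ s in a..t, InnerProductSpace.toDual ℝ (E d)
          (gP ((t - s) / 2) (Q ((t - s) / 2) (flux W (ρ s))) x)) x := by
      apply intervalIntegral.hasFDerivAt_integral_of_dominated_of_fderiv_le (s := univ)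
        (F := fun x s => Q (t - s) (flux W (ρ s)) x)
        (F' := fun x s => InnerProductSpace.toDual ℝ (E d)
          (gP ((t - s) / 2) (Q ((t - s) / 2) (flux W (ρ s))) x)) univ_mem
        (bound := fun s => C4 * max L 0 * (t - s) ^ (-(1 / 2 : ℝ)))
      · exact Eventually.of_forall fun x => (hm1' x).aestronglyMeasurable
      · refine (R5_int a t (C3 * M)).mono_fun' (hm1' x).aestronglyMeasurable ?_
        rw [EventuallyLE, ae_restrict_iff' measurableSet_uIoc]
        filter_upwards [hne] with s hs hs'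
        obtain ⟨h5, h6, h7⟩ := hs_lt s hs' hs
        have := (h3 (t - s) (flux W (ρ s)) M h5 (R5_flux_meas' hc s)
          (fun x => (hM s h7 x).2)).2.2.2 x
        rw [Real.norm_eq_abs]
        calc _ ≤ _ := this
          _ = _ := by ring
      · exact (InnerProductSpace.toDual ℝ (E d)).continuous.comp_aestronglyMeasurable
          (hm2' x).aestronglyMeasurable
      · filter_upwards [hne] with s hs hs' y _
        rw [LinearIsometryEquiv.norm_map]
        exact hbd s hs' hs y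
      · exact R5_int a t _
      · filter_upwards [hne] with s hs hs' y _
        obtain ⟨h5, h6, h7⟩ := hs_lt s hs' hs
        exact ((h3 (t - s) (flux W (ρ s)) M h5 (R5_flux_meas' hc s)
          (fun x => (hM s h7 x).2)).1 y).hasFDerivAt
    have hdual : (∫ s in a..t, InnerProductSpace.toDual ℝ (E d)
          (gP ((t - s) / 2) (Q ((t - s) / 2) (flux W (ρ s))) x)) =
        InnerProductSpace.toDual ℝ (E d)
          (∫ s in a..t, gP ((t - s) / 2) (Q ((t - s) / 2) (flux W (ρ s))) x) := by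
      ext v
      rw [ContinuousLinearMap.intervalIntegral_apply]
      · simp only [InnerProductSpace.toDual_apply_apply]
        rw [real_inner_comm]
        have := (innerSL ℝ v).intervalIntegral_comp_comm (hgi x)
        simp only [innerSL_apply_apply] at this
        rw [← this]
        apply intervalIntegral.integral_congr
        intro s _
        exact real_inner_comm _ _
      · refine (R5_int a t (C4 * max L 0)).mono_fun'
          ((InnerProductSpace.toDual ℝ (E d)).continuous.comp_aestronglyMeasurable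
          (hm2' x).aestronglyMeasurable) ?_
        rw [EventuallyLE, ae_restrict_iff' measurableSet_uIoc]
        filter_upwards [hne] with s hs hs'
        rw [LinearIsometryEquiv.norm_map]
        exact hbd s hs' hs x
    have hsum := ((h1g x).hasFDerivAt).add hd
    rw [hdual, ← map_add] at hsum
    have hfun : ρ t = fun x => P (t - a) (ρ a) x + ∫ s in a..t, Q (t - s) (flux W (ρ s)) x := by
      funext x
      exact hc.restart a t ha.le hat x
    rw [hasGradientAt_iff_hasFDerivAt, hfun]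
    exact hsum
  · refine h1c.add ?_
    apply intervalIntegral.continuous_of_dominated_interval
      (bound := fun s => C4 * max L 0 * (t - s) ^ (-(1 / 2 : ℝ)))
    · exact fun x => (hm2' x).aestronglyMeasurable
    · intro x
      filter_upwards [hne] with s hs hs'
      exact hbd s hs' hs x
    · exact R5_int a t _
    · filter_upwards [hne] with s hs hs'
      obtain ⟨h5, h6, h7⟩ := hs_lt s hs' hs
      exact (h3 (t - s) (flux W (ρ s)) M h5 (R5_flux_meas' hc s)
          (fun x => (hM s h7 x).2)).2.1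

theorem itemR5 (hP1 : ClaimP1) (hP3 : ClaimP3) (hP4 : ClaimP4) (hPM : ClaimPM) (hV1 : ClaimV1)
    (hFL : ClaimFL) : ClaimR5 := by
  intro d A K m W ρ hP hc hL
  constructor
  · intro t ht
    obtain ⟨h1, h2⟩ := R5_main hP1 hP3 hP4 hPM hV1 hFL hP hc hL (a := t / 2) (t := t)
      (by linarith) (by linarith)
    rw [contDiff_one_iff_fderiv]
    refine ⟨fun x => (h1 x).differentiableAt, ?_⟩
    have : fderiv ℝ (ρ t) = fun x => InnerProductSpace.toDual ℝ (E d)
        (gP (t - t / 2) (ρ (t / 2)) x +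
      ∫ s in (t / 2)..t, gP ((t - s) / 2) (Q ((t - s) / 2) (flux W (ρ s))) x) := by
      funext x
      exact (h1 x).hasFDerivAt.fderiv
    rw [this]
    exact (InnerProductSpace.toDual ℝ (E d)).continuous.comp h2
  · intro a t ha hat x
    exact ((R5_main hP1 hP3 hP4 hPM hV1 hFL hP hc hL ha hat).1 x).gradient

end Pool.Agent.Work.MP_9371de_an

end

section

/-!
Item R6: continuity in time of the solution and of its gradient.
-/

open MeasureTheory Set Filter Topology
open scoped Real InnerProductSpace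

namespace Pool.Agent.Work.MP_9371de_an

/-- the flux of a clean solution is jointly measurable -/
theorem R6_flux_meas {d : ℕ} {W : E d → ℝ} {m : ℝ} {ρ : ℝ → E d → ℝ} (hc : Clean d W m ρ) :
    Measurable (fun p : ℝ × E d => flux W (ρ p.1) p.2) :=
  hc.meas.smul hc.dmeas

/-- the flux of a clean solution is bounded -/
theorem R6_flux_bdd (v1 : ClaimV1) {d : ℕ} {A K : ℝ} {W : E d → ℝ} {m : ℝ} {ρ : ℝ → E d → ℝ}
    (hp : Pot d A K W) (hc : Clean d W m ρ) (T : ℝ) :
    ∃ M, 0 ≤ M ∧ (∀ t, t ≤ T → ∀ x, |ρ t x| ≤ M) ∧ ∀ t, t ≤ T → ∀ x, ‖flux W (ρ t) x‖ ≤ M := by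
  obtain ⟨N, hN⟩ := hc.bdd T
  have hN0 : 0 ≤ N := (hc.nonneg T 0).trans (hN T le_rfl 0)
  have hK := hp.K_pos
  refine ⟨max N (N * (K * N)), le_max_of_le_left hN0, fun t ht x => ?_, fun t ht x => ?_⟩
  · rw [abs_of_nonneg (hc.nonneg t x)]
    exact (hN t ht x).trans (le_max_left _ _)
  · have h1 : ∀ y, |ρ t y| ≤ N := fun y => by
      rw [abs_of_nonneg (hc.nonneg t y)]
      exact hN t ht y
    have h2 := (v1 d A K W (ρ t) N hp (hc.int t) (Eventually.of_forall h1)).2.1 x
    unfold flux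
    rw [norm_smul, Real.norm_eq_abs]
    exact (mul_le_mul (h1 x) h2 (norm_nonneg _) hN0).trans (le_max_right _ _)

/-- continuity of a function on `(0,∞)` from Volterra formulas on `(a,T)`. -/
theorem R6_cont {F : Type} [TopologicalSpace F] (f : ℝ → F)
    (h : ∀ a T : ℝ, 0 < a → a < T → ContinuousOn f (Ioo a T)) : ContinuousOn f (Ioi 0) := by
  intro t ht
  have ht' : (0 : ℝ) < t := ht
  have h1 := h (t / 2) (t + 1) (by linarith) (by linarith)
  have h2 : Ioo (t / 2) (t + 1) ∈ 𝓝 t := Ioo_mem_nhds (by linarith) (by linarith)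
  exact (h1.continuousAt h2).continuousWithinAt

theorem itemR6 (p3 : ClaimP3) (p4 : ClaimP4) (p5 : ClaimP5) (pm : ClaimPM) (v1 : ClaimV1)
    (vc : ClaimVC) (fl : ClaimFL) (r5 : ClaimR5) : ClaimR6 := by
  intro d A K m W ρ hp hc hl x
  obtain ⟨C3, hC3, h3⟩ := p3 d
  obtain ⟨C4, hC4, h4⟩ := p4 d
  obtain ⟨-, -, hQm, hgm⟩ := pm d ρ (fun t => flux W (ρ t)) hc.meas (R6_flux_meas hc)
  have hFm : ∀ s, Measurable (flux W (ρ s)) := fun s =>
    (R6_flux_meas hc).comp (measurable_const.prodMk measurable_id : Measurable fun y : E d => (s, y))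
  have hum : ∀ s, Measurable (ρ s) := fun s =>
    hc.meas.comp (measurable_const.prodMk measurable_id : Measurable fun y : E d => (s, y))
  constructor
  · refine R6_cont _ fun a T ha haT => ?_
    obtain ⟨M, hM0, hM1, hM2⟩ := R6_flux_bdd v1 hp hc T
    have e : EqOn (fun t => ρ t x) (fun t => P (t - a) (ρ a) x +
        ∫ r in a..t, Q (t - r) (flux W (ρ r)) x) (Ioo a T) := fun t ht =>
      hc.restart a t ha.le ht.1 x
    refine ContinuousOn.congr ?_ e
    refine ContinuousOn.add ?_ ?_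
    · have h5 := (p5 d (ρ a) (flux W (ρ a)) M (hum a) (hM1 a haT.le) (hFm a) (hM2 a haT.le) x).1
      exact h5.comp (continuous_id.sub continuous_const).continuousOn fun t ht => sub_pos.2 ht.1
    · refine vc ℝ a T (C3 * M) (fun t r => Q (t - r) (flux W (ρ r)) x) ?_ ?_ ?_
      · intro s hs
        by_cases hsT : s ≤ T
        · have h5 := (p5 d (ρ s) (flux W (ρ s)) M (hum s) (hM1 s hsT) (hFm s) (hM2 s hsT) x).2.2.1
          exact h5.comp (continuous_id.sub continuous_const).continuousOn fun t ht => (sub_pos.2 (mem_Ioi.1 ht) : (0 : ℝ) < t - s)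
        · obtain ⟨M', -, hM1', hM2'⟩ := R6_flux_bdd v1 hp hc s
          have h5 := (p5 d (ρ s) (flux W (ρ s)) M' (hum s) (hM1' s le_rfl) (hFm s)
            (hM2' s le_rfl) x).2.2.1
          exact h5.comp (continuous_id.sub continuous_const).continuousOn fun t ht => (sub_pos.2 (mem_Ioi.1 ht) : (0 : ℝ) < t - s)
      · intro s t has hst htT
        have h6 := (h3 (t - s) (flux W (ρ s)) M (by linarith) (hFm s)
          (hM2 s (by linarith))).2.2.2 x
        rw [Real.norm_eq_abs]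
        calc |Q (t - s) (flux W (ρ s)) x| ≤ C3 * (t - s) ^ (-(1 / 2 : ℝ)) * M := h6
          _ = C3 * M * (t - s) ^ (-(1 / 2 : ℝ)) := by ring
      · intro t _ _
        have h7 : Measurable (fun s : ℝ => (((t - s, s), x) : (ℝ × ℝ) × E d)) := by fun_prop
        exact (hQm.comp h7).aestronglyMeasurable
  · refine R6_cont _ fun a T ha haT => ?_
    obtain ⟨M, hM0, hM1, hM2⟩ := R6_flux_bdd v1 hp hc T
    obtain ⟨L, hL⟩ := fl d A K m W ρ hp hc hl a T ha
    have e : EqOn (fun t => gradient (ρ t) x) (fun t => gP (t - a) (ρ a) x +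
        ∫ s in a..t, gP ((t - s) / 2) (Q ((t - s) / 2) (flux W (ρ s))) x) (Ioo a T) :=
      fun t ht => (r5 d A K m W ρ hp hc hl).2 a t ha ht.1 x
    refine ContinuousOn.congr ?_ e
    refine ContinuousOn.add ?_ ?_
    · have h5 := (p5 d (ρ a) (flux W (ρ a)) M (hum a) (hM1 a haT.le) (hFm a)
        (hM2 a haT.le) x).2.1
      exact h5.comp (continuous_id.sub continuous_const).continuousOn fun t ht => sub_pos.2 ht.1
    · refine vc (E d) a T (C4 * |L|)
        (fun t s => gP ((t - s) / 2) (Q ((t - s) / 2) (flux W (ρ s))) x) ?_ ?_ ?_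
      · intro s hs
        obtain ⟨M', -, hM1', hM2'⟩ := R6_flux_bdd v1 hp hc s
        have h5 := (p5 d (ρ s) (flux W (ρ s)) M' (hum s) (hM1' s le_rfl) (hFm s)
          (hM2' s le_rfl) x).2.2.2
        exact h5.comp (continuous_id.sub continuous_const).continuousOn fun t ht => (sub_pos.2 (mem_Ioi.1 ht) : (0 : ℝ) < t - s)
      · intro s t has hst htT
        have h6 := h4 (t - s) (flux W (ρ s)) M |L| (by linarith) (abs_nonneg L) (hFm s)
          (hM2 s (by linarith)) (fun k => by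
            filter_upwards [hL s has.le (by linarith) k] with y hy
            exact hy.trans (mul_le_mul_of_nonneg_right (le_abs_self L) (norm_nonneg _))) x
        calc ‖gP ((t - s) / 2) (Q ((t - s) / 2) (flux W (ρ s))) x‖
            ≤ C4 * (t - s) ^ (-(1 / 2 : ℝ)) * |L| := h6
          _ = C4 * |L| * (t - s) ^ (-(1 / 2 : ℝ)) := by ring
      · intro t _ _
        have h7 : Measurable (fun s : ℝ => ((((t - s) / 2, s), x) : (ℝ × ℝ) × E d)) := by
          fun_prop
        exact (hgm.comp h7).aestronglyMeasurable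

end Pool.Agent.Work.MP_9371de_an

end

section

/-!
[R9] the weak form of the equation.
-/

open MeasureTheory Set Filter Topology
open scoped Real InnerProductSpace

namespace Pool.Agent.Work.MP_9371de_an

lemma R9_gP_le (hH1 : ClaimH1) (hH4 : ClaimH4) (d : ℕ) : ∃ C : ℝ, 0 < C ∧
    ∀ (σ : ℝ) (ψ : E d → ℝ) (M : ℝ), 0 < σ → (∀ x, |ψ x| ≤ M) →
      ∀ x, ‖gP σ ψ x‖ ≤ C * σ ^ (-(1 / 2 : ℝ)) * M := by
  obtain ⟨C, hC, h4⟩ := hH4 d
  refine ⟨C, hC, fun σ ψ M hσ hψ x => ?_⟩
  have hM : 0 ≤ M := (abs_nonneg _).trans (hψ x)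
  obtain ⟨hpos, hcont, hint, h1, -⟩ := hH1 d (2 * σ) (by positivity)
  have hb : ∀ y, ‖ψ y • gheat d σ (x - y)‖ ≤
      (C * σ ^ (-(1 / 2 : ℝ)) * M) * heat d (2 * σ) (x - y) := by
    intro y
    rw [norm_smul, Real.norm_eq_abs]
    calc |ψ y| * ‖gheat d σ (x - y)‖
        ≤ M * (C * σ ^ (-(1 / 2 : ℝ)) * heat d (2 * σ) (x - y)) :=
          mul_le_mul (hψ y) (h4 σ hσ (x - y)).1 (norm_nonneg _) hM
      _ = _ := by ring
  have hi : Integrable (fun y => (C * σ ^ (-(1 / 2 : ℝ)) * M) * heat d (2 * σ) (x - y)) :=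
    (hint.comp_sub_left x).const_mul _
  refine (norm_integral_le_of_norm_le hi (Eventually.of_forall hb)).trans ?_
  rw [integral_const_mul, integral_sub_left_eq_self (fun y => heat d (2 * σ) y) volume x, h1,
    mul_one]

lemma R9_Q_L1 (hH1 : ClaimH1) (hH4 : ClaimH4) (hP1 : ClaimP1) (hP3 : ClaimP3) (hP7 : ClaimP7)
    (d : ℕ) : ∃ C : ℝ, 0 < C ∧
    ∀ (σ : ℝ) (F : E d → E d) (N : ℝ), 0 < σ → Measurable F → (∀ x, ‖F x‖ ≤ N) → Integrable F →
      Integrable (Q σ F) ∧ ∫ x, |Q σ F x| ≤ C * σ ^ (-(1 / 2 : ℝ)) * ∫ x, ‖F x‖ := by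
  obtain ⟨C, hC, hg⟩ := R9_gP_le hH1 hH4 d
  obtain ⟨C3, hC3, h3⟩ := hP3 d
  refine ⟨C, hC, fun σ F N hσ hF hFN hFi => ?_⟩
  have hQc : Continuous (Q σ F) := (h3 σ F N hσ hF hFN).2.2.1
  constructor
  · have := (hP7 d σ (fun _ => 1) F 1 hσ measurable_const (by simp) hF hFi).1
    simpa using this
  · set ψ : E d → ℝ := fun x => if 0 ≤ Q σ F x then 1 else -1 with hψ
    have hψm : Measurable ψ :=
      Measurable.ite (measurableSet_le measurable_const hQc.measurable) measurable_const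
        measurable_const
    have hψ1 : ∀ x, |ψ x| ≤ 1 := by
      intro x
      simp only [hψ]
      split_ifs <;> simp
    have hψQ : ∀ x, |Q σ F x| = ψ x * Q σ F x := by
      intro x
      simp only [hψ]
      split_ifs with h
      · rw [abs_of_nonneg h, one_mul]
      · rw [abs_of_neg (not_le.1 h), neg_one_mul]
    obtain ⟨-, hdual⟩ := hP7 d σ ψ F 1 hσ hψm hψ1 hF hFi
    have hgc : Continuous (gP σ ψ) := (hP1 d σ ψ 1 hσ hψm hψ1).2.1
    simp_rw [hψQ]
    rw [hdual]
    have hb : ∀ y, ‖⟪gP σ ψ y, F y⟫_ℝ‖ ≤ (C * σ ^ (-(1 / 2 : ℝ))) * ‖F y‖ := by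
      intro y
      refine (norm_inner_le_norm _ _).trans (mul_le_mul_of_nonneg_right ?_ (norm_nonneg _))
      have := hg σ ψ 1 hσ hψ1 y
      rwa [mul_one] at this
    have h1 := norm_integral_le_of_norm_le (hFi.norm.const_mul (C * σ ^ (-(1 / 2 : ℝ))))
      (Eventually.of_forall hb)
    rw [integral_const_mul, Real.norm_eq_abs] at h1
    exact (neg_le_abs _).trans h1

lemma R9_gradient_continuous {d : ℕ} {f : E d → ℝ} (hf : ContDiff ℝ 1 f) :
    Continuous (gradient f) := by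
  have h1 : Continuous (fderiv ℝ f) := hf.continuous_fderiv one_ne_zero
  exact (InnerProductSpace.toDual ℝ (E d)).symm.continuous.comp h1


lemma R9_meas (hPM : ClaimPM) (d : ℕ) (F : ℝ → E d → E d) (ψ : E d → ℝ) (y : ℝ)
    (hF : Measurable (fun p : ℝ × E d => F p.1 p.2)) (hψ : Measurable ψ) :
    Measurable (fun p : ℝ × E d => ψ p.2 * Q (y - p.1) (F p.1) p.2) := by
  have h1 := (hPM d (fun _ _ => 0) F measurable_const hF).2.2.1
  have h2 : Measurable (fun p : ℝ × E d => (((y - p.1, p.1), p.2) : (ℝ × ℝ) × E d)) := by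
    fun_prop
  have h3 := h1.comp h2
  rw [Function.comp_def] at h3
  have h4 : Measurable (fun p : ℝ × E d => ψ p.2) := hψ.comp measurable_snd
  exact h4.mul h3

lemma R9_rpow_int (r0 y : ℝ) (h : r0 ≤ y) :
    IntegrableOn (fun r => (y - r) ^ (-(1 / 2 : ℝ))) (Ioc r0 y) := by
  have h1 : IntervalIntegrable (fun r : ℝ => r ^ (-(1 / 2 : ℝ))) volume (y - r0) (y - y) :=
    intervalIntegral.intervalIntegrable_rpow' (by norm_num)
  have h2 := h1.comp_sub_left y
  rw [sub_sub_cancel, sub_sub_cancel] at h2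
  exact (intervalIntegrable_iff_integrableOn_Ioc_of_le h).1 h2

/-- Fubini for the Duhamel term. -/
lemma R9_fubini (hH1 : ClaimH1) (hH4 : ClaimH4) (hP1 : ClaimP1) (hP3 : ClaimP3)
    (hP7 : ClaimP7) (hPM : ClaimPM) (d : ℕ) (F : ℝ → E d → E d) (ψ : E d → ℝ) (M N I r0 y : ℝ)
    (hF : Measurable (fun p : ℝ × E d => F p.1 p.2)) (hψ : Continuous ψ)
    (hψM : ∀ x, |ψ x| ≤ M) (hry : r0 < y)
    (hFN : ∀ r ∈ Ioo r0 y, ∀ x, ‖F r x‖ ≤ N) (hFi : ∀ r ∈ Ioo r0 y, Integrable (F r))
    (hFI : ∀ r ∈ Ioo r0 y, ∫ x, ‖F r x‖ ≤ I) :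
    Integrable (fun p : ℝ × E d => ψ p.2 * Q (y - p.1) (F p.1) p.2)
      ((volume.restrict (Ioc r0 y)).prod volume) := by
  obtain ⟨CQ, hCQ, hQL⟩ := R9_Q_L1 hH1 hH4 hP1 hP3 hP7 d
  have hM0 : 0 ≤ M := (abs_nonneg _).trans (hψM 0)
  have hqm := R9_meas hPM d F ψ y hF hψ.measurable
  have hae : ∀ᵐ r ∂(volume.restrict (Ioc r0 y)), r ∈ Ioo r0 y := by
    rw [← restrict_Ioo_eq_restrict_Ioc]
    exact ae_restrict_mem measurableSet_Ioo
  have hq1 : ∀ r ∈ Ioo r0 y, Integrable (fun x => ψ x * Q (y - r) (F r) x) ∧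
      ∫ x, ‖ψ x * Q (y - r) (F r) x‖ ≤ (M * (CQ * I)) * (y - r) ^ (-(1 / 2 : ℝ)) := by
    intro r hr
    have hσ : 0 < y - r := by linarith [hr.2]
    have hFr : Measurable (F r) := hF.comp measurable_prodMk_left
    obtain ⟨hi, hl⟩ := hQL (y - r) (F r) N hσ hFr (hFN r hr) (hFi r hr)
    have hi2 : Integrable (fun x => ψ x * Q (y - r) (F r) x) :=
      hi.bdd_mul hψ.aestronglyMeasurable (Eventually.of_forall hψM)
    refine ⟨hi2, ?_⟩
    calc ∫ x, ‖ψ x * Q (y - r) (F r) x‖ ≤ ∫ x, M * |Q (y - r) (F r) x| := by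
          refine integral_mono hi2.norm (hi.abs.const_mul M) fun x => ?_
          dsimp only
          rw [norm_mul, Real.norm_eq_abs, Real.norm_eq_abs]
          exact mul_le_mul_of_nonneg_right (hψM x) (abs_nonneg _)
      _ = M * ∫ x, |Q (y - r) (F r) x| := integral_const_mul _ _
      _ ≤ M * (CQ * (y - r) ^ (-(1 / 2 : ℝ)) * I) := by
          refine mul_le_mul_of_nonneg_left (hl.trans ?_) hM0
          exact mul_le_mul_of_nonneg_left (hFI r hr)
            (mul_nonneg hCQ.le (Real.rpow_nonneg hσ.le _))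
      _ = _ := by ring
  rw [integrable_prod_iff hqm.aestronglyMeasurable]
  constructor
  · filter_upwards [hae] with r hr
    exact (hq1 r hr).1
  · refine ((R9_rpow_int r0 y hry.le).const_mul (M * (CQ * I))).mono' ?_ ?_
    · exact hqm.norm.aestronglyMeasurable.integral_prod_right'
    · filter_upwards [hae] with r hr
      rw [Real.norm_eq_abs, abs_of_nonneg (integral_nonneg fun x => norm_nonneg _)]
      exact (hq1 r hr).2

/-- The increment of `∫ ψ ρ`. -/
lemma R9_split (hH1 : ClaimH1) (hH4 : ClaimH4) (hP1 : ClaimP1) (hP3 : ClaimP3)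
    (hP7 : ClaimP7) (hPM : ClaimPM) (d : ℕ) (F : ℝ → E d → E d) (ψ : E d → ℝ) (M N I r0 y : ℝ)
    (u0 u1 : E d → ℝ)
    (hF : Measurable (fun p : ℝ × E d => F p.1 p.2)) (hψ : Continuous ψ)
    (hψM : ∀ x, |ψ x| ≤ M) (hry : r0 < y)
    (hFN : ∀ r ∈ Ioo r0 y, ∀ x, ‖F r x‖ ≤ N) (hFi : ∀ r ∈ Ioo r0 y, Integrable (F r))
    (hFI : ∀ r ∈ Ioo r0 y, ∫ x, ‖F r x‖ ≤ I) (hu0 : Integrable u0) (hu1 : Integrable u1)
    (hrest : ∀ x, u1 x = P (y - r0) u0 x + ∫ r in r0..y, Q (y - r) (F r) x) :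
    ((∫ x, ψ x * u1 x) - (∫ x, ψ x * u0 x) =
      (∫ x, ψ x * (P (y - r0) u0 x - u0 x)) + -∫ r in r0..y, ∫ x, ⟪gP (y - r) ψ x, F r x⟫_ℝ) ∧
    IntervalIntegrable (fun r => ∫ x, ⟪gP (y - r) ψ x, F r x⟫_ℝ) volume r0 y := by
  have hqi := R9_fubini hH1 hH4 hP1 hP3 hP7 hPM d F ψ M N I r0 y hF hψ hψM hry hFN hFi hFI
  set μ : Measure ℝ := volume.restrict (Ioc r0 y) with hμ
  have hae : ∀ᵐ r ∂μ, r ∈ Ioo r0 y := by
    rw [hμ, ← restrict_Ioo_eq_restrict_Ioc]
    exact ae_restrict_mem measurableSet_Ioo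
  have hswap : ∫ x, (∫ r, ψ x * Q (y - r) (F r) x ∂μ) =
      ∫ r, (∫ x, ψ x * Q (y - r) (F r) x) ∂μ :=
    (integral_integral_swap (f := fun r x => ψ x * Q (y - r) (F r) x) hqi).symm
  have hqx : Integrable (fun x => ∫ r, ψ x * Q (y - r) (F r) x ∂μ) := hqi.integral_prod_right
  have hqr : Integrable (fun r => ∫ x, ψ x * Q (y - r) (F r) x) μ := hqi.integral_prod_left
  have hqe : ∀ x, ∫ r, ψ x * Q (y - r) (F r) x ∂μ = ψ x * (u1 x - P (y - r0) u0 x) := by
    intro x
    rw [hrest x, add_sub_cancel_left, intervalIntegral.integral_of_le hry.le,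
      ← integral_const_mul]
  have hkk : ∀ r ∈ Ioo r0 y, ∫ x, ψ x * Q (y - r) (F r) x =
      -∫ x, ⟪gP (y - r) ψ x, F r x⟫_ℝ := by
    intro r hr
    exact (hP7 d (y - r) ψ (F r) M (by linarith [hr.2]) hψ.measurable hψM
      (hF.comp measurable_prodMk_left) (hFi r hr)).2
  have hkq : ∫ r, (∫ x, ψ x * Q (y - r) (F r) x) ∂μ =
      -∫ r in r0..y, ∫ x, ⟪gP (y - r) ψ x, F r x⟫_ℝ := by
    rw [intervalIntegral.integral_of_le hry.le, ← integral_neg]
    refine integral_congr_ae ?_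
    filter_upwards [hae] with r hr
    exact hkk r hr
  constructor
  · have hi1 : Integrable (fun x => ψ x * u1 x) :=
      hu1.bdd_mul hψ.aestronglyMeasurable (Eventually.of_forall hψM)
    have hi0 : Integrable (fun x => ψ x * u0 x) :=
      hu0.bdd_mul hψ.aestronglyMeasurable (Eventually.of_forall hψM)
    have hgoal : ∫ x, (∫ r, ψ x * Q (y - r) (F r) x ∂μ) =
        ∫ x, ψ x * (u1 x - P (y - r0) u0 x) := integral_congr_ae (Eventually.of_forall hqe)
    have hqx2 : Integrable (fun x => ψ x * (u1 x - P (y - r0) u0 x)) :=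
      hqx.congr (Eventually.of_forall hqe)
    have hi3 : Integrable (fun x => ψ x * (P (y - r0) u0 x - u0 x)) := by
      have := (hi1.sub hi0).sub hqx2
      refine this.congr (Eventually.of_forall fun x => ?_)
      simp only [Pi.sub_apply]
      ring
    rw [← hkq, ← hswap, hgoal]
    refine (integral_sub hi1 hi0).symm.trans (Eq.trans ?_ (integral_add hi3 hqx2))
    refine integral_congr_ae (Eventually.of_forall fun x => ?_)
    dsimp only
    ring
  · rw [intervalIntegrable_iff_integrableOn_Ioc_of_le hry.le]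
    refine (Integrable.neg hqr).congr ?_
    filter_upwards [hae] with r hr
    rw [Pi.neg_apply, hkk r hr, neg_neg]

/-- Averages of a function with a limit. -/
lemma R9_avg (k : ℝ → ℝ → ℝ) (k0 r0 : ℝ)
    (hlim : Tendsto (fun p : ℝ × ℝ => k p.1 p.2) (𝓝[>] 0 ×ˢ 𝓝[>] r0) (𝓝 k0))
    (hint : ∀ᶠ y in 𝓝[>] r0, IntervalIntegrable (fun r => k (y - r) r) volume r0 y) :
    Tendsto (fun y => (y - r0)⁻¹ * -∫ r in r0..y, k (y - r) r) (𝓝[>] r0) (𝓝 (-k0)) := by
  rw [Metric.tendsto_nhds]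
  intro ε hε
  have h1 := (Metric.tendsto_nhds.1 hlim) (ε / 2) (by positivity)
  obtain ⟨pa, hpa, pb, hpb, hpp⟩ := (eventually_prod_iff.1 h1)
  rw [eventually_nhdsWithin_iff, Metric.eventually_nhds_iff] at hpa hpb
  obtain ⟨δ1, hδ1, hd1⟩ := hpa
  obtain ⟨δ2, hδ2, hd2⟩ := hpb
  have hy1 : ∀ᶠ y in 𝓝[>] r0, y < r0 + min δ1 δ2 :=
    nhdsWithin_le_nhds (Iio_mem_nhds (by linarith [lt_min hδ1 hδ2]))
  filter_upwards [hy1, self_mem_nhdsWithin, hint] with y hy hy0 hii
  have hy0' : r0 < y := hy0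
  have hyp : 0 < y - r0 := sub_pos.2 hy0'
  have hyd1 : y < r0 + δ1 := hy.trans_le (by linarith [min_le_left δ1 δ2])
  have hyd2 : y < r0 + δ2 := hy.trans_le (by linarith [min_le_right δ1 δ2])
  have hclose : ∀ r ∈ Ioo r0 y, |k (y - r) r - k0| < ε / 2 := by
    intro r hr
    have e1 : pa (y - r) := by
      refine hd1 ?_ (sub_pos.2 hr.2)
      rw [Real.dist_eq, sub_zero, abs_of_pos (sub_pos.2 hr.2)]
      linarith [hr.1]
    have e2 : pb r := by
      refine hd2 ?_ hr.1
      rw [Real.dist_eq, abs_of_pos (sub_pos.2 hr.1)]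
      linarith [hr.2]
    have := hpp e1 e2
    rwa [Real.dist_eq] at this
  have hconst : ∫ _ in r0..y, k0 = (y - r0) * k0 := by
    rw [intervalIntegral.integral_const, smul_eq_mul]
  have hest : |(∫ r in r0..y, k (y - r) r) - (y - r0) * k0| ≤ ε / 2 * (y - r0) := by
    rw [← hconst, ← intervalIntegral.integral_sub hii intervalIntegrable_const]
    have h2 := intervalIntegral.norm_integral_le_of_norm_le_const_ae (a := r0) (b := y)
      (C := ε / 2) (f := fun r => k (y - r) r - k0) (by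
        have hae : ∀ᵐ r : ℝ, r ≠ y := by
          rw [ae_iff]
          simp
        filter_upwards [hae] with r hr hrm
        rw [uIoc_of_le hy0'.le] at hrm
        exact (hclose r ⟨hrm.1, lt_of_le_of_ne hrm.2 hr⟩).le)
    rw [Real.norm_eq_abs, abs_of_pos hyp] at h2
    exact h2
  rw [Real.dist_eq]
  have e3 : (y - r0)⁻¹ * -(∫ r in r0..y, k (y - r) r) - -k0 =
      -((y - r0)⁻¹ * ((∫ r in r0..y, k (y - r) r) - (y - r0) * k0)) := by
    field_simp
    ring
  rw [e3, abs_neg, abs_mul, abs_of_pos (inv_pos.2 hyp)]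
  calc (y - r0)⁻¹ * |(∫ r in r0..y, k (y - r) r) - (y - r0) * k0|
      ≤ (y - r0)⁻¹ * (ε / 2 * (y - r0)) :=
        mul_le_mul_of_nonneg_left hest (inv_pos.2 hyp).le
    _ = ε / 2 := by field_simp
    _ < ε := by linarith

/-- [R9] -/
theorem itemR9 (hH1 : ClaimH1) (hH4 : ClaimH4) (hP1 : ClaimP1) (hP3 : ClaimP3) (hP6 : ClaimP6)
    (hP7 : ClaimP7) (hPM : ClaimPM) (hJ : ClaimJ) (hV1 : ClaimV1) : ClaimR9 := by
  intro d A K m κ W h ρ hW hc hκ hκ1 hw hD hG hc1 htc hgc hbx hbt ψ M hψ hψM hψg s t hs hst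
  -- constants
  obtain ⟨C1, hC1⟩ := hD (s / 2) (t + 1) (by positivity)
  obtain ⟨C2, hC2⟩ := hG (s / 2) (t + 1) (by positivity)
  obtain ⟨N, hN⟩ := hc.bdd (t + 1)
  set C := max C1 C2 with hC
  have hρC : ∀ r, s / 2 ≤ r → r ≤ t + 1 → ∀ x, ρ r x ≤ C * h x := fun r h1 h2 x =>
    (hC1 r h1 h2 x).trans (mul_le_mul_of_nonneg_right (le_max_left _ _) (hw.pos x).le)
  have hgC : ∀ r, s / 2 ≤ r → r ≤ t + 1 → ∀ x, ‖gradient (ρ r) x‖ ≤ C * h x := fun r h1 h2 x =>
    (hC2 r h1 h2 x).trans (mul_le_mul_of_nonneg_right (le_max_right _ _) (hw.pos x).le)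
  have hC0 : 0 ≤ C := by
    have h1 := (norm_nonneg _).trans (hgC s (by linarith) (by linarith) 0)
    exact nonneg_of_mul_nonneg_left h1 (hw.pos 0)
  have hN0 : 0 ≤ N := (hc.nonneg t 0).trans (hN t (by linarith) 0)
  have hM0 : 0 ≤ M := (abs_nonneg _).trans (hψM 0)
  have hdr : ∀ r, r ≤ t + 1 → ∀ x, ‖drift W (ρ r) x‖ ≤ K * N := by
    intro r hr
    refine (hV1 d A K W (ρ r) N hW (hc.int r) (Eventually.of_forall fun x => ?_)).2.1
    rw [abs_of_nonneg (hc.nonneg r x)]
    exact hN r hr x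
  -- the flux
  obtain ⟨F, hFdef⟩ : ∃ F : ℝ → E d → E d, F = fun r => flux W (ρ r) := ⟨_, rfl⟩
  have hFr : ∀ r x, F r x = ρ r x • drift W (ρ r) x := by
    intro r x
    rw [hFdef]
    rfl
  have hcur : ∀ r x, cur W (ρ r) x = gradient (ρ r) x + F r x := by
    intro r x
    rw [hFdef]
    rfl
  have hfl : ∀ r, s / 2 ≤ r → r ≤ t + 1 → ∀ x, ‖F r x‖ ≤ C * (K * N) * h x := by
    intro r h1 h2 x
    rw [hFr, norm_smul, Real.norm_eq_abs, abs_of_nonneg (hc.nonneg r x)]
    calc ρ r x * ‖drift W (ρ r) x‖ ≤ (C * h x) * (K * N) :=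
          mul_le_mul (hρC r h1 h2 x) (hdr r h2 x) (norm_nonneg _)
            (mul_nonneg hC0 (hw.pos x).le)
      _ = _ := by ring
  have hfl2 : ∀ r, r ≤ t + 1 → ∀ x, ‖F r x‖ ≤ N * (K * N) := by
    intro r h2 x
    rw [hFr, norm_smul, Real.norm_eq_abs, abs_of_nonneg (hc.nonneg r x)]
    exact mul_le_mul (hN r h2 x) (hdr r h2 x) (norm_nonneg _) hN0
  have hFm : Measurable (fun p : ℝ × E d => F p.1 p.2) := by
    have h1 : Measurable (fun p : ℝ × E d => ρ p.1 p.2 • drift W (ρ p.1) p.2) :=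
      hc.meas.smul hc.dmeas
    simp_rw [hFr]
    exact h1
  have hFm1 : ∀ r, Measurable (F r) := fun r => hFm.comp measurable_prodMk_left
  have hFi : ∀ r, s / 2 ≤ r → r ≤ t + 1 → Integrable (F r) := by
    intro r h1 h2
    exact (hw.int.const_mul (C * (K * N))).mono' (hFm1 r).aestronglyMeasurable
      (Eventually.of_forall (hfl r h1 h2))
  have hFI : ∀ r, s / 2 ≤ r → r ≤ t + 1 → ∫ x, ‖F r x‖ ≤ C * (K * N) * ∫ x, h x := by
    intro r h1 h2
    rw [← integral_const_mul]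
    exact integral_mono (hFi r h1 h2).norm (hw.int.const_mul _) (hfl r h1 h2)
  have hρc : ∀ r, 0 < r → Continuous (ρ r) := hc.cont
  have hFc : ∀ r, 0 < r → Continuous (F r) := by
    intro r hr
    have h1 : Continuous (fun x => ρ r x • drift W (ρ r) x) := (hρc r hr).smul (hbx r hr)
    have h2 : F r = fun x => ρ r x • drift W (ρ r) x := funext (hFr r)
    rw [h2]
    exact h1
  have hFt : ∀ x, ContinuousOn (fun r => F r x) (Ioi 0) := by
    intro x
    simp_rw [hFr]
    exact (htc x).smul (hbt x)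
  have hgrc : ∀ r, 0 < r → Continuous (gradient (ρ r)) := fun r hr =>
    R9_gradient_continuous (hc1 r hr)
  have hgψ : Continuous (gradient ψ) := R9_gradient_continuous hψ
  have hcc : ∀ r, 0 < r → Continuous (fun x => gradient (ρ r) x + F r x) := fun r hr =>
    (hgrc r hr).add (hFc r hr)
  have hcu : ∀ r, s / 2 ≤ r → r ≤ t + 1 → ∀ x,
      ‖gradient (ρ r) x + F r x‖ ≤ (C + C * (K * N)) * h x := by
    intro r h1 h2 x
    refine (norm_add_le _ _).trans ?_
    have e1 := hgC r h1 h2 x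
    have e2 := hfl r h1 h2 x
    linarith
  -- the two functions
  obtain ⟨f, hf⟩ : ∃ f : ℝ → ℝ, f = fun r => ∫ x, ψ x * ρ r x := ⟨_, rfl⟩
  obtain ⟨G, hGdef⟩ : ∃ G : ℝ → ℝ, G = fun r => ∫ x, ⟪gradient ψ x, gradient (ρ r) x + F r x⟫_ℝ :=
    ⟨_, rfl⟩
  have hIcc : ∀ r ∈ Icc s t, s / 2 ≤ r ∧ r ≤ t + 1 ∧ 0 < r := fun r hr =>
    ⟨by linarith [hr.1], by linarith [hr.2], by linarith [hr.1]⟩
  have hfcont : ContinuousOn f (Icc s t) := by
    rw [hf]
    refine continuousOn_of_dominated (bound := fun x => M * (C * h x)) ?_ ?_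
      ((hw.int.const_mul C).const_mul M) ?_
    · intro r hr
      exact (hψ.continuous.mul (hρc r (hIcc r hr).2.2)).aestronglyMeasurable
    · intro r hr
      refine Eventually.of_forall fun x => ?_
      rw [norm_mul, Real.norm_eq_abs, Real.norm_eq_abs, abs_of_nonneg (hc.nonneg r x)]
      exact mul_le_mul (hψM x) (hρC r (hIcc r hr).1 (hIcc r hr).2.1 x) (hc.nonneg r x) hM0
    · refine Eventually.of_forall fun x => ?_
      exact continuousOn_const.mul ((htc x).mono fun r hr => (hIcc r hr).2.2)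
  have hGcont : ContinuousOn G (Icc s t) := by
    rw [hGdef]
    refine continuousOn_of_dominated (bound := fun x => M * ((C + C * (K * N)) * h x)) ?_ ?_
      ((hw.int.const_mul _).const_mul M) ?_
    · intro r hr
      exact (hgψ.inner (hcc r (hIcc r hr).2.2)).aestronglyMeasurable
    · intro r hr
      refine Eventually.of_forall fun x => ?_
      exact (norm_inner_le_norm _ _).trans (mul_le_mul (hψg x)
        (hcu r (hIcc r hr).1 (hIcc r hr).2.1 x) (norm_nonneg _) hM0)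
    · refine Eventually.of_forall fun x => ?_
      exact continuousOn_const.inner (((hgc x).add (hFt x)).mono fun r hr => (hIcc r hr).2.2)
  -- the kernel part
  obtain ⟨k, hk⟩ : ∃ k : ℝ → ℝ → ℝ, k = fun σ r => ∫ x, ⟪gP σ ψ x, F r x⟫_ℝ := ⟨_, rfl⟩
  have hsplit : ∀ r0 y, s ≤ r0 → r0 < y → y ≤ t + 1 →
      (f y - f r0 = (∫ x, ψ x * (P (y - r0) (ρ r0) x - ρ r0 x)) +
        -∫ r in r0..y, k (y - r) r) ∧
      IntervalIntegrable (fun r => k (y - r) r) volume r0 y := by
    intro r0 y hr0 hr0y hy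
    have hr00 : 0 < r0 := by linarith
    have hrest : ∀ x, ρ y x = P (y - r0) (ρ r0) x + ∫ r in r0..y, Q (y - r) (F r) x := by
      rw [hFdef]
      exact hc.restart r0 y hr00.le hr0y
    have := R9_split hH1 hH4 hP1 hP3 hP7 hPM d F ψ M (N * (K * N)) (C * (K * N) * ∫ x, h x) r0 y
      (ρ r0) (ρ y) hFm hψ.continuous hψM hr0y
      (fun r hr x => hfl2 r (by linarith [hr.2]) x)
      (fun r hr => hFi r (by linarith [hr.1]) (by linarith [hr.2]))
      (fun r hr => hFI r (by linarith [hr.1]) (by linarith [hr.2])) (hc.int r0) (hc.int y) hrest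
    rw [hf, hk]
    exact this
  have hklim : ∀ r0, s ≤ r0 → r0 ≤ t →
      Tendsto (fun p : ℝ × ℝ => k p.1 p.2) (𝓝[>] 0 ×ˢ 𝓝[>] r0)
        (𝓝 (∫ x, ⟪gradient ψ x, F r0 x⟫_ℝ)) := by
    intro r0 hr0 hr0t
    have hr00 : 0 < r0 := by linarith
    have hev : ∀ᶠ p : ℝ × ℝ in 𝓝[>] 0 ×ˢ 𝓝[>] r0, 0 < p.1 ∧ (r0 < p.2 ∧ p.2 < t + 1) := by
      have e1 : ∀ᶠ a : ℝ in 𝓝[>] 0, 0 < a := self_mem_nhdsWithin
      have e3 : ∀ᶠ b : ℝ in 𝓝[>] r0, r0 < b := self_mem_nhdsWithin
      have e4 : ∀ᶠ b : ℝ in 𝓝[>] r0, b < t + 1 :=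
        nhdsWithin_le_nhds (Iio_mem_nhds (by linarith))
      have e2 : ∀ᶠ b : ℝ in 𝓝[>] r0, r0 < b ∧ b < t + 1 := e3.and e4
      exact e1.prod_mk e2
    rw [hk]
    refine tendsto_integral_filter_of_dominated_convergence
      (fun x => M * (C * (K * N) * h x)) ?_ ?_ ((hw.int.const_mul _).const_mul M) ?_
    · filter_upwards [hev] with p hp
      have hgPc : Continuous (gP p.1 ψ) := (hP1 d p.1 ψ M hp.1 hψ.continuous.measurable hψM).2.1
      exact (hgPc.inner (hFc p.2 (by linarith [hp.2.1]))).aestronglyMeasurable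
    · filter_upwards [hev] with p hp
      refine Eventually.of_forall fun x => ?_
      exact (norm_inner_le_norm _ _).trans (mul_le_mul ((hP6 d ψ M hψ hψM hψg).1 p.1 hp.1 x)
        (hfl p.2 (by linarith [hp.2.1]) (by linarith [hp.2.2]) x) (norm_nonneg _) hM0)
    · refine Eventually.of_forall fun x => ?_
      have h1 : Tendsto (fun p : ℝ × ℝ => gP p.1 ψ x) (𝓝[>] 0 ×ˢ 𝓝[>] r0)
          (𝓝 (gradient ψ x)) := ((hP6 d ψ M hψ hψM hψg).2 x).comp tendsto_fst
      have h2 : Tendsto (fun r => F r x) (𝓝[>] r0) (𝓝 (F r0 x)) :=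
        (((hFt x).continuousAt (Ioi_mem_nhds hr00)).tendsto).mono_left nhdsWithin_le_nhds
      exact h1.inner (h2.comp tendsto_snd)
  -- the derivative
  have hderiv : ∀ r0, s ≤ r0 → r0 < t → HasDerivWithinAt f (-G r0) (Ioi r0) r0 := by
    intro r0 hr0 hr0t
    have hr00 : 0 < r0 := by linarith
    rw [hasDerivWithinAt_iff_tendsto_slope' (by simp)]
    have hshift : Tendsto (fun y => y - r0) (𝓝[>] r0) (𝓝[>] 0) := by
      refine tendsto_nhdsWithin_iff.2 ⟨?_, ?_⟩
      · have : Tendsto (fun y : ℝ => y - r0) (𝓝 r0) (𝓝 (r0 - r0)) :=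
          tendsto_id.sub tendsto_const_nhds
        rw [sub_self] at this
        exact this.mono_left nhdsWithin_le_nhds
      · filter_upwards [self_mem_nhdsWithin] with y hy
        have hy' : r0 < y := hy
        exact sub_pos.2 hy'
    have hA : Tendsto (fun y => (y - r0)⁻¹ * ∫ x, ψ x * (P (y - r0) (ρ r0) x - ρ r0 x))
        (𝓝[>] r0) (𝓝 (-∫ x, ⟪gradient ψ x, gradient (ρ r0) x⟫_ℝ)) := by
      refine (hJ d κ h (ρ r0) ψ C M hκ hκ1 hw (hc1 r0 hr00) (fun x => ?_)
        (hgC r0 (by linarith) (by linarith)) hψ hψM hψg).comp hshift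
      rw [abs_of_nonneg (hc.nonneg r0 x)]
      exact hρC r0 (by linarith) (by linarith) x
    have hy1 : ∀ᶠ y in 𝓝[>] r0, y < t + 1 := nhdsWithin_le_nhds (Iio_mem_nhds (by linarith))
    have hB := R9_avg k _ r0 (hklim r0 hr0 hr0t.le) (by
      filter_upwards [hy1, self_mem_nhdsWithin] with y hy hy0
      exact (hsplit r0 y hr0 hy0 hy.le).2)
    have hsum := hA.add hB
    have hGr : -G r0 = -(∫ x, ⟪gradient ψ x, gradient (ρ r0) x⟫_ℝ) +
        -∫ x, ⟪gradient ψ x, F r0 x⟫_ℝ := by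
      have hi1 : Integrable (fun x => ⟪gradient ψ x, gradient (ρ r0) x⟫_ℝ) := by
        refine ((hw.int.const_mul C).const_mul M).mono'
          (hgψ.inner (hgrc r0 hr00)).aestronglyMeasurable (Eventually.of_forall fun x => ?_)
        exact (norm_inner_le_norm _ _).trans (mul_le_mul (hψg x)
          (hgC r0 (by linarith) (by linarith) x) (norm_nonneg _) hM0)
      have hi2 : Integrable (fun x => ⟪gradient ψ x, F r0 x⟫_ℝ) := by
        refine ((hw.int.const_mul (C * (K * N))).const_mul M).mono'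
          (hgψ.inner (hFc r0 hr00)).aestronglyMeasurable (Eventually.of_forall fun x => ?_)
        exact (norm_inner_le_norm _ _).trans (mul_le_mul (hψg x)
          (hfl r0 (by linarith) (by linarith) x) (norm_nonneg _) hM0)
      rw [← neg_add, ← integral_add hi1 hi2, hGdef]
      dsimp only
      congr 1
      refine integral_congr_ae (Eventually.of_forall fun x => ?_)
      dsimp only
      rw [inner_add_right]
    rw [hGr]
    refine hsum.congr' ?_
    filter_upwards [hy1, self_mem_nhdsWithin] with y hy hy0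
    rw [slope_def_field, (hsplit r0 y hr0 hy0 hy.le).1, ← mul_add, div_eq_inv_mul]
  -- conclusion
  have hfin := intervalIntegral.integral_eq_sub_of_hasDeriv_right (a := s) (b := t) (f := f)
    (f' := fun r => -G r) (by rwa [uIcc_of_le hst]) (by
      intro r hr
      rw [min_eq_left hst, max_eq_right hst] at hr
      exact hderiv r hr.1.le hr.2)
    (by
      have : ContinuousOn (fun r => -G r) (uIcc s t) := by
        rw [uIcc_of_le hst]
        exact hGcont.neg
      exact this.intervalIntegrable)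
  rw [intervalIntegral.integral_neg, hf, hGdef] at hfin
  simp_rw [hcur]
  exact hfin.symm

end Pool.Agent.Work.MP_9371de_an

end

section

/-!
[SC] scaling to `ε = 1`.
-/

open MeasureTheory Set Filter Topology
open scoped Real InnerProductSpace

namespace Pool.Agent.Work.MP_9371de_an

theorem SC_gradient {d : ℕ} (c : ℝ) (f : E d → ℝ) (x : E d) :
    gradient (fun z => c * f z) x = c • gradient f x := by
  unfold gradient
  have : fderiv ℝ (fun z => c * f z) x = c • fderiv ℝ f x := by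
    have := fderiv_const_smul_field (𝕜 := ℝ) (R := ℝ) (f := f) c
    exact congrFun this x
  rw [this, map_smul]

theorem itemSC : ClaimSC := by
  intro d ε W ρ0 ρ hε h
  have hε' : ε ≠ 0 := hε.ne'
  refine ⟨?_, ?_, ?_, ?_, ?_, ?_, ?_⟩
  · exact h.meas.comp ((measurable_fst.div_const ε).prodMk measurable_snd)
  · intro t ht
    exact h.nonneg _ (div_nonneg ht hε.le)
  · intro t ht
    exact h.int _ (div_nonneg ht hε.le)
  · intro T
    obtain ⟨M, hM⟩ := h.bdd (T / ε)
    exact ⟨M, fun t ht htT => hM _ (div_nonneg ht hε.le) (div_le_div_of_nonneg_right htT hε.le)⟩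
  · intro t ht
    have h1 := h.cont (t / ε) (div_nonneg ht hε.le)
    have h2 : Tendsto (fun s : ℝ => s / ε) (𝓝[Ici 0] t) (𝓝[Ici 0] (t / ε)) := by
      refine tendsto_nhdsWithin_iff.2 ⟨?_, ?_⟩
      · exact ((continuous_id.div_const ε).tendsto t).mono_left nhdsWithin_le_nhds
      · filter_upwards [self_mem_nhdsWithin] with s hs
        exact div_nonneg hs hε.le
    exact h1.comp h2
  · simpa using h.init
  · intro t ht
    filter_upwards [h.duhamel (t / ε) (div_pos ht hε)] with x hx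
    rw [hx]
    congr 1
    · rw [mul_div_cancel₀ _ hε', one_mul]
    · have e1 := intervalIntegral.integral_comp_div (a := 0) (b := t)
        (fun s => ∫ y, ⟪gradient (heat d (ε * (t / ε - s))) (x - y),
          ρ s y • gradient (fun z => ∫ w, W (z - w) * ρ s w) y⟫_ℝ) hε'
      rw [zero_div] at e1
      have e2 : (∫ s in (0 : ℝ)..(t / ε), ∫ y, ⟪gradient (heat d (ε * (t / ε - s))) (x - y),
          ρ s y • gradient (fun z => ∫ w, W (z - w) * ρ s w) y⟫_ℝ) =
          ε⁻¹ * (ε • ∫ s in (0 : ℝ)..(t / ε), ∫ y, ⟪gradient (heat d (ε * (t / ε - s))) (x - y),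
          ρ s y • gradient (fun z => ∫ w, W (z - w) * ρ s w) y⟫_ℝ) := by
        rw [smul_eq_mul, inv_mul_cancel_left₀ hε']
      rw [e2, ← e1, ← intervalIntegral.integral_const_mul]
      refine intervalIntegral.integral_congr fun s _ => ?_
      beta_reduce
      have e3 : ε * (t / ε - s / ε) = 1 * (t - s) := by field_simp
      rw [e3, ← integral_const_mul]
      refine integral_congr_ae (Eventually.of_forall fun y => ?_)
      beta_reduce
      have e4 : (fun z => ∫ w, ε⁻¹ * W (z - w) * ρ (s / ε) w) =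
          fun z => ε⁻¹ * ∫ w, W (z - w) * ρ (s / ε) w := by
        funext z
        rw [← integral_const_mul]
        simp only [mul_assoc]
      rw [e4, SC_gradient, inner_smul_right, inner_smul_right, inner_smul_right]
      ring

end Pool.Agent.Work.MP_9371de_an

end
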