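import Pool.Agent.Work.MP_9371de_an.Claims
import Pool.Agent.Work.MP_9371de_an.Bd.B01

/-! Bundle of small proof modules (one section per former module). -/

section

/-!
[SM0] the functional `∫ Φ(ρ)` is small at arbitrarily late times.
-/

open MeasureTheory Set Filter Topology
open scoped Real InnerProductSpace

namespace Pool.Agent.Work.MP_9371de_an

/-- `Φ ≥ 0`. -/
theorem SM0_Phi_nonneg {z : ℝ} (hz : 0 ≤ z) : 0 ≤ Phi z := by
  unfold Phi
  have h1 : 0 < 1 + z := by linarith
  have h2 := Real.one_sub_inv_le_log_of_pos h1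
  have h3 : (1 + z) * (1 - (1 + z)⁻¹) = z := by field_simp; ring
  nlinarith [mul_le_mul_of_nonneg_left h2 h1.le]

/-- `Φ(z) ≤ (1/g) z^(1+g)`. -/
theorem SM0_Phi_le {z g : ℝ} (hz : 0 ≤ z) (hg : 0 < g) (hg1 : g ≤ 1) :
    Phi z ≤ g⁻¹ * z ^ (1 + g) := by
  unfold Phi
  have h1 : 0 < 1 + z := by linarith
  have h2 : Real.log (1 + z) ≤ z := by
    have := Real.log_le_sub_one_of_pos h1
    linarith
  have h3 : Real.log (1 + z) ≤ g⁻¹ * z ^ g := by
    have h4 : (1 + z) ^ g ≤ 1 + z ^ g := by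
      have h6 := NNReal.coe_le_coe.2
        (NNReal.rpow_add_le_add_rpow (p := g) 1 (Real.toNNReal z) hg.le hg1)
      simpa [NNReal.coe_rpow, Real.coe_toNNReal z hz] using h6
    have h5 : g * Real.log (1 + z) = Real.log ((1 + z) ^ g) := (Real.log_rpow h1 g).symm
    have h6 : Real.log ((1 + z) ^ g) ≤ Real.log (1 + z ^ g) :=
      Real.log_le_log (Real.rpow_pos_of_pos h1 g) h4
    have h7 : Real.log (1 + z ^ g) ≤ z ^ g := by
      have := Real.log_le_sub_one_of_pos (x := 1 + z ^ g)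
        (by have := Real.rpow_nonneg hz g; linarith)
      linarith
    rw [inv_mul_eq_div, le_div_iff₀ hg]
    linarith
  have h8 : z * Real.log (1 + z) ≤ z * (g⁻¹ * z ^ g) := mul_le_mul_of_nonneg_left h3 hz
  have h9 : z ^ (1 + g) = z * z ^ g := by
    rcases hz.eq_or_lt with h | h
    · rw [← h, Real.zero_rpow (by linarith), Real.zero_rpow hg.ne', mul_zero]
    · rw [Real.rpow_add h, Real.rpow_one]
  rw [h9]
  nlinarith

theorem itemSM0 (hENT : ClaimENTb) (hE4 : ClaimE4) (hV1 : ClaimV1) (hCC : ClaimCC) : ClaimSM0 := by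
  intro d A K m W ρ hd hgood η t' hη
  obtain ⟨cc1, -, cc3, cc4⟩ := hCC d A K m W ρ hgood
  obtain ⟨h, hw, hdom, hgdom⟩ := hgood.weight 1 one_pos le_rfl
  have hA := hgood.pot.A_pos
  have hm : 0 ≤ m := by
    rw [← hgood.mass 1 one_pos]
    exact integral_nonneg fun x => hgood.nonneg 1 x
  have hdR : (1 : ℝ) ≤ d := by exact_mod_cast hd
  set g : ℝ := 1 / (2 * (d : ℝ)) with hg
  have hg0 : 0 < g := by positivity
  have hg1 : g ≤ 1 := by
    rw [hg, div_le_one (by positivity)]
    linarith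
  set c : ℝ := Real.exp (A * m) with hc
  have hc0 : 0 < c := Real.exp_pos _
  have hcg : 0 < c ^ (1 + g) := Real.rpow_pos_of_pos hc0 _
  set η' : ℝ := η / (g⁻¹ * c ^ (1 + g)) with hη'
  have hη'0 : 0 < η' := by positivity
  obtain ⟨α, hα, hE⟩ := hE4 d (c * m) η' hd hη'0
  obtain ⟨t, ht', ht, hcur⟩ := hENT d A K m W ρ hgood (α / c) t' (by positivity)
  refine ⟨t, ht', ht, ?_⟩
  obtain ⟨B, hB0, hB⟩ := cc3 t t ht
  obtain ⟨C, hC0, hC⟩ := cc4 1 h one_pos le_rfl hw hdom hgdom t t ht
  have hρint := hgood.int t ht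
  have hρ0 := hgood.nonneg t
  have hρB : ∀ x, ρ t x ≤ B := fun x => (hB t le_rfl le_rfl x).1
  -- the field `V`
  have hVb : ∀ x, |V W (ρ t) x| ≤ A * m := by
    intro x
    have := (hV1 d A K W (ρ t) B hgood.pot hρint
      (Eventually.of_forall fun x => by rw [abs_of_nonneg (hρ0 x)]; exact hρB x)).2.2.1 x
    have e : ∫ y, |ρ t y| = m := by
      rw [← hgood.mass t ht]
      exact integral_congr_ae (Eventually.of_forall fun x => abs_of_nonneg (hρ0 x))
    rwa [e] at this
  have hVg : ∀ x, HasGradientAt (V W (ρ t)) (drift W (ρ t) x) x := by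
    intro x
    have h1 := hgood.vgrad t ht x
    have h2 : drift W (ρ t) x = ∫ y, W (x - y) • gradient (ρ t) y := h1.gradient
    rw [h2]
    exact h1
  have hVc1 : ContDiff ℝ 1 (V W (ρ t)) := by
    rw [contDiff_one_iff_fderiv]
    refine ⟨fun x => (hVg x).differentiableAt, ?_⟩
    have : fderiv ℝ (V W (ρ t)) = fun x => (InnerProductSpace.toDual ℝ (E d)) (drift W (ρ t) x) :=
      funext fun x => (hVg x).hasFDerivAt.fderiv
    rw [this]
    exact (InnerProductSpace.toDual ℝ (E d)).continuous.comp (hgood.bxcont t ht)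
  have hρc1 := hgood.c1 t ht
  set f : E d → ℝ := fun x => Real.exp (V W (ρ t) x) * ρ t x with hf
  have hfc1 : ContDiff ℝ 1 f := (Real.contDiff_exp.comp hVc1).mul hρc1
  have hf0 : ∀ x, 0 ≤ f x := fun x => mul_nonneg (Real.exp_pos _).le (hρ0 x)
  have hexp : ∀ x, Real.exp (V W (ρ t) x) ≤ c := fun x =>
    Real.exp_le_exp.2 ((le_abs_self _).trans (hVb x))
  have hexp' : ∀ x, 1 ≤ c * Real.exp (V W (ρ t) x) := by
    intro x
    rw [hc, ← Real.exp_add]
    refine Real.one_le_exp ?_
    have := (abs_le.1 (hVb x)).1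
    linarith
  have hfle : ∀ x, f x ≤ c * ρ t x := fun x => mul_le_mul_of_nonneg_right (hexp x) (hρ0 x)
  have hρle : ∀ x, ρ t x ≤ c * f x := by
    intro x
    have := mul_le_mul_of_nonneg_right (hexp' x) (hρ0 x)
    rw [one_mul, mul_assoc] at this
    exact this
  have hfN : ∀ x, f x ≤ c * B := fun x => (hfle x).trans (mul_le_mul_of_nonneg_left (hρB x) hc0.le)
  have hfint : Integrable f := by
    refine (hρint.const_mul c).mono' hfc1.continuous.aestronglyMeasurable
      (Eventually.of_forall fun x => ?_)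
    rw [Real.norm_eq_abs, abs_of_nonneg (hf0 x)]
    exact hfle x
  have hfg : ∀ x, gradient f x = Real.exp (V W (ρ t) x) • cur W (ρ t) x := by
    intro x
    have h1 : HasFDerivAt (fun x => Real.exp (V W (ρ t) x))
        (Real.exp (V W (ρ t) x) • (InnerProductSpace.toDual ℝ (E d)) (drift W (ρ t) x)) x :=
      (hVg x).hasFDerivAt.exp
    have h2 : HasFDerivAt (ρ t) ((InnerProductSpace.toDual ℝ (E d)) (gradient (ρ t) x)) x :=
      ((hρc1.differentiable (by norm_num)) x).hasGradientAt.hasFDerivAt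
    have h3 := h1.mul h2
    have h4 : HasGradientAt f (Real.exp (V W (ρ t) x) • cur W (ρ t) x) x := by
      rw [hasGradientAt_iff_hasFDerivAt]
      refine h3.congr_fderiv ?_
      rw [cur, flux, map_smul, map_add, map_smul, smul_add, smul_smul, smul_smul,
        mul_comm (ρ t x)]
    exact h4.gradient
  have hcurc := cc1 t ht
  have hcurint : Integrable (cur W (ρ t)) := by
    refine (hw.int.const_mul C).mono' hcurc.aestronglyMeasurable
      (Eventually.of_forall fun x => ?_)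
    exact (hC t le_rfl le_rfl x).2.2
  have hfgc : Continuous (gradient f) := by
    have : gradient f = fun x => Real.exp (V W (ρ t) x) • cur W (ρ t) x := funext hfg
    rw [this]
    exact (Real.continuous_exp.comp hVc1.continuous).smul hcurc
  have hfgle : ∀ x, ‖gradient f x‖ ≤ c * ‖cur W (ρ t) x‖ := by
    intro x
    rw [hfg, norm_smul, Real.norm_eq_abs, abs_of_pos (Real.exp_pos _)]
    exact mul_le_mul_of_nonneg_right (hexp x) (norm_nonneg _)
  have hfgint : Integrable (gradient f) :=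
    (hcurint.norm.const_mul c).mono' hfgc.aestronglyMeasurable (Eventually.of_forall hfgle)
  have hf1 : ∫ x, f x ≤ c * m := by
    rw [← hgood.mass t ht, ← integral_const_mul]
    exact integral_mono hfint (hρint.const_mul c) hfle
  have hf2 : ∫ x, ‖gradient f x‖ ≤ α := by
    have h1 : ∫ x, ‖gradient f x‖ ≤ c * ∫ x, ‖cur W (ρ t) x‖ := by
      rw [← integral_const_mul]
      exact integral_mono hfgint.norm (hcurint.norm.const_mul c) hfgle
    have h2 : c * ∫ x, ‖cur W (ρ t) x‖ ≤ c * (α / c) := mul_le_mul_of_nonneg_left hcur.le hc0.le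
    rw [mul_div_cancel₀ _ hc0.ne'] at h2
    exact h1.trans h2
  obtain ⟨hi, hle⟩ := hE f (c * B) hfc1 hf0 hfN hfint hfgint hf1 hf2
  have key : ∀ x, Phi (ρ t x) ≤ (g⁻¹ * c ^ (1 + g)) * f x ^ (1 + g) := by
    intro x
    refine (SM0_Phi_le (hρ0 x) hg0 hg1).trans ?_
    rw [mul_assoc, ← Real.mul_rpow hc0.le (hf0 x)]
    refine mul_le_mul_of_nonneg_left ?_ (inv_nonneg.2 hg0.le)
    exact Real.rpow_le_rpow (hρ0 x) (hρle x) (by linarith)
  have h1 : ∫ x, Phi (ρ t x) ≤ ∫ x, (g⁻¹ * c ^ (1 + g)) * f x ^ (1 + g) :=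
    integral_mono_of_nonneg (Eventually.of_forall fun x => SM0_Phi_nonneg (hρ0 x))
      (hi.const_mul _) (Eventually.of_forall key)
  rw [integral_const_mul] at h1
  have h2 : (g⁻¹ * c ^ (1 + g)) * ∫ x, f x ^ (1 + g) ≤ (g⁻¹ * c ^ (1 + g)) * η' :=
    mul_le_mul_of_nonneg_left hle (by positivity)
  rw [hη', mul_div_cancel₀ _ (by positivity)] at h2
  exact h1.trans h2

end Pool.Agent.Work.MP_9371de_an

end

section

/-!
[SUP] from `L^r` to the sup norm.
-/

open MeasureTheory Set Filter Topology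
open scoped Real InnerProductSpace

namespace Pool.Agent.Work.MP_9371de_an

theorem Sup_young (u l : ℝ) (r : ℕ) (hu : 0 ≤ u) (hl : 0 < l) (hr : 1 ≤ r) :
    u ≤ l + u ^ r / l ^ (r - 1) := by
  obtain ⟨k, rfl⟩ : ∃ k, r = k + 1 := ⟨r - 1, by omega⟩
  simp only [Nat.add_sub_cancel]
  have hpos : 0 ≤ u ^ (k + 1) / l ^ k := by positivity
  by_cases h : u ≤ l
  · linarith
  · push Not at h
    have h1 : u ^ (k + 1) / l ^ k = u * (u / l) ^ k := by
      rw [pow_succ, div_pow]
      field_simp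
    have h2 : 1 ≤ u / l := by
      rw [le_div_iff₀ hl]; linarith
    have h3 : (1 : ℝ) ≤ (u / l) ^ k := one_le_pow₀ h2
    rw [h1]
    nlinarith

theorem Sup_heat_bdd (h1 : ClaimH1) {d : ℕ} {σ : ℝ} (hσ : 0 < σ) (x : E d) (u : E d → ℝ)
    (hu : Integrable u) : Integrable (fun y => heat d σ (x - y) * u y) := by
  obtain ⟨hp, hc, _, _, hb, _⟩ := h1 d σ hσ
  refine hu.bdd_mul (c := (4 * π * σ) ^ (-(d : ℝ) / 2)) ?_ ?_
  · exact (hc.comp (continuous_const.sub continuous_id)).aestronglyMeasurable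
  · refine Eventually.of_forall fun y => ?_
    rw [Real.norm_of_nonneg (hp _).le]
    exact hb _

theorem Sup_heat_int (h1 : ClaimH1) {d : ℕ} {σ : ℝ} (hσ : 0 < σ) (x : E d) :
    Integrable (fun y => heat d σ (x - y)) ∧ ∫ y, heat d σ (x - y) = 1 := by
  obtain ⟨_, _, hi, h1', _, _⟩ := h1 d σ hσ
  refine ⟨hi.comp_sub_left x, ?_⟩
  rw [integral_sub_left_eq_self (heat d σ) volume x]
  exact h1'

/-- the bound of the heat semigroup -/
theorem Sup_P (h1 : ClaimH1) {d r : ℕ} (hr : 1 ≤ r) {σ ζ : ℝ} (hσ : 0 < σ) (hζ : 0 < ζ)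
    (u : E d → ℝ) (hu0 : ∀ x, 0 ≤ u x) (hu : Integrable u) (hur : Integrable (fun x => u x ^ r))
    (hZ : ∫ x, u x ^ r ≤ ζ ^ r) (x : E d) :
    P σ u x ≤ 2 * (σ ^ (-(d : ℝ) / (2 * r)) * ζ) := by
  obtain ⟨hp, hc, _, _, hb, _⟩ := h1 d σ hσ
  set l : ℝ := σ ^ (-(d : ℝ) / (2 * r)) * ζ with hl
  have hlpos : 0 < l := mul_pos (Real.rpow_pos_of_pos hσ _) hζ
  have hr0 : (r : ℝ) ≠ 0 := by
    have : 0 < r := hr
    positivity
  have hlr : l ^ r = σ ^ (-(d : ℝ) / 2) * ζ ^ r := by
    rw [hl, mul_pow, ← Real.rpow_mul_natCast hσ.le]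
    congr 2
    field_simp
  have hi1 := Sup_heat_int h1 hσ x
  have hi2 := Sup_heat_bdd h1 hσ x u hu
  have hi3 := Sup_heat_bdd h1 hσ x _ hur
  have hstep : P σ u x ≤ ∫ y, (l * heat d σ (x - y) + (heat d σ (x - y) * u y ^ r) / l ^ (r - 1)) := by
    unfold P
    refine integral_mono hi2 ((hi1.1.const_mul l).add (hi3.div_const _)) ?_
    intro y
    show heat d σ (x - y) * u y ≤ l * heat d σ (x - y) + (heat d σ (x - y) * u y ^ r) / l ^ (r - 1)
    have hy := Sup_young (u y) l r (hu0 y) hlpos hr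
    have h2 := mul_le_mul_of_nonneg_left hy (hp (x - y)).le
    calc heat d σ (x - y) * u y ≤ heat d σ (x - y) * (l + u y ^ r / l ^ (r - 1)) := h2
      _ = _ := by ring
  have hcalc : ∫ y, (l * heat d σ (x - y) + (heat d σ (x - y) * u y ^ r) / l ^ (r - 1))
      = l + (∫ y, heat d σ (x - y) * u y ^ r) / l ^ (r - 1) := by
    rw [integral_add (hi1.1.const_mul l) (hi3.div_const _), integral_const_mul, hi1.2, mul_one,
      integral_div]
  have hb2 : ∫ y, heat d σ (x - y) * u y ^ r ≤ σ ^ (-(d : ℝ) / 2) * ζ ^ r := by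
    have hc1 : (4 * π * σ) ^ (-(d : ℝ) / 2) ≤ σ ^ (-(d : ℝ) / 2) := by
      apply Real.rpow_le_rpow_of_nonpos hσ
      · have := Real.pi_gt_three
        nlinarith
      · have : (0 : ℝ) ≤ d := Nat.cast_nonneg d
        linarith
    have hpos : 0 ≤ σ ^ (-(d : ℝ) / 2) := Real.rpow_nonneg hσ.le _
    calc ∫ y, heat d σ (x - y) * u y ^ r ≤ ∫ y, σ ^ (-(d : ℝ) / 2) * u y ^ r := by
          refine integral_mono hi3 (hur.const_mul _) ?_
          intro y
          exact mul_le_mul_of_nonneg_right ((hb _).trans hc1) (pow_nonneg (hu0 y) r)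
      _ = σ ^ (-(d : ℝ) / 2) * ∫ y, u y ^ r := integral_const_mul _ _
      _ ≤ _ := mul_le_mul_of_nonneg_left hZ hpos
  rw [← hlr] at hb2
  have hfin : (∫ y, heat d σ (x - y) * u y ^ r) / l ^ (r - 1) ≤ l := by
    rw [div_le_iff₀ (pow_pos hlpos _)]
    calc _ ≤ l ^ r := hb2
      _ = l * l ^ (r - 1) := by
        rw [← pow_succ']
        congr 1
        omega
  linarith [hstep, hcalc, hfin]

/-- the bound of the Duhamel term -/
theorem Sup_Q (h1 : ClaimH1) {d : ℕ} {C σ N : ℝ} (hC : 0 ≤ C) (hσ : 0 < σ)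
    (h4 : ∀ x : E d, ‖gheat d σ x‖ ≤ C * σ ^ (-(1 / 2 : ℝ)) * heat d (2 * σ) x)
    (W : E d → ℝ) (u : E d → ℝ) (hu0 : ∀ x, 0 ≤ u x) (hu : Integrable u)
    (hb : ∀ x, ‖drift W u x‖ ≤ N) (x : E d) :
    |Q σ (flux W u) x| ≤ C * σ ^ (-(1 / 2 : ℝ)) * N * P (2 * σ) u x := by
  have hp := (h1 d (2 * σ) (by linarith)).1
  have hi := Sup_heat_bdd h1 (σ := 2 * σ) (by linarith) x u hu
  have hcs : 0 ≤ C * σ ^ (-(1 / 2 : ℝ)) := mul_nonneg hC (Real.rpow_nonneg hσ.le _)
  have hkey : ‖∫ y, ⟪gheat d σ (x - y), flux W u y⟫_ℝ‖ ≤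
      ∫ y, C * σ ^ (-(1 / 2 : ℝ)) * N * (heat d (2 * σ) (x - y) * u y) := by
    refine norm_integral_le_of_norm_le (hi.const_mul _) (Eventually.of_forall fun y => ?_)
    refine (norm_inner_le_norm _ _).trans ?_
    have h2 : ‖flux W u y‖ ≤ u y * N := by
      unfold flux
      rw [norm_smul, Real.norm_of_nonneg (hu0 y)]
      exact mul_le_mul_of_nonneg_left (hb y) (hu0 y)
    calc ‖gheat d σ (x - y)‖ * ‖flux W u y‖
        ≤ (C * σ ^ (-(1 / 2 : ℝ)) * heat d (2 * σ) (x - y)) * (u y * N) :=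
          mul_le_mul (h4 _) h2 (norm_nonneg _) (mul_nonneg hcs (hp _).le)
      _ = _ := by ring
  rw [integral_const_mul] at hkey
  exact hkey

/-- the integral of the singular factor -/
theorem Sup_sing {p t s : ℝ} (hp : -1 < p) :
    IntervalIntegrable (fun τ => (t - τ) ^ p) volume (t - s) t ∧
      ∫ τ in (t - s)..t, (t - τ) ^ p = s ^ (p + 1) / (p + 1) := by
  constructor
  · have h := (intervalIntegral.intervalIntegrable_rpow' (a := s) (b := 0) hp).comp_sub_left t
    simpa using h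
  · rw [intervalIntegral.integral_comp_sub_left (fun x => x ^ p) t]
    rw [sub_self, sub_sub_cancel, integral_rpow (Or.inl hp),
      Real.zero_rpow (by linarith : p + 1 ≠ 0), sub_zero]

theorem itemSup (h1 : ClaimH1) (h4 : ClaimH4) : ClaimSup := by
  intro d A K m W ρ r hd hG hr
  obtain ⟨C, hC, hH4⟩ := h4 d
  have hK := hG.pot.K_pos
  have hr1 : 1 ≤ r := by omega
  have hrpos : (0 : ℝ) < r := by exact_mod_cast hr1
  -- the exponent
  set e0 : ℝ := (d : ℝ) / (2 * r) with he0
  have he0pos : 0 < e0 := by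
    have : (0 : ℝ) < d := by exact_mod_cast hd
    positivity
  have he0half : e0 < 1 / 2 := by
    rw [he0, div_lt_iff₀ (by positivity)]
    have : ((d : ℝ) + 1) ≤ r := by exact_mod_cast hr
    nlinarith
  set g : ℝ := 1 / 2 - e0 with hg
  have hgpos : 0 < g := by linarith
  set C1 : ℝ := 2 * C * K * Real.sqrt 2 / g with hC1
  have hs2 : 0 < Real.sqrt 2 := Real.sqrt_pos.2 (by norm_num)
  have hC1pos : 0 < C1 := by positivity
  -- the core estimate, with a parameter ζ
  have core : ∀ a ζ : ℝ, 0 < a → 0 < ζ → C1 * ζ ≤ 1 / 2 →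
      (∀ t, a ≤ t → t ≤ a + 1 → ∫ x, ρ t x ^ r ≤ ζ ^ r) →
      ∀ x, ρ (a + 1) x ≤ 4 * Real.sqrt 2 * ζ := by
    intro a ζ ha hζ hC1ζ hZ
    -- a crude bound
    obtain ⟨h, hh, hdom, _⟩ := hG.weight 1 one_pos le_rfl
    obtain ⟨Ch, hCh⟩ := hdom a (a + 1) ha
    obtain ⟨B, hB⟩ := hh.bdd
    set M0 : ℝ := |Ch| * |B| with hM0
    have hM0n : 0 ≤ M0 := by positivity
    have hcr : ∀ t, a ≤ t → t ≤ a + 1 → ∀ x, ρ t x ≤ M0 := by
      intro t ht1 ht2 x
      calc ρ t x ≤ Ch * h x := hCh t ht1 ht2 x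
        _ ≤ |Ch| * h x := mul_le_mul_of_nonneg_right (le_abs_self _) (hh.pos x).le
        _ ≤ |Ch| * |B| := mul_le_mul_of_nonneg_left ((hB x).trans (le_abs_self _)) (abs_nonneg _)
    have hpos : ∀ t, a ≤ t → 0 < t := fun t ht => lt_of_lt_of_le ha ht
    have hpowint : ∀ t, a ≤ t → t ≤ a + 1 → Integrable (fun x => ρ t x ^ r) := by
      intro t ht1 ht2
      have hi := hG.int t (hpos t ht1)
      obtain ⟨k, rfl⟩ : ∃ k, r = k + 1 := ⟨r - 1, by omega⟩
      have : Integrable (fun x => ρ t x ^ k * ρ t x) := by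
        refine hi.bdd_mul (c := M0 ^ k) ?_ ?_
        · exact ((hG.c1 t (hpos t ht1)).continuous.pow k).aestronglyMeasurable
        · refine Eventually.of_forall fun x => ?_
          rw [Real.norm_of_nonneg (pow_nonneg (hG.nonneg t x) k)]
          exact pow_le_pow_left₀ (hG.nonneg t x) (hcr t ht1 ht2 x) k
      simpa [pow_succ] using this
    have hPb : ∀ t, a ≤ t → t ≤ a + 1 → ∀ σ, 0 < σ → ∀ x, P σ (ρ t) x ≤ 2 * (σ ^ (-e0) * ζ) := by
      intro t ht1 ht2 σ hσ x
      have h := Sup_P h1 hr1 hσ hζ (ρ t) (hG.nonneg t) (hG.int t (hpos t ht1))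
        (hpowint t ht1 ht2) (hZ t ht1 ht2) x
      rw [he0, ← neg_div]
      exact h
    -- improvement of the constant
    have step : ∀ q : ℝ, 0 ≤ q →
        (∀ s, 0 < s → s ≤ 1 → ∀ x, ρ (a + s) x ≤ q * s ^ (-(1 / 2 : ℝ))) →
        ∀ s, 0 < s → s ≤ 1 → ∀ x,
          ρ (a + s) x ≤ (2 * Real.sqrt 2 * ζ + C1 * ζ * q) * s ^ (-(1 / 2 : ℝ)) := by
      intro q hq hpred s hs hs1 x
      have hres := hG.restart (a + s / 2) (a + s) (by linarith) (by linarith) x
      have e1 : a + s - (a + s / 2) = s / 2 := by ring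
      rw [e1] at hres
      have hs2' : 0 < s / 2 := by linarith
      have hroot : (s / 2) ^ (-(1 / 2 : ℝ)) = Real.sqrt 2 * s ^ (-(1 / 2 : ℝ)) := by
        rw [Real.div_rpow hs.le (by norm_num), Real.rpow_neg (by norm_num : (0 : ℝ) ≤ 2),
          ← Real.sqrt_eq_rpow, div_inv_eq_mul, mul_comm]
      -- first term
      have hT1 : P (s / 2) (ρ (a + s / 2)) x ≤ 2 * Real.sqrt 2 * ζ * s ^ (-(1 / 2 : ℝ)) := by
        have h := hPb (a + s / 2) (by linarith) (by linarith) (s / 2) hs2' x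
        have h2 : (s / 2) ^ (-e0) ≤ (s / 2) ^ (-(1 / 2 : ℝ)) :=
          Real.rpow_le_rpow_of_exponent_ge hs2' (by linarith) (by linarith)
        rw [hroot] at h2
        have h3 := mul_le_mul_of_nonneg_right h2 hζ.le
        linarith
      -- the drift
      have hdr : ∀ τ, a + s / 2 ≤ τ → τ ≤ a + s → ∀ y,
          ‖drift W (ρ τ) y‖ ≤ K * (q * (Real.sqrt 2 * s ^ (-(1 / 2 : ℝ)))) := by
        intro τ hτ1 hτ2 y
        refine hG.bsup τ (hpos τ (by linarith)) _ ?_ y
        intro z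
        have h := hpred (τ - a) (by linarith) (by linarith) z
        rw [add_sub_cancel] at h
        refine h.trans ?_
        rw [← hroot]
        exact mul_le_mul_of_nonneg_left
          (Real.rpow_le_rpow_of_nonpos hs2' (by linarith) (by norm_num)) hq
      set N : ℝ := K * (q * (Real.sqrt 2 * s ^ (-(1 / 2 : ℝ)))) with hN
      have hN0 : 0 ≤ N := by
        have : 0 ≤ s ^ (-(1 / 2 : ℝ)) := Real.rpow_nonneg hs.le _
        positivity
      -- second term
      have hp1 : -1 < -(1 / 2 : ℝ) - e0 := by linarith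
      have hsing := Sup_sing (t := a + s) (s := s / 2) hp1
      have e2 : a + s - s / 2 = a + s / 2 := by ring
      rw [e2] at hsing
      have hT2 : ‖∫ τ in (a + s / 2)..(a + s), Q (a + s - τ) (flux W (ρ τ)) x‖ ≤
          ∫ τ in (a + s / 2)..(a + s), 2 * C * N * ζ * (a + s - τ) ^ (-(1 / 2 : ℝ) - e0) := by
        refine intervalIntegral.norm_integral_le_of_norm_le (by linarith) ?_
          (hsing.1.const_mul _)
        have hne : ∀ᵐ τ : ℝ, τ ≠ a + s := by
          have : ({a + s} : Set ℝ)ᶜ ∈ ae (volume : Measure ℝ) :=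
            compl_mem_ae_iff.2 (measure_singleton _)
          exact this
        filter_upwards [hne] with τ hτne hτ
        have hτ1 : a + s / 2 < τ := hτ.1
        have hτ2 : τ < a + s := lt_of_le_of_ne hτ.2 hτne
        have hσ : 0 < a + s - τ := by linarith
        have hQ := Sup_Q h1 hC.le hσ (fun z => (hH4 (a + s - τ) hσ z).1) W (ρ τ) (hG.nonneg τ)
          (hG.int τ (hpos τ (by linarith))) (hdr τ hτ1.le hτ2.le) x
        have hPq := hPb τ (by linarith) (by linarith) (2 * (a + s - τ)) (by linarith) x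
        have hmono : (2 * (a + s - τ)) ^ (-e0) ≤ (a + s - τ) ^ (-e0) :=
          Real.rpow_le_rpow_of_nonpos hσ (by linarith) (by linarith)
        have hPq2 : P (2 * (a + s - τ)) (ρ τ) x ≤ 2 * ((a + s - τ) ^ (-e0) * ζ) := by
          have := mul_le_mul_of_nonneg_right hmono hζ.le
          linarith
        have hc0 : 0 ≤ C * (a + s - τ) ^ (-(1 / 2 : ℝ)) * N :=
          mul_nonneg (mul_nonneg hC.le (Real.rpow_nonneg hσ.le _)) hN0
        rw [Real.norm_eq_abs]
        refine hQ.trans ((mul_le_mul_of_nonneg_left hPq2 hc0).trans (le_of_eq ?_))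
        rw [sub_eq_add_neg (-(1 / 2 : ℝ)) e0, Real.rpow_add hσ]
        ring
      rw [intervalIntegral.integral_const_mul, hsing.2] at hT2
      have hg2 : -(1 / 2 : ℝ) - e0 + 1 = g := by rw [hg]; ring
      rw [hg2] at hT2
      have hsg : (s / 2) ^ g ≤ 1 := Real.rpow_le_one hs2'.le (by linarith) hgpos.le
      have hT3 : 2 * C * N * ζ * ((s / 2) ^ g / g) ≤ C1 * ζ * q * s ^ (-(1 / 2 : ℝ)) := by
        have h5 : (s / 2) ^ g / g ≤ 1 / g := div_le_div_of_nonneg_right hsg hgpos.le
        have h6 : 0 ≤ 2 * C * N * ζ := by positivity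
        refine (mul_le_mul_of_nonneg_left h5 h6).trans (le_of_eq ?_)
        rw [hN, hC1]
        ring
      rw [Real.norm_eq_abs] at hT2
      have hT4 := (le_abs_self _).trans (hT2.trans hT3)
      rw [hres]
      calc _ ≤ 2 * Real.sqrt 2 * ζ * s ^ (-(1 / 2 : ℝ)) + C1 * ζ * q * s ^ (-(1 / 2 : ℝ)) :=
            add_le_add hT1 hT4
        _ = _ := by ring
    -- iteration
    have iter : ∀ n : ℕ, ∀ s, 0 < s → s ≤ 1 → ∀ x,
        ρ (a + s) x ≤ (4 * Real.sqrt 2 * ζ + M0 / 2 ^ n) * s ^ (-(1 / 2 : ℝ)) := by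
      intro n
      induction n with
      | zero =>
        intro s hs hs1 x
        have h1' : 1 ≤ s ^ (-(1 / 2 : ℝ)) :=
          Real.one_le_rpow_of_pos_of_le_one_of_nonpos hs hs1 (by norm_num)
        have h2 := hcr (a + s) (by linarith) (by linarith) x
        have h3 : 0 ≤ 4 * Real.sqrt 2 * ζ := by positivity
        rw [pow_zero, div_one]
        nlinarith
      | succ n ih =>
        intro s hs hs1 x
        have h := step (4 * Real.sqrt 2 * ζ + M0 / 2 ^ n) (by positivity) ih s hs hs1 x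
        refine h.trans ?_
        apply mul_le_mul_of_nonneg_right _ (Real.rpow_nonneg hs.le _)
        have hq0 : 0 ≤ 4 * Real.sqrt 2 * ζ + M0 / 2 ^ n := by positivity
        have h2 := mul_le_mul_of_nonneg_right hC1ζ hq0
        have h3 : M0 / 2 ^ (n + 1) = M0 / 2 ^ n / 2 := by
          rw [pow_succ, div_div]
        rw [h3]
        linarith
    intro x
    have hlim : Tendsto (fun n : ℕ => 4 * Real.sqrt 2 * ζ + M0 / 2 ^ n) atTop
        (𝓝 (4 * Real.sqrt 2 * ζ + 0)) := by
      refine tendsto_const_nhds.add ?_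
      have := (tendsto_pow_atTop_nhds_zero_of_lt_one (r := (1 / 2 : ℝ)) (by norm_num)
        (by norm_num)).const_mul M0
      simpa [div_eq_mul_inv] using this
    rw [add_zero] at hlim
    refine ge_of_tendsto' hlim fun n => ?_
    have h := iter n 1 one_pos le_rfl x
    rwa [Real.one_rpow, mul_one] at h
  -- conclusion
  set ζ0 : ℝ := 1 / (2 * C1) with hζ0
  have hζ0pos : 0 < ζ0 := by positivity
  refine ⟨ζ0 ^ r, 4 * Real.sqrt 2, pow_pos hζ0pos r, by positivity, ?_⟩
  intro a Z ha hZ0 hZc hZ x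
  have hcond : ∀ ζ, ζ ≤ ζ0 → C1 * ζ ≤ 1 / 2 := by
    intro ζ h
    calc C1 * ζ ≤ C1 * ζ0 := mul_le_mul_of_nonneg_left h hC1pos.le
      _ = 1 / 2 := by rw [hζ0]; field_simp
  rcases hZ0.eq_or_lt with h0 | hpos
  · -- Z = 0
    subst h0
    rw [Real.zero_rpow (by positivity), mul_zero]
    have hall : ∀ ζ, 0 < ζ → ζ ≤ ζ0 → ρ (a + 1) x ≤ 4 * Real.sqrt 2 * ζ := by
      intro ζ hζ hζ'
      exact core a ζ ha hζ (hcond ζ hζ') (fun t h1' h2' => (hZ t h1' h2').trans (by positivity)) x
    by_contra hneg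
    push Not at hneg
    set v := ρ (a + 1) x with hv
    have h5 := hall (min ζ0 (v / (8 * Real.sqrt 2))) (lt_min hζ0pos (by positivity))
      (min_le_left _ _)
    have h6 : 4 * Real.sqrt 2 * min ζ0 (v / (8 * Real.sqrt 2)) ≤
        4 * Real.sqrt 2 * (v / (8 * Real.sqrt 2)) :=
      mul_le_mul_of_nonneg_left (min_le_right _ _) (by positivity)
    have h7 : 4 * Real.sqrt 2 * (v / (8 * Real.sqrt 2)) = v / 2 := by
      field_simp
      norm_num
    linarith
  · have hζ : 0 < Z ^ (1 / (r : ℝ)) := Real.rpow_pos_of_pos hpos _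
    have hζr : (Z ^ (1 / (r : ℝ))) ^ r = Z := by
      rw [← Real.rpow_mul_natCast hZ0, one_div, inv_mul_cancel₀ hrpos.ne', Real.rpow_one]
    have hle : Z ^ (1 / (r : ℝ)) ≤ ζ0 := by
      by_contra hlt
      push Not at hlt
      have : ζ0 ^ r < (Z ^ (1 / (r : ℝ))) ^ r :=
        pow_lt_pow_left₀ hlt hζ0pos.le (by omega)
      rw [hζr] at this
      linarith
    exact core a _ ha hζ (hcond _ hle) (fun t h1' h2' => by rw [hζr]; exact hZ t h1' h2') x

end Pool.Agent.Work.MP_9371de_an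

end

section

/-!
Translation estimates.
-/

open MeasureTheory Set Filter Topology
open scoped Real InnerProductSpace

namespace Pool.Agent.Work.MP_9371de_an

/-- Averages of an integrable function along a segment. -/
theorem TR_core {d : ℕ} (k : E d) (g D : E d → ℝ) (hg : Continuous g)
    (hgi : Integrable g) (hD : Continuous D)
    (hb : ∀ x, |D x| ≤ ∫ θ in (0 : ℝ)..1, g (x + θ • k)) :
    Integrable D ∧ ∫ x, |D x| ≤ ∫ x, g x := by
  set ν : Measure ℝ := volume.restrict (Ioc 0 1) with hν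
  have hcont : Continuous fun p : E d × ℝ => g (p.1 + p.2 • k) :=
    hg.comp (continuous_fst.add (continuous_snd.smul continuous_const))
  have hint : Integrable (fun p : E d × ℝ => g (p.1 + p.2 • k)) (volume.prod ν) := by
    rw [integrable_prod_iff' hcont.aestronglyMeasurable]
    refine ⟨Eventually.of_forall fun θ => ?_, ?_⟩
    · exact hgi.comp_add_right (θ • k)
    · have h1 : (fun θ : ℝ => ∫ x : E d, ‖g (x + θ • k)‖) = fun _ => ∫ x : E d, ‖g x‖ := by
        funext θ
        exact integral_add_right_eq_self (fun x => ‖g x‖) (θ • k)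
      show Integrable (fun θ : ℝ => ∫ x : E d, ‖g (x + θ • k)‖) ν
      rw [h1]
      exact integrable_const _
  have h2 : Integrable (fun x : E d => ∫ θ, g (x + θ • k) ∂ν) := hint.integral_prod_left
  have h3 : ∫ x : E d, ∫ θ, g (x + θ • k) ∂ν = ∫ x, g x := by
    rw [integral_integral_swap hint]
    have h4 : (fun θ : ℝ => ∫ x : E d, g (x + θ • k)) = fun _ => ∫ x : E d, g x := by
      funext θ
      exact integral_add_right_eq_self g (θ • k)
    rw [h4, integral_const]
    simp [hν]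
  have hb' : ∀ x, |D x| ≤ ∫ θ, g (x + θ • k) ∂ν := by
    intro x
    have := hb x
    rwa [intervalIntegral.integral_of_le zero_le_one] at this
  have hDi : Integrable D := h2.mono' hD.aestronglyMeasurable
    (Eventually.of_forall fun x => by simpa using hb' x)
  refine ⟨hDi, ?_⟩
  rw [← h3]
  exact integral_mono hDi.abs h2 hb'

theorem TR_norm_gradient {d : ℕ} (u : E d → ℝ) (x : E d) : ‖gradient u x‖ = ‖fderiv ℝ u x‖ := by
  simp [gradient]

theorem TR_line {d : ℕ} {u : E d → ℝ} (hu : ContDiff ℝ 1 u) (k x : E d) :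
    |u (x + k) - u x| ≤ ∫ θ in (0 : ℝ)..1, ‖k‖ * ‖gradient u (x + θ • k)‖ := by
  have hc : Continuous fun θ : ℝ => fderiv ℝ u (x + θ • k) k :=
    ((hu.continuous_fderiv (by norm_num)).comp
      (continuous_const.add (continuous_id.smul continuous_const))).clm_apply continuous_const
  have hd : ∀ θ ∈ uIcc (0 : ℝ) 1, HasDerivAt (fun θ : ℝ => u (x + θ • k))
      (fderiv ℝ u (x + θ • k) k) θ := by
    intro θ _
    have h1 : HasDerivAt (fun θ : ℝ => x + θ • k) k θ := by
      simpa using ((hasDerivAt_id θ).smul_const k).const_add x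
    exact (hu.differentiable (by norm_num) _).hasFDerivAt.comp_hasDerivAt θ h1
  have h1 := intervalIntegral.integral_eq_sub_of_hasDerivAt hd (hc.intervalIntegrable 0 1)
  simp only [one_smul, zero_smul, add_zero] at h1
  rw [← h1]
  have h2 := intervalIntegral.norm_integral_le_integral_norm (f := fun θ : ℝ =>
    fderiv ℝ u (x + θ • k) k) (μ := volume) (zero_le_one' ℝ)
  rw [Real.norm_eq_abs] at h2
  refine h2.trans ?_
  refine intervalIntegral.integral_mono_on zero_le_one (hc.norm.intervalIntegrable 0 1) ?_ ?_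
  · refine Continuous.intervalIntegrable ?_ 0 1
    simp only [TR_norm_gradient]
    exact continuous_const.mul ((hu.continuous_fderiv (by norm_num)).comp
      (continuous_const.add (continuous_id.smul continuous_const))).norm
  · intro θ _
    rw [TR_norm_gradient, mul_comm]
    exact (fderiv ℝ u (x + θ • k)).le_opNorm k

theorem TR_jensen {h : ℝ → ℝ} (hh : Continuous h) :
    (∫ θ in (0 : ℝ)..1, h θ) ^ 2 ≤ ∫ θ in (0 : ℝ)..1, h θ ^ 2 := by
  set c := ∫ θ in (0 : ℝ)..1, h θ with hc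
  have h1 : 0 ≤ ∫ θ in (0 : ℝ)..1, (h θ - c) ^ 2 :=
    intervalIntegral.integral_nonneg zero_le_one fun θ _ => sq_nonneg _
  have h2 : ∫ θ in (0 : ℝ)..1, (h θ - c) ^ 2 = (∫ θ in (0 : ℝ)..1, h θ ^ 2) - 2 * c * c + c ^ 2 := by
    have h3 : (fun θ : ℝ => (h θ - c) ^ 2) = fun θ => (h θ ^ 2 - 2 * c * h θ) + c ^ 2 := by
      funext θ
      ring
    rw [h3, intervalIntegral.integral_add, intervalIntegral.integral_sub,
      intervalIntegral.integral_const_mul, ← hc]
    · simp
    · exact (hh.pow 2).intervalIntegrable 0 1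
    · exact (continuous_const.mul hh).intervalIntegrable 0 1
    · exact ((hh.pow 2).sub (continuous_const.mul hh)).intervalIntegrable 0 1
    · exact continuous_const.intervalIntegrable 0 1
  rw [h2] at h1
  nlinarith

theorem itemTR : ClaimTR := by
  intro d u hu
  have hgc : Continuous fun x => ‖gradient u x‖ := by
    simp only [TR_norm_gradient]
    exact (hu.continuous_fderiv (by norm_num)).norm
  refine ⟨fun hi k => ?_, fun hi k => ?_⟩
  · have h1 := TR_core k (fun x => ‖k‖ * ‖gradient u x‖) (fun x => u (x + k) - u x)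
      (continuous_const.mul hgc) (hi.norm.const_mul _)
      ((hu.continuous.comp (continuous_id.add continuous_const)).sub hu.continuous)
      (fun x => TR_line hu k x)
    refine ⟨h1.1, h1.2.trans ?_⟩
    rw [integral_const_mul]
  · have h1 := TR_core k (fun x => ‖k‖ ^ 2 * ‖gradient u x‖ ^ 2) (fun x => (u (x + k) - u x) ^ 2)
      (continuous_const.mul (hgc.pow 2)) (hi.const_mul _)
      (((hu.continuous.comp (continuous_id.add continuous_const)).sub hu.continuous).pow 2)
      (fun x => by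
        rw [abs_pow]
        have h2 := TR_line hu k x
        have h3 := TR_jensen (h := fun θ : ℝ => ‖k‖ * ‖gradient u (x + θ • k)‖)
          (continuous_const.mul (hgc.comp
            (continuous_const.add (continuous_id.smul continuous_const))))
        calc |u (x + k) - u x| ^ 2 ≤ (∫ θ in (0 : ℝ)..1, ‖k‖ * ‖gradient u (x + θ • k)‖) ^ 2 :=
              pow_le_pow_left₀ (abs_nonneg _) h2 2
          _ ≤ _ := h3
          _ = ∫ θ in (0 : ℝ)..1, ‖k‖ ^ 2 * ‖gradient u (x + θ • k)‖ ^ 2 := by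
              congr 1
              funext θ
              ring)
    refine ⟨h1.1, ?_⟩
    have h4 := h1.2
    rw [integral_const_mul] at h4
    simpa only [abs_pow, sq_abs] using h4

end Pool.Agent.Work.MP_9371de_an

end

section

open MeasureTheory Set Filter Topology
open scoped Real InnerProductSpace

namespace Pool.Agent.Work.MP_9371de_an

theorem V1_int {d : ℕ} {A K : ℝ} {W u : E d → ℝ} (hW : Pot d A K W) (hu : Integrable u) (x : E d) :
    Integrable (fun y => W (x - y) * u y) := by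
  refine hu.bdd_mul (c := A) ?_ (Eventually.of_forall fun y => ?_)
  · exact (hW.meas.comp (measurable_const.sub measurable_id)).aestronglyMeasurable
  · rw [Real.norm_eq_abs]; exact hW.bdd _

theorem V1_lip {d : ℕ} {A K : ℝ} {W u : E d → ℝ} {N : ℝ} (hW : Pot d A K W)
    (hu : Integrable u) (hN : ∀ᵐ x, |u x| ≤ N) (x y : E d) :
    |V W u x - V W u y| ≤ K * N * ‖x - y‖ := by
  have hN0 : 0 ≤ N := by
    obtain ⟨z, hz⟩ := hN.exists
    exact (abs_nonneg _).trans hz
  unfold V
  rw [← integral_sub (V1_int hW hu x) (V1_int hW hu y)]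
  have i1 : Integrable (fun z => W (x - z)) := hW.int.comp_sub_left x
  have i2 : Integrable (fun z => W (y - z)) := hW.int.comp_sub_left y
  have h1 : ∀ᵐ z, ‖W (x - z) * u z - W (y - z) * u z‖ ≤ |W (x - z) - W (y - z)| * N := by
    filter_upwards [hN] with z hz
    rw [← sub_mul, norm_mul, Real.norm_eq_abs, Real.norm_eq_abs]
    exact mul_le_mul_of_nonneg_left hz (abs_nonneg _)
  have h2 : |∫ z, (W (x - z) * u z - W (y - z) * u z)| ≤ ∫ z, |W (x - z) - W (y - z)| * N := by
    rw [← Real.norm_eq_abs]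
    exact norm_integral_le_of_norm_le ((i1.sub i2).abs.mul_const N) h1
  refine h2.trans ?_
  rw [integral_mul_const]
  have h3 : ∫ z, |W (x - z) - W (y - z)| = ∫ w, |W (w + (x - y)) - W w| := by
    rw [← integral_sub_left_eq_self (fun w => |W (w + (x - y)) - W w|) volume y]
    congr 1
    funext z
    rw [show y - z + (x - y) = x - z by abel]
  rw [h3]
  have h4 := hW.bv (x - y)
  calc (∫ w, |W (w + (x - y)) - W w|) * N ≤ (K * ‖x - y‖) * N :=
        mul_le_mul_of_nonneg_right h4 hN0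
    _ = K * N * ‖x - y‖ := by ring

theorem itemV1 : ClaimV1 := by
  intro d A K W u N hW hu hN
  have hN0 : 0 ≤ N := by
    obtain ⟨z, hz⟩ := hN.exists
    exact (abs_nonneg _).trans hz
  have hlip := fun x y => V1_lip hW hu hN x y
  have hKN : 0 ≤ K * N := mul_nonneg hW.K_pos.le hN0
  have hL : LipschitzWith (K * N).toNNReal (V W u) := by
    refine LipschitzWith.of_dist_le_mul fun x y => ?_
    rw [Real.dist_eq, dist_eq_norm, Real.coe_toNNReal _ hKN]
    exact hlip x y
  refine ⟨hlip, fun x => ?_, fun x => ?_, hL.continuous, ?_⟩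
  · unfold drift gradient
    rw [LinearIsometryEquiv.norm_map]
    have := norm_fderiv_le_of_lipschitz ℝ hL (x₀ := x)
    rwa [Real.coe_toNNReal _ hKN] at this
  · unfold V
    have h1 : ∀ᵐ y, ‖W (x - y) * u y‖ ≤ A * |u y| := by
      refine Eventually.of_forall fun y => ?_
      rw [norm_mul, Real.norm_eq_abs, Real.norm_eq_abs]
      exact mul_le_mul_of_nonneg_right (hW.bdd _) (abs_nonneg _)
    rw [← Real.norm_eq_abs, ← integral_const_mul]
    exact norm_integral_le_of_norm_le (hu.abs.const_mul A) h1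
  · unfold drift gradient
    exact (LinearIsometryEquiv.continuous _).measurable.comp (measurable_fderiv ℝ (V W u))

end Pool.Agent.Work.MP_9371de_an

end

section

/-! [V2] differences of the drift. -/

open MeasureTheory Set Filter Topology
open scoped Real InnerProductSpace

namespace Pool.Agent.Work.MP_9371de_an

lemma V2.int_mul {d : ℕ} {A K : ℝ} {W : E d → ℝ} (hW : Pot d A K W) {u : E d → ℝ}
    (hu : Integrable u) (x : E d) : Integrable (fun y => W (x - y) * u y) := by
  refine hu.bdd_mul (c := A) ?_ ?_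
  · exact (hW.meas.comp (measurable_const.sub measurable_id)).aestronglyMeasurable
  · exact Filter.Eventually.of_forall fun y => by simpa using hW.bdd (x - y)

lemma V2.V_shift {d : ℕ} (W u : E d → ℝ) (k x : E d) :
    V W (fun y => u (y + k)) x = V W u (x + k) := by
  unfold V
  rw [← integral_add_right_eq_self (fun y => W (x + k - y) * u y) k]
  refine integral_congr_ae (Filter.Eventually.of_forall fun y => ?_)
  simp only
  congr 2
  abel

lemma V2.V_sub {d : ℕ} {A K : ℝ} {W : E d → ℝ} (hW : Pot d A K W) {u v : E d → ℝ}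
    (hu : Integrable u) (hv : Integrable v) (x : E d) :
    V W (fun y => u y - v y) x = V W u x - V W v x := by
  unfold V
  rw [← integral_sub (V2.int_mul hW hu x) (V2.int_mul hW hv x)]
  refine integral_congr_ae (Filter.Eventually.of_forall fun y => ?_)
  simp only
  ring

theorem itemV2 (h1 : ClaimV1) : ClaimV2 := by
  intro d A K W u M N k hW hu hM hN
  have hshift : Integrable (fun y => u (y + k)) := hu.comp_add_right k
  obtain ⟨hL, -, -, -, -⟩ := h1 d A K W u M hW hu hM
  obtain ⟨-, hg, -, -, -⟩ := h1 d A K W (fun y => u (y + k) - u y) N hW (hshift.sub hu) hN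
  have hlip : LipschitzWith (K * M).toNNReal (V W u) := by
    refine LipschitzWith.of_dist_le_mul fun x y => ?_
    rw [Real.dist_eq, dist_eq_norm]
    refine (hL x y).trans (mul_le_mul_of_nonneg_right (Real.le_coe_toNNReal _) (norm_nonneg _))
  have hd : ∀ᵐ x : E d, DifferentiableAt ℝ (V W u) x := hlip.ae_differentiableAt
  have hd' : ∀ᵐ x : E d, DifferentiableAt ℝ (V W u) (x + k) :=
    (quasiMeasurePreserving_add_right volume k).ae hd
  filter_upwards [hd, hd'] with x hx hx'
  have e1 : HasGradientAt (V W u) (drift W u x) x := hx.hasGradientAt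
  have e2 : HasGradientAt (V W u) (drift W u (x + k)) (x + k) := hx'.hasGradientAt
  have e3 : HasFDerivAt (fun y => V W u (y + k)) (InnerProductSpace.toDual ℝ (E d)
      (drift W u (x + k))) x := by
    have := e2.hasFDerivAt
    exact (hasFDerivAt_comp_add_right k).2 this
  have e4 := e3.sub e1.hasFDerivAt
  rw [← map_sub] at e4
  have e5 : (fun y => V W u (y + k)) - V W u = V W (fun y => u (y + k) - u y) := by
    funext y
    rw [V2.V_sub hW hshift hu, V2.V_shift]
    rfl
  rw [e5] at e4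
  have e6 : HasGradientAt (V W (fun y => u (y + k) - u y))
    (drift W u (x + k) - drift W u x) x := e4
  have e7 := e6.gradient
  rw [← e7]
  exact hg x

end Pool.Agent.Work.MP_9371de_an

end

section

/-! Item V3: the drift of a `C¹` density. -/

open MeasureTheory Set Filter Topology
open scoped Real InnerProductSpace

namespace Pool.Agent.Work.MP_9371de_an

/-- The substitution `z = x - y`. -/
theorem V3_subst {d : ℕ} {G : Type*} [NormedAddCommGroup G] [NormedSpace ℝ G] (f : E d → G)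
    (W : E d → ℝ) (x : E d) :
    ∫ y, W (x - y) • f y = ∫ z, W z • f (x - z) := by
  have h := integral_sub_left_eq_self (fun z => W z • f (x - z)) volume x
  rw [← h]
  refine integral_congr_ae (Eventually.of_forall fun y => ?_)
  simp only [sub_sub_cancel]

/-- Item V3. -/
theorem itemV3 : ClaimV3 := by
  intro d A K W u N hW hu hui huN hgN
  have hN : 0 ≤ N := (abs_nonneg _).trans (huN 0)
  have hWn : Integrable (fun z => |W z| * N) := hW.int.norm.mul_const N
  have hgc : Continuous (gradient u) := continuous_gradient hu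
  have hfc : Continuous (fderiv ℝ u) := hu.continuous_fderiv (by norm_num)
  refine ⟨fun x => ?_, ?_⟩
  · have h1 : HasFDerivAt (fun x => ∫ z, W z • u (x - z))
        (∫ z, W z • fderiv ℝ u (x - z)) x := by
      refine hasFDerivAt_integral_of_dominated_of_fderiv_le (𝕜 := ℝ) (s := univ)
        (F := fun x z => W z • u (x - z)) (F' := fun x z => W z • fderiv ℝ u (x - z))
        (bound := fun z => |W z| * N) univ_mem ?_ ?_ ?_ ?_ hWn ?_
      · refine Eventually.of_forall fun y => ?_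
        exact (hW.meas.smul
          ((hu.continuous.comp (continuous_const.sub continuous_id)).measurable)).aestronglyMeasurable
      · refine hWn.mono' ?_ (Eventually.of_forall fun z => ?_)
        · exact (hW.meas.smul
            ((hu.continuous.comp (continuous_const.sub continuous_id)).measurable)).aestronglyMeasurable
        · rw [norm_smul, Real.norm_eq_abs, Real.norm_eq_abs]
          exact mul_le_mul_of_nonneg_left (huN _) (abs_nonneg _)
      · exact hW.meas.aestronglyMeasurable.smul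
          ((hfc.comp (continuous_const.sub continuous_id)).aestronglyMeasurable)
      · refine Eventually.of_forall fun z y _ => ?_
        rw [norm_smul, Real.norm_eq_abs, ← norm_gradient_eq]
        exact mul_le_mul_of_nonneg_left (hgN _) (abs_nonneg _)
      · refine Eventually.of_forall fun z y _ => ?_
        have h2 : HasFDerivAt (fun y : E d => u (y - z)) (fderiv ℝ u (y - z)) y := by
          have h3 : HasFDerivAt u (fderiv ℝ u (y - z)) (y - z) :=
            ((hu.differentiable (by norm_num)) (y - z)).hasFDerivAt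
          have h4 := h3.comp y ((hasFDerivAt_id y).sub_const z)
          rw [ContinuousLinearMap.comp_id] at h4
          exact h4
        exact h2.const_smul (W z)
    rw [hasGradientAt_iff_hasFDerivAt]
    have h2 : V W u = fun x => ∫ z, W z • u (x - z) := by
      funext y
      exact V3_subst u W y
    rw [h2]
    refine h1.congr_fderiv ?_
    rw [V3_subst (gradient u) W x]
    have hi1 : Integrable (fun z => W z • fderiv ℝ u (x - z)) := by
      refine hWn.mono' ?_ (Eventually.of_forall fun z => ?_)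
      · exact hW.meas.aestronglyMeasurable.smul
          ((hfc.comp (continuous_const.sub continuous_id)).aestronglyMeasurable)
      · rw [norm_smul, Real.norm_eq_abs, ← norm_gradient_eq]
        exact mul_le_mul_of_nonneg_left (hgN _) (abs_nonneg _)
    have hi2 : Integrable (fun z => W z • gradient u (x - z)) := by
      refine hWn.mono' ?_ (Eventually.of_forall fun z => ?_)
      · exact hW.meas.aestronglyMeasurable.smul
          ((hgc.comp (continuous_const.sub continuous_id)).aestronglyMeasurable)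
      · rw [norm_smul, Real.norm_eq_abs]
        exact mul_le_mul_of_nonneg_left (hgN _) (abs_nonneg _)
    ext v
    rw [ContinuousLinearMap.integral_apply hi1, InnerProductSpace.toDual_apply_apply,
      real_inner_comm, ← integral_inner hi2 v]
    refine integral_congr_ae (Eventually.of_forall fun z => ?_)
    simp only [smul_apply, smul_eq_mul, real_inner_smul_right]
    rw [real_inner_comm, inner_gradient]
  · have h2 : (fun x => ∫ y, W (x - y) • gradient u y) =
        fun x => ∫ z, W z • gradient u (x - z) := by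
      funext y
      exact V3_subst (gradient u) W y
    rw [h2]
    refine continuous_of_dominated (bound := fun z => |W z| * N) ?_ ?_ hWn ?_
    · intro y
      exact hW.meas.aestronglyMeasurable.smul
        ((hgc.comp (continuous_const.sub continuous_id)).aestronglyMeasurable)
    · intro y
      refine Eventually.of_forall fun z => ?_
      rw [norm_smul, Real.norm_eq_abs]
      exact mul_le_mul_of_nonneg_left (hgN _) (abs_nonneg _)
    · refine Eventually.of_forall fun z => ?_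
      exact (hgc.comp (continuous_id.sub continuous_const)).const_smul (W z)

end Pool.Agent.Work.MP_9371de_an

end

section

/-!
Item VC: continuity of Volterra integrals.
-/

open MeasureTheory Set Filter Topology
open scoped Real

namespace Pool.Agent.Work.MP_9371de_an

theorem VC_rpow_int (c t : ℝ) :
    IntervalIntegrable (fun s => (t - s) ^ (-(1 / 2 : ℝ))) volume c t := by
  have h := (intervalIntegral.intervalIntegrable_rpow' (a := 0) (b := t - c)
    (r := -(1 / 2 : ℝ)) (by norm_num)).comp_sub_left t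
  simpa using h.symm

theorem VC_rpow_integral (c t : ℝ) :
    ∫ s in c..t, (t - s) ^ (-(1 / 2 : ℝ)) = 2 * (t - c) ^ (1 / 2 : ℝ) := by
  rw [intervalIntegral.integral_comp_sub_left (fun x => x ^ (-(1 / 2 : ℝ))) t, sub_self,
    integral_rpow (Or.inl (by norm_num))]
  rw [Real.zero_rpow (by norm_num)]
  norm_num
  ring

theorem itemVC : ClaimVC := by
  intro F _ _ _ a T C q hcont hbd hmeas
  -- integrability
  have hint : ∀ t, a < t → t ≤ T → IntervalIntegrable (q t) volume a t := by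
    intro t hat htT
    refine ((VC_rpow_int a t).const_mul C).mono_fun' ?_ ?_
    · rw [uIoc_of_le hat.le]
      exact hmeas t hat htT
    · rw [uIoc_of_le hat.le]
      refine (ae_restrict_iff' measurableSet_Ioc).2 ?_
      have hne : ∀ᵐ s : ℝ ∂volume, s ≠ t := by
        simp [ae_iff]
      filter_upwards [hne] with s hs hs'
      exact hbd s t hs'.1 (lt_of_le_of_ne hs'.2 hs) htT
  intro t0 ht0
  refine ContinuousAt.continuousWithinAt ?_
  have hC : 0 ≤ C := by
    have h1 := hbd ((a + t0) / 2) t0 (by linarith [ht0.1]) (by linarith [ht0.1]) ht0.2.le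
    have h2 : 0 < (t0 - (a + t0) / 2) ^ (-(1 / 2 : ℝ)) :=
      Real.rpow_pos_of_pos (by linarith [ht0.1]) _
    have h3 := (norm_nonneg _).trans h1
    exact nonneg_of_mul_nonneg_left h3 h2
  refine continuousAt_of_locally_uniform_approx_of_continuousAt fun u hu => ?_
  obtain ⟨ε, hε, hεu⟩ := Metric.mem_uniformity_dist.1 hu
  -- choice of δ
  have hlim : Tendsto (fun δ : ℝ => C * (2 * (2 * δ) ^ (1 / 2 : ℝ))) (𝓝[>] 0) (𝓝 0) := by
    have h1 : ContinuousAt (fun δ : ℝ => C * (2 * (2 * δ) ^ (1 / 2 : ℝ))) 0 := by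
      refine continuousAt_const.mul (continuousAt_const.mul ?_)
      exact (continuousAt_const.mul continuousAt_id).rpow_const (Or.inr (by norm_num))
    have h2 : Tendsto (fun δ : ℝ => C * (2 * (2 * δ) ^ (1 / 2 : ℝ))) (𝓝 0) (𝓝 0) := by
      have := h1.tendsto
      simpa [Real.zero_rpow] using this
    exact h2.mono_left nhdsWithin_le_nhds
  have hev : ∀ᶠ δ : ℝ in 𝓝[>] 0, C * (2 * (2 * δ) ^ (1 / 2 : ℝ)) < ε :=
    hlim.eventually (gt_mem_nhds hε)
  have hev2 : ∀ᶠ δ : ℝ in 𝓝[>] 0, δ < t0 - a := by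
    exact (eventually_nhdsWithin_of_eventually_nhds
      (gt_mem_nhds (by linarith [ht0.1] : (0 : ℝ) < t0 - a)))
  obtain ⟨δ, ⟨hδ1, hδ2⟩, hδ0⟩ := ((hev.and hev2).and self_mem_nhdsWithin).exists
  have hδ : 0 < δ := hδ0
  have hac : a < t0 - δ := by linarith
  have hnhds : Ioo (t0 - δ / 2) (min T (t0 + δ)) ∈ 𝓝 t0 :=
    Ioo_mem_nhds (by linarith) (lt_min ht0.2 (by linarith))
  refine ⟨Ioo (t0 - δ / 2) (min T (t0 + δ)), hnhds, fun t => ∫ s in a..(t0 - δ), q t s, ?_, ?_⟩
  · refine intervalIntegral.continuousAt_of_dominated_interval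
      (bound := fun _ => C * (δ / 2) ^ (-(1 / 2 : ℝ))) ?_ ?_ ?_ ?_
    · filter_upwards [hnhds] with t ht
      rw [uIoc_of_le hac.le]
      have h1 : t ≤ T := (lt_of_lt_of_le ht.2 (min_le_left _ _)).le
      refine (hmeas t (by linarith [ht.1]) h1).mono_measure (Measure.restrict_mono ?_ le_rfl)
      exact Ioc_subset_Ioc_right (by linarith [ht.1])
    · filter_upwards [hnhds] with t ht
      refine Eventually.of_forall fun s hs => ?_
      rw [uIoc_of_le hac.le] at hs
      have h1 : t ≤ T := (lt_of_lt_of_le ht.2 (min_le_left _ _)).le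
      refine (hbd s t hs.1 (by linarith [ht.1, hs.2]) h1).trans ?_
      refine mul_le_mul_of_nonneg_left ?_ hC
      exact Real.rpow_le_rpow_of_nonpos (by linarith) (by linarith [ht.1, hs.2])
        (by norm_num)
    · exact intervalIntegrable_const
    · refine Eventually.of_forall fun s hs => ?_
      rw [uIoc_of_le hac.le] at hs
      exact (hcont s hs.1).continuousAt (Ioi_mem_nhds (by linarith [hs.2]))
  · intro t ht
    apply hεu
    have h1 : t ≤ T := (lt_of_lt_of_le ht.2 (min_le_left _ _)).le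
    have h2 : t < t0 + δ := lt_of_lt_of_le ht.2 (min_le_right _ _)
    have hat : a < t := by linarith [ht.1]
    have hct : t0 - δ < t := by linarith [ht.1]
    have hI := hint t hat h1
    have hI1 : IntervalIntegrable (q t) volume a (t0 - δ) :=
      hI.mono_set (by rw [uIcc_of_le hac.le, uIcc_of_le hat.le]; exact Icc_subset_Icc_right hct.le)
    have hI2 : IntervalIntegrable (q t) volume (t0 - δ) t :=
      hI.mono_set (by rw [uIcc_of_le hct.le, uIcc_of_le hat.le]; exact Icc_subset_Icc_left hac.le)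
    have hsplit := intervalIntegral.integral_add_adjacent_intervals hI1 hI2
    rw [dist_eq_norm, ← hsplit, add_sub_cancel_left]
    have hb : ‖∫ s in (t0 - δ)..t, q t s‖ ≤ ∫ s in (t0 - δ)..t, C * (t - s) ^ (-(1 / 2 : ℝ)) := by
      refine intervalIntegral.norm_integral_le_of_norm_le hct.le ?_
        ((VC_rpow_int (t0 - δ) t).const_mul C)
      have hne : ∀ᵐ s : ℝ ∂volume, s ≠ t := by
        simp [ae_iff]
      filter_upwards [hne] with s hs hs'
      exact hbd s t (hac.trans hs'.1) (lt_of_le_of_ne hs'.2 hs) h1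
    refine lt_of_le_of_lt hb ?_
    rw [intervalIntegral.integral_const_mul, VC_rpow_integral _ _]
    refine lt_of_le_of_lt ?_ hδ1
    refine mul_le_mul_of_nonneg_left ?_ hC
    refine mul_le_mul_of_nonneg_left ?_ (by norm_num)
    exact Real.rpow_le_rpow (by linarith) (by linarith) (by norm_num)

end Pool.Agent.Work.MP_9371de_an

end

section

/-!
[W] An attractive bounded integrable potential has bounded variation.
-/

open MeasureTheory Set Filter Topology
open scoped Real InnerProductSpace ENNReal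

namespace Pool.Agent.Work.MP_9371de_an

theorem W_scale {d : ℕ} (f : E d → ℝ≥0∞) (hf : Measurable f) (v : E d) :
    ∫⁻ x, f ((1 / 2 : ℝ) • x + v) = ENNReal.ofReal (2 ^ d) * ∫⁻ x, f x := by
  have h1 : ∫⁻ x, f (x + v) = ∫⁻ x, f x := lintegral_add_right_eq_self f v
  have h2 : ∫⁻ x, f ((1 / 2 : ℝ) • x + v) =
      ∫⁻ x, (fun y => f (y + v)) x ∂(Measure.map (fun x : E d => (1 / 2 : ℝ) • x) volume) := by
    rw [lintegral_map (f := fun y => f (y + v)) (hf.comp (measurable_add_const v))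
      (measurable_const_smul _)]
  rw [h2, Measure.map_addHaar_smul volume (by norm_num : (1 / 2 : ℝ) ≠ 0),
    lintegral_smul_measure, h1]
  congr 1
  rw [abs_of_pos (by positivity)]
  simp

/-- The slab `|⟨u,x⟩| ≤ η/2`. -/
def W_slab {d : ℕ} (u : E d) (η : ℝ) : Set (E d) := {x | |⟪u, x⟫_ℝ| ≤ η / 2}

theorem W_slab_meas {d : ℕ} (u : E d) (η : ℝ) : MeasurableSet (W_slab u η) := by
  have : Continuous fun x : E d => |⟪u, x⟫_ℝ| := by fun_prop
  exact (isClosed_le this continuous_const).measurableSet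

theorem W_slab_bound {d : ℕ} (u : E d) (hu : ‖u‖ = 1) (η : ℝ) (g G : E d → ℝ≥0∞)
    (hg : Measurable g) (hG : Measurable G)
    (h : ∀ x, ∀ s ∈ Icc (0 : ℝ) 1, g x ≤ G ((1 / 2 : ℝ) • x + s • u)) :
    ∫⁻ x in W_slab u η, g x ≤ ENNReal.ofReal (2 ^ d) * (ENNReal.ofReal (η / 2) * ∫⁻ x, G x) := by
  set I : E d → ℝ≥0∞ := (W_slab u η).indicator (fun _ => 1) with hI
  have hIm : Measurable I := measurable_const.indicator (W_slab_meas u η)
  have huu : ⟪u, u⟫_ℝ = 1 := by rw [real_inner_self_eq_norm_sq, hu]; norm_num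
  have step1 : ∫⁻ x in W_slab u η, g x ≤
      ∫⁻ x, ∫⁻ s in Icc (0 : ℝ) 1, I x * G ((1 / 2 : ℝ) • x + s • u) := by
    rw [← lintegral_indicator (W_slab_meas u η)]
    refine lintegral_mono fun x => ?_
    by_cases hx : x ∈ W_slab u η
    · simp only [hI, indicator_of_mem hx, one_mul]
      calc g x = ∫⁻ _ in Icc (0 : ℝ) 1, g x := by simp
        _ ≤ _ := setLIntegral_mono' measurableSet_Icc (fun s hs => h x s hs)
    · simp [hx]
  have hmeas : Measurable (fun p : E d × ℝ => I p.1 * G ((1 / 2 : ℝ) • p.1 + p.2 • u)) := by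
    refine (hIm.comp measurable_fst).mul (hG.comp ?_)
    fun_prop
  have step2 : ∫⁻ x, ∫⁻ s in Icc (0 : ℝ) 1, I x * G ((1 / 2 : ℝ) • x + s • u) =
      ∫⁻ s in Icc (0 : ℝ) 1, ∫⁻ x, I x * G ((1 / 2 : ℝ) • x + s • u) :=
    lintegral_lintegral_swap hmeas.aemeasurable
  have step3 : ∀ s : ℝ, ∫⁻ x, I x * G ((1 / 2 : ℝ) • x + s • u) =
      ENNReal.ofReal (2 ^ d) * ∫⁻ y, I ((2 : ℝ) • (y - s • u)) * G y := by
    intro s
    rw [← W_scale (fun y => I ((2 : ℝ) • (y - s • u)) * G y)
      ((hIm.comp (by fun_prop)).mul hG) (s • u)]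
    refine lintegral_congr fun x => ?_
    congr 2
    simp only [add_sub_cancel_right, smul_smul]
    norm_num
  have hmeas2 : Measurable (fun p : ℝ × E d => I ((2 : ℝ) • (p.2 - p.1 • u)) * G p.2) := by
    refine (hIm.comp ?_).mul (hG.comp measurable_snd)
    fun_prop
  have step4 : ∀ y : E d, ∫⁻ s in Icc (0 : ℝ) 1, I ((2 : ℝ) • (y - s • u)) ≤
      ENNReal.ofReal (η / 2) := by
    intro y
    have h1 : ∀ s : ℝ, I ((2 : ℝ) • (y - s • u)) =
        (Icc (⟪u, y⟫_ℝ - η / 4) (⟪u, y⟫_ℝ + η / 4)).indicator (fun _ => (1 : ℝ≥0∞)) s := by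
      intro s
      have h2 : ⟪u, (2 : ℝ) • (y - s • u)⟫_ℝ = 2 * (⟪u, y⟫_ℝ - s) := by
        rw [inner_smul_right, inner_sub_right, inner_smul_right, huu]; ring
      have h3 : ((2 : ℝ) • (y - s • u)) ∈ W_slab u η ↔
          s ∈ Icc (⟪u, y⟫_ℝ - η / 4) (⟪u, y⟫_ℝ + η / 4) := by
        simp only [W_slab, mem_setOf_eq, h2, abs_le, mem_Icc]
        constructor
        · rintro ⟨h, h'⟩; constructor <;> linarith
        · rintro ⟨h, h'⟩; constructor <;> linarith
      by_cases h4 : s ∈ Icc (⟪u, y⟫_ℝ - η / 4) (⟪u, y⟫_ℝ + η / 4)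
      · rw [hI, indicator_of_mem (h3.2 h4), indicator_of_mem h4]
      · rw [hI, indicator_of_notMem (fun h => h4 (h3.1 h)), indicator_of_notMem h4]
    calc ∫⁻ s in Icc (0 : ℝ) 1, I ((2 : ℝ) • (y - s • u))
        ≤ ∫⁻ s, I ((2 : ℝ) • (y - s • u)) := setLIntegral_le_lintegral _ _
      _ = ENNReal.ofReal (η / 2) := by
          simp_rw [h1]
          rw [lintegral_indicator measurableSet_Icc]
          simp only [lintegral_const, MeasurableSet.univ, Measure.restrict_apply, univ_inter,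
            Real.volume_Icc, one_mul]
          congr 1; ring
  calc ∫⁻ x in W_slab u η, g x
      ≤ ∫⁻ s in Icc (0 : ℝ) 1, ∫⁻ x, I x * G ((1 / 2 : ℝ) • x + s • u) := step1.trans step2.le
    _ = ENNReal.ofReal (2 ^ d) *
          ∫⁻ s in Icc (0 : ℝ) 1, ∫⁻ y, I ((2 : ℝ) • (y - s • u)) * G y := by
        simp_rw [step3]
        rw [lintegral_const_mul]
        exact Measurable.lintegral_prod_right' hmeas2
    _ = ENNReal.ofReal (2 ^ d) *
          ∫⁻ y, ∫⁻ s in Icc (0 : ℝ) 1, I ((2 : ℝ) • (y - s • u)) * G y := by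
        rw [lintegral_lintegral_swap hmeas2.aemeasurable]
    _ ≤ ENNReal.ofReal (2 ^ d) * ∫⁻ y, ENNReal.ofReal (η / 2) * G y := by
        gcongr with y
        rw [lintegral_mul_const]
        · gcongr
          exact step4 y
        · exact hIm.comp (by fun_prop)
    _ = _ := by rw [lintegral_const_mul _ hG]

theorem W_nonpos {d : ℕ} (hd : 0 < d) (W : E d → ℝ) (ω : ℝ → ℝ) (hω : MonotoneOn ω (Ici 0))
    (hW : ∀ x, W x = ω ‖x‖) (hi : Integrable W) (x : E d) : W x ≤ 0 := by
  by_contra hx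
  push Not at hx
  have hsub : (Metric.ball (0 : E d) ‖x‖)ᶜ ⊆ {y | W x ≤ ‖W y‖} := by
    intro y hy
    simp only [mem_compl_iff, Metric.mem_ball, dist_zero_right, not_lt] at hy
    have : W x ≤ W y := by
      rw [hW, hW]; exact hω (norm_nonneg _) (norm_nonneg _) hy
    exact this.trans (le_abs_self _)
  have h1 : volume {y | W x ≤ ‖W y‖} < ⊤ := hi.measure_norm_ge_lt_top hx
  have h2 : volume ((Metric.ball (0 : E d) ‖x‖)ᶜ) < ⊤ := (measure_mono hsub).trans_lt h1
  have h3 : volume (Metric.ball (0 : E d) ‖x‖) < ⊤ := measure_ball_lt_top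
  have h4 : volume (univ : Set (E d)) < ⊤ := by
    rw [← union_compl_self (Metric.ball (0 : E d) ‖x‖)]
    exact (measure_union_le _ _).trans_lt (ENNReal.add_lt_top.2 ⟨h3, h2⟩)
  haveI : Nonempty (Fin d) := ⟨⟨0, hd⟩⟩
  haveI : Nontrivial (E d) := inferInstance
  have h5 : volume (univ : Set (E d)) = ⊤ := by
    exact measure_univ_of_isAddLeftInvariant (volume : Measure (E d))
  rw [h5] at h4
  exact lt_irrefl _ h4

theorem claimW : ClaimW := by
  intro d hd W ⟨ω, hω, hW⟩ ⟨C, hC⟩ hi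
  have hneg : ∀ x, W x ≤ 0 := W_nonpos hd W ω hω hW hi
  have hmeas : Measurable W := by
    have h1 : Monotone (fun r : ℝ => ω (max r 0)) := fun a b hab =>
      hω (mem_Ici.2 (le_max_right _ _)) (mem_Ici.2 (le_max_right _ _)) (max_le_max_right _ hab)
    have h2 : W = fun x => (fun r : ℝ => ω (max r 0)) ‖x‖ := by
      funext x; simp [hW, norm_nonneg]
    rw [h2]
    exact h1.measurable.comp measurable_norm
  have hmono : ∀ x y : E d, ‖x‖ ≤ ‖y‖ → W x ≤ W y := fun x y hxy => by
    rw [hW, hW]; exact hω (norm_nonneg _) (norm_nonneg _) hxy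
  have hC0 : 0 ≤ C := (abs_nonneg _).trans (hC 0)
  -- the majorant
  set g : E d → ℝ≥0∞ := fun x => ENNReal.ofReal |W x| with hgdef
  set G : E d → ℝ≥0∞ := fun x => ENNReal.ofReal |W x| +
    (Metric.ball (0 : E d) 2).indicator (fun _ => ENNReal.ofReal C) x with hGdef
  have hgm : Measurable g := ENNReal.measurable_ofReal.comp hmeas.abs
  have hGm : Measurable G := hgm.add (measurable_const.indicator Metric.isOpen_ball.measurableSet)
  have hGfin : ∫⁻ x, G x < ⊤ := by
    rw [hGdef, lintegral_add_left hgm, ENNReal.add_lt_top]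
    constructor
    · have := hi.abs.lintegral_lt_top
      exact this
    · rw [lintegral_indicator Metric.isOpen_ball.measurableSet]
      simp only [lintegral_const, MeasurableSet.univ, Measure.restrict_apply, univ_inter]
      exact ENNReal.mul_lt_top ENNReal.ofReal_lt_top measure_ball_lt_top
  have hgG : ∀ u : E d, ‖u‖ = 1 → ∀ x, ∀ s ∈ Icc (0 : ℝ) 1,
      g x ≤ G ((1 / 2 : ℝ) • x + s • u) := by
    intro u hu x s hs
    have h1 : ‖(1 / 2 : ℝ) • x + s • u‖ ≤ ‖x‖ / 2 + 1 := by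
      calc ‖(1 / 2 : ℝ) • x + s • u‖ ≤ ‖(1 / 2 : ℝ) • x‖ + ‖s • u‖ := norm_add_le _ _
        _ = ‖x‖ / 2 + s := by
            rw [norm_smul, norm_smul, hu, Real.norm_eq_abs, Real.norm_eq_abs,
              abs_of_nonneg hs.1, abs_of_pos (by norm_num : (0 : ℝ) < 1 / 2)]
            ring
        _ ≤ ‖x‖ / 2 + 1 := by linarith [hs.2]
    by_cases hx : ‖x‖ < 2
    · have h2 : (1 / 2 : ℝ) • x + s • u ∈ Metric.ball (0 : E d) 2 := by
        rw [Metric.mem_ball, dist_zero_right]; linarith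
      simp only [hgdef, hGdef, indicator_of_mem h2]
      exact (ENNReal.ofReal_le_ofReal (hC x)).trans le_add_self
    · push Not at hx
      have h2 : ‖(1 / 2 : ℝ) • x + s • u‖ ≤ ‖x‖ := by linarith
      have h3 : |W x| ≤ |W ((1 / 2 : ℝ) • x + s • u)| := by
        rw [abs_of_nonpos (hneg _), abs_of_nonpos (hneg _)]
        linarith [hmono _ _ h2]
      exact (ENNReal.ofReal_le_ofReal h3).trans le_self_add
  set L : ℝ := (∫⁻ x, G x).toReal with hL
  have hL0 : 0 ≤ L := ENNReal.toReal_nonneg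
  -- the slab estimate in terms of Bochner integrals
  have hslab : ∀ u : E d, ‖u‖ = 1 → ∀ η : ℝ, 0 ≤ η →
      ∫ x in W_slab u η, |W x| ≤ 2 ^ d * (η / 2 * L) := by
    intro u hu η hη
    have h1 := W_slab_bound u hu η g G hgm hGm (hgG u hu)
    have h2 : ∫ x in W_slab u η, |W x| = (∫⁻ x in W_slab u η, g x).toReal := by
      rw [integral_eq_lintegral_of_nonneg_ae (Eventually.of_forall fun x => abs_nonneg _)
        hmeas.abs.aestronglyMeasurable]
    rw [h2]
    refine (ENNReal.toReal_mono ?_ h1).trans ?_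
    · exact (ENNReal.mul_lt_top ENNReal.ofReal_lt_top
        (ENNReal.mul_lt_top ENNReal.ofReal_lt_top hGfin)).ne
    · rw [ENNReal.toReal_mul, ENNReal.toReal_mul, ENNReal.toReal_ofReal (by positivity),
        ENNReal.toReal_ofReal (by positivity)]
  refine ⟨C + 1, 2 ^ d * L + 1, by positivity, by positivity, hmeas, ?_, ?_, hi, ?_⟩
  · intro x; rw [hW, hW, norm_neg]
  · intro x; linarith [hC x]
  intro k
  by_cases hk : k = 0
  · subst hk; simp
  have hkn : 0 < ‖k‖ := norm_pos_iff.2 hk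
  set u : E d := ‖k‖⁻¹ • k with hu
  have hun : ‖u‖ = 1 := by
    rw [hu, norm_smul, norm_inv, norm_norm, inv_mul_cancel₀ hkn.ne']
  have hku : ∀ x, ⟪x, k⟫_ℝ = ‖k‖ * ⟪u, x⟫_ℝ := by
    intro x
    rw [hu, inner_smul_left, real_inner_comm]
    simp only [conj_trivial]
    field_simp
  -- the sign
  set σ : E d → ℝ := fun x => if -(‖k‖ / 2) ≤ ⟪u, x⟫_ℝ then 1 else -1 with hσ
  have hσm : Measurable σ := by
    refine Measurable.ite ?_ measurable_const measurable_const
    exact measurableSet_le measurable_const (by fun_prop)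
  have hσb : ∀ x, |σ x| ≤ 1 := by
    intro x; simp only [hσ]; split_ifs <;> simp
  have hnorm : ∀ x, ‖x + k‖ ^ 2 - ‖x‖ ^ 2 = 2 * ‖k‖ * (⟪u, x⟫_ℝ + ‖k‖ / 2) := by
    intro x
    rw [norm_add_sq_real, hku]; ring
  have habs : ∀ x, |W (x + k) - W x| = σ x * W (x + k) - σ x * W x := by
    intro x
    by_cases hx : -(‖k‖ / 2) ≤ ⟪u, x⟫_ℝ
    · simp only [hσ, if_pos hx, one_mul]
      have h1 : 0 ≤ ‖x + k‖ ^ 2 - ‖x‖ ^ 2 := by
        rw [hnorm]; have : 0 ≤ ⟪u, x⟫_ℝ + ‖k‖ / 2 := by linarith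
        positivity
      have h2 : ‖x‖ ≤ ‖x + k‖ := by
        refine le_of_sq_le_sq ?_ (norm_nonneg _)
        linarith
      rw [abs_of_nonneg (by linarith [hmono _ _ h2])]
    · simp only [hσ, if_neg hx]
      push Not at hx
      have h1 : ‖x + k‖ ^ 2 - ‖x‖ ^ 2 ≤ 0 := by
        rw [hnorm]
        have h3 : ⟪u, x⟫_ℝ + ‖k‖ / 2 ≤ 0 := by linarith
        exact mul_nonpos_of_nonneg_of_nonpos (by positivity) h3
      have h2 : ‖x + k‖ ≤ ‖x‖ := by
        refine le_of_sq_le_sq ?_ (norm_nonneg _)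
        linarith
      rw [abs_of_nonpos (by linarith [hmono _ _ h2])]
      ring
  have hi1 : Integrable (fun x => σ x * W (x + k)) := by
    refine (hi.comp_add_right k).bdd_mul hσm.aestronglyMeasurable (c := 1)
      (Eventually.of_forall fun x => by rw [Real.norm_eq_abs]; exact hσb x)
  have hi2 : Integrable (fun x => σ x * W x) := by
    refine hi.bdd_mul hσm.aestronglyMeasurable (c := 1)
      (Eventually.of_forall fun x => by rw [Real.norm_eq_abs]; exact hσb x)
  have hi3 : Integrable (fun x => σ (x - k) * W x) := by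
    refine hi.bdd_mul (hσm.comp (measurable_sub_const k)).aestronglyMeasurable (c := 1)
      (Eventually.of_forall fun x => by rw [Real.norm_eq_abs]; exact hσb _)
  have htr : ∫ x, σ x * W (x + k) = ∫ x, σ (x - k) * W x := by
    have := integral_add_right_eq_self (μ := (volume : Measure (E d)))
      (fun x => σ (x - k) * W x) k
    rw [← this]
    simp
  have hu_k : ⟪u, k⟫_ℝ = ‖k‖ := by
    rw [hu, inner_smul_left, real_inner_self_eq_norm_sq]
    simp only [conj_trivial]
    field_simp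
  calc ∫ x, |W (x + k) - W x| = ∫ x, (σ x * W (x + k) - σ x * W x) := by simp_rw [habs]
    _ = ∫ x, (σ (x - k) * W x - σ x * W x) := by
        rw [integral_sub hi1 hi2, htr, integral_sub hi3 hi2]
    _ ≤ ∫ x, (W_slab u ‖k‖).indicator (fun x => 2 * |W x|) x := by
        refine integral_mono (hi3.sub hi2)
          ((hi.abs.const_mul 2).indicator (W_slab_meas u ‖k‖)) fun x => ?_
        by_cases hx : x ∈ W_slab u ‖k‖
        · simp only [indicator_of_mem hx]
          have h1 : |σ (x - k) * W x - σ x * W x| ≤ 2 * |W x| := by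
            calc |σ (x - k) * W x - σ x * W x| ≤ |σ (x - k) * W x| + |σ x * W x| := abs_sub _ _
              _ = |σ (x - k)| * |W x| + |σ x| * |W x| := by rw [abs_mul, abs_mul]
              _ ≤ 1 * |W x| + 1 * |W x| := by
                  gcongr
                  · exact hσb _
                  · exact hσb _
              _ = 2 * |W x| := by ring
          exact (le_abs_self _).trans h1
        · simp only [indicator_of_notMem hx]
          have h1 : σ (x - k) = σ x := by
            simp only [W_slab, mem_setOf_eq, not_le, lt_abs] at hx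
            simp only [hσ, inner_sub_right, hu_k]
            rcases hx with hx | hx
            · rw [if_pos (by linarith), if_pos (by linarith)]
            · rw [if_neg (by linarith), if_neg (by linarith)]
          rw [h1]; simp
    _ = 2 * ∫ x in W_slab u ‖k‖, |W x| := by
        rw [integral_indicator (W_slab_meas u ‖k‖), integral_const_mul]
    _ ≤ 2 * (2 ^ d * (‖k‖ / 2 * L)) := by
        gcongr
        exact hslab u hun ‖k‖ hkn.le
    _ ≤ (2 ^ d * L + 1) * ‖k‖ := by nlinarith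

end Pool.Agent.Work.MP_9371de_an

end

section

/-! Item Z: differential inequality for `∫ ρ^(2q)`. -/

open MeasureTheory Set Filter Topology
open scoped Real InnerProductSpace

namespace Pool.Agent.Work.MP_9371de_an

theorem Z_continuous_gradient {d : ℕ} {u : E d → ℝ} (hu : ContDiff ℝ 1 u) :
    Continuous (gradient u) := by
  unfold gradient
  exact (InnerProductSpace.toDual ℝ (E d)).symm.continuous.comp (hu.continuous_fderiv (by simp))

theorem Z_gradient_pow {d : ℕ} {u : E d → ℝ} (hu : ContDiff ℝ 1 u) (n : ℕ) (x : E d) :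
    gradient (fun x => u x ^ (n + 1)) x = ((n + 1 : ℝ) * u x ^ n) • gradient u x := by
  have h1 : DifferentiableAt ℝ u x := (hu.differentiable (by simp)) x
  have h2 := h1.hasFDerivAt.pow (n + 1)
  apply HasGradientAt.gradient
  rw [hasGradientAt_iff_hasFDerivAt]
  refine h2.congr_fderiv ?_
  rw [map_smul, toDual_gradient]
  simp

theorem Z_pointwise {d : ℕ} (n : ℕ) (r β : ℝ) (g b : E d) (hr : 0 ≤ r) (hb : ‖b‖ ^ 2 ≤ β) :
    -(((2 * (n + 1) : ℕ) : ℝ) * (((2 * n + 1 : ℕ) : ℝ) * r ^ (2 * n)) * ⟪g, g + r • b⟫_ℝ) ≤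
      -(((n : ℝ) + 1) ^ 2 * (r ^ (2 * n) * ‖g‖ ^ 2)) +
        (2 * ((n : ℝ) + 1)) ^ 2 * β * r ^ (2 * (n + 1)) := by
  have h1 : ⟪g, g + r • b⟫_ℝ = ‖g‖ ^ 2 + r * ⟪g, b⟫_ℝ := by
    rw [inner_add_right, inner_smul_right, real_inner_self_eq_norm_sq]
  have h2 : |⟪g, b⟫_ℝ| ≤ ‖g‖ * ‖b‖ := abs_real_inner_le_norm g b
  have h3 : -(r * ⟪g, b⟫_ℝ) ≤ ‖g‖ ^ 2 / 2 + r ^ 2 * β / 2 := by
    have h4 : -(r * ⟪g, b⟫_ℝ) ≤ r * (‖g‖ * ‖b‖) := by
      have := neg_le_of_abs_le h2
      nlinarith
    have h5 : r * (‖g‖ * ‖b‖) ≤ ‖g‖ ^ 2 / 2 + r ^ 2 * ‖b‖ ^ 2 / 2 := by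
      nlinarith [sq_nonneg (‖g‖ - r * ‖b‖)]
    have h6 : r ^ 2 * ‖b‖ ^ 2 / 2 ≤ r ^ 2 * β / 2 := by
      have := mul_le_mul_of_nonneg_left hb (sq_nonneg r)
      linarith
    linarith
  have hn : (0 : ℝ) ≤ n := Nat.cast_nonneg n
  have hrn : 0 ≤ r ^ (2 * n) := pow_nonneg hr _
  have hβ : 0 ≤ β := le_trans (sq_nonneg _) hb
  have h7 : -⟪g, g + r • b⟫_ℝ ≤ -(‖g‖ ^ 2 / 2) + r ^ 2 * β / 2 := by
    rw [h1]; linarith
  have h8 : 0 ≤ ((2 * (n + 1) : ℕ) : ℝ) * (((2 * n + 1 : ℕ) : ℝ) * r ^ (2 * n)) := by positivity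
  have h9 := mul_le_mul_of_nonneg_left h7 h8
  have h10 : r ^ (2 * (n + 1)) = r ^ (2 * n) * r ^ 2 := by ring
  rw [h10]
  push_cast at h9 ⊢
  have h11 : 0 ≤ r ^ (2 * n) * ‖g‖ ^ 2 := mul_nonneg hrn (sq_nonneg _)
  have h12 : 0 ≤ r ^ (2 * n) * r ^ 2 * β := by positivity
  have h13 : 0 ≤ (n : ℝ) * (r ^ (2 * n) * ‖g‖ ^ 2) := mul_nonneg hn h11
  have h14 : 0 ≤ (n : ℝ) * (r ^ (2 * n) * r ^ 2 * β) := mul_nonneg hn h12
  have h15 : 0 ≤ (n : ℝ) ^ 2 * (r ^ (2 * n) * ‖g‖ ^ 2) := mul_nonneg (sq_nonneg _) h11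
  have h16 : 0 ≤ (n : ℝ) ^ 2 * (r ^ (2 * n) * r ^ 2 * β) := mul_nonneg (sq_nonneg _) h12
  nlinarith

theorem itemZ (hEN : ClaimEN) (hNash : ClaimNash) (hCC : ClaimCC) : ClaimZ := by
  intro d A K m W ρ hd hG q hq t ht
  obtain ⟨n, rfl⟩ : ∃ n, q = n + 1 := ⟨q - 1, by omega⟩
  obtain ⟨h, hw, hdom, hgdom⟩ := hG.weight 1 one_pos le_rfl
  obtain ⟨B, hB⟩ := hw.bdd
  obtain ⟨hc1, -, hc3, hc4⟩ := hCC d A K m W ρ hG
  obtain ⟨B0, hB0, hB1⟩ := hc3 t t ht
  obtain ⟨C, hC0, hC1⟩ := hc4 1 h one_pos le_rfl hw hdom hgdom t t ht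
  replace hB1 := hB1 t le_rfl le_rfl
  replace hC1 := hC1 t le_rfl le_rfl
  have hEN' := (hEN d A K m 1 0 B W (fun _ => 1) h ρ (fun z => z ^ (2 * (n + 1)))
    (fun z => ((2 * (n + 1) : ℕ) : ℝ) * z ^ (2 * n + 1))
    (fun z => ((2 * (n + 1) : ℕ) : ℝ) * (((2 * n + 1 : ℕ) : ℝ) * z ^ (2 * n)))
    hG one_pos le_rfl hw hdom hgdom (fun _ => one_pos) contDiff_const
    (fun x => by rw [gradient_fun_const]; simp) (fun x => by rw [mul_one]; exact hB x)
    { zero := by simp
      d1 := fun z _ => by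
        have := hasDerivAt_pow (2 * (n + 1)) z
        have e : 2 * (n + 1) - 1 = 2 * n + 1 := by omega
        rw [e] at this
        exact this
      d2 := fun z _ => by
        have := (hasDerivAt_pow (2 * n + 1) z).const_mul ((2 * (n + 1) : ℕ) : ℝ)
        have e : 2 * n + 1 - 1 = 2 * n := by omega
        rw [e] at this
        exact this
      cont := by fun_prop
      nonneg := fun z hz => by positivity }).1 t ht
  simp only [div_one, one_mul] at hEN'
  refine ⟨_, hEN', ?_⟩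
  intro τ β hτ hβ
  have hu1 := hG.c1 t ht
  have hu0 := hG.nonneg t
  have hgc := Z_continuous_gradient hu1
  have huc := hu1.continuous
  -- the basic integrability statement
  have hint : ∀ (f : E d → ℝ) (c : ℝ), Continuous f → (∀ x, |f x| ≤ c * h x) → Integrable f := by
    intro f c hf hle
    exact (hw.int.const_mul c).mono' hf.aestronglyMeasurable (ae_of_all _ hle)
  have hpow : ∀ k : ℕ, ∀ x, ρ t x ^ k ≤ B0 ^ k := fun k x =>
    pow_le_pow_left₀ (hu0 x) (hB1 x).1 k
  have hI : ∀ k : ℕ, Integrable (fun x => ρ t x ^ (k + 1)) := by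
    intro k
    refine hint _ (B0 ^ k * C) (huc.pow _) fun x => ?_
    rw [abs_of_nonneg (pow_nonneg (hu0 x) _), pow_succ]
    calc ρ t x ^ k * ρ t x ≤ B0 ^ k * (C * h x) :=
          mul_le_mul (hpow k x) (hC1 x).1 (hu0 x) (pow_nonneg hB0 _)
      _ = _ := by ring
  have hD : Integrable (fun x => ρ t x ^ (2 * n) * ‖gradient (ρ t) x‖ ^ 2) := by
    refine hint _ (B0 ^ (2 * n) * (C * B0)) (by fun_prop) fun x => ?_
    rw [abs_of_nonneg (mul_nonneg (pow_nonneg (hu0 x) _) (sq_nonneg _)), sq]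
    calc ρ t x ^ (2 * n) * (‖gradient (ρ t) x‖ * ‖gradient (ρ t) x‖)
          ≤ B0 ^ (2 * n) * ((C * h x) * B0) :=
          mul_le_mul (hpow _ x) (mul_le_mul (hC1 x).2.1 (hB1 x).2.1 (norm_nonneg _)
            (mul_nonneg hC0 (hw.pos x).le)) (by positivity) (pow_nonneg hB0 _)
      _ = _ := by ring
  -- Nash
  have hgrad : ∀ x, ‖gradient (fun x => ρ t x ^ (n + 1)) x‖ ^ 2 =
      ((n : ℝ) + 1) ^ 2 * (ρ t x ^ (2 * n) * ‖gradient (ρ t) x‖ ^ 2) := by
    intro x
    rw [Z_gradient_pow hu1 n x, norm_smul, mul_pow, Real.norm_eq_abs, sq_abs]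
    ring
  have hN := hNash d (fun x => ρ t x ^ (n + 1)) (B0 ^ (n + 1)) τ (hu1.pow _)
    (fun x => pow_nonneg (hu0 x) _) (hpow _) (hI n)
    (by simp only [hgrad]; exact hD.const_mul _) hτ
  simp only [hgrad, ← pow_mul] at hN
  rw [integral_const_mul] at hN
  have e1 : (n + 1) * 2 = 2 * (n + 1) := by ring
  rw [e1] at hN
  -- the entropy production
  have hEP : -entProd W (fun _ => 1)
      (fun z => ((2 * (n + 1) : ℕ) : ℝ) * (((2 * n + 1 : ℕ) : ℝ) * z ^ (2 * n))) (ρ t) ≤
      -(((n : ℝ) + 1) ^ 2 * ∫ x, ρ t x ^ (2 * n) * ‖gradient (ρ t) x‖ ^ 2) +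
        (2 * ((n : ℝ) + 1)) ^ 2 * β * ∫ x, ρ t x ^ (2 * (n + 1)) := by
    have hI' : Integrable (fun x => (2 * ((n : ℝ) + 1)) ^ 2 * β * ρ t x ^ (2 * (n + 1))) :=
      (hI (2 * n + 1)).const_mul _
    have hD' : Integrable (fun x => -(((n : ℝ) + 1) ^ 2 *
        (ρ t x ^ (2 * n) * ‖gradient (ρ t) x‖ ^ 2))) := (hD.const_mul _).neg
    unfold entProd
    rw [← integral_neg, ← integral_const_mul, ← integral_const_mul, ← integral_neg,
      ← integral_add hD' hI']
    refine integral_mono ?_ (hD'.add hI') fun x => ?_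
    · have : (fun x => -(((2 * (n + 1) : ℕ) : ℝ) * (((2 * n + 1 : ℕ) : ℝ) *
          (ρ t x / 1) ^ (2 * n)) * ⟪(1 : ℝ)⁻¹ • gradient (ρ t) x - (ρ t x / 1 ^ 2) •
            gradient (fun _ : E d => (1 : ℝ)) x, cur W (ρ t) x⟫_ℝ)) =
          fun x => -(((2 * (n + 1) : ℕ) : ℝ) * (((2 * n + 1 : ℕ) : ℝ) *
            (ρ t x) ^ (2 * n)) * ⟪gradient (ρ t) x, cur W (ρ t) x⟫_ℝ) := by
        funext x
        rw [gradient_fun_const]
        simp
      rw [this]
      have hcur := hc1 t ht
      refine hint _ (((2 * (n + 1) : ℕ) : ℝ) * (((2 * n + 1 : ℕ) : ℝ) * B0 ^ (2 * n)) *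
        (B0 * C)) (by fun_prop) fun x => ?_
      rw [abs_neg, abs_mul, abs_of_nonneg (by have := hu0 x; positivity)]
      have h1 : |⟪gradient (ρ t) x, cur W (ρ t) x⟫_ℝ| ≤ B0 * (C * h x) :=
        (abs_real_inner_le_norm _ _).trans (mul_le_mul (hB1 x).2.1 (hC1 x).2.2 (norm_nonneg _) hB0)
      calc _ ≤ ((2 * (n + 1) : ℕ) : ℝ) * (((2 * n + 1 : ℕ) : ℝ) * B0 ^ (2 * n)) *
            (B0 * (C * h x)) := by
            refine mul_le_mul ?_ h1 (abs_nonneg _) (by positivity)
            gcongr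
            · exact hu0 x
            · exact (hB1 x).1
        _ = _ := by ring
    · have := Z_pointwise n (ρ t x) β (gradient (ρ t) x) (drift W (ρ t) x) (hu0 x) (hβ x)
      simp only [gradient_fun_const, div_one, inv_one, one_smul, smul_zero, sub_zero]
      exact this
  refine hEP.trans ?_
  have hdτ : (0 : ℝ) < d * τ := mul_pos (by exact_mod_cast hd) hτ
  have h1 : 1 / (d * τ) * ∫ x, ρ t x ^ (2 * (n + 1)) ≤
      ((n : ℝ) + 1) ^ 2 * (∫ x, ρ t x ^ (2 * n) * ‖gradient (ρ t) x‖ ^ 2) +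
      1 / (d * τ) * (4 * π * τ) ^ (-(d : ℝ) / 2) * (∫ x, ρ t x ^ (n + 1)) ^ 2 := by
    have h2 := mul_le_mul_of_nonneg_left hN (one_div_pos.2 hdτ).le
    refine h2.trans (le_of_eq ?_)
    field_simp
  push_cast
  linarith

end Pool.Agent.Work.MP_9371de_an

end

section

open MeasureTheory Set Filter Topology
open scoped Real InnerProductSpace

namespace Pool.Agent.Work.MP_9371de_an

/-- `Good` solutions decay uniformly. -/
theorem good_decay (hLP : ClaimLP) (hSup : ClaimSup) (d : ℕ) (A K m : ℝ) (W : E d → ℝ)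
    (ρ : ℝ → E d → ℝ) (hd : 0 < d) (hG : Good d W A K m ρ) :
    ∀ ε : ℝ, 0 < ε → ∀ᶠ t in atTop, ∀ x, ρ t x ≤ ε := by
  intro ε hε
  obtain ⟨k, hk⟩ : ∃ k : ℕ, d + 1 ≤ 2 ^ k ∧ 1 ≤ k := by
    refine ⟨d + 1, ?_, by omega⟩
    exact (Nat.lt_two_pow_self).le
  obtain ⟨c, C, hc, hC, hS⟩ := hSup d A K m W ρ (2 ^ k) hd hG hk.1
  have hlim := hLP d A K m W ρ hd hG k hk.2
  -- choose Z
  have hr : (0 : ℝ) < ((2 ^ k : ℕ) : ℝ) := by positivity
  obtain ⟨Z, hZ0, hZc, hZε⟩ : ∃ Z : ℝ, 0 < Z ∧ Z ≤ c ∧ C * Z ^ (1 / ((2 ^ k : ℕ) : ℝ)) ≤ ε := by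
    refine ⟨min c ((ε / C) ^ ((2 ^ k : ℕ) : ℝ)), ?_, min_le_left _ _, ?_⟩
    · exact lt_min hc (Real.rpow_pos_of_pos (div_pos hε hC) _)
    · have h1 : (min c ((ε / C) ^ ((2 ^ k : ℕ) : ℝ))) ^ (1 / ((2 ^ k : ℕ) : ℝ)) ≤
          ((ε / C) ^ ((2 ^ k : ℕ) : ℝ)) ^ (1 / ((2 ^ k : ℕ) : ℝ)) := by
        apply Real.rpow_le_rpow
        · exact (lt_min hc (Real.rpow_pos_of_pos (div_pos hε hC) _)).le
        · exact min_le_right _ _
        · positivity
      have h2 : ((ε / C) ^ ((2 ^ k : ℕ) : ℝ)) ^ (1 / ((2 ^ k : ℕ) : ℝ)) = ε / C := by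
        rw [← Real.rpow_mul (div_pos hε hC).le, mul_one_div_cancel hr.ne', Real.rpow_one]
      rw [h2] at h1
      calc C * _ ≤ C * (ε / C) := mul_le_mul_of_nonneg_left h1 hC.le
        _ = ε := by field_simp
  have hev : ∀ᶠ t in atTop, ∫ x, ρ t x ^ (2 ^ k) < Z :=
    hlim.eventually (gt_mem_nhds hZ0)
  obtain ⟨T, hT⟩ := eventually_atTop.1 hev
  filter_upwards [eventually_ge_atTop (max T 1 + 1)] with t ht x
  have h1 : max T 1 ≤ t - 1 := by linarith
  have hpos : 0 < t - 1 := lt_of_lt_of_le (lt_of_lt_of_le one_pos (le_max_right T 1)) h1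
  have := hS (t - 1) Z hpos hZ0.le hZc (fun s hs _ => (hT s (by
    exact le_trans (le_max_left T 1) (le_trans h1 hs))).le) x
  rw [sub_add_cancel] at this
  exact this.trans hZε

theorem main (hW : ClaimW) (hSC : ClaimSC) (hCl : ClaimClean) (hGood : ClaimGood)
    (hLP : ClaimLP) (hSup : ClaimSup) (d : ℕ) (hd : 0 < d) (ε : ℝ) (hε : 0 < ε) (W : E d → ℝ)
    (hatt : Attractive W) (hbdd : ∃ C, ∀ x, |W x| ≤ C) (hint : Integrable W)
    (ρ0 : E d → ℝ) (ρ : ℝ → E d → ℝ) (hρ : IsSolution d ε W ρ0 ρ) :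
    Tendsto (fun t => eLpNorm (ρ t) ⊤ volume) atTop (𝓝 0) := by
  -- the rescaled potential
  have hatt' : Attractive (fun x => ε⁻¹ * W x) := by
    obtain ⟨ω, hω, hWω⟩ := hatt
    refine ⟨fun r => ε⁻¹ * ω r, ?_, fun x => by simp [hWω]⟩
    intro a ha b hb hab
    exact mul_le_mul_of_nonneg_left (hω ha hb hab) (inv_pos.2 hε).le
  have hbdd' : ∃ C, ∀ x, |ε⁻¹ * W x| ≤ C := by
    obtain ⟨C, hC⟩ := hbdd
    refine ⟨ε⁻¹ * C, fun x => ?_⟩
    rw [abs_mul, abs_of_pos (inv_pos.2 hε)]
    exact mul_le_mul_of_nonneg_left (hC x) (inv_pos.2 hε).le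
  have hint' : Integrable (fun x => ε⁻¹ * W x) := hint.const_mul _
  obtain ⟨A, K, hPot⟩ := hW d hd _ hatt' hbdd' hint'
  obtain ⟨m, ρ', hclean, hae⟩ := hCl d A K _ ρ0 _ hd hPot (hSC d ε W ρ0 ρ hε hρ)
  have hG := hGood d A K m _ ρ' hd hPot hclean
  have hdec := good_decay hLP hSup d A K m _ ρ' hd hG
  -- conclusion
  rw [ENNReal.tendsto_nhds_zero]
  intro η hη
  by_cases htop : η = ⊤
  · simp [htop]
  have hη' : 0 < η.toReal := ENNReal.toReal_pos hη.ne' htop
  have h1 := hdec η.toReal hη'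
  have h2 : ∀ᶠ t in atTop, (∀ x, ρ' t x ≤ η.toReal) ∧ 0 < t := h1.and (eventually_gt_atTop 0)
  have h3 : Tendsto (fun t : ℝ => ε * t) atTop atTop := tendsto_id.const_mul_atTop hε
  filter_upwards [h3.eventually h2] with t ht
  have htpos := ht.2
  have hEq : ρ t =ᵐ[volume] ρ' (ε * t) := by
    have := hae (ε * t) htpos
    simpa [mul_div_cancel_left₀ _ hε.ne'] using this
  rw [eLpNorm_congr_ae hEq]
  have hle : eLpNorm (ρ' (ε * t)) ⊤ volume ≤ ENNReal.ofReal η.toReal := by
    rw [eLpNorm_exponent_top]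
    apply eLpNormEssSup_le_of_ae_bound
    refine Eventually.of_forall fun x => ?_
    rw [Real.norm_eq_abs, abs_of_nonneg (hclean.nonneg _ _)]
    exact ht.1 x
  rwa [ENNReal.ofReal_toReal htop] at hle

end Pool.Agent.Work.MP_9371de_an

end

section

/-!
Item D9a of MP_9371de_an: the small data inequality at a fixed time.
-/

open MeasureTheory Set Filter Topology
open scoped Real InnerProductSpace

namespace Pool.Agent.Work.MP_9371de_an

open AuxCS

theorem itemD9a (hCC : ClaimCC) : ClaimD9a := by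
  intro d A K m W ρ hG
  obtain ⟨hc1, -, hc3, hc4⟩ := hCC d A K m W ρ hG
  obtain ⟨h, hw, hdom, hgdom⟩ := hG.weight 1 one_pos le_rfl
  obtain ⟨Bh, hBh⟩ := hw.bdd
  have hgc : ∀ t, 0 < t → Continuous (gradient (ρ t)) := fun t ht => by
    have h1 : Continuous (fderiv ℝ (ρ t)) := (hG.c1 t ht).continuous_fderiv (by norm_num)
    exact (InnerProductSpace.toDual ℝ (E d)).symm.continuous.comp h1
  have hden : ∀ t x, 0 < 1 + ρ t x := fun t x => by
    have := hG.nonneg t x
    linarith
  -- the dissipation density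
  have hdc : ∀ t, 0 < t → Continuous (fun x => ‖gradient (ρ t) x‖ ^ 2 / (1 + ρ t x)) :=
    fun t ht => ((hgc t ht).norm.pow 2).div (continuous_const.add (hG.c1 t ht).continuous)
      (fun x => (hden t x).ne')
  have hbound : ∀ a T : ℝ, 0 < a → ∃ bound : E d → ℝ, Integrable bound ∧
      ∀ t, a ≤ t → t ≤ T → ∀ x, ‖‖gradient (ρ t) x‖ ^ 2 / (1 + ρ t x)‖ ≤ bound x := by
    intro a T ha
    obtain ⟨C, hC0, hC⟩ := hc4 1 h one_pos le_rfl hw hdom hgdom a T ha
    refine ⟨fun x => (C ^ 2 * Bh) * h x, hw.int.const_mul _, fun t h1 h2 x => ?_⟩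
    have h3 := (hC t h1 h2 x).2.1
    have h4 := hden t x
    have h5 := hw.pos x
    rw [Real.norm_of_nonneg (by positivity)]
    calc ‖gradient (ρ t) x‖ ^ 2 / (1 + ρ t x) ≤ ‖gradient (ρ t) x‖ ^ 2 := by
          apply div_le_self (sq_nonneg _)
          have := hG.nonneg t x
          linarith
      _ ≤ (C * h x) ^ 2 := by gcongr
      _ = C ^ 2 * h x * h x := by ring
      _ ≤ C ^ 2 * Bh * h x := by gcongr; exact hBh x
  refine ⟨fun t ht => ?_, ?_⟩
  · obtain ⟨C, hC0, hC⟩ := hc4 1 h one_pos le_rfl hw hdom hgdom t t ht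
    have hC' := hC t le_rfl le_rfl
    obtain ⟨u, hu⟩ : ∃ u, u = ρ t := ⟨_, rfl⟩
    have hun : ∀ x, 0 ≤ u x := fun x => by rw [hu]; exact hG.nonneg t x
    have huc1 : ContDiff ℝ 1 u := hu ▸ hG.c1 t ht
    have hui : Integrable u := hu ▸ hG.int t ht
    have hum : ∫ x, u x = m := hu ▸ hG.mass t ht
    have hbc : Continuous (drift W u) := hu ▸ hG.bxcont t ht
    have hjc : Continuous (cur W u) := hu ▸ hc1 t ht
    have hguc : Continuous (gradient u) := hu ▸ hgc t ht
    have hvg := hG.vgrad t ht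
    obtain ⟨bd, hbdi, hbd⟩ := hbound t t ht
    have hdi : Integrable (fun x => ‖gradient u x‖ ^ 2 / (1 + u x)) := by
      refine hbdi.mono' (hu ▸ (hdc t ht).aestronglyMeasurable) (Eventually.of_forall fun x => ?_)
      rw [hu]
      exact hbd t le_rfl le_rfl x
    rw [← hu] at hC' hvg ⊢
    have hden' : ∀ x, 0 < 1 + u x := fun x => by have := hun x; linarith
    have hgi : Integrable (fun x => ‖gradient u x‖) := by
      refine (hw.int.const_mul C).mono' hguc.norm.aestronglyMeasurable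
        (Eventually.of_forall fun x => ?_)
      rw [norm_norm]; exact (hC' x).2.1
    obtain ⟨B2, hB2⟩ : ∃ B2, B2 = A * (∫ x, |W x|) + A ^ 2 * m := ⟨_, rfl⟩
    have hm0 : 0 ≤ m := hum ▸ integral_nonneg hun
    have hA := hG.pot.A_pos
    have hB20 : 0 ≤ B2 := by
      rw [hB2]
      have : 0 ≤ ∫ x, |W x| := integral_nonneg fun x => abs_nonneg _
      positivity
    have hdis0 : 0 ≤ dis u := integral_nonneg fun x => div_nonneg (sq_nonneg _) (hden' x).le
    rw [← hB2]
    -- bound of the drift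
    have hdrift : ∀ x, ‖drift W u x‖ ^ 2 ≤ B2 * dis u := by
      intro x
      have e0 : drift W u x = ∫ y, W (x - y) • gradient u y := (hvg x).gradient
      have hWm : Measurable (fun y => W (x - y)) := hG.pot.meas.comp (by fun_prop)
      have hWi : Integrable (fun y => |W (x - y)|) := (hG.pot.int.comp_sub_left x).abs
      have hWb : ∀ y, |W (x - y)| ≤ A := fun y => hG.pot.bdd _
      have hW2 : ∀ y, W (x - y) ^ 2 ≤ A ^ 2 := fun y => by
        rw [← sq_abs (W (x - y))]
        exact pow_le_pow_left₀ (abs_nonneg _) (hWb y) 2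
      have i1 : Integrable (fun y => W (x - y) ^ 2) := by
        refine (hWi.const_mul A).mono' (hWm.pow_const 2).aestronglyMeasurable
          (Eventually.of_forall fun y => ?_)
        rw [Real.norm_of_nonneg (sq_nonneg _), ← sq_abs, sq]
        exact mul_le_mul_of_nonneg_right (hWb y) (abs_nonneg _)
      have i2 : Integrable (fun y => W (x - y) ^ 2 * u y) := by
        refine (hui.const_mul (A ^ 2)).mono'
          ((hWm.pow_const 2).mul huc1.continuous.measurable).aestronglyMeasurable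
          (Eventually.of_forall fun y => ?_)
        rw [Real.norm_of_nonneg (mul_nonneg (sq_nonneg _) (hun y))]
        exact mul_le_mul_of_nonneg_right (hW2 y) (hun y)
      have e1 : (fun y => (|W (x - y)| * Real.sqrt (1 + u y)) ^ 2) =
          fun y => W (x - y) ^ 2 + W (x - y) ^ 2 * u y := by
        ext y
        rw [mul_pow, sq_abs, Real.sq_sqrt (hden' y).le]
        ring
      have e2 : (fun y => (‖gradient u y‖ / Real.sqrt (1 + u y)) ^ 2) =
          fun y => ‖gradient u y‖ ^ 2 / (1 + u y) := by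
        ext y
        rw [div_pow, Real.sq_sqrt (hden' y).le]
      have e3 : (fun y => (|W (x - y)| * Real.sqrt (1 + u y)) *
          (‖gradient u y‖ / Real.sqrt (1 + u y))) = fun y => |W (x - y)| * ‖gradient u y‖ := by
        ext y
        have := Real.sqrt_pos.2 (hden' y)
        field_simp
      have i3 : Integrable (fun y => |W (x - y)| * ‖gradient u y‖) := by
        refine (hgi.const_mul A).mono' ((hWm.abs.mul hguc.norm.measurable)).aestronglyMeasurable
          (Eventually.of_forall fun y => ?_)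
        rw [Real.norm_of_nonneg (by positivity)]
        gcongr
        exact hWb y
      have h1 := cs (μ := volume) (f := fun y => |W (x - y)| * Real.sqrt (1 + u y))
        (g := fun y => ‖gradient u y‖ / Real.sqrt (1 + u y)) (by rw [e1]; exact i1.add i2)
        (by rw [e2]; exact hdi) (by rw [e3]; exact i3)
      rw [e3, e1, e2] at h1
      have h2 : ‖drift W u x‖ ≤ ∫ y, |W (x - y)| * ‖gradient u y‖ := by
        rw [e0]
        refine (norm_integral_le_integral_norm _).trans (le_of_eq ?_)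
        congr 1
        ext y
        rw [norm_smul, Real.norm_eq_abs]
      have h3 : ∫ y, (W (x - y) ^ 2 + W (x - y) ^ 2 * u y) ≤ B2 := by
        rw [integral_add i1 i2, hB2]
        have k1 : ∫ y, W (x - y) ^ 2 ≤ A * ∫ y, |W y| := by
          have : ∫ y, |W y| = ∫ y, |W (x - y)| :=
            (integral_sub_left_eq_self (fun y => |W y|) volume x).symm
          rw [this, ← integral_const_mul]
          apply integral_mono i1 (hWi.const_mul A)
          intro y
          show W (x - y) ^ 2 ≤ A * |W (x - y)|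
          rw [← sq_abs, sq]
          exact mul_le_mul_of_nonneg_right (hWb y) (abs_nonneg _)
        have k2 : ∫ y, W (x - y) ^ 2 * u y ≤ A ^ 2 * m := by
          rw [← hum, ← integral_const_mul]
          apply integral_mono i2 (hui.const_mul _)
          intro y
          exact mul_le_mul_of_nonneg_right (hW2 y) (hun y)
        linarith
      calc ‖drift W u x‖ ^ 2 ≤ (∫ y, |W (x - y)| * ‖gradient u y‖) ^ 2 := by gcongr
        _ ≤ (∫ y, (W (x - y) ^ 2 + W (x - y) ^ 2 * u y)) *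
            ∫ y, ‖gradient u y‖ ^ 2 / (1 + u y) := h1
        _ ≤ B2 * dis u := by
            unfold dis
            gcongr
    refine ⟨hdrift, ?_⟩
    -- integrability of Phi
    have hPc : Continuous (fun x => Phi (u x)) :=
      continuousOn_Phi.comp_continuous huc1.continuous hun
    have hPi : Integrable (fun x => Phi (u x)) := by
      refine (hui.const_mul (C * Bh)).mono' hPc.aestronglyMeasurable
        (Eventually.of_forall fun x => ?_)
      rw [Real.norm_of_nonneg (Phi_nonneg (hun x))]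
      have h1 := Phi_le (hun x)
      have h2 := (hC' x).1
      have h3 := hun x
      calc Phi (u x) ≤ u x ^ 2 := h1
        _ = u x * u x := sq _
        _ ≤ (C * h x) * u x := by gcongr
        _ ≤ (C * Bh) * u x := by gcongr; exact hBh x
    have hP0 : 0 ≤ ∫ x, Phi (u x) := integral_nonneg fun x => Phi_nonneg (hun x)
    -- u^2/(1+u)
    have hqc : Continuous (fun x => u x ^ 2 / (1 + u x)) :=
      (huc1.continuous.pow 2).div (continuous_const.add huc1.continuous) (fun x => (hden' x).ne')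
    have hqi : Integrable (fun x => u x ^ 2 / (1 + u x)) := by
      refine (hPi.const_mul 2).mono' hqc.aestronglyMeasurable (Eventually.of_forall fun x => ?_)
      rw [Real.norm_of_nonneg (div_nonneg (sq_nonneg _) (hden' x).le)]
      exact Phi_ge (hun x)
    have hq : ∫ x, u x ^ 2 / (1 + u x) ≤ 2 * ∫ x, Phi (u x) := by
      rw [← integral_const_mul]
      exact integral_mono hqi (hPi.const_mul 2) fun x => Phi_ge (hun x)
    -- Cauchy-Schwarz for the cross term
    have hXi : Integrable (fun x => u x / (1 + u x) * ‖gradient u x‖) := by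
      refine hgi.mono' ((huc1.continuous.div (continuous_const.add huc1.continuous)
        (fun x => (hden' x).ne')).mul hguc.norm).aestronglyMeasurable
        (Eventually.of_forall fun x => ?_)
      have h3 := hun x
      rw [Real.norm_of_nonneg (mul_nonneg (div_nonneg h3 (hden' x).le) (norm_nonneg _))]
      have : u x / (1 + u x) ≤ 1 := by rw [div_le_one (hden' x)]; linarith
      exact mul_le_of_le_one_left (norm_nonneg _) this
    have hX : (∫ x, u x / (1 + u x) * ‖gradient u x‖) ^ 2 ≤ (2 * ∫ x, Phi (u x)) * dis u := by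
      have e1 : (fun x => (u x / Real.sqrt (1 + u x)) ^ 2) = fun x => u x ^ 2 / (1 + u x) := by
        ext x
        rw [div_pow, Real.sq_sqrt (hden' x).le]
      have e2 : (fun y => (‖gradient u y‖ / Real.sqrt (1 + u y)) ^ 2) =
          fun y => ‖gradient u y‖ ^ 2 / (1 + u y) := by
        ext y
        rw [div_pow, Real.sq_sqrt (hden' y).le]
      have e3 : (fun x => (u x / Real.sqrt (1 + u x)) * (‖gradient u x‖ / Real.sqrt (1 + u x))) =
          fun x => u x / (1 + u x) * ‖gradient u x‖ := by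
        ext x
        have h1 := Real.mul_self_sqrt (hden' x).le
        have h2 := Real.sqrt_pos.2 (hden' x)
        rw [div_mul_div_comm, h1]
        ring
      have h1 := cs (μ := volume) (f := fun x => u x / Real.sqrt (1 + u x))
        (g := fun x => ‖gradient u x‖ / Real.sqrt (1 + u x)) (by rw [e1]; exact hqi)
        (by rw [e2]; exact hdi) (by rw [e3]; exact hXi)
      rw [e3, e1, e2] at h1
      refine h1.trans ?_
      unfold dis
      gcongr
    have hX0 : 0 ≤ ∫ x, u x / (1 + u x) * ‖gradient u x‖ :=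
      integral_nonneg fun x => mul_nonneg (div_nonneg (hun x) (hden' x).le) (norm_nonneg _)
    -- the cross term
    have iY : Integrable (fun x => u x / (1 + u x) * ⟪gradient u x, drift W u x⟫_ℝ) := by
      refine (hXi.const_mul (Real.sqrt (B2 * dis u))).mono'
        ((huc1.continuous.div (continuous_const.add huc1.continuous)
        (fun x => (hden' x).ne')).mul (hguc.inner hbc)).aestronglyMeasurable
        (Eventually.of_forall fun x => ?_)
      have h3 := div_nonneg (hun x) (hden' x).le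
      rw [Real.norm_eq_abs, abs_mul, abs_of_nonneg h3]
      have h4 : ‖drift W u x‖ ≤ Real.sqrt (B2 * dis u) := Real.le_sqrt_of_sq_le (hdrift x)
      calc u x / (1 + u x) * |⟪gradient u x, drift W u x⟫_ℝ|
          ≤ u x / (1 + u x) * (‖gradient u x‖ * Real.sqrt (B2 * dis u)) := by
            gcongr
            exact (abs_real_inner_le_norm _ _).trans (by gcongr)
        _ = Real.sqrt (B2 * dis u) * (u x / (1 + u x) * ‖gradient u x‖) := by ring
    have hY : |∫ x, u x / (1 + u x) * ⟪gradient u x, drift W u x⟫_ℝ| ≤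
        Real.sqrt (B2 * dis u) * ∫ x, u x / (1 + u x) * ‖gradient u x‖ := by
      rw [← integral_const_mul]
      refine (abs_integral_le_integral_abs).trans (integral_mono iY.abs (hXi.const_mul _) ?_)
      intro x
      have h3 := div_nonneg (hun x) (hden' x).le
      show |u x / (1 + u x) * ⟪gradient u x, drift W u x⟫_ℝ| ≤ _
      rw [abs_mul, abs_of_nonneg h3]
      have h4 : ‖drift W u x‖ ≤ Real.sqrt (B2 * dis u) := Real.le_sqrt_of_sq_le (hdrift x)
      calc u x / (1 + u x) * |⟪gradient u x, drift W u x⟫_ℝ|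
          ≤ u x / (1 + u x) * (‖gradient u x‖ * Real.sqrt (B2 * dis u)) := by
            gcongr
            exact (abs_real_inner_le_norm _ _).trans (by gcongr)
        _ = Real.sqrt (B2 * dis u) * (u x / (1 + u x) * ‖gradient u x‖) := by ring
    have hY2 : Real.sqrt (B2 * dis u) * ∫ x, u x / (1 + u x) * ‖gradient u x‖ ≤
        dis u * Real.sqrt (2 * B2 * ∫ x, Phi (u x)) := by
      have h1 : ∫ x, u x / (1 + u x) * ‖gradient u x‖ ≤
          Real.sqrt ((2 * ∫ x, Phi (u x)) * dis u) := Real.le_sqrt_of_sq_le hX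
      calc Real.sqrt (B2 * dis u) * ∫ x, u x / (1 + u x) * ‖gradient u x‖
          ≤ Real.sqrt (B2 * dis u) * Real.sqrt ((2 * ∫ x, Phi (u x)) * dis u) := by gcongr
        _ = Real.sqrt (dis u ^ 2 * (2 * B2 * ∫ x, Phi (u x))) := by
            rw [← Real.sqrt_mul (by positivity)]
            congr 1
            ring
        _ = dis u * Real.sqrt (2 * B2 * ∫ x, Phi (u x)) := by
            rw [Real.sqrt_mul (sq_nonneg _), Real.sqrt_sq hdis0]
    have hsplit : ∫ x, (1 + u x)⁻¹ * ⟪gradient u x, cur W u x⟫_ℝ =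
        dis u + ∫ x, u x / (1 + u x) * ⟪gradient u x, drift W u x⟫_ℝ := by
      unfold dis
      rw [← integral_add hdi iY]
      congr 1
      ext x
      have hcur : cur W u x = gradient u x + u x • drift W u x := rfl
      rw [hcur, inner_add_right, real_inner_smul_right, real_inner_self_eq_norm_sq]
      have := (hden' x).ne'
      field_simp
    rw [hsplit]
    have := neg_abs_le (∫ x, u x / (1 + u x) * ⟪gradient u x, drift W u x⟫_ℝ)
    nlinarith
  · unfold dis
    apply contOn_integral (fun t ht => (hdc t ht).aestronglyMeasurable) hbound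
    intro x
    apply ContinuousOn.div
    · exact (hG.gcont x).norm.pow 2
    · exact continuousOn_const.add (hG.tcont x)
    · intro t _
      exact (hden t x).ne'

end Pool.Agent.Work.MP_9371de_an

end

section

/-!
Item D9b of MP_9371de_an: the small regime.
-/

open MeasureTheory Set Filter Topology
open scoped Real InnerProductSpace

namespace Pool.Agent.Work.MP_9371de_an

open AuxCS

theorem D9b_convFn : ConvFn Phi (fun z => Real.log (1 + z)) (fun z => (1 + z)⁻¹) where
  zero := by simp [Phi]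
  d1 := by
    intro z hz
    have h1 : (1 : ℝ) + z ≠ 0 := by positivity
    have h2 : HasDerivAt (fun z : ℝ => 1 + z) 1 z := (hasDerivAt_id z).const_add 1
    have h3 : HasDerivAt (fun z : ℝ => Real.log (1 + z)) (1 / (1 + z)) z := by
      have := h2.log h1
      simpa using this
    have h4 := (h2.mul h3).sub (hasDerivAt_id z)
    have h5 : (1 * Real.log (1 + z) + (1 + z) * (1 / (1 + z)) - 1) = Real.log (1 + z) := by
      field_simp
      ring
    rw [h5] at h4
    exact h4
  d2 := by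
    intro z hz
    have h1 : (1 : ℝ) + z ≠ 0 := by positivity
    have h2 : HasDerivAt (fun z : ℝ => 1 + z) 1 z := (hasDerivAt_id z).const_add 1
    have := h2.log h1
    simpa using this
  cont := by
    apply ContinuousOn.inv₀ (by fun_prop)
    intro z hz
    have : (0 : ℝ) ≤ z := hz
    positivity
  nonneg := by
    intro z hz
    positivity

/-- A differentiable function which cannot grow while it is small stays small. -/
theorem D9b_trap {y y' : ℝ → ℝ} {t0 η : ℝ} (hη : 0 < η)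
    (hd : ∀ t, t0 ≤ t → HasDerivAt y (y' t) t) (h0 : y t0 ≤ η)
    (hs : ∀ t, t0 ≤ t → y t ≤ 2 * η → y' t ≤ 0) : ∀ t, t0 ≤ t → y t ≤ η := by
  intro t ht
  have key : ∀ δ : ℝ, 0 < δ → δ * (t - t0) ≤ η → y t ≤ η + δ * (t - t0) := by
    intro δ hδ hδt
    have h := image_le_of_deriv_right_lt_deriv_boundary (f := y) (f' := y') (a := t0) (b := t)
      (B := fun s => η + δ * (s - t0)) (B' := fun _ => δ)
      (fun s hs => (hd s hs.1).continuousAt.continuousWithinAt)
      (fun s hs => (hd s hs.1).hasDerivWithinAt)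
      (by simpa using h0)
      (fun s => by
        have h1 : HasDerivAt (fun s : ℝ => s - t0) 1 s := (hasDerivAt_id s).sub_const t0
        have h2 := (h1.const_mul δ).const_add η
        simpa using h2)
      (fun s hs' he => by
        have h1 : y s ≤ 2 * η := by
          rw [he]
          have : δ * (s - t0) ≤ δ * (t - t0) := by
            have := hs'.2
            gcongr
          linarith
        exact (hs s hs'.1 h1).trans_lt hδ)
    exact h ⟨ht, le_rfl⟩
  by_contra hcon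
  push Not at hcon
  have hT : 0 < t - t0 := by
    rcases ht.eq_or_lt with h | h
    · rw [← h] at hcon; linarith
    · linarith
  obtain ⟨δ, hδ⟩ : ∃ δ, δ = min (η / (t - t0)) ((y t - η) / 2 / (t - t0)) := ⟨_, rfl⟩
  have h1 : 0 < δ := by
    rw [hδ]
    exact lt_min (div_pos hη hT) (div_pos (by linarith) hT)
  have h2 : δ * (t - t0) ≤ η := by
    have : δ ≤ η / (t - t0) := hδ ▸ min_le_left _ _
    rwa [le_div_iff₀ hT] at this
  have h3 : δ * (t - t0) ≤ (y t - η) / 2 := by
    have : δ ≤ (y t - η) / 2 / (t - t0) := hδ ▸ min_le_right _ _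
    rwa [le_div_iff₀ hT] at this
  have := key δ h1 h2
  linarith

theorem itemD9b (hEN : ClaimEN) (hSM : ClaimSM0) (hD : ClaimD9a) : ClaimD9b := by
  intro d A K m W ρ hd hG
  obtain ⟨h, hw, hdom, hgdom⟩ := hG.weight 1 one_pos le_rfl
  obtain ⟨Bh, hBh⟩ := hw.bdd
  obtain ⟨y, hy⟩ : ∃ y : ℝ → ℝ, y = fun t => ∫ x, Phi (ρ t x) := ⟨_, rfl⟩
  obtain ⟨e, he⟩ : ∃ e : ℝ → ℝ,
      e = fun t => ∫ x, (1 + ρ t x)⁻¹ * ⟪gradient (ρ t) x, cur W (ρ t) x⟫_ℝ := ⟨_, rfl⟩
  have hgrad1 : ∀ x : E d, gradient (fun _ : E d => (1 : ℝ)) x = 0 := by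
    intro x
    unfold gradient
    simp
  have hent : ∀ t, entProd W (fun _ => 1) (fun z => (1 + z)⁻¹) (ρ t) = e t := by
    intro t
    rw [he]
    unfold entProd
    simp only [hgrad1, div_one, inv_one, one_smul, smul_zero, sub_zero]
  have hder : (∀ t, 0 < t → HasDerivAt y (-e t) t) ∧ ContinuousOn e (Ioi 0) := by
    have h1 := hEN d A K m 1 0 Bh W (fun _ => 1) h ρ Phi (fun z => Real.log (1 + z))
      (fun z => (1 + z)⁻¹) hG one_pos le_rfl hw hdom hgdom (fun _ => one_pos) contDiff_const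
      (fun x => by rw [hgrad1]; simp) (fun x => by simpa using hBh x) D9b_convFn
    simp only [hent, div_one, one_mul] at h1
    rw [← hy] at h1
    exact h1
  obtain ⟨hd1, hdc⟩ := hD d A K m W ρ hG
  -- signs
  have hm0 : 0 ≤ m := by
    rw [← hG.mass 1 one_pos]
    exact integral_nonneg fun x => hG.nonneg 1 x
  have hA := hG.pot.A_pos
  obtain ⟨B2, hB2⟩ : ∃ B2, B2 = A * (∫ x, |W x|) + A ^ 2 * m := ⟨_, rfl⟩
  rw [← hB2] at hd1
  have hB20 : 0 ≤ B2 := by
    rw [hB2]
    have : 0 ≤ ∫ x, |W x| := integral_nonneg fun x => abs_nonneg _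
    positivity
  have hdis0 : ∀ t, 0 ≤ dis (ρ t) := fun t => integral_nonneg fun x =>
    div_nonneg (sq_nonneg _) (by have := hG.nonneg t x; linarith)
  have hy0 : ∀ t, 0 ≤ y t := fun t => by
    rw [hy]
    exact integral_nonneg fun x => Phi_nonneg (hG.nonneg t x)
  obtain ⟨η, hη⟩ : ∃ η : ℝ, η = 1 / (32 * (B2 + 1)) := ⟨_, rfl⟩
  have hη0 : 0 < η := by rw [hη]; positivity
  have hη1 : 2 * B2 * η ≤ 1 / 16 := by
    rw [hη, mul_one_div, div_le_div_iff₀ (by positivity) (by norm_num)]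
    linarith
  -- the dissipation inequality in the small regime
  have hsmall : ∀ t, 0 < t → y t ≤ 2 * η → -e t ≤ -(1 / 2) * dis (ρ t) := by
    intro t ht hyt
    have h1 := (hd1 t ht).2
    have h2 : Real.sqrt (2 * B2 * ∫ x, Phi (ρ t x)) ≤ 1 / 2 := by
      rw [Real.sqrt_le_left (by norm_num)]
      have h3 : ∫ x, Phi (ρ t x) ≤ 2 * η := by rw [hy] at hyt; exact hyt
      have h4 : 2 * B2 * ∫ x, Phi (ρ t x) ≤ 2 * B2 * (2 * η) := by gcongr
      nlinarith
    have h3 := hdis0 t
    have h4 : -e t = -(∫ x, (1 + ρ t x)⁻¹ * ⟪gradient (ρ t) x, cur W (ρ t) x⟫_ℝ) := by rw [he]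
    rw [h4]
    refine h1.trans ?_
    nlinarith
  obtain ⟨t0, -, ht0, hyt0⟩ := hSM d A K m W ρ hd hG η 1 hη0
  have hyt0' : y t0 ≤ η := by rw [hy]; exact hyt0
  have htrap := D9b_trap (y := y) (y' := fun t => -e t) (t0 := t0) hη0
    (fun t ht => hder.1 t (lt_of_lt_of_le ht0 ht)) hyt0'
    (fun t ht h1 => (hsmall t (lt_of_lt_of_le ht0 ht) h1).trans (by
      have := hdis0 t
      linarith))
  have hneg : ∀ t, t0 ≤ t → -e t ≤ -(1 / 2) * dis (ρ t) := fun t ht =>
    hsmall t (lt_of_lt_of_le ht0 ht) ((htrap t ht).trans (by linarith))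
  -- the fundamental theorem of calculus
  have hftc : ∀ s T, t0 ≤ s → s ≤ T → ∫ t in s..T, -e t = y T - y s := by
    intro s T hs hT
    have hs0 : 0 < s := lt_of_lt_of_le ht0 hs
    apply intervalIntegral.integral_eq_sub_of_hasDerivAt
    · intro t ht
      rw [uIcc_of_le hT] at ht
      exact hder.1 t (lt_of_lt_of_le hs0 ht.1)
    · apply ContinuousOn.intervalIntegrable
      rw [uIcc_of_le hT]
      exact (hder.2.mono fun t ht => lt_of_lt_of_le hs0 ht.1).neg
  have hanti : ∀ s T, t0 ≤ s → s ≤ T → y T ≤ y s := by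
    intro s T hs hT
    have h1 := hftc s T hs hT
    have h2 : 0 ≤ ∫ t in s..T, e t := by
      apply intervalIntegral.integral_nonneg hT
      intro t ht
      have := hneg t (hs.trans ht.1)
      have := hdis0 t
      linarith
    rw [intervalIntegral.integral_neg] at h1
    linarith
  refine ⟨fun t => B2 * dis (ρ t), t0, ht0, continuousOn_const.mul hdc, ?_, ?_, ?_⟩
  · intro t ht
    exact ⟨mul_nonneg hB20 (hdis0 t), (hd1 t ht).1⟩
  · intro T hT
    have hs0 : 0 < t0 := ht0
    have hdi : IntervalIntegrable (fun t => dis (ρ t)) volume t0 T := by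
      apply ContinuousOn.intervalIntegrable
      rw [uIcc_of_le hT]
      exact hdc.mono fun t ht => lt_of_lt_of_le hs0 ht.1
    have hei : IntervalIntegrable (fun t => -e t) volume t0 T := by
      apply ContinuousOn.intervalIntegrable
      rw [uIcc_of_le hT]
      exact (hder.2.mono fun t ht => lt_of_lt_of_le hs0 ht.1).neg
    have h1 := hftc t0 T le_rfl hT
    have h2 : ∫ t in t0..T, -e t ≤ ∫ t in t0..T, -(1 / 2) * dis (ρ t) := by
      apply intervalIntegral.integral_mono_on hT hei (hdi.const_mul _)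
      intro t ht
      exact hneg t ht.1
    rw [intervalIntegral.integral_const_mul, h1] at h2
    rw [intervalIntegral.integral_const_mul]
    have h3 := hy0 T
    have h4 : ∫ t in t0..T, dis (ρ t) ≤ 2 * η := by linarith
    have h5 : B2 * ∫ t in t0..T, dis (ρ t) ≤ B2 * (2 * η) := by gcongr
    linarith
  · rw [← hy, Metric.tendsto_atTop]
    intro ε hε
    obtain ⟨t1, ht1, -, hyt1⟩ := hSM d A K m W ρ hd hG (ε / 2) t0 (by positivity)
    refine ⟨t1, fun t ht => ?_⟩
    have h1 := hanti t1 t ht1 ht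
    have h2 : y t1 ≤ ε / 2 := by rw [hy]; exact hyt1
    rw [Real.dist_eq, sub_zero, abs_of_nonneg (hy0 t)]
    linarith

end Pool.Agent.Work.MP_9371de_an

end

section

/-!
Item ENTa of MP_9371de_an: the entropy production inequality at a fixed time.
-/

open MeasureTheory Set Filter Topology
open scoped Real InnerProductSpace

namespace Pool.Agent.Work.MP_9371de_an

open AuxCS

/-- The pointwise inequality behind `itemENTa`. -/
theorem ENTa_pointwise {F : Type*} [NormedAddCommGroup F] [InnerProductSpace ℝ F] {r h θ κ B : ℝ}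
    {gr gh b j : F} (hr : 0 ≤ r) (hh : 0 < h) (hθ : 0 < θ) (hj : j = gr + r • b)
    (hb : ‖b‖ ≤ B) (hgh : ‖gh‖ ≤ κ * h) (hκ : 0 < κ) :
    -((r / h + θ)⁻¹ * ⟪h⁻¹ • gr - (r / h ^ 2) • gh, j⟫_ℝ) - ⟪b, j⟫_ℝ ≤
      -(1 / 2) * (‖j‖ ^ 2 / (r + θ * h)) + κ ^ 2 * r + θ * B ^ 2 * h := by
  have hD : 0 < r + θ * h := by positivity
  obtain ⟨D, hDd⟩ : ∃ D, D = r + θ * h := ⟨_, rfl⟩
  rw [← hDd] at hD ⊢
  have hgr : gr = j - r • b := by rw [hj]; abel
  have e1 : (r / h + θ)⁻¹ = h / D := by
    rw [hDd]; field_simp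
  have e2 : -((r / h + θ)⁻¹ * ⟪h⁻¹ • gr - (r / h ^ 2) • gh, j⟫_ℝ) - ⟪b, j⟫_ℝ =
      -(‖j‖ ^ 2 / D) - (θ * h / D) * ⟪b, j⟫_ℝ + (r / (h * D)) * ⟪gh, j⟫_ℝ := by
    rw [e1, hgr, inner_sub_left, real_inner_smul_left, real_inner_smul_left, inner_sub_left,
      real_inner_smul_left, real_inner_self_eq_norm_sq]
    rw [show θ * h = D - r by rw [hDd]; ring]
    field_simp
    ring
  rw [e2]
  have hbj : |⟪b, j⟫_ℝ| ≤ B * ‖j‖ := (abs_real_inner_le_norm b j).trans (by gcongr)
  have hgj : |⟪gh, j⟫_ℝ| ≤ κ * h * ‖j‖ := (abs_real_inner_le_norm gh j).trans (by gcongr)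
  have hB : 0 ≤ B := (norm_nonneg b).trans hb
  -- the two error terms
  have f1 : -((θ * h / D) * ⟪b, j⟫_ℝ) ≤ 1 / 4 * (‖j‖ ^ 2 / D) + θ * B ^ 2 * h := by
    have g1 : -((θ * h / D) * ⟪b, j⟫_ℝ) ≤ (θ * h / D) * (B * ‖j‖) := by
      have := neg_abs_le ⟪b, j⟫_ℝ
      have h0 : 0 ≤ θ * h / D := by positivity
      nlinarith
    have g2 : (θ * h / D) * (B * ‖j‖) ≤ 1 / 4 * (‖j‖ ^ 2 / D) + (θ * h) ^ 2 * B ^ 2 / D := by
      rw [show (θ * h / D) * (B * ‖j‖) = (θ * h * (B * ‖j‖)) / D by ring,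
        show 1 / 4 * (‖j‖ ^ 2 / D) + (θ * h) ^ 2 * B ^ 2 / D =
          (1 / 4 * ‖j‖ ^ 2 + (θ * h) ^ 2 * B ^ 2) / D by ring]
      gcongr
      nlinarith [sq_nonneg (‖j‖ / 2 - θ * h * B)]
    have g3 : (θ * h) ^ 2 * B ^ 2 / D ≤ θ * B ^ 2 * h := by
      rw [div_le_iff₀ hD]
      have : θ * h ≤ D := by rw [hDd]; linarith
      have h0 : 0 ≤ θ * h * B ^ 2 := by positivity
      nlinarith
    linarith
  have f2 : (r / (h * D)) * ⟪gh, j⟫_ℝ ≤ 1 / 4 * (‖j‖ ^ 2 / D) + κ ^ 2 * r := by
    have g1 : (r / (h * D)) * ⟪gh, j⟫_ℝ ≤ (r / (h * D)) * (κ * h * ‖j‖) := by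
      have h0 : 0 ≤ r / (h * D) := by positivity
      exact mul_le_mul_of_nonneg_left ((le_abs_self _).trans hgj) h0
    have g2 : (r / (h * D)) * (κ * h * ‖j‖) ≤ 1 / 4 * (‖j‖ ^ 2 / D) + r ^ 2 * κ ^ 2 / D := by
      rw [show (r / (h * D)) * (κ * h * ‖j‖) = (r * (κ * ‖j‖)) / D by field_simp,
        show 1 / 4 * (‖j‖ ^ 2 / D) + r ^ 2 * κ ^ 2 / D =
          (1 / 4 * ‖j‖ ^ 2 + r ^ 2 * κ ^ 2) / D by ring]
      gcongr
      nlinarith [sq_nonneg (‖j‖ / 2 - r * κ)]
    have g3 : r ^ 2 * κ ^ 2 / D ≤ κ ^ 2 * r := by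
      rw [div_le_iff₀ hD]
      have : r ≤ D := by rw [hDd]; nlinarith [mul_pos hθ hh]
      have h0 : 0 ≤ r * κ ^ 2 := by positivity
      nlinarith
    linarith
  linarith

theorem itemENTa (hCC : ClaimCC) : ClaimENTa := by
  intro d A K m κ W h ρ hG hκ hκ1 hw hdom hgdom t θ B ht hθ hθ1 hB
  obtain ⟨hc1, -, -, hc4⟩ := hCC d A K m W ρ hG
  obtain ⟨C, hC0, hC⟩ := hc4 κ h hκ hκ1 hw hdom hgdom t t ht
  have hC' := hC t le_rfl le_rfl
  obtain ⟨u, hu⟩ : ∃ u, u = ρ t := ⟨_, rfl⟩
  have hun : ∀ x, 0 ≤ u x := fun x => by rw [hu]; exact hG.nonneg t x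
  have huc1 : ContDiff ℝ 1 u := hu ▸ hG.c1 t ht
  have hui : Integrable u := hu ▸ hG.int t ht
  have hum : ∫ x, u x = m := hu ▸ hG.mass t ht
  have hbc : Continuous (drift W u) := hu ▸ hG.bxcont t ht
  have hjc : Continuous (cur W u) := hu ▸ hc1 t ht
  rw [← hu] at hB hC' ⊢
  have hgc : Continuous (gradient u) := by
    have h1 : Continuous (fderiv ℝ u) := huc1.continuous_fderiv (by norm_num)
    exact (InnerProductSpace.toDual ℝ (E d)).symm.continuous.comp h1
  have hhc : Continuous h := hw.c1.continuous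
  have hghc : Continuous (gradient h) := by
    have h1 : Continuous (fderiv ℝ h) := hw.c1.continuous_fderiv (by norm_num)
    exact (InnerProductSpace.toDual ℝ (E d)).symm.continuous.comp h1
  have hD : ∀ x, 0 < u x + θ * h x := fun x => by
    have := hw.pos x
    have := hun x
    positivity
  have hB0 : 0 ≤ B := (norm_nonneg _).trans (hB 0)
  -- integrability
  have iJ : Integrable (fun x => ‖cur W u x‖ ^ 2 / (u x + θ * h x)) := by
    refine (hw.int.const_mul (C ^ 2 / θ)).mono'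
      (((hjc.norm.pow 2).div (huc1.continuous.add (continuous_const.mul hhc))
        (fun x => (hD x).ne')).aestronglyMeasurable) (Eventually.of_forall fun x => ?_)
    rw [Real.norm_of_nonneg (div_nonneg (sq_nonneg _) (hD x).le), div_le_iff₀ (hD x)]
    have h1 := (hC' x).2.2
    have h2 : ‖cur W u x‖ ^ 2 ≤ (C * h x) ^ 2 := by gcongr
    have h3 := hw.pos x
    have h4 := hun x
    calc ‖cur W u x‖ ^ 2 ≤ (C * h x) ^ 2 := h2
      _ = C ^ 2 / θ * h x * (θ * h x) := by field_simp
      _ ≤ C ^ 2 / θ * h x * (u x + θ * h x) := by gcongr; linarith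
  have ij : Integrable (fun x => ‖cur W u x‖) := by
    refine (hw.int.const_mul C).mono' hjc.norm.aestronglyMeasurable
      (Eventually.of_forall fun x => ?_)
    rw [norm_norm]
    exact (hC' x).2.2
  have ibj : Integrable (fun x => ⟪drift W u x, cur W u x⟫_ℝ) := by
    refine (hw.int.const_mul (B * C)).mono' (hbc.inner hjc).aestronglyMeasurable
      (Eventually.of_forall fun x => ?_)
    rw [Real.norm_eq_abs]
    calc |⟪drift W u x, cur W u x⟫_ℝ| ≤ ‖drift W u x‖ * ‖cur W u x‖ := abs_real_inner_le_norm _ _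
      _ ≤ B * (C * h x) := by gcongr; exacts [hB x, (hC' x).2.2]
      _ = B * C * h x := by ring
  have hcur : ∀ x, cur W u x = gradient u x + u x • drift W u x := fun x => rfl
  have iE : Integrable (fun x => (u x / h x + θ)⁻¹ *
      ⟪(h x)⁻¹ • gradient u x - (u x / h x ^ 2) • gradient h x, cur W u x⟫_ℝ) := by
    have hcE : Continuous (fun x => (u x / h x + θ)⁻¹ *
      ⟪(h x)⁻¹ • gradient u x - (u x / h x ^ 2) • gradient h x, cur W u x⟫_ℝ) := by
      have hne : ∀ x, h x ≠ 0 := fun x => (hw.pos x).ne'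
      apply Continuous.mul
      · apply Continuous.inv₀
        · exact (huc1.continuous.div hhc hne).add continuous_const
        · intro x
          have := hw.pos x
          have := hun x
          positivity
      · apply Continuous.inner _ hjc
        apply Continuous.sub
        · exact (hhc.inv₀ hne).smul hgc
        · exact (huc1.continuous.div (hhc.pow 2) (fun x => pow_ne_zero 2 (hne x))).smul hghc
    refine (hw.int.const_mul (θ⁻¹ * ((C + C * κ) * C))).mono' hcE.aestronglyMeasurable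
      (Eventually.of_forall fun x => ?_)
    have h1 := hw.pos x
    have h2 := hun x
    have h3 := (hC' x).1
    have h4 := (hC' x).2.1
    have h5 := (hC' x).2.2
    rw [Real.norm_eq_abs, abs_mul, abs_of_nonneg (by positivity)]
    have k1 : ‖(h x)⁻¹ • gradient u x - (u x / h x ^ 2) • gradient h x‖ ≤ C + C * κ := by
      refine (norm_sub_le _ _).trans ?_
      rw [norm_smul, norm_smul, Real.norm_of_nonneg (by positivity),
        Real.norm_of_nonneg (by positivity)]
      have k2 : (h x)⁻¹ * ‖gradient u x‖ ≤ C := by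
        calc (h x)⁻¹ * ‖gradient u x‖ ≤ (h x)⁻¹ * (C * h x) := by gcongr
          _ = C := by field_simp
      have k3 : u x / h x ^ 2 * ‖gradient h x‖ ≤ C * κ := by
        calc u x / h x ^ 2 * ‖gradient h x‖ ≤ (C * h x) / h x ^ 2 * (κ * h x) := by
              gcongr
              exact hw.grad x
          _ = C * κ := by field_simp
      exact add_le_add k2 k3
    have k4 : (u x / h x + θ)⁻¹ ≤ θ⁻¹ := by
      gcongr
      have : 0 ≤ u x / h x := by positivity
      linarith
    calc (u x / h x + θ)⁻¹ * |⟪(h x)⁻¹ • gradient u x - (u x / h x ^ 2) • gradient h x,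
          cur W u x⟫_ℝ|
        ≤ θ⁻¹ * ((C + C * κ) * (C * h x)) := by
          gcongr
          exact (abs_real_inner_le_norm _ _).trans (by gcongr)
      _ = θ⁻¹ * ((C + C * κ) * C) * h x := by ring
  have iD : Integrable (fun x => u x + θ * h x) := hui.add (hw.int.const_mul θ)
  constructor
  · unfold entProd
    have h1 : -(∫ x, (u x / h x + θ)⁻¹ *
        ⟪(h x)⁻¹ • gradient u x - (u x / h x ^ 2) • gradient h x, cur W u x⟫_ℝ) -
        ∫ x, ⟪drift W u x, cur W u x⟫_ℝ =
        ∫ x, (-((u x / h x + θ)⁻¹ *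
          ⟪(h x)⁻¹ • gradient u x - (u x / h x ^ 2) • gradient h x, cur W u x⟫_ℝ) -
          ⟪drift W u x, cur W u x⟫_ℝ) := by
      have i1 : Integrable (fun x => -((u x / h x + θ)⁻¹ *
          ⟪(h x)⁻¹ • gradient u x - (u x / h x ^ 2) • gradient h x, cur W u x⟫_ℝ)) := iE.neg
      rw [integral_sub i1 ibj, integral_neg]
    have h2 : -(1 / 2) * (∫ x, ‖cur W u x‖ ^ 2 / (u x + θ * h x)) + κ ^ 2 * m +
        θ * B ^ 2 * ∫ x, h x =
        ∫ x, (-(1 / 2) * (‖cur W u x‖ ^ 2 / (u x + θ * h x)) + κ ^ 2 * u x +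
          θ * B ^ 2 * h x) := by
      have i1 : Integrable (fun x => -(1 / 2) * (‖cur W u x‖ ^ 2 / (u x + θ * h x))) :=
        iJ.const_mul _
      have i2 : Integrable (fun x => κ ^ 2 * u x) := hui.const_mul _
      have i3 : Integrable (fun x => θ * B ^ 2 * h x) := hw.int.const_mul _
      have i4 : Integrable (fun x => -(1 / 2) * (‖cur W u x‖ ^ 2 / (u x + θ * h x)) +
        κ ^ 2 * u x) := i1.add i2
      rw [integral_add i4 i3, integral_add i1 i2, integral_const_mul, integral_const_mul,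
        integral_const_mul, hum]
    rw [h1, h2]
    have i1 : Integrable (fun x => -(1 / 2) * (‖cur W u x‖ ^ 2 / (u x + θ * h x)) + κ ^ 2 * u x +
          θ * B ^ 2 * h x) :=
      ((iJ.const_mul _).add (hui.const_mul _)).add (hw.int.const_mul _)
    have i2 : Integrable (fun x => -((u x / h x + θ)⁻¹ *
          ⟪(h x)⁻¹ • gradient u x - (u x / h x ^ 2) • gradient h x, cur W u x⟫_ℝ) -
          ⟪drift W u x, cur W u x⟫_ℝ) := iE.neg.sub ibj
    apply integral_mono i2 i1
    intro x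
    exact ENTa_pointwise (hun x) (hw.pos x) hθ (hcur x) (hB x) (hw.grad x) hκ
  · have h1 : ∫ x, ‖cur W u x‖ = ∫ x, Real.sqrt (u x + θ * h x) *
        (‖cur W u x‖ / Real.sqrt (u x + θ * h x)) := by
      congr 1
      ext x
      have := Real.sqrt_pos.2 (hD x)
      field_simp
    have e1 : (fun x => Real.sqrt (u x + θ * h x) ^ 2) = fun x => u x + θ * h x := by
      ext x
      rw [Real.sq_sqrt (hD x).le]
    have e2 : (fun x => (‖cur W u x‖ / Real.sqrt (u x + θ * h x)) ^ 2) =
        fun x => ‖cur W u x‖ ^ 2 / (u x + θ * h x) := by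
      ext x
      rw [div_pow, Real.sq_sqrt (hD x).le]
    have h2 := cs (μ := volume) (f := fun x => Real.sqrt (u x + θ * h x))
      (g := fun x => ‖cur W u x‖ / Real.sqrt (u x + θ * h x)) (by rw [e1]; exact iD)
      (by rw [e2]; exact iJ) (by
        have e3 : (fun x => Real.sqrt (u x + θ * h x) *
          (‖cur W u x‖ / Real.sqrt (u x + θ * h x))) = fun x => ‖cur W u x‖ := by
          ext x
          have := Real.sqrt_pos.2 (hD x)
          field_simp
        rw [e3]; exact ij)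
    rw [h1]
    refine h2.trans (le_of_eq ?_)
    rw [e1, e2]
    congr 1
    have i3 : Integrable (fun x => θ * h x) := hw.int.const_mul _
    rw [integral_add hui i3, integral_const_mul, hum]

end Pool.Agent.Work.MP_9371de_an

end

section

open MeasureTheory Set Filter Topology
open scoped Real InnerProductSpace

namespace Pool.Agent.Work.MP_9371de_an

theorem heat_sq_integrable (d : ℕ) (t : ℝ) (ht : 0 < t) :
    Integrable (fun y : E d => heat d t y * ‖y‖ ^ 2) := by
  have hcont : Continuous (heat d t) := (itemH1 d t ht).2.1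
  have hb : 0 < 1 / (8 * t) := by positivity
  have h := (gauss_integrable' (d := d) hb).const_mul (8 * t * (4 * π * t) ^ (-(d : ℝ) / 2))
  refine h.mono' (by fun_prop) (Eventually.of_forall fun y => ?_)
  have hpos : 0 ≤ heat d t y := ((itemH1 d t ht).1 y).le
  rw [Real.norm_eq_abs, abs_of_nonneg (by positivity), heat_eq]
  have h3 : Real.exp (-(1 / (4 * t)) * ‖y‖ ^ 2) =
      Real.exp (-(1 / (8 * t)) * ‖y‖ ^ 2) * Real.exp (-(1 / (8 * t)) * ‖y‖ ^ 2) := by
    rw [← Real.exp_add]
    congr 1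
    field_simp
    ring
  have h1 : (1 / (8 * t)) * ‖y‖ ^ 2 + 1 ≤ Real.exp ((1 / (8 * t)) * ‖y‖ ^ 2) :=
    Real.add_one_le_exp _
  have h2 : Real.exp (-(1 / (8 * t)) * ‖y‖ ^ 2) * Real.exp ((1 / (8 * t)) * ‖y‖ ^ 2) = 1 := by
    rw [← Real.exp_add]
    have : -(1 / (8 * t)) * ‖y‖ ^ 2 + (1 / (8 * t)) * ‖y‖ ^ 2 = 0 := by ring
    rw [this, Real.exp_zero]
  have h4 : ‖y‖ ^ 2 ≤ 8 * t * Real.exp ((1 / (8 * t)) * ‖y‖ ^ 2) := by
    have : ‖y‖ ^ 2 = 8 * t * ((1 / (8 * t)) * ‖y‖ ^ 2) := by field_simp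
    calc ‖y‖ ^ 2 = 8 * t * ((1 / (8 * t)) * ‖y‖ ^ 2) := this
      _ ≤ 8 * t * Real.exp ((1 / (8 * t)) * ‖y‖ ^ 2) := by
        gcongr
        linarith
  rw [h3]
  have hE : 0 < Real.exp (-(1 / (8 * t)) * ‖y‖ ^ 2) := Real.exp_pos _
  have hP : 0 ≤ (4 * π * t) ^ (-(d : ℝ) / 2) := by positivity
  calc (4 * π * t) ^ (-(d : ℝ) / 2) * (Real.exp (-(1 / (8 * t)) * ‖y‖ ^ 2) *
        Real.exp (-(1 / (8 * t)) * ‖y‖ ^ 2)) * ‖y‖ ^ 2
      ≤ (4 * π * t) ^ (-(d : ℝ) / 2) * (Real.exp (-(1 / (8 * t)) * ‖y‖ ^ 2) *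
        Real.exp (-(1 / (8 * t)) * ‖y‖ ^ 2)) * (8 * t * Real.exp ((1 / (8 * t)) * ‖y‖ ^ 2)) := by
        gcongr
    _ = 8 * t * (4 * π * t) ^ (-(d : ℝ) / 2) * Real.exp (-(1 / (8 * t)) * ‖y‖ ^ 2) *
        (Real.exp (-(1 / (8 * t)) * ‖y‖ ^ 2) * Real.exp ((1 / (8 * t)) * ‖y‖ ^ 2)) := by ring
    _ = 8 * t * (4 * π * t) ^ (-(d : ℝ) / 2) * Real.exp (-(1 / (8 * t)) * ‖y‖ ^ 2) := by
        rw [h2, mul_one]

theorem heat_norm_integrable (d : ℕ) (t : ℝ) (ht : 0 < t) :
    Integrable (fun y : E d => heat d t y * ‖y‖) := by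
  have hcont : Continuous (heat d t) := (itemH1 d t ht).2.1
  refine ((itemH1 d t ht).2.2.1.add (heat_sq_integrable d t ht)).mono' (by fun_prop)
    (Eventually.of_forall fun y => ?_)
  have hpos : 0 ≤ heat d t y := ((itemH1 d t ht).1 y).le
  rw [Real.norm_eq_abs, abs_of_nonneg (by positivity)]
  simp only [Pi.add_apply]
  have : ‖y‖ ≤ 1 + ‖y‖ ^ 2 := by nlinarith [sq_nonneg (‖y‖ - 1), norm_nonneg y]
  nlinarith

theorem heat_inner_integrable (d : ℕ) (t : ℝ) (ht : 0 < t) (a : E d) :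
    Integrable (fun y : E d => heat d t y * ⟪a, y⟫_ℝ) := by
  have hcont : Continuous (heat d t) := (itemH1 d t ht).2.1
  refine ((heat_norm_integrable d t ht).const_mul ‖a‖).mono' (by fun_prop)
    (Eventually.of_forall fun y => ?_)
  have hpos : 0 ≤ heat d t y := ((itemH1 d t ht).1 y).le
  rw [Real.norm_eq_abs, abs_mul, abs_of_nonneg hpos]
  have := abs_real_inner_le_norm a y
  nlinarith

theorem heat_inner_inner_integrable (d : ℕ) (t : ℝ) (ht : 0 < t) (a b : E d) :
    Integrable (fun y : E d => heat d t y * (⟪a, y⟫_ℝ * ⟪b, y⟫_ℝ)) := by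
  have hcont : Continuous (heat d t) := (itemH1 d t ht).2.1
  refine ((heat_sq_integrable d t ht).const_mul (‖a‖ * ‖b‖)).mono' (by fun_prop)
    (Eventually.of_forall fun y => ?_)
  have hpos : 0 ≤ heat d t y := ((itemH1 d t ht).1 y).le
  rw [Real.norm_eq_abs, abs_mul, abs_mul, abs_of_nonneg hpos]
  have h1 := abs_real_inner_le_norm a y
  have h2 := abs_real_inner_le_norm b y
  calc heat d t y * (|⟪a, y⟫_ℝ| * |⟪b, y⟫_ℝ|)
      ≤ heat d t y * ((‖a‖ * ‖y‖) * (‖b‖ * ‖y‖)) := by gcongr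
    _ = ‖a‖ * ‖b‖ * (heat d t y * ‖y‖ ^ 2) := by ring

theorem heat_second_moment (d : ℕ) (t : ℝ) (ht : 0 < t) (a b : E d) :
    ∫ y : E d, heat d t y * (⟪a, y⟫_ℝ * ⟪b, y⟫_ℝ) = 2 * t * ⟪a, b⟫_ℝ := by
  have hf : ∀ y : E d, fderiv ℝ (fun y : E d => ⟪b, y⟫_ℝ) y a = ⟪b, a⟫_ℝ := by
    intro y
    have : (fun y : E d => ⟪b, y⟫_ℝ) = fun y => (innerSL ℝ b) y := rfl
    rw [this, ContinuousLinearMap.fderiv]
    rfl
  have hg : ∀ y : E d, fderiv ℝ (heat d t) y a = -(1 / (2 * t)) * (heat d t y * ⟪a, y⟫_ℝ) := by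
    intro y
    have h := heat_hasGradientAt d t ht y
    rw [hasGradientAt_iff_hasFDerivAt] at h
    rw [h.fderiv, InnerProductSpace.toDual_apply_apply, gheat, real_inner_smul_left,
      real_inner_comm]
    ring
  have hI := integral_mul_fderiv_eq_neg_fderiv_mul_of_integrable (𝕜 := ℝ) (μ := volume)
    (f := fun y : E d => ⟪b, y⟫_ℝ) (g := heat d t) (v := a) ?_ ?_ ?_ ?_ ?_
  · simp_rw [hf, hg] at hI
    rw [integral_const_mul, (itemH1 d t ht).2.2.2.1] at hI
    have h2 : ∫ y : E d, ⟪b, y⟫_ℝ * (-(1 / (2 * t)) * (heat d t y * ⟪a, y⟫_ℝ)) =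
        -(1 / (2 * t)) * ∫ y : E d, heat d t y * (⟪a, y⟫_ℝ * ⟪b, y⟫_ℝ) := by
      rw [← integral_const_mul]
      congr 1
      funext y
      ring
    rw [h2, real_inner_comm a b] at hI
    generalize (∫ y : E d, heat d t y * (⟪a, y⟫_ℝ * ⟪b, y⟫_ℝ)) = I at hI ⊢
    field_simp at hI
    linarith
  · simp_rw [hf]
    exact (itemH1 d t ht).2.2.1.const_mul _
  · simp_rw [hg]
    refine ((heat_inner_inner_integrable d t ht a b).const_mul (-(1 / (2 * t)))).congr
      (Eventually.of_forall fun y => ?_)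
    ring
  · refine (heat_inner_integrable d t ht b).congr (Eventually.of_forall fun y => ?_)
    ring
  · intro y _
    have : (fun y : E d => ⟪b, y⟫_ℝ) = fun y => (innerSL ℝ b) y := rfl
    rw [this]
    exact (innerSL ℝ b).differentiableAt
  · intro y _
    exact (heat_hasGradientAt d t ht y).differentiableAt

theorem heat_sq_moment (d : ℕ) (t : ℝ) (ht : 0 < t) :
    ∫ y : E d, heat d t y * ‖y‖ ^ 2 = 2 * d * t := by
  have h1 : ∀ y : E d, heat d t y * ‖y‖ ^ 2 = ∑ i : Fin d, heat d t y *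
      (⟪EuclideanSpace.single i (1 : ℝ), y⟫_ℝ * ⟪EuclideanSpace.single i (1 : ℝ), y⟫_ℝ) := by
    intro y
    rw [← Finset.mul_sum, EuclideanSpace.norm_sq_eq]
    congr 1
    refine Finset.sum_congr rfl fun i _ => ?_
    rw [EuclideanSpace.inner_single_left]
    simp [sq]
  simp_rw [h1]
  rw [integral_finsetSum _ fun i _ => heat_inner_inner_integrable d t ht _ _]
  simp_rw [heat_second_moment d t ht]
  have h2 : ∀ i : Fin d, ⟪EuclideanSpace.single i (1 : ℝ), EuclideanSpace.single i (1 : ℝ)⟫_ℝ =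
      (1 : ℝ) := by
    intro i
    rw [EuclideanSpace.inner_single_left]
    simp
  simp_rw [h2]
  simp
  ring

theorem itemH2 : ClaimH2 := by
  intro d t ht
  refine ⟨fun a b => ⟨heat_inner_inner_integrable d t ht a b, heat_second_moment d t ht a b⟩,
    heat_sq_integrable d t ht, heat_sq_moment d t ht, heat_norm_integrable d t ht, ?_⟩
  set m := ∫ y : E d, heat d t y * ‖y‖ with hm
  have h1 : 0 ≤ ∫ y : E d, heat d t y * (‖y‖ - m) ^ 2 :=
    integral_nonneg fun y => mul_nonneg ((itemH1 d t ht).1 y).le (sq_nonneg _)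
  have h2 : ∫ y : E d, heat d t y * (‖y‖ - m) ^ 2 = 2 * d * t - 2 * m * m + m ^ 2 := by
    have e1 : ∀ y : E d, heat d t y * (‖y‖ - m) ^ 2 =
        heat d t y * ‖y‖ ^ 2 - 2 * m * (heat d t y * ‖y‖) + m ^ 2 * heat d t y := by
      intro y
      ring
    simp_rw [e1]
    rw [integral_add, integral_sub, integral_const_mul, integral_const_mul, heat_sq_moment d t ht,
      (itemH1 d t ht).2.2.2.1, ← hm, mul_one]
    · exact heat_sq_integrable d t ht
    · exact (heat_norm_integrable d t ht).const_mul _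
    · exact (heat_sq_integrable d t ht).sub ((heat_norm_integrable d t ht).const_mul _)
    · exact (itemH1 d t ht).2.2.1.const_mul _
  apply Real.le_sqrt_of_sq_le
  nlinarith

end Pool.Agent.Work.MP_9371de_an

end

section

open MeasureTheory Set Filter Topology
open scoped Real InnerProductSpace

namespace Pool.Agent.Work.MP_9371de_an

theorem heat_two (d : ℕ) (t : ℝ) (ht : 0 < t) (x : E d) :
    heat d t x = (2 : ℝ) ^ ((d : ℝ) / 2) * Real.exp (-(1 / (8 * t)) * ‖x‖ ^ 2) *
      heat d (2 * t) x := by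
  rw [heat_eq, heat_eq]
  have h1 : (4 * π * (2 * t)) ^ (-(d : ℝ) / 2) =
      (2 : ℝ) ^ (-(d : ℝ) / 2) * (4 * π * t) ^ (-(d : ℝ) / 2) := by
    rw [← Real.mul_rpow (by norm_num) (by positivity)]
    congr 1
    ring
  have h2 : (2 : ℝ) ^ ((d : ℝ) / 2) * (2 : ℝ) ^ (-(d : ℝ) / 2) = 1 := by
    rw [← Real.rpow_add (by norm_num)]
    have : (d : ℝ) / 2 + -(d : ℝ) / 2 = 0 := by ring
    rw [this, Real.rpow_zero]
  have h3 : Real.exp (-(1 / (4 * t)) * ‖x‖ ^ 2) =
      Real.exp (-(1 / (8 * t)) * ‖x‖ ^ 2) * Real.exp (-(1 / (4 * (2 * t))) * ‖x‖ ^ 2) := by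
    rw [← Real.exp_add]
    congr 1
    field_simp
    ring
  rw [h1, h3]
  calc _ = ((2 : ℝ) ^ ((d : ℝ) / 2) * (2 : ℝ) ^ (-(d : ℝ) / 2)) *
        ((4 * π * t) ^ (-(d : ℝ) / 2) *
      (Real.exp (-(1 / (8 * t)) * ‖x‖ ^ 2) * Real.exp (-(1 / (4 * (2 * t))) * ‖x‖ ^ 2))) := by
        rw [h2, one_mul]
    _ = _ := by ring

theorem norm_mul_exp_le (t r : ℝ) (ht : 0 < t) :
    r * Real.exp (-(1 / (8 * t)) * r ^ 2) ≤ 2 * Real.sqrt t := by
  have h1 : (1 / (8 * t)) * r ^ 2 + 1 ≤ Real.exp ((1 / (8 * t)) * r ^ 2) :=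
    Real.add_one_le_exp _
  have h2 : Real.exp (-(1 / (8 * t)) * r ^ 2) * Real.exp ((1 / (8 * t)) * r ^ 2) = 1 := by
    rw [← Real.exp_add]
    have : -(1 / (8 * t)) * r ^ 2 + (1 / (8 * t)) * r ^ 2 = 0 := by ring
    rw [this, Real.exp_zero]
  have hs : 0 < Real.sqrt t := Real.sqrt_pos.mpr ht
  have hst : Real.sqrt t ^ 2 = t := Real.sq_sqrt ht.le
  have h3 : r ≤ 2 * Real.sqrt t * ((1 / (8 * t)) * r ^ 2 + 1) := by
    have : 2 * Real.sqrt t * ((1 / (8 * t)) * r ^ 2 + 1) - r =
        (r ^ 2 / 4 + 2 * (Real.sqrt t) ^ 2 - r * Real.sqrt t) / Real.sqrt t := by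
      rw [eq_div_iff hs.ne']
      have e1 : 1 / (8 * t) = 1 / (8 * (Real.sqrt t) ^ 2) := by rw [hst]
      rw [e1]
      field_simp
      ring
    have h4 : 0 ≤ (r ^ 2 / 4 + 2 * (Real.sqrt t) ^ 2 - r * Real.sqrt t) / Real.sqrt t := by
      apply div_nonneg _ hs.le
      nlinarith [sq_nonneg (r / 2 - Real.sqrt t), sq_nonneg (Real.sqrt t)]
    linarith
  have hE : 0 < Real.exp (-(1 / (8 * t)) * r ^ 2) := Real.exp_pos _
  calc r * Real.exp (-(1 / (8 * t)) * r ^ 2)
      ≤ (2 * Real.sqrt t * ((1 / (8 * t)) * r ^ 2 + 1)) *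
        Real.exp (-(1 / (8 * t)) * r ^ 2) := by gcongr
    _ ≤ (2 * Real.sqrt t * Real.exp ((1 / (8 * t)) * r ^ 2)) *
        Real.exp (-(1 / (8 * t)) * r ^ 2) := by gcongr
    _ = 2 * Real.sqrt t * (Real.exp (-(1 / (8 * t)) * r ^ 2) *
          Real.exp ((1 / (8 * t)) * r ^ 2)) := by ring
    _ = 2 * Real.sqrt t := by rw [h2, mul_one]

theorem itemH4 : ClaimH4 := by
  intro d
  refine ⟨(2 : ℝ) ^ ((d : ℝ) / 2), by positivity, fun t ht x => ⟨?_, ?_⟩⟩
  · have hh : 0 ≤ heat d (2 * t) x := ((itemH1 d (2 * t) (by positivity)).1 x).le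
    have h0 : 0 ≤ heat d t x := ((itemH1 d t ht).1 x).le
    have hs : 0 < Real.sqrt t := Real.sqrt_pos.mpr ht
    have hst : Real.sqrt t * Real.sqrt t = t := Real.mul_self_sqrt ht.le
    have h1 : ‖gheat d t x‖ = heat d t x * ‖x‖ / (2 * t) := by
      unfold gheat
      rw [norm_smul, Real.norm_eq_abs, abs_div, abs_neg, abs_of_nonneg h0,
        abs_of_pos (by positivity : (0 : ℝ) < 2 * t)]
      ring
    have h2 : t ^ (-(1 / 2 : ℝ)) = 1 / Real.sqrt t := by
      rw [Real.rpow_neg ht.le, Real.sqrt_eq_rpow, one_div (t ^ (1 / 2 : ℝ))]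
    rw [h1, h2, heat_two d t ht x]
    have h3 := norm_mul_exp_le t ‖x‖ ht
    have hC : 0 ≤ (2 : ℝ) ^ ((d : ℝ) / 2) := by positivity
    calc (2 : ℝ) ^ ((d : ℝ) / 2) * Real.exp (-(1 / (8 * t)) * ‖x‖ ^ 2) *
          heat d (2 * t) x * ‖x‖ / (2 * t)
        = (2 : ℝ) ^ ((d : ℝ) / 2) * heat d (2 * t) x / (2 * t) *
          (‖x‖ * Real.exp (-(1 / (8 * t)) * ‖x‖ ^ 2)) := by ring
      _ ≤ (2 : ℝ) ^ ((d : ℝ) / 2) * heat d (2 * t) x / (2 * t) * (2 * Real.sqrt t) := by
          gcongr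
      _ = (2 : ℝ) ^ ((d : ℝ) / 2) * (1 / Real.sqrt t) * heat d (2 * t) x := by
          have e1 : (2 : ℝ) * t = 2 * (Real.sqrt t * Real.sqrt t) := by rw [hst]
          have e2 : heat d (2 * t) x / (2 * t) * (2 * Real.sqrt t) =
              (1 / Real.sqrt t) * heat d (2 * t) x := by
            have : heat d (2 * t) x / (2 * t) = heat d (2 * t) x / (2 * (Real.sqrt t * Real.sqrt t)) := by
              rw [hst]
            rw [this]
            field_simp
          calc _ = (2 : ℝ) ^ ((d : ℝ) / 2) *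
                (heat d (2 * t) x / (2 * t) * (2 * Real.sqrt t)) := by ring
            _ = _ := by rw [e2]; ring
  · have hh : 0 ≤ heat d (2 * t) x := ((itemH1 d (2 * t) (by positivity)).1 x).le
    rw [heat_two d t ht x]
    have h3 : Real.exp (-(1 / (8 * t)) * ‖x‖ ^ 2) ≤ 1 := by
      apply Real.exp_le_one_iff.mpr
      have : 0 ≤ (1 / (8 * t)) * ‖x‖ ^ 2 := by positivity
      linarith
    have hC : 0 ≤ (2 : ℝ) ^ ((d : ℝ) / 2) := by positivity
    calc (2 : ℝ) ^ ((d : ℝ) / 2) * Real.exp (-(1 / (8 * t)) * ‖x‖ ^ 2) * heat d (2 * t) x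
        ≤ (2 : ℝ) ^ ((d : ℝ) / 2) * 1 * heat d (2 * t) x := by gcongr
      _ = _ := by ring

end Pool.Agent.Work.MP_9371de_an

end
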