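import Pool.Agent.Work.MP_9371de_an.Claims
import Pool.Agent.Work.MP_9371de_an.Bd.B02
import Pool.Agent.Work.MP_9371de_an.Bd.B03

/-! Bundle of small proof modules (one section per former module). -/

section

/-! Item P5: continuity in time. -/

open MeasureTheory Set Filter Topology
open scoped Real InnerProductSpace

namespace Pool.Agent.Work.MP_9371de_an

theorem P5_heat_le {d : ℕ} {s t T : ℝ} (hs : 0 < s) (hst : s ≤ t) (htT : t ≤ T) (z : E d) :
    heat d t z ≤ (T / s) ^ ((d : ℝ) / 2) * heat d T z := by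
  have ht : 0 < t := by linarith
  have hT : 0 < T := by linarith
  have h4 : (4 * π * t) ^ (-(d : ℝ) / 2) ≤ (4 * π * s) ^ (-(d : ℝ) / 2) := by
    apply Real.rpow_le_rpow_of_nonpos (by positivity)
    · have : 0 < 4 * π := by positivity
      nlinarith
    · have : (0 : ℝ) ≤ d := Nat.cast_nonneg d
      linarith
  have h5 : (T / s) ^ ((d : ℝ) / 2) * (4 * π * T) ^ (-(d : ℝ) / 2) =
      (4 * π * s) ^ (-(d : ℝ) / 2) := by
    have h6 : -(d : ℝ) / 2 = -((d : ℝ) / 2) := by ring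
    rw [h6, Real.rpow_neg (by positivity), Real.rpow_neg (by positivity),
      Real.div_rpow hT.le hs.le, Real.mul_rpow (by positivity) hT.le,
      Real.mul_rpow (by positivity) hs.le]
    have h7 : 0 < T ^ ((d : ℝ) / 2) := Real.rpow_pos_of_pos hT _
    have h8 : 0 < s ^ ((d : ℝ) / 2) := Real.rpow_pos_of_pos hs _
    have h9 : 0 < (4 * π) ^ ((d : ℝ) / 2) := Real.rpow_pos_of_pos (by positivity) _
    field_simp
  have h6 : Real.exp (-‖z‖ ^ 2 / (4 * t)) ≤ Real.exp (-‖z‖ ^ 2 / (4 * T)) := by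
    apply Real.exp_le_exp.2
    rw [neg_div, neg_div, neg_le_neg_iff]
    exact div_le_div_of_nonneg_left (sq_nonneg _) (by linarith) (by linarith)
  unfold heat
  rw [← mul_assoc, h5]
  exact mul_le_mul h4 h6 (Real.exp_nonneg _) (Real.rpow_nonneg (by positivity) _)

theorem P5_heat_cont {d : ℕ} {t : ℝ} (ht : 0 < t) (z : E d) :
    ContinuousAt (fun t => heat d t z) t := by
  unfold heat
  refine ContinuousAt.mul ?_ ?_
  · refine ContinuousAt.rpow_const (by fun_prop) (Or.inl ?_)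
    positivity
  · refine Real.continuous_exp.continuousAt.comp ?_
    refine ContinuousAt.div (by fun_prop) (by fun_prop) ?_
    positivity

theorem P5_gheat_cont {d : ℕ} {t : ℝ} (ht : 0 < t) (z : E d) :
    ContinuousAt (fun t => gheat d t z) t := by
  unfold gheat
  have h : ContinuousAt (fun t : ℝ => -(heat d t z) / (2 * t)) t :=
    ContinuousAt.div (P5_heat_cont ht z).neg (by fun_prop) (by positivity)
  exact h.smul continuousAt_const

/-- A uniform bound for the gradient of the kernel on a time interval. -/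
theorem P5_gheat_le (H1 : ClaimH1) (H4 : ClaimH4) (d : ℕ) {s T : ℝ} (hs : 0 < s) (hsT : s ≤ T) :
    ∃ B : ℝ, 0 ≤ B ∧ ∀ t, s ≤ t → t ≤ T → ∀ z : E d, ‖gheat d t z‖ ≤ B * heat d (2 * T) z := by
  obtain ⟨C, hC, hK⟩ := H4 d
  have hT : 0 < T := by linarith
  refine ⟨C * s ^ (-(1 / 2 : ℝ)) * ((2 * T) / (2 * s)) ^ ((d : ℝ) / 2), by positivity, ?_⟩
  intro t hst htT z
  have ht : 0 < t := by linarith
  have h1 := (hK t ht z).1
  have h2 := P5_heat_le (d := d) (s := 2 * s) (t := 2 * t) (T := 2 * T) (by linarith)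
    (by linarith) (by linarith) z
  have h3 : t ^ (-(1 / 2 : ℝ)) ≤ s ^ (-(1 / 2 : ℝ)) :=
    Real.rpow_le_rpow_of_nonpos hs hst (by norm_num)
  have h4 : 0 ≤ heat d (2 * t) z := ((H1 d (2 * t) (by linarith)).1 z).le
  calc ‖gheat d t z‖ ≤ C * t ^ (-(1 / 2 : ℝ)) * heat d (2 * t) z := h1
    _ ≤ C * s ^ (-(1 / 2 : ℝ)) * (((2 * T) / (2 * s)) ^ ((d : ℝ) / 2) * heat d (2 * T) z) := by
        apply mul_le_mul (mul_le_mul_of_nonneg_left h3 hC.le) h2 h4
        have : 0 ≤ s ^ (-(1 / 2 : ℝ)) := Real.rpow_nonneg hs.le _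
        positivity
    _ = _ := by ring

/-- Continuity of integrals dominated by a Gauss kernel. -/
theorem P5_core (H1 : ClaimH1) {d : ℕ} {G : Type*} [NormedAddCommGroup G] [NormedSpace ℝ G]
    (k : ℝ → E d → G) (x : E d) {t₀ B T : ℝ} (ht₀ : 0 < t₀) (hT : 0 < T)
    (hm : ∀ t, 0 < t → AEStronglyMeasurable (k t) volume)
    (hb : ∀ t, t₀ / 2 ≤ t → t ≤ 2 * t₀ → ∀ y, ‖k t y‖ ≤ B * heat d T (x - y))
    (hc : ∀ y, ContinuousAt (fun t => k t y) t₀) :
    ContinuousAt (fun t => ∫ y, k t y) t₀ := by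
  have hint : Integrable (fun y : E d => B * heat d T (x - y)) :=
    ((H1 d T hT).2.2.1.comp_sub_left x).const_mul B
  have hI : Icc (t₀ / 2) (2 * t₀) ∈ 𝓝 t₀ := Icc_mem_nhds (by linarith) (by linarith)
  refine continuousAt_of_dominated ?_ ?_ hint (Eventually.of_forall hc)
  · filter_upwards [hI] with t ht
    exact hm t (by linarith [ht.1])
  · filter_upwards [hI] with t ht
    exact Eventually.of_forall (hb t ht.1 ht.2)

/-- Item P5. -/
theorem itemP5 (H1 : ClaimH1) (H4 : ClaimH4) (P3 : ClaimP3) : ClaimP5 := by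
  intro d u F M hu huM hF hFM x
  have hM0 : 0 ≤ M := (norm_nonneg _).trans (hFM 0)
  have hheat : ∀ t : ℝ, 0 < t → Measurable (fun y : E d => heat d t (x - y)) := fun t ht =>
    ((H1 d t ht).2.1.comp (continuous_const.sub continuous_id)).measurable
  have hgheat : ∀ t : ℝ, 0 < t → Measurable (fun y : E d => gheat d t (x - y)) := fun t ht =>
    ((H1 d t ht).2.2.2.2.2.2.2.1.comp (continuous_const.sub continuous_id)).measurable
  have hQ : ∀ (x : E d) (t₀ : ℝ), 0 < t₀ → ContinuousAt (fun t => Q t F x) t₀ := by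
    intro x t₀ ht₀
    obtain ⟨B, hB, hBz⟩ := P5_gheat_le H1 H4 d (s := t₀ / 2) (T := 2 * t₀) (by linarith)
      (by linarith)
    refine P5_core H1 (fun t y => ⟪gheat d t (x - y), F y⟫_ℝ) x (B := B * M)
      (T := 2 * (2 * t₀)) ht₀ (by linarith) ?_ ?_ ?_
    · intro t ht
      have h1 : Measurable (fun y : E d => gheat d t (x - y)) :=
        ((H1 d t ht).2.2.2.2.2.2.2.1.comp (continuous_const.sub continuous_id)).measurable
      exact (h1.inner hF).aestronglyMeasurable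
    · intro t h1 h2 y
      calc ‖⟪gheat d t (x - y), F y⟫_ℝ‖ ≤ ‖gheat d t (x - y)‖ * ‖F y‖ := norm_inner_le_norm _ _
        _ ≤ (B * heat d (2 * (2 * t₀)) (x - y)) * M :=
            mul_le_mul (hBz t h1 h2 _) (hFM y) (norm_nonneg _)
              ((norm_nonneg _).trans (hBz t h1 h2 _))
        _ = B * M * heat d (2 * (2 * t₀)) (x - y) := by ring
    · intro y
      exact (P5_gheat_cont ht₀ _).inner continuousAt_const
  refine ⟨?_, ?_, ?_, ?_⟩
  · intro t₀ ht₀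
    have ht₀' : 0 < t₀ := ht₀
    refine ContinuousAt.continuousWithinAt ?_
    refine P5_core H1 (fun t y => heat d t (x - y) * u y) x
      (B := (2 * t₀ / (t₀ / 2)) ^ ((d : ℝ) / 2) * M) (T := 2 * t₀) ht₀' (by linarith) ?_ ?_ ?_
    · intro t ht
      exact ((hheat t ht).mul hu).aestronglyMeasurable
    · intro t h1 h2 y
      have h3 := P5_heat_le (d := d) (s := t₀ / 2) (t := t) (T := 2 * t₀) (by linarith) h1 h2
        (x - y)
      have h4 : 0 ≤ heat d t (x - y) := ((H1 d t (by linarith)).1 _).le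
      rw [norm_mul, Real.norm_of_nonneg h4, Real.norm_eq_abs]
      calc heat d t (x - y) * |u y| ≤
          ((2 * t₀ / (t₀ / 2)) ^ ((d : ℝ) / 2) * heat d (2 * t₀) (x - y)) * M :=
            mul_le_mul h3 (huM y) (abs_nonneg _) (h4.trans h3)
        _ = _ := by ring
    · intro y
      exact (P5_heat_cont ht₀' _).mul continuousAt_const
  · intro t₀ ht₀
    have ht₀' : 0 < t₀ := ht₀
    refine ContinuousAt.continuousWithinAt ?_
    obtain ⟨B, hB, hBz⟩ := P5_gheat_le H1 H4 d (s := t₀ / 2) (T := 2 * t₀) (by linarith)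
      (by linarith)
    refine P5_core H1 (fun t y => u y • gheat d t (x - y)) x (B := M * B)
      (T := 2 * (2 * t₀)) ht₀' (by linarith) ?_ ?_ ?_
    · intro t ht
      exact (hu.smul (hgheat t ht)).aestronglyMeasurable
    · intro t h1 h2 y
      rw [norm_smul, Real.norm_eq_abs, mul_assoc]
      exact mul_le_mul (huM y) (hBz t h1 h2 _) (norm_nonneg _) hM0
    · intro y
      exact (P5_gheat_cont ht₀' _).const_smul (u y)
  · intro t₀ ht₀
    exact (hQ x t₀ ht₀).continuousWithinAt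
  · intro t₀ ht₀
    have ht₀' : 0 < t₀ := ht₀
    refine ContinuousAt.continuousWithinAt ?_
    obtain ⟨B, hB, hBz⟩ := P5_gheat_le H1 H4 d (s := t₀ / 2 / 2) (T := 2 * t₀ / 2) (by linarith)
      (by linarith)
    obtain ⟨C, hC, hCQ⟩ := P3 d
    refine P5_core H1 (fun t y => Q (t / 2) F y • gheat d (t / 2) (x - y)) x
      (B := C * (t₀ / 2 / 2) ^ (-(1 / 2 : ℝ)) * M * B)
      (T := 2 * (2 * t₀ / 2)) ht₀' (by linarith) ?_ ?_ ?_
    · intro t ht
      exact ((P3_meas H1 (by linarith) hF).smul (hgheat (t / 2) (by linarith))).aestronglyMeasurable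
    · intro t h1 h2 y
      rw [norm_smul, Real.norm_eq_abs, mul_assoc _ B]
      have h3 : |Q (t / 2) F y| ≤ C * (t₀ / 2 / 2) ^ (-(1 / 2 : ℝ)) * M := by
        refine ((hCQ (t / 2) F M (by linarith) hF hFM).2.2.2 y).trans ?_
        refine mul_le_mul_of_nonneg_right (mul_le_mul_of_nonneg_left ?_ hC.le) hM0
        exact Real.rpow_le_rpow_of_nonpos (by linarith) (by linarith) (by norm_num)
      exact mul_le_mul h3 (hBz (t / 2) (by linarith) (by linarith) _) (norm_nonneg _)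
        ((abs_nonneg _).trans h3)
    · intro y
      have h1 : ContinuousAt (fun t : ℝ => t / 2) t₀ := by fun_prop
      have h2 : ContinuousAt (fun t => Q (t / 2) F y) t₀ :=
        ContinuousAt.comp (f := fun t : ℝ => t / 2) (g := fun t => Q t F y)
          (hQ y (t₀ / 2) (by linarith)) h1
      have h3 : ContinuousAt (fun t => gheat d (t / 2) (x - y)) t₀ :=
        ContinuousAt.comp (f := fun t : ℝ => t / 2) (g := fun t => gheat d t (x - y))
          (P5_gheat_cont (by linarith) _) h1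
      exact h2.smul h3

end Pool.Agent.Work.MP_9371de_an

end

section

/-!
Item R4: weighted Lipschitz bound.
-/

open MeasureTheory Set Filter Topology
open scoped Real InnerProductSpace

namespace Pool.Agent.Work.MP_9371de_an

/-- the part of H5 that is used, for the times up to `T0` -/
def R4Exp (d : ℕ) (T0 C5 : ℝ) : Prop := ∀ t : ℝ, 0 < t → t ≤ T0 →
  Integrable (fun y : E d => Real.exp ‖y‖ * ‖gheat d t y‖) ∧
  (∫ y : E d, Real.exp ‖y‖ * ‖gheat d t y‖ ≤ C5 * t ^ (-(1 / 2 : ℝ)))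

theorem r4_one {τ s : ℝ} (h0 : 0 < s) (h : s ≤ τ) :
    1 ≤ Real.sqrt τ * s ^ (-(1 / 2 : ℝ)) := by
  rw [Real.rpow_neg h0.le, ← Real.sqrt_eq_rpow, ← div_eq_mul_inv,
    one_le_div (Real.sqrt_pos.2 h0)]
  exact Real.sqrt_le_sqrt h

section Kernel

variable {d : ℕ} {κ T0 C5 : ℝ} {h : E d → ℝ}

theorem r4_gh (h1 : ClaimH1) (hκ1 : κ ≤ 1) (hh : Weight d κ h)
    (h5 : R4Exp d T0 C5) {σ : ℝ} (hσ : 0 < σ) (hσT : σ ≤ T0) (x : E d) :
    Integrable (fun y => ‖gheat d σ (x - y)‖ * h y) ∧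
      ∫ y, ‖gheat d σ (x - y)‖ * h y ≤ C5 * σ ^ (-(1 / 2 : ℝ)) * h x := by
  obtain ⟨hi, hle⟩ := h5 σ hσ hσT
  obtain ⟨-, -, -, -, -, -, -, hgc, -⟩ := h1 d σ hσ
  have hhc : Continuous h := hh.c1.continuous
  have hb : ∀ z, ‖gheat d σ z‖ * h (x - z) ≤ h x * (Real.exp ‖z‖ * ‖gheat d σ z‖) := by
    intro z
    have e1 : h (x - z) ≤ Real.exp (κ * ‖z‖) * h x := by
      have := hh.harnack x (-z)
      rwa [norm_neg, ← sub_eq_add_neg] at this
    have e2 : Real.exp (κ * ‖z‖) ≤ Real.exp ‖z‖ := by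
      apply Real.exp_le_exp.2
      have := mul_le_mul_of_nonneg_right hκ1 (norm_nonneg z)
      linarith
    have e3 : h (x - z) ≤ Real.exp ‖z‖ * h x :=
      e1.trans (mul_le_mul_of_nonneg_right e2 (hh.pos x).le)
    calc ‖gheat d σ z‖ * h (x - z) ≤ ‖gheat d σ z‖ * (Real.exp ‖z‖ * h x) :=
          mul_le_mul_of_nonneg_left e3 (norm_nonneg _)
      _ = _ := by ring
  have hG : Integrable (fun z => ‖gheat d σ z‖ * h (x - z)) := by
    refine (hi.const_mul (h x)).mono' ?_ (Eventually.of_forall fun z => ?_)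
    · exact (hgc.norm.mul (hhc.comp (continuous_const.sub continuous_id))).aestronglyMeasurable
    · rw [Real.norm_of_nonneg (mul_nonneg (norm_nonneg _) (hh.pos _).le)]
      exact hb z
  have hfun : (fun y => ‖gheat d σ (x - y)‖ * h y) =
      fun y => (fun z => ‖gheat d σ z‖ * h (x - z)) (x - y) := by
    funext y
    simp
  constructor
  · rw [hfun]
    exact hG.comp_sub_left x
  · rw [hfun, integral_sub_left_eq_self (fun z => ‖gheat d σ z‖ * h (x - z)) volume x]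
    calc ∫ z, ‖gheat d σ z‖ * h (x - z) ≤ ∫ z, h x * (Real.exp ‖z‖ * ‖gheat d σ z‖) :=
          integral_mono hG (hi.const_mul (h x)) hb
      _ = h x * ∫ z, (Real.exp ‖z‖ * ‖gheat d σ z‖) := integral_const_mul _ _
      _ ≤ h x * (C5 * σ ^ (-(1 / 2 : ℝ))) := mul_le_mul_of_nonneg_left hle (hh.pos x).le
      _ = _ := by ring

theorem r4_gP (h1 : ClaimH1) (hκ1 : κ ≤ 1) (hh : Weight d κ h)
    (h5 : R4Exp d T0 C5) {σ : ℝ} (hσ : 0 < σ) (hσT : σ ≤ T0) {u : E d → ℝ} {C0 : ℝ}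
    (hC0 : 0 ≤ C0) (hu : ∀ y, |u y| ≤ C0 * h y) (x : E d) :
    ‖gP σ u x‖ ≤ C0 * C5 * σ ^ (-(1 / 2 : ℝ)) * h x := by
  obtain ⟨hi, hle⟩ := r4_gh h1 hκ1 hh h5 hσ hσT x
  have h2 : ‖∫ y, u y • gheat d σ (x - y)‖ ≤ ∫ y, C0 * (‖gheat d σ (x - y)‖ * h y) := by
    refine norm_integral_le_of_norm_le (hi.const_mul C0) (Eventually.of_forall fun y => ?_)
    rw [norm_smul, Real.norm_eq_abs]
    calc |u y| * ‖gheat d σ (x - y)‖ ≤ (C0 * h y) * ‖gheat d σ (x - y)‖ :=
          mul_le_mul_of_nonneg_right (hu y) (norm_nonneg _)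
      _ = _ := by ring
  rw [integral_const_mul] at h2
  calc ‖gP σ u x‖ ≤ C0 * ∫ y, ‖gheat d σ (x - y)‖ * h y := h2
    _ ≤ C0 * (C5 * σ ^ (-(1 / 2 : ℝ)) * h x) := mul_le_mul_of_nonneg_left hle hC0
    _ = _ := by ring

theorem r4_harnack1 (hκ1 : κ ≤ 1) (hh : Weight d κ h) (x k : E d) (hk : ‖k‖ ≤ 1) :
    h (x + k) ≤ Real.exp 1 * h x := by
  refine (hh.harnack x k).trans (mul_le_mul_of_nonneg_right ?_ (hh.pos x).le)
  apply Real.exp_le_exp.2
  have := mul_le_mul hκ1 hk (norm_nonneg k) zero_le_one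
  linarith

theorem r4_first (h1 : ClaimH1) (hP1 : ClaimP1) (_hκ0 : 0 < κ) (hκ1 : κ ≤ 1) (hh : Weight d κ h)
    (h5 : R4Exp d T0 C5) (hC5 : 0 ≤ C5) {σ : ℝ} (hσ : 0 < σ) (hσT : σ ≤ T0) {u : E d → ℝ}
    {C0 M : ℝ} (hC0 : 0 ≤ C0) (hum : Measurable u) (huM : ∀ y, |u y| ≤ M)
    (hu : ∀ y, |u y| ≤ C0 * h y) (x k : E d) (hk : ‖k‖ ≤ 1) :
    |P σ u (x + k) - P σ u x| ≤
      Real.exp 1 * C0 * C5 * ‖k‖ * σ ^ (-(1 / 2 : ℝ)) * h x := by
  obtain ⟨hg, -, -⟩ := hP1 d σ u M hσ hum huM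
  have hpow : 0 ≤ σ ^ (-(1 / 2 : ℝ)) := Real.rpow_nonneg hσ.le _
  have hball : ∀ z ∈ Metric.closedBall x 1,
      ‖fderiv ℝ (P σ u) z‖ ≤ Real.exp 1 * C0 * C5 * σ ^ (-(1 / 2 : ℝ)) * h x := by
    intro z hz
    have hz' : ‖z - x‖ ≤ 1 := by
      rw [← dist_eq_norm]
      exact Metric.mem_closedBall.1 hz
    have e1 : fderiv ℝ (P σ u) z = InnerProductSpace.toDual ℝ (E d) (gP σ u z) :=
      (hg z).hasFDerivAt.fderiv
    rw [e1, LinearIsometryEquiv.norm_map]
    have e2 := r4_harnack1 hκ1 hh x (z - x) hz'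
    rw [add_sub_cancel] at e2
    calc ‖gP σ u z‖ ≤ C0 * C5 * σ ^ (-(1 / 2 : ℝ)) * h z := r4_gP h1 hκ1 hh h5 hσ hσT hC0 hu z
      _ ≤ C0 * C5 * σ ^ (-(1 / 2 : ℝ)) * (Real.exp 1 * h x) :=
          mul_le_mul_of_nonneg_left e2 (by positivity)
      _ = _ := by ring
  have h2 := Convex.norm_image_sub_le_of_norm_fderiv_le (𝕜 := ℝ)
    (fun z _ => (hg z).hasFDerivAt.differentiableAt) hball (convex_closedBall x 1)
    (Metric.mem_closedBall_self zero_le_one)
    (show x + k ∈ Metric.closedBall x 1 by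
      rw [Metric.mem_closedBall, dist_eq_norm, add_sub_cancel_left]
      exact hk)
  rw [add_sub_cancel_left, Real.norm_eq_abs] at h2
  calc |P σ u (x + k) - P σ u x| ≤
      Real.exp 1 * C0 * C5 * σ ^ (-(1 / 2 : ℝ)) * h x * ‖k‖ := h2
    _ = _ := by ring

theorem r4_inner (h1 : ClaimH1) {σ : ℝ} (hσ : 0 < σ)
    (hgi : Integrable (fun y : E d => ‖gheat d σ y‖)) {F : E d → E d} {M : ℝ}
    (hF : Measurable F) (hFM : ∀ y, ‖F y‖ ≤ M) (x : E d) :
    Integrable (fun y => ⟪gheat d σ (x - y), F y⟫_ℝ) := by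
  obtain ⟨-, -, -, -, -, -, -, hgc, -⟩ := h1 d σ hσ
  have h2 : Integrable (fun y : E d => ‖gheat d σ (x - y)‖) := hgi.comp_sub_left x
  refine (h2.const_mul M).mono' ?_ (Eventually.of_forall fun y => ?_)
  · exact ((hgc.comp (continuous_const.sub continuous_id)).aestronglyMeasurable).inner
      hF.aestronglyMeasurable
  · calc ‖⟪gheat d σ (x - y), F y⟫_ℝ‖ ≤ ‖gheat d σ (x - y)‖ * ‖F y‖ := norm_inner_le_norm _ _
      _ ≤ ‖gheat d σ (x - y)‖ * M := mul_le_mul_of_nonneg_left (hFM y) (norm_nonneg _)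
      _ = M * ‖gheat d σ (x - y)‖ := mul_comm _ _

theorem r4_Qdiff (h1 : ClaimH1) (hκ1 : κ ≤ 1) (hh : Weight d κ h)
    (h5 : R4Exp d T0 C5) {σ : ℝ} (hσ : 0 < σ) (hσT : σ ≤ T0) {F : E d → E d} {M c : ℝ}
    (hF : Measurable F) (hFM : ∀ y, ‖F y‖ ≤ M) (hc : 0 ≤ c) (x k : E d)
    (hk : ∀ᵐ y, ‖F (y + k) - F y‖ ≤ c * h y) :
    |Q σ F (x + k) - Q σ F x| ≤ c * C5 * σ ^ (-(1 / 2 : ℝ)) * h x := by
  obtain ⟨hei, -⟩ := h5 σ hσ hσT
  obtain ⟨-, -, -, -, -, -, -, hgc, -⟩ := h1 d σ hσ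
  have hgi : Integrable (fun y : E d => ‖gheat d σ y‖) := by
    refine hei.mono' hgc.norm.aestronglyMeasurable (Eventually.of_forall fun y => ?_)
    rw [norm_norm]
    have : 1 ≤ Real.exp ‖y‖ := Real.one_le_exp (norm_nonneg y)
    nlinarith [norm_nonneg (gheat d σ y)]
  have hFk : Measurable (fun y => F (y + k)) := hF.comp (measurable_id.add_const k)
  have i1 := r4_inner h1 hσ hgi hFk (fun y => hFM (y + k)) x
  have i2 := r4_inner h1 hσ hgi hF hFM x
  have e1 : Q σ F (x + k) = ∫ y, ⟪gheat d σ (x - y), F (y + k)⟫_ℝ := by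
    unfold Q
    rw [← integral_add_right_eq_self (fun y => ⟪gheat d σ (x + k - y), F y⟫_ℝ) k]
    refine integral_congr_ae (Eventually.of_forall fun y => ?_)
    simp only [add_sub_add_right_eq_sub]
  have e2 : Q σ F (x + k) - Q σ F x = ∫ y, ⟪gheat d σ (x - y), F (y + k) - F y⟫_ℝ := by
    rw [e1]
    unfold Q
    rw [← integral_sub i1 i2]
    refine integral_congr_ae (Eventually.of_forall fun y => ?_)
    simp only [inner_sub_right]
  obtain ⟨hi, hle⟩ := r4_gh h1 hκ1 hh h5 hσ hσT x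
  have h2 : ‖∫ y, ⟪gheat d σ (x - y), F (y + k) - F y⟫_ℝ‖ ≤
      ∫ y, c * (‖gheat d σ (x - y)‖ * h y) := by
    refine norm_integral_le_of_norm_le (hi.const_mul c) ?_
    filter_upwards [hk] with y hy
    calc ‖⟪gheat d σ (x - y), F (y + k) - F y⟫_ℝ‖ ≤ ‖gheat d σ (x - y)‖ * ‖F (y + k) - F y‖ :=
          norm_inner_le_norm _ _
      _ ≤ ‖gheat d σ (x - y)‖ * (c * h y) := mul_le_mul_of_nonneg_left hy (norm_nonneg _)
      _ = _ := by ring
  rw [integral_const_mul] at h2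
  rw [e2]
  calc |∫ y, ⟪gheat d σ (x - y), F (y + k) - F y⟫_ℝ| ≤
      c * ∫ y, ‖gheat d σ (x - y)‖ * h y := h2
    _ ≤ c * (C5 * σ ^ (-(1 / 2 : ℝ)) * h x) := mul_le_mul_of_nonneg_left hle hc
    _ = _ := by ring

end Kernel

section Sol

variable {d : ℕ} {A K m κ : ℝ} {W h : E d → ℝ} {ρ : ℝ → E d → ℝ}

theorem r4_fluxm (hc : Clean d W m ρ) :
    Measurable (fun p : ℝ × E d => flux W (ρ p.1) p.2) := hc.meas.smul hc.dmeas

theorem r4_fluxb (hV : ClaimV1) (hp : Pot d A K W) (hc : Clean d W m ρ) {r M : ℝ}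
    (hM : ∀ y, |ρ r y| ≤ M) (y : E d) : ‖flux W (ρ r) y‖ ≤ M * (K * M) := by
  have hdr : ‖drift W (ρ r) y‖ ≤ K * M :=
    (hV d A K W (ρ r) M hp (hc.int r) (Eventually.of_forall hM)).2.1 y
  unfold flux
  rw [norm_smul, Real.norm_eq_abs]
  exact mul_le_mul (hM y) hdr (norm_nonneg _) ((abs_nonneg _).trans (hM y))

/-- the difference of the flux -/
theorem r4_fluxd (hV : ClaimV1) (hV2 : ClaimV2) (hp : Pot d A K W) (hc : Clean d W m ρ)
    (hh : Weight d κ h) {r M C0 Bh β : ℝ} (hM : ∀ y, |ρ r y| ≤ M)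
    (hC : ∀ y, ρ r y ≤ C0 * h y) (hBh : ∀ y, h y ≤ Bh) (hβ : 0 ≤ β) (k : E d)
    (hD : ∀ y, |ρ r (y + k) - ρ r y| ≤ β * h y) :
    ∀ᵐ y, ‖flux W (ρ r) (y + k) - flux W (ρ r) y‖ ≤ β * (K * M + C0 * K * Bh) * h y := by
  have hdr : ∀ y, ‖drift W (ρ r) y‖ ≤ K * M :=
    (hV d A K W (ρ r) M hp (hc.int r) (Eventually.of_forall hM)).2.1
  have hd2 := hV2 d A K W (ρ r) M (β * Bh) k hp (hc.int r) (Eventually.of_forall hM)
    (Eventually.of_forall fun y => (hD y).trans (mul_le_mul_of_nonneg_left (hBh y) hβ))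
  filter_upwards [hd2] with y hy
  have hKp := hp.K_pos
  have e1 : flux W (ρ r) (y + k) - flux W (ρ r) y =
      (ρ r (y + k) - ρ r y) • drift W (ρ r) (y + k) +
        ρ r y • (drift W (ρ r) (y + k) - drift W (ρ r) y) := by
    unfold flux
    rw [sub_smul, smul_sub]
    abel
  have hBh0 : 0 ≤ Bh := (hh.pos y).le.trans (hBh y)
  rw [e1]
  calc ‖(ρ r (y + k) - ρ r y) • drift W (ρ r) (y + k) +
        ρ r y • (drift W (ρ r) (y + k) - drift W (ρ r) y)‖ ≤
      ‖(ρ r (y + k) - ρ r y) • drift W (ρ r) (y + k)‖ +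
        ‖ρ r y • (drift W (ρ r) (y + k) - drift W (ρ r) y)‖ := norm_add_le _ _
    _ = |ρ r (y + k) - ρ r y| * ‖drift W (ρ r) (y + k)‖ +
        ρ r y * ‖drift W (ρ r) (y + k) - drift W (ρ r) y‖ := by
        rw [norm_smul, norm_smul, Real.norm_eq_abs, Real.norm_of_nonneg (hc.nonneg r y)]
    _ ≤ (β * h y) * (K * M) + (C0 * h y) * (K * (β * Bh)) := by
        refine add_le_add (mul_le_mul (hD y) (hdr _) (norm_nonneg _) ?_)
          (mul_le_mul (hC y) hy (norm_nonneg _) ((hc.nonneg r y).trans (hC y)))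
        exact mul_nonneg hβ (hh.pos y).le
    _ = _ := by ring

theorem r4_ii (hP3 : ClaimP3) (hPM : ClaimPM) (hV : ClaimV1) (hp : Pot d A K W)
    (hc : Clean d W m ρ) {M t0 s : ℝ} (hts : t0 < s) (hM : ∀ r, r ≤ s → ∀ y, |ρ r y| ≤ M)
    (x : E d) : IntervalIntegrable (fun r => Q (s - r) (flux W (ρ r)) x) volume t0 s := by
  obtain ⟨C3, hC3, hQ⟩ := hP3 d
  obtain ⟨-, -, hQm, -⟩ := hPM d ρ (fun r => flux W (ρ r)) hc.meas (r4_fluxm hc)
  have hmeas : Measurable (fun r => Q (s - r) (flux W (ρ r)) x) := by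
    have h2 : Measurable (fun r : ℝ => (((s - r, r), x) : (ℝ × ℝ) × E d)) := by fun_prop
    have h3 := Measurable.comp hQm h2
    simpa only [Function.comp_def] using h3
  obtain ⟨hi, -⟩ := r2_sqrt hts
  refine (hi.const_mul (C3 * (M * (K * M)))).mono_fun' hmeas.aestronglyMeasurable ?_
  have hne : ∀ᵐ r : ℝ, r ≠ s := by
    rw [ae_iff]
    simp
  rw [uIoc_of_le hts.le]
  filter_upwards [ae_restrict_mem measurableSet_Ioc, ae_restrict_of_ae hne] with r hr hrs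
  have hrs' : r < s := lt_of_le_of_ne hr.2 hrs
  have h3 := (hQ (s - r) (flux W (ρ r)) (M * (K * M)) (by linarith)
    ((r4_fluxm hc).comp measurable_prodMk_left)
    (fun y => r4_fluxb hV hp hc (hM r hrs'.le) y)).2.2.2 x
  rw [Real.norm_eq_abs]
  calc |Q (s - r) (flux W (ρ r)) x| ≤ C3 * (s - r) ^ (-(1 / 2 : ℝ)) * (M * (K * M)) := h3
    _ = _ := by ring

theorem r4_step (h1 : ClaimH1) (hP1 : ClaimP1) (hP3 : ClaimP3) (hPM : ClaimPM) (hV : ClaimV1)
    (hV2 : ClaimV2) (hB : ClaimBeta) (hp : Pot d A K W) (hc : Clean d W m ρ)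
    (hκ0 : 0 < κ) (hκ1 : κ ≤ 1) (hh : Weight d κ h) {T0 C5 M C0 Bh τ t0 α : ℝ}
    (h5 : R4Exp d T0 C5) (hC5 : 0 ≤ C5) (ht0 : 0 ≤ t0) (hτT : τ ≤ T0)
    (hM : ∀ r, r ≤ t0 + τ → ∀ y, |ρ r y| ≤ M)
    (hC0 : 0 ≤ C0) (hC : ∀ r, t0 ≤ r → r ≤ t0 + τ → ∀ y, ρ r y ≤ C0 * h y)
    (hBh : ∀ y, h y ≤ Bh) (hα : 0 ≤ α) (k : E d) (hk : ‖k‖ ≤ 1)
    (hq : 4 * (C5 * (K * M + C0 * K * Bh)) * Real.sqrt τ ≤ 1 / 2)
    (hyp : ∀ s, t0 < s → s ≤ t0 + τ → ∀ x,
      |ρ s (x + k) - ρ s x| ≤ α * (s - t0) ^ (-(1 / 2 : ℝ)) * h x) :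
    ∀ s, t0 < s → s ≤ t0 + τ → ∀ x,
      |ρ s (x + k) - ρ s x| ≤
        (Real.exp 1 * C0 * C5 * ‖k‖ + α / 2) * (s - t0) ^ (-(1 / 2 : ℝ)) * h x := by
  intro s hs hsτ x
  have hM0 : 0 ≤ M := (abs_nonneg _).trans (hM s hsτ x)
  have hBh0 : 0 ≤ Bh := (hh.pos x).le.trans (hBh x)
  have hKp := hp.K_pos
  have hhx := hh.pos x
  set c := K * M + C0 * K * Bh with hcdef
  have hc0 : 0 ≤ c := by positivity
  have hMs : ∀ r, r ≤ s → ∀ y, |ρ r y| ≤ M := fun r hr => hM r (hr.trans hsτ)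
  have b1 := r4_first h1 hP1 hκ0 hκ1 hh h5 hC5 (σ := s - t0) (by linarith) (by linarith) hC0
    (r2_slice hc t0) (hM t0 (by linarith)) (fun y => by
      rw [abs_of_nonneg (hc.nonneg t0 y)]
      exact hC t0 le_rfl (by linarith) y) x k hk
  have i1 := r4_ii hP3 hPM hV hp hc hs hMs (x + k)
  have i2 := r4_ii hP3 hPM hV hp hc hs hMs x
  obtain ⟨hBi, hB4⟩ := hB t0 s hs
  have b2 : ‖∫ r in t0..s, (Q (s - r) (flux W (ρ r)) (x + k) - Q (s - r) (flux W (ρ r)) x)‖ ≤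
      ∫ r in t0..s, (α * c * C5 * h x) *
        ((s - r) ^ (-(1 / 2 : ℝ)) * (r - t0) ^ (-(1 / 2 : ℝ))) := by
    refine intervalIntegral.norm_integral_le_of_norm_le hs.le ?_ (hBi.const_mul _)
    have hne : ∀ᵐ r : ℝ, r ≠ s := by
      rw [ae_iff]
      simp
    filter_upwards [hne] with r hrs hmem
    have hrs' : r < s := lt_of_le_of_ne hmem.2 hrs
    have hpw : 0 ≤ (r - t0) ^ (-(1 / 2 : ℝ)) := Real.rpow_nonneg (by linarith [hmem.1]) _
    have hfd := r4_fluxd hV hV2 hp hc hh (hMs r hrs'.le)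
      (hC r hmem.1.le (by linarith)) hBh (β := α * (r - t0) ^ (-(1 / 2 : ℝ)))
      (mul_nonneg hα hpw) k (hyp r hmem.1 (by linarith))
    have h3 := r4_Qdiff h1 hκ1 hh h5 (σ := s - r) (by linarith) (by linarith [hmem.1])
      ((r4_fluxm hc).comp measurable_prodMk_left)
      (fun y => r4_fluxb hV hp hc (hMs r hrs'.le) y) (mul_nonneg (mul_nonneg hα hpw) hc0) x k hfd
    rw [Real.norm_eq_abs]
    calc |Q (s - r) (flux W (ρ r)) (x + k) - Q (s - r) (flux W (ρ r)) x| ≤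
        α * (r - t0) ^ (-(1 / 2 : ℝ)) * c * C5 * (s - r) ^ (-(1 / 2 : ℝ)) * h x := h3
      _ = _ := by ring
  rw [intervalIntegral.integral_const_mul, intervalIntegral.integral_sub i1 i2,
    Real.norm_eq_abs] at b2
  have hpw : 0 ≤ (s - t0) ^ (-(1 / 2 : ℝ)) := Real.rpow_nonneg (by linarith) _
  have hone := r4_one (τ := τ) (s := s - t0) (by linarith) (by linarith)
  have hcoef : 0 ≤ α * c * C5 * h x := by positivity
  have b3 : α * c * C5 * h x * (∫ r in t0..s, (s - r) ^ (-(1 / 2 : ℝ)) *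
      (r - t0) ^ (-(1 / 2 : ℝ))) ≤ α / 2 * (s - t0) ^ (-(1 / 2 : ℝ)) * h x := by
    have e1 := mul_le_mul_of_nonneg_left hB4 hcoef
    have e2 : α * c * C5 * h x * 4 ≤
        α * c * C5 * h x * 4 * (Real.sqrt τ * (s - t0) ^ (-(1 / 2 : ℝ))) :=
      le_mul_of_one_le_right (by positivity) hone
    have e3 : α * c * C5 * h x * 4 * (Real.sqrt τ * (s - t0) ^ (-(1 / 2 : ℝ))) =
        (4 * (C5 * c) * Real.sqrt τ) * (α * (s - t0) ^ (-(1 / 2 : ℝ)) * h x) := by ring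
    have e4 : (4 * (C5 * c) * Real.sqrt τ) * (α * (s - t0) ^ (-(1 / 2 : ℝ)) * h x) ≤
        1 / 2 * (α * (s - t0) ^ (-(1 / 2 : ℝ)) * h x) :=
      mul_le_mul_of_nonneg_right hq (by positivity)
    linarith
  have e0 : ρ s (x + k) - ρ s x = (P (s - t0) (ρ t0) (x + k) - P (s - t0) (ρ t0) x) +
      ((∫ r in t0..s, Q (s - r) (flux W (ρ r)) (x + k)) -
        ∫ r in t0..s, Q (s - r) (flux W (ρ r)) x) := by
    rw [hc.restart t0 s ht0 hs (x + k), hc.restart t0 s ht0 hs x]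
    ring
  rw [e0]
  calc |(P (s - t0) (ρ t0) (x + k) - P (s - t0) (ρ t0) x) +
      ((∫ r in t0..s, Q (s - r) (flux W (ρ r)) (x + k)) -
        ∫ r in t0..s, Q (s - r) (flux W (ρ r)) x)| ≤
      |P (s - t0) (ρ t0) (x + k) - P (s - t0) (ρ t0) x| +
      |(∫ r in t0..s, Q (s - r) (flux W (ρ r)) (x + k)) -
        ∫ r in t0..s, Q (s - r) (flux W (ρ r)) x| := abs_add_le _ _
    _ ≤ Real.exp 1 * C0 * C5 * ‖k‖ * (s - t0) ^ (-(1 / 2 : ℝ)) * h x +
      α / 2 * (s - t0) ^ (-(1 / 2 : ℝ)) * h x := add_le_add b1 (b2.trans b3)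
    _ = _ := by ring

end Sol

theorem itemR4 (h1 : ClaimH1) (h5 : ClaimH5) (hP1 : ClaimP1) (hP3 : ClaimP3) (hPM : ClaimPM)
    (hV : ClaimV1) (hV2 : ClaimV2) (hB : ClaimBeta) : ClaimR4 := by
  intro d A K m κ W h ρ hp hc hκ0 hκ1 hh hdom a T ha
  obtain ⟨C5, hC5, h5'⟩ := h5 d a
  have hexp : R4Exp d a C5 := fun t ht htT => ⟨(h5' t ht htT).2.2.2.1, (h5' t ht htT).2.2.2.2⟩
  obtain ⟨M, hM⟩ := hc.bdd T
  obtain ⟨C0, hC⟩ := hdom (a / 2) T (by positivity)
  obtain ⟨Bh, hBh⟩ := hh.bdd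
  by_cases haT : a ≤ T
  swap
  · exact ⟨0, fun t hat htT => absurd (hat.trans htT) haT⟩
  have hC0 : 0 ≤ C0 := by
    have e1 := (hc.nonneg T 0).trans (hC T (by linarith) le_rfl 0)
    exact nonneg_of_mul_nonneg_left e1 (hh.pos 0)
  have hM0 : 0 ≤ M := (hc.nonneg T 0).trans (hM T le_rfl 0)
  have hBh0 : 0 ≤ Bh := (hh.pos 0).le.trans (hBh 0)
  have hKp := hp.K_pos
  set c := C5 * (K * M + C0 * K * Bh) with hcdef
  have hc0 : 0 ≤ c := by positivity
  set q := 8 * c + 1 with hqdef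
  have hq0 : 0 < q := by positivity
  set τ := min (a / 2) ((1 / q) ^ 2) with hτdef
  have hτ0 : 0 < τ := lt_min (by positivity) (by positivity)
  have hτa : τ ≤ a / 2 := min_le_left _ _
  have hsτ : Real.sqrt τ ≤ 1 / q := by
    have e1 : Real.sqrt τ ≤ Real.sqrt ((1 / q) ^ 2) := Real.sqrt_le_sqrt (min_le_right _ _)
    rwa [Real.sqrt_sq (by positivity)] at e1
  have hq : 4 * c * Real.sqrt τ ≤ 1 / 2 := by
    have e1 : 4 * c * Real.sqrt τ ≤ 4 * c * (1 / q) := mul_le_mul_of_nonneg_left hsτ (by positivity)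
    have e2 : 4 * c * (1 / q) ≤ 1 / 2 := by
      rw [mul_one_div, div_le_div_iff₀ hq0 (by norm_num)]
      rw [hqdef]
      linarith
    exact e1.trans e2
  set N0 := Real.exp 1 * C0 * C5 with hN0def
  have hN0 : 0 ≤ N0 := by positivity
  refine ⟨2 * N0 * τ ^ (-(1 / 2 : ℝ)), fun t hat htT k x hk => ?_⟩
  set t0 := t - τ with ht0def
  have ht0a : a / 2 ≤ t0 := by rw [ht0def]; linarith
  have ht0τ : t0 + τ = t := by rw [ht0def]; ring
  have hMt : ∀ r, r ≤ t0 + τ → ∀ y, |ρ r y| ≤ M := by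
    intro r hr y
    rw [abs_of_nonneg (hc.nonneg r y)]
    exact hM r (by linarith) y
  have hCt : ∀ r, t0 ≤ r → r ≤ t0 + τ → ∀ y, ρ r y ≤ C0 * h y := fun r hr hr2 y =>
    hC r (by linarith) (by linarith) y
  set α0 := C0 * (Real.exp 1 + 1) * Real.sqrt τ with hα0def
  have hα0 : 0 ≤ α0 := by positivity
  have key : ∀ n : ℕ, ∀ s, t0 < s → s ≤ t0 + τ → ∀ x,
      |ρ s (x + k) - ρ s x| ≤
        (2 * N0 * ‖k‖ + α0 / 2 ^ n) * (s - t0) ^ (-(1 / 2 : ℝ)) * h x := by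
    intro n
    induction n with
    | zero =>
      intro s hs hsτ' y
      have e1 := hCt s hs.le hsτ' y
      have e2 := hCt s hs.le hsτ' (y + k)
      have e3 := r4_harnack1 hκ1 hh y k hk
      have e4 : C0 * h (y + k) ≤ C0 * (Real.exp 1 * h y) := mul_le_mul_of_nonneg_left e3 hC0
      have e5 : |ρ s (y + k) - ρ s y| ≤ C0 * (Real.exp 1 + 1) * h y := by
        rw [abs_le]
        have p1 := hc.nonneg s y
        have p2 := hc.nonneg s (y + k)
        have p3 : 0 ≤ C0 * h y := mul_nonneg hC0 (hh.pos y).le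
        have p4 : 0 ≤ C0 * (Real.exp 1 * h y) :=
          mul_nonneg hC0 (mul_nonneg (Real.exp_pos _).le (hh.pos y).le)
        constructor <;> nlinarith
      have hone := r4_one (τ := τ) (s := s - t0) (by linarith) (by linarith)
      have hpw : 0 ≤ (s - t0) ^ (-(1 / 2 : ℝ)) := Real.rpow_nonneg (by linarith) _
      have hhy := hh.pos y
      have e6 : C0 * (Real.exp 1 + 1) * h y ≤ C0 * (Real.exp 1 + 1) * h y *
          (Real.sqrt τ * (s - t0) ^ (-(1 / 2 : ℝ))) :=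
        le_mul_of_one_le_right (by positivity) hone
      have e7 : 0 ≤ 2 * N0 * ‖k‖ * (s - t0) ^ (-(1 / 2 : ℝ)) * h y := by positivity
      rw [pow_zero, div_one, hα0def]
      calc |ρ s (y + k) - ρ s y| ≤ C0 * (Real.exp 1 + 1) * h y := e5
        _ ≤ _ := e6
        _ ≤ 2 * N0 * ‖k‖ * (s - t0) ^ (-(1 / 2 : ℝ)) * h y + C0 * (Real.exp 1 + 1) * h y *
          (Real.sqrt τ * (s - t0) ^ (-(1 / 2 : ℝ))) := le_add_of_nonneg_left e7
        _ = _ := by ring
    | succ n ih =>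
      have hα : 0 ≤ 2 * N0 * ‖k‖ + α0 / 2 ^ n := by positivity
      have h6 := r4_step h1 hP1 hP3 hPM hV hV2 hB hp hc hκ0 hκ1 hh hexp hC5.le
        (by linarith : (0 : ℝ) ≤ t0) (by linarith : τ ≤ a) hMt hC0 hCt hBh hα k hk hq ih
      intro s hs hsτ' y
      have h7 := h6 s hs hsτ' y
      have e1 : Real.exp 1 * C0 * C5 * ‖k‖ + (2 * N0 * ‖k‖ + α0 / 2 ^ n) / 2 =
          2 * N0 * ‖k‖ + α0 / 2 ^ (n + 1) := by
        rw [hN0def, pow_succ]
        field_simp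
        ring
      rw [e1] at h7
      exact h7
  have hlim : Tendsto (fun n : ℕ => (2 * N0 * ‖k‖ + α0 / 2 ^ n) *
      (t - t0) ^ (-(1 / 2 : ℝ)) * h x) atTop
      (𝓝 ((2 * N0 * ‖k‖ + 0) * (t - t0) ^ (-(1 / 2 : ℝ)) * h x)) := by
    refine ((tendsto_const_nhds.add ?_).mul_const _).mul_const _
    have h7 : Tendsto (fun n : ℕ => α0 * (1 / 2 : ℝ) ^ n) atTop (𝓝 (α0 * 0)) :=
      (tendsto_pow_atTop_nhds_zero_of_lt_one (by norm_num) (by norm_num)).const_mul α0
    rw [mul_zero] at h7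
    refine h7.congr fun n => ?_
    rw [one_div, inv_pow]
    rfl
  have hfin := ge_of_tendsto' hlim fun n => key n t (by linarith) (by linarith) x
  have e8 : t - t0 = τ := by rw [ht0def]; ring
  rw [e8, add_zero] at hfin
  calc |ρ t (x + k) - ρ t x| ≤ 2 * N0 * ‖k‖ * τ ^ (-(1 / 2 : ℝ)) * h x := hfin
    _ = _ := by ring

end Pool.Agent.Work.MP_9371de_an

end

section

open MeasureTheory Set Filter Topology
open scoped Real InnerProductSpace

namespace Pool.Agent.Work.MP_9371de_an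

theorem heat_mul (d : ℕ) (s t : ℝ) (hs : 0 < s) (ht : 0 < t) (x y : E d) :
    heat d s (x - y) * heat d t y =
      heat d (s + t) x * heat d (s * t / (s + t)) (y - (t / (s + t)) • x) := by
  have hst : 0 < s + t := by positivity
  rw [heat_eq, heat_eq, heat_eq, heat_eq]
  have h1 : (4 * π * s) ^ (-(d : ℝ) / 2) * (4 * π * t) ^ (-(d : ℝ) / 2) =
      (4 * π * (s + t)) ^ (-(d : ℝ) / 2) * (4 * π * (s * t / (s + t))) ^ (-(d : ℝ) / 2) := by
    rw [← Real.mul_rpow (by positivity) (by positivity),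
      ← Real.mul_rpow (by positivity) (by positivity)]
    congr 1
    field_simp
  have h2 : Real.exp (-(1 / (4 * s)) * ‖x - y‖ ^ 2) * Real.exp (-(1 / (4 * t)) * ‖y‖ ^ 2) =
      Real.exp (-(1 / (4 * (s + t))) * ‖x‖ ^ 2) *
        Real.exp (-(1 / (4 * (s * t / (s + t)))) * ‖y - (t / (s + t)) • x‖ ^ 2) := by
    rw [← Real.exp_add, ← Real.exp_add]
    congr 1
    rw [norm_sub_sq_real, norm_sub_sq_real, norm_smul, real_inner_smul_right, real_inner_comm y x,
      Real.norm_eq_abs, mul_pow, sq_abs]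
    field_simp
    ring
  calc _ = ((4 * π * s) ^ (-(d : ℝ) / 2) * (4 * π * t) ^ (-(d : ℝ) / 2)) *
        (Real.exp (-(1 / (4 * s)) * ‖x - y‖ ^ 2) * Real.exp (-(1 / (4 * t)) * ‖y‖ ^ 2)) := by ring
    _ = _ := by rw [h1, h2]; ring

theorem heat_smul_integrable (d : ℕ) (t : ℝ) (ht : 0 < t) :
    Integrable (fun y : E d => heat d t y • y) := by
  have hcont : Continuous (heat d t) := (itemH1 d t ht).2.1
  refine (heat_norm_integrable d t ht).mono' (by fun_prop) (Eventually.of_forall fun y => ?_)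
  have hpos : 0 ≤ heat d t y := ((itemH1 d t ht).1 y).le
  rw [norm_smul, Real.norm_eq_abs, abs_of_nonneg hpos]

theorem heat_first_moment (d : ℕ) (t : ℝ) (ht : 0 < t) :
    ∫ y : E d, heat d t y • y = 0 := by
  have h1 : ∫ y : E d, heat d t y • y = -∫ y : E d, heat d t y • y := by
    conv_lhs => rw [← integral_neg_eq_self]
    rw [← integral_neg]
    congr 1
    funext y
    rw [(itemH1 d t ht).2.2.2.2.2.1, smul_neg]
  generalize (∫ y : E d, heat d t y • y) = v at h1 ⊢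
  have h2 : (2 : ℝ) • v = 0 := by
    rw [two_smul]
    nth_rewrite 1 [h1]
    exact neg_add_cancel v
  exact (smul_eq_zero.mp h2).resolve_left (by norm_num)

theorem itemH3 : ClaimH3 := by
  intro d s t hs ht x
  have hst : 0 < s + t := by positivity
  have hr : 0 < s * t / (s + t) := by positivity
  constructor
  · simp_rw [heat_mul d s t hs ht]
    rw [integral_const_mul, integral_sub_right_eq_self (fun y => heat d (s * t / (s + t)) y),
      (itemH1 d _ hr).2.2.2.1, mul_one]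
  · have h1 : ∀ y : E d, heat d s (x - y) • gheat d t y =
        (-(1 / (2 * t)) * heat d (s + t) x) •
          (heat d (s * t / (s + t)) (y - (t / (s + t)) • x) • y) := by
      intro y
      unfold gheat
      rw [smul_smul, smul_smul]
      congr 1
      have := heat_mul d s t hs ht x y
      calc heat d s (x - y) * (-heat d t y / (2 * t)) =
          -(1 / (2 * t)) * (heat d s (x - y) * heat d t y) := by ring
        _ = _ := by rw [this]; ring
    simp_rw [h1]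
    rw [integral_smul]
    have h2 : ∫ y : E d, heat d (s * t / (s + t)) (y - (t / (s + t)) • x) • y =
        (t / (s + t)) • x := by
      have e1 : (fun y : E d => heat d (s * t / (s + t)) (y - (t / (s + t)) • x) • y) =
          fun y : E d => (fun z : E d => heat d (s * t / (s + t)) z • (z + (t / (s + t)) • x))
            (y - (t / (s + t)) • x) := by
        funext y
        simp
      rw [e1, integral_sub_right_eq_self
        (fun z : E d => heat d (s * t / (s + t)) z • (z + (t / (s + t)) • x))]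
      simp_rw [smul_add]
      rw [integral_add (heat_smul_integrable d _ hr), heat_first_moment d _ hr, zero_add,
        integral_smul_const, (itemH1 d _ hr).2.2.2.1, one_smul]
      exact (itemH1 d _ hr).2.2.1.smul_const _
    rw [h2, smul_smul]
    unfold gheat
    congr 1
    field_simp

end Pool.Agent.Work.MP_9371de_an

end
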